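import Mathlib

namespace H14.Bond

variable {V : Type*} [Fintype V]

/-- `S` is a dominating set of `G`: every vertex outside `S` has a neighbour in `S`. -/
def Dominating (G : SimpleGraph V) (S : Finset V) : Prop :=
  ∀ v, v ∉ S → ∃ u ∈ S, G.Adj u v

/-- The domination number: the minimum size of a dominating set. -/
noncomputable def domNumber (G : SimpleGraph V) : ℕ :=
  sInf {k | ∃ S : Finset V, S.card = k ∧ Dominating G S}

/-- The bondage number: the minimum size of a set `F` of edges with `γ(G - F) > γ(G)`. -/
noncomputable def bondage (G : SimpleGraph V) : ℕ :=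
  sInf {k | ∃ F : Finset (Sym2 V), (F : Set (Sym2 V)) ⊆ G.edgeSet ∧ F.card = k ∧
    domNumber G < domNumber (G.deleteEdges (F : Set (Sym2 V)))}

/-- The vertex connectivity: the minimum size of a set `S` of vertices such that `G - S` is
disconnected or has at most one vertex. -/
noncomputable def kappa (G : SimpleGraph V) : ℕ :=
  sInf {k | ∃ S : Finset V, S.card = k ∧
    (¬ (G.induce {v | v ∉ S}).Connected ∨ Fintype.card V ≤ S.card + 1)}

end H14.Bond
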