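import Mathlib
import Pool.Agent.H14.BondDefs

namespace H14.Bond

/-! ### bit-mask computations -/

/-- the neighbours of `x` in the mask `ad`, intersected with the mask `s` -/
def rw' (ad s x : Nat) : Nat := (ad >>> (17 * x)) &&& s

def pop (e : Nat) : Nat → Nat
  | 0 => 0
  | k + 1 => pop e k + (if e.testBit k then 1 else 0)

def msk (x e : Nat) : Nat → Nat
  | 0 => 0
  | k + 1 => if e.testBit k then (msk x e k) ||| ((2 ^ (17 * x + k)) ||| (2 ^ (17 * k + x)))
      else msk x e k

def clear (ad m : Nat) : Nat := ad ^^^ (ad &&& m)

def surv (ad s : Nat) : Bool :=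
  (List.range 17).all fun x => s.testBit x || (rw' ad s x != 0)

def check (sets : List Nat) : Nat → Nat → Nat → Bool
  | 0, _, _ => false
  | fuel + 1, ad, b =>
    match sets.find? (surv ad) with
    | none => false
    | some s => (List.range 17).all fun x =>
        s.testBit x || (decide (b < pop (rw' ad s x) 17) ||
          check sets fuel (clear ad (msk x (rw' ad s x) 17)) (b - pop (rw' ad s x) 17))

theorem rw'_testBit (ad s x y : Nat) :
    (rw' ad s x).testBit y = (ad.testBit (17 * x + y) && s.testBit y) := by
  simp [rw', Nat.testBit_and, Nat.testBit_shiftRight]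

theorem pop_eq (e k : Nat) : pop e k = ((Finset.range k).filter (fun y => e.testBit y = true)).card := by
  induction k with
  | zero => simp [pop]
  | succ k ih =>
    rw [pop, Finset.range_add_one, Finset.filter_insert]
    split_ifs with h
    · rw [Finset.card_insert_of_notMem (by simp), ih]
    · rw [ih]; rfl

theorem msk_bits (x e : Nat) : ∀ k y, y < k → e.testBit y = true →
    (msk x e k).testBit (17 * x + y) = true ∧ (msk x e k).testBit (17 * y + x) = true := by
  intro k
  induction k with
  | zero => intro y hy; omega
  | succ k ih =>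
    intro y hy he
    rw [msk]
    rcases Nat.lt_succ_iff_lt_or_eq.mp hy with h | h
    · obtain ⟨h1, h2⟩ := ih y h he
      split_ifs
      · simp [Nat.testBit_or, h1, h2]
      · exact ⟨h1, h2⟩
    · subst h
      rw [if_pos he]
      simp [Nat.testBit_or, Nat.testBit_two_pow]

theorem clear_testBit (ad m i : Nat) :
    (clear ad m).testBit i = (ad.testBit i && !(m.testBit i)) := by
  rw [clear, Nat.testBit_xor, Nat.testBit_and]
  cases ad.testBit i <;> cases m.testBit i <;> rfl

/-- `s` dominates the graph of the mask `ad` minus the edges in `F` -/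
def DomF (ad : Nat) (F : Finset (Sym2 (Fin 17))) (s : Nat) : Prop :=
  ∀ x : Fin 17, s.testBit x = true ∨
    ∃ y : Fin 17, s.testBit y = true ∧ ad.testBit (17 * x + y) = true ∧ s(x, y) ∉ F

open Classical in
noncomputable def cF (ad : Nat) (F : Finset (Sym2 (Fin 17))) : Finset (Sym2 (Fin 17)) :=
  F.filter (fun e => ∃ x y : Fin 17, e = s(x, y) ∧ ad.testBit (17 * (x : ℕ) + y) = true)

theorem check_sound (sets : List Nat) : ∀ fuel ad b, check sets fuel ad b = true →
    ∀ F : Finset (Sym2 (Fin 17)), (cF ad F).card ≤ b → ∃ s ∈ sets, DomF ad F s := by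
  classical
  intro fuel
  induction fuel with
  | zero => intro ad b h; simp [check] at h
  | succ fuel ih =>
    intro ad b h F hF
    rw [check] at h
    split at h
    · simp at h
    rename_i s hs
    have hmem : s ∈ sets := List.mem_of_find?_eq_some hs
    by_cases hd : DomF ad F s
    · exact ⟨s, hmem, hd⟩
    rw [DomF] at hd
    push Not at hd
    obtain ⟨x, hx1, hx2⟩ := hd
    rw [List.all_eq_true] at h
    have hx := h (x : ℕ) (List.mem_range.mpr x.2)
    have hx1' : s.testBit (x : ℕ) = false := by simpa using hx1
    rw [hx1', Bool.false_or] at hx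
    set e := rw' ad s x with he
    set c := pop e 17 with hc
    have hcard : c = ((Finset.univ : Finset (Fin 17)).filter
        (fun y : Fin 17 => e.testBit (y : ℕ) = true)).card := by
      rw [hc, pop_eq]
      have h1 : (Finset.range 17) = (Finset.univ : Finset (Fin 17)).map Fin.valEmbedding := by
        rw [← Nat.Iio_eq_range]; exact (Fin.map_valEmbedding_univ (n := 17)).symm
      rw [h1, Finset.filter_map, Finset.card_map]
      rfl
    -- the edges from x to s all lie in F
    set Y := (Finset.univ : Finset (Fin 17)).filter (fun y : Fin 17 => e.testBit (y : ℕ) = true)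
      with hY
    have hYspec : ∀ y ∈ Y, s.testBit (y : ℕ) = true ∧ ad.testBit (17 * (x : ℕ) + y) = true ∧
        s(x, y) ∈ F := by
      intro y hy
      rw [hY, Finset.mem_filter, he, rw'_testBit, Bool.and_eq_true] at hy
      exact ⟨hy.2.2, hy.2.1, hx2 y hy.2.2 hy.2.1⟩
    set I := Y.image (fun y => s(x, y)) with hI
    have hIcard : I.card = c := by
      rw [hI, hcard]
      apply Finset.card_image_of_injective
      intro a b' hab
      exact Sym2.congr_right.mp hab
    have hIsub : I ⊆ cF ad F := by
      intro e' he'
      rw [hI, Finset.mem_image] at he'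
      obtain ⟨y, hy, rfl⟩ := he'
      obtain ⟨-, h2, h3⟩ := hYspec y hy
      rw [cF, Finset.mem_filter]
      exact ⟨h3, x, y, rfl, h2⟩
    have hcb : ¬ b < c := by
      have := Finset.card_le_card hIsub
      omega
    have hdec : decide (b < c) = false := by simpa using hcb
    rw [hdec, Bool.false_or] at hx
    set ad' := clear ad (msk x e 17) with had'
    have hsub : cF ad' F ⊆ cF ad F \ I := by
      intro e' he'
      rw [cF, Finset.mem_filter] at he'
      obtain ⟨heF, a, b', rfl, hab⟩ := he'
      rw [had', clear_testBit, Bool.and_eq_true] at hab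
      rw [Finset.mem_sdiff]
      constructor
      · rw [cF, Finset.mem_filter]
        exact ⟨heF, a, b', rfl, hab.1⟩
      · intro hmemI
        rw [hI, Finset.mem_image] at hmemI
        obtain ⟨y, hy, hyy⟩ := hmemI
        rw [hY, Finset.mem_filter] at hy
        have hm := msk_bits x e 17 y y.2 hy.2
        have hnot := hab.2
        rw [Sym2.eq_iff] at hyy
        rcases hyy with ⟨rfl, rfl⟩ | ⟨h1, h2⟩
        · rw [hm.1] at hnot; simp at hnot
        · subst h1; subst h2
          rw [hm.2] at hnot; simp at hnot
    have hcard' : (cF ad' F).card ≤ b - c := by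
      have h1 := Finset.card_le_card hsub
      rw [Finset.card_sdiff_of_subset hIsub, hIcard] at h1
      omega
    obtain ⟨s', hs', hd'⟩ := ih ad' (b - c) hx F hcard'
    refine ⟨s', hs', fun z => ?_⟩
    rcases hd' z with h1 | ⟨y, h1, h2, h3⟩
    · exact Or.inl h1
    · right
      rw [had', clear_testBit, Bool.and_eq_true] at h2
      exact ⟨y, h1, h2.1, h3⟩

/-! ### lower bounds for dominating sets -/

/-- no dominating set of size `k` extends coverage `C` -/
def noDom (ad : Nat) : Nat → Nat → Bool
  | 0, C => (List.range 17).any fun v => !(C.testBit v)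
  | k + 1, C =>
    match (List.range 17).find? (fun v => !(C.testBit v)) with
    | none => false
    | some v => (List.range 17).all fun u =>
        !((ad.testBit (17 * v + u)) || u == v) ||
          noDom ad k (C ||| (((ad >>> (17 * u)) &&& 131071) ||| 2 ^ u))

theorem noDom_sound (ad : Nat) (hsymm : ∀ x y : Fin 17,
    ad.testBit (17 * (x : ℕ) + y) = ad.testBit (17 * (y : ℕ) + x)) :
    ∀ k C, noDom ad k C = true → ∀ S : Finset (Fin 17), S.card ≤ k →
      ∃ v : Fin 17, C.testBit v = false ∧ v ∉ S ∧ ∀ u ∈ S, ad.testBit (17 * (u : ℕ) + v) = false := by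
  classical
  intro k
  induction k with
  | zero =>
    intro C h S hS
    have : S = ∅ := Finset.card_eq_zero.mp (by omega)
    subst this
    rw [noDom, List.any_eq_true] at h
    obtain ⟨v, hv, hv2⟩ := h
    refine ⟨⟨v, List.mem_range.mp hv⟩, by simpa using hv2, by simp, by simp⟩
  | succ k ih =>
    intro C h S hS
    rw [noDom] at h
    split at h
    · simp at h
    rename_i v hv
    have hvC : C.testBit v = false := by
      have := List.find?_some hv
      simpa using this
    have hv17 : v < 17 := List.mem_range.mp (List.mem_of_find?_eq_some hv)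
    by_cases hdom : ∃ u ∈ S, (ad.testBit (17 * (u : ℕ) + v) = true ∨ (u : ℕ) = v)
    · obtain ⟨u, huS, hu⟩ := hdom
      rw [List.all_eq_true] at h
      have hu' := h (u : ℕ) (List.mem_range.mpr u.2)
      have hcond : ((ad.testBit (17 * v + (u : ℕ))) || (u : ℕ) == v) = true := by
        rcases hu with hu | hu
        · have := hsymm u ⟨v, hv17⟩
          simp only at this
          rw [← this, hu]; rfl
        · simp [hu]
      rw [hcond] at hu'
      simp only [Bool.not_true, Bool.false_or] at hu'
      have hcard : (S.erase u).card ≤ k := by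
        rw [Finset.card_erase_of_mem huS]; omega
      obtain ⟨w, hw1, hw2, hw3⟩ := ih _ hu' (S.erase u) hcard
      rw [Nat.testBit_or, Nat.testBit_or, Nat.testBit_and, Nat.testBit_shiftRight] at hw1
      simp only [Bool.or_eq_false_iff, Bool.and_eq_false_iff] at hw1
      obtain ⟨hwC, hwa, hwu⟩ := hw1
      have hwne : w ≠ u := by
        rintro rfl
        rw [Nat.testBit_two_pow_self] at hwu
        exact Bool.noConfusion hwu
      have hfull : (131071 : ℕ).testBit (w : ℕ) = true := by
        have : ∀ i : Fin 17, (131071 : ℕ).testBit (i : ℕ) = true := by decide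
        exact this w
      rw [hfull] at hwa
      refine ⟨w, hwC, fun hwS => hw2 (Finset.mem_erase.mpr ⟨hwne, hwS⟩), ?_⟩
      intro u' hu'S
      by_cases huu : u' = u
      · subst huu
        rcases hwa with h1 | h1
        · exact h1
        · exact Bool.noConfusion h1
      · exact hw3 u' (Finset.mem_erase.mpr ⟨huu, hu'S⟩)
    · push Not at hdom
      refine ⟨⟨v, hv17⟩, hvC, ?_, ?_⟩
      · intro hmem
        exact (hdom _ hmem).2 rfl
      · intro u hu
        have := (hdom u hu).1
        simpa using this


/-! ### the graph -/

def big : Nat := 466244980585230167528890715185690575626482939070034008657344722054448335121643841127942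
def big2 : Nat := 466244980585230167528890715185690575626482937676237433668051137196460416647331608397314

def setsL : List Nat := [37009, 67336, 67846, 67657, 36916, 49345, 66193, 41616, 12549, 66313, 18626,
  10310, 49736, 9768, 13576]

theorem check_big : check setsL 6 big 4 = true := by decide +kernel

theorem noDom_big : noDom big 4 0 = true := by decide +kernel

theorem noDom_big2 : noDom big2 5 0 = true := by decide +kernel

end H14.Bond
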