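import Mathlib
import Pool.Agent.H14.BondProof

namespace H14.Bond

/-- the graph with 17 vertices -/
def G17 : SimpleGraph (Fin 17) where
  Adj x y := big.testBit (17 * (x : ℕ) + y) = true
  symm := by
    have h : ∀ x y : Fin 17, big.testBit (17 * (x : ℕ) + y) = true →
      big.testBit (17 * (y : ℕ) + x) = true := by decide +kernel
    exact ⟨fun x y => h x y⟩
  loopless := ⟨by
    have h : ∀ x : Fin 17, ¬ big.testBit (17 * (x : ℕ) + x) = true := by decide +kernel
    exact h⟩

instance : DecidableRel G17.Adj := fun x y =>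
  inferInstanceAs (Decidable (big.testBit (17 * (x : ℕ) + y) = true))

theorem adj_iff (x y : Fin 17) : G17.Adj x y ↔ big.testBit (17 * (x : ℕ) + y) = true := Iff.rfl

theorem symm_big : ∀ x y : Fin 17,
    big.testBit (17 * (x : ℕ) + y) = big.testBit (17 * (y : ℕ) + x) := by decide +kernel
theorem symm_big2 : ∀ x y : Fin 17,
    big2.testBit (17 * (x : ℕ) + y) = big2.testBit (17 * (y : ℕ) + x) := by decide +kernel

theorem degree_eq : ∀ v : Fin 17, G17.degree v = 4 := by decide +kernel

theorem maxDeg : G17.maxDegree = 4 := by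
  apply le_antisymm
  · exact G17.maxDegree_le_of_forall_degree_le 4 (fun v => (degree_eq v).le)
  · rw [← degree_eq 0]; exact G17.degree_le_maxDegree 0

/-- the vertex set of a mask -/
def ofMask (s : ℕ) : Finset (Fin 17) := Finset.univ.filter (fun v : Fin 17 => s.testBit (v : ℕ) = true)

theorem mem_ofMask (s : ℕ) (v : Fin 17) : v ∈ ofMask s ↔ s.testBit (v : ℕ) = true := by
  simp [ofMask]

theorem card_sets : ∀ s ∈ setsL, (ofMask s).card = 5 := by decide +kernel

theorem dom_of_DomF {F : Finset (Sym2 (Fin 17))} {s : ℕ} (h : DomF big F s) :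
    Dominating (G17.deleteEdges (F : Set (Sym2 (Fin 17)))) (ofMask s) := by
  intro v hv
  rw [mem_ofMask] at hv
  rcases h v with h1 | ⟨y, h1, h2, h3⟩
  · exact absurd h1 hv
  · refine ⟨y, (mem_ofMask s y).mpr h1, ?_⟩
    rw [SimpleGraph.deleteEdges_adj]
    refine ⟨?_, ?_⟩
    · rw [adj_iff, ← symm_big]; exact h2
    · rw [Sym2.eq_swap]; exact_mod_cast h3

theorem upper (F : Finset (Sym2 (Fin 17))) (hF : F.card ≤ 4) :
    domNumber (G17.deleteEdges (F : Set (Sym2 (Fin 17)))) ≤ 5 := by
  obtain ⟨s, hs, hd⟩ := check_sound setsL 6 big 4 check_big F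
    ((Finset.card_le_card (Finset.filter_subset _ _)).trans hF)
  exact Nat.sInf_le ⟨ofMask s, card_sets s hs, dom_of_DomF hd⟩

theorem lower_of_noDom {G : SimpleGraph (Fin 17)} {ad k : ℕ}
    (hG : ∀ x y : Fin 17, G.Adj x y → ad.testBit (17 * (x : ℕ) + y) = true)
    (hsymm : ∀ x y : Fin 17, ad.testBit (17 * (x : ℕ) + y) = ad.testBit (17 * (y : ℕ) + x))
    (h : noDom ad k 0 = true) : k < domNumber G := by
  have hne : {k | ∃ S : Finset (Fin 17), S.card = k ∧ Dominating G S}.Nonempty :=
    ⟨17, Finset.univ, by simp, fun v hv => absurd (Finset.mem_univ v) hv⟩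
  obtain ⟨S, hS, hd⟩ := Nat.sInf_mem hne
  by_contra hcon
  push Not at hcon
  have hS' : S.card ≤ k := by rw [hS]; exact hcon
  obtain ⟨v, -, hv, hv2⟩ := noDom_sound ad hsymm k 0 h S hS'
  obtain ⟨u, hu, hadj⟩ := hd v hv
  have := hv2 u hu
  rw [hG u v hadj] at this
  exact Bool.noConfusion this

theorem gamma_eq : domNumber G17 = 5 := by
  apply le_antisymm
  · have := upper ∅ (by simp)
    simpa using this
  · exact lower_of_noDom (fun x y h => h) symm_big noDom_big

def F5 : Finset (Sym2 (Fin 17)) := {s(3, 4), s(4, 6), s(4, 8), s(1, 4), s(0, 2)}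

theorem F5_card : F5.card = 5 := by decide +kernel

theorem F5_sub : (F5 : Set (Sym2 (Fin 17))) ⊆ G17.edgeSet := by
  intro e he
  rw [F5] at he
  simp only [Finset.coe_insert, Finset.coe_singleton, Set.mem_insert_iff,
    Set.mem_singleton_iff] at he
  rcases he with rfl | rfl | rfl | rfl | rfl <;>
  · rw [SimpleGraph.mem_edgeSet, adj_iff]
    decide +kernel

theorem F5_adj : ∀ x y : Fin 17, big.testBit (17 * (x : ℕ) + y) = true ∧ s(x, y) ∉ F5 →
    big2.testBit (17 * (x : ℕ) + y) = true := by decide +kernel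

theorem bond_set_nonempty : 5 ∈ {k | ∃ F : Finset (Sym2 (Fin 17)),
    (F : Set (Sym2 (Fin 17))) ⊆ G17.edgeSet ∧ F.card = k ∧
    domNumber G17 < domNumber (G17.deleteEdges (F : Set (Sym2 (Fin 17))))} := by
  refine ⟨F5, F5_sub, F5_card, ?_⟩
  rw [gamma_eq]
  refine lower_of_noDom (ad := big2) ?_ symm_big2 noDom_big2
  intro x y h
  rw [SimpleGraph.deleteEdges_adj] at h
  exact F5_adj x y ⟨h.1, by exact_mod_cast h.2⟩

theorem bondage_eq : bondage G17 = 5 := by
  apply le_antisymm
  · exact Nat.sInf_le bond_set_nonempty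
  · obtain ⟨F, -, hF, hlt⟩ := Nat.sInf_mem ⟨5, bond_set_nonempty⟩
    by_contra hcon
    push Not at hcon
    have h4 : F.card ≤ 4 := by
      rw [hF]
      show bondage G17 ≤ 4
      omega
    have := upper F h4
    rw [gamma_eq] at hlt
    omega

theorem connected : G17.Connected := by
  have key : ∀ n : ℕ, ∀ v : Fin 17, (v : ℕ) ≤ n → G17.Reachable 0 v := by
    have hstep : ∀ v : Fin 17, v ≠ 0 → ∃ u : Fin 17, u < v ∧
        big.testBit (17 * (u : ℕ) + v) = true := by decide +kernel
    intro n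
    induction n with
    | zero =>
      intro v hv
      have : v = 0 := Fin.ext (by simpa using hv)
      rw [this]
    | succ n ih =>
      intro v hv
      by_cases h0 : v = 0
      · rw [h0]
      obtain ⟨u, hu, hadj⟩ := hstep v h0
      have hlt : (u : ℕ) < v := hu
      exact (ih u (by omega)).trans (SimpleGraph.Adj.reachable (hadj : G17.Adj u v))
  refine ⟨fun a b => ?_⟩
  exact (key 17 a (by omega)).symm.trans (key 17 b (by omega))

theorem kappa_eq : kappa G17 = 1 := by
  have hsep : ∀ x y : Fin 17, x ≠ 0 → y ≠ 0 → big.testBit (17 * (x : ℕ) + y) = true →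
      (x : ℕ) ≤ 8 → (y : ℕ) ≤ 8 := by decide +kernel
  have h1 : 1 ∈ {k | ∃ S : Finset (Fin 17), S.card = k ∧
      (¬ (G17.induce {v | v ∉ S}).Connected ∨ Fintype.card (Fin 17) ≤ S.card + 1)} := by
    refine ⟨{0}, by simp, Or.inl ?_⟩
    intro hc
    have hm1 : (1 : Fin 17) ∈ {v : Fin 17 | v ∉ ({0} : Finset (Fin 17))} := by simp
    have hm2 : (9 : Fin 17) ∈ {v : Fin 17 | v ∉ ({0} : Finset (Fin 17))} := by
      simp only [Set.mem_ofPred_eq, Finset.mem_singleton]
      decide
    obtain ⟨w⟩ := hc.preconnected ⟨1, hm1⟩ ⟨9, hm2⟩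
    have hinv : ∀ (a b : {v : Fin 17 // v ∈ {v : Fin 17 | v ∉ ({0} : Finset (Fin 17))}})
        (w : (G17.induce {v | v ∉ ({0} : Finset (Fin 17))}).Walk a b),
        (a : Fin 17).val ≤ 8 → (b : Fin 17).val ≤ 8 := by
      intro a b w
      induction w with
      | nil => exact id
      | @cons u v w' hadj p ih =>
        intro hu
        apply ih
        refine hsep u v ?_ ?_ hadj hu
        · have := u.2; simpa using this
        · have := v.2; simpa using this
    have := hinv _ _ w (by simp)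
    simp at this
  apply le_antisymm
  · exact Nat.sInf_le h1
  · by_contra hcon
    have h0 : kappa G17 = 0 := by omega
    have hmem := Nat.sInf_mem ⟨1, h1⟩
    change kappa G17 ∈ _ at hmem
    rw [h0] at hmem
    obtain ⟨S, hS, hor⟩ := hmem
    have hS0 : S = ∅ := Finset.card_eq_zero.mp hS
    subst hS0
    rcases hor with h | h
    · apply h
      have hset : {v : Fin 17 | v ∉ (∅ : Finset (Fin 17))} = Set.univ := by ext; simp
      rw [hset]
      exact (SimpleGraph.induceUnivIso G17).connected_iff.mpr connected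
    · simp at h

end H14.Bond
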