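import Mathlib

open MeasureTheory intervalIntegral

namespace Pool.Agent.H14.Cayley

noncomputable section

/-- smooth second derivative test -/
theorem vdc {a b : ℝ} (hab : a ≤ b) (c : ℂ) (hc : c = Complex.I ∨ c = -Complex.I) (θ θ₁ θ₂ : ℝ → ℝ)
    (h1 : ∀ x ∈ Set.Icc a b, HasDerivAt θ (θ₁ x) x) (h2 : ∀ x ∈ Set.Icc a b, HasDerivAt θ₁ (θ₂ x) x)
    (h3 : ContinuousOn θ₂ (Set.Icc a b)) {lam : ℝ} (hl : 0 < lam) (h4 : ∀ x ∈ Set.Icc a b, lam ≤ θ₂ x) :
    ‖∫ x in a..b, Complex.exp (c * θ x)‖ ≤ (1 + 2 * Real.pi) / √lam := by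
  set μ := √lam with hμ
  have hμ0 : 0 < μ := Real.sqrt_pos.mpr hl
  have hμ2 : μ ^ 2 = lam := Real.sq_sqrt hl.le
  have hcn : ‖c‖ = 1 := by rcases hc with h | h <;> simp [h]
  have hc0 : c ≠ 0 := by intro h; rw [h] at hcn; simp at hcn
  have hexp : ∀ r : ℝ, ‖Complex.exp (c * r)‖ = 1 := by
    intro r
    rw [Complex.norm_exp]
    rcases hc with h | h <;> simp [h]
  have cθ : ContinuousOn θ (Set.Icc a b) := fun x hx => (h1 x hx).continuousAt.continuousWithinAt
  have cθ₁ : ContinuousOn θ₁ (Set.Icc a b) := fun x hx => (h2 x hx).continuousAt.continuousWithinAt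
  have hden : ∀ p : ℝ, 0 < μ ^ 2 + p ^ 2 := fun p => by positivity
  let g : ℝ → ℝ := fun p => p / (μ ^ 2 + p ^ 2)
  have hg : ∀ p, |g p| ≤ 1 / (2 * μ) := by
    intro p
    simp only [g]
    rw [abs_div, abs_of_pos (hden p), div_le_div_iff₀ (hden p) (by positivity)]
    nlinarith [sq_nonneg (μ - |p|), sq_abs p]
  let g' : ℝ → ℝ := fun p => (μ ^ 2 - p ^ 2) / (μ ^ 2 + p ^ 2) ^ 2
  have hgd : ∀ p, HasDerivAt g (g' p) p := by
    intro p
    have e1 : HasDerivAt (fun p : ℝ => μ ^ 2 + p ^ 2) (2 * p) p := by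
      have := (hasDerivAt_pow 2 p).const_add (μ ^ 2)
      simpa using this
    have e2 := (hasDerivAt_id p).fun_div e1 (hden p).ne'
    refine e2.congr_deriv ?_
    simp only [g', id]
    congr 1
    ring
  have hg' : ∀ p, |g' p| ≤ 1 / (μ ^ 2 + p ^ 2) := by
    intro p
    simp only [g']
    rw [abs_div, abs_of_pos (by positivity : (0:ℝ) < (μ ^ 2 + p ^ 2) ^ 2), div_le_div_iff₀ (by positivity) (hden p)]
    have : |μ ^ 2 - p ^ 2| ≤ μ ^ 2 + p ^ 2 := abs_le.mpr ⟨by nlinarith [sq_nonneg μ, sq_nonneg p], by nlinarith [sq_nonneg μ, sq_nonneg p]⟩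
    nlinarith [hden p]
  let G : ℝ → ℂ := fun x => c⁻¹ * Complex.exp (c * θ x) * (g (θ₁ x) : ℂ)
  let G' : ℝ → ℂ := fun x => Complex.exp (c * θ x) * (θ₁ x * g (θ₁ x) : ℝ) +
    c⁻¹ * Complex.exp (c * θ x) * (g' (θ₁ x) * θ₂ x : ℝ)
  have hGd : ∀ x ∈ Set.Icc a b, HasDerivAt G (G' x) x := by
    intro x hx
    have e1 : HasDerivAt (fun x => Complex.exp (c * θ x)) (Complex.exp (c * θ x) * (c * θ₁ x)) x :=
      (((h1 x hx).ofReal_comp).const_mul c).cexp
    have e2 : HasDerivAt (fun x => g (θ₁ x)) (g' (θ₁ x) * θ₂ x) x := (hgd (θ₁ x)).comp x (h2 x hx)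
    have e3 := (e1.const_mul c⁻¹).fun_mul e2.ofReal_comp
    refine e3.congr_deriv ?_
    simp only [G']
    push_cast
    field_simp
  have hg'c : Continuous g' := by
    simp only [g']
    exact Continuous.div (by fun_prop) (by fun_prop) (fun p => (pow_pos (hden p) 2).ne')
  have hgc : Continuous g := by
    simp only [g]
    exact Continuous.div (by fun_prop) (by fun_prop) (fun p => (hden p).ne')
  have cE : ContinuousOn (fun x => Complex.exp (c * θ x)) (Set.Icc a b) := by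
    apply ContinuousOn.cexp
    exact continuousOn_const.mul (Complex.continuous_ofReal.comp_continuousOn cθ)
  have cG' : ContinuousOn G' (Set.Icc a b) := by
    simp only [G']
    refine (cE.mul (Complex.continuous_ofReal.comp_continuousOn (cθ₁.mul (hgc.comp_continuousOn cθ₁)))).add
      ((continuousOn_const.mul cE).mul (Complex.continuous_ofReal.comp_continuousOn ((hg'c.comp_continuousOn cθ₁).mul h3)))
  let K : ℝ → ℝ := fun x => (2 / μ) * Real.arctan (θ₁ x / μ)
  let K' : ℝ → ℝ := fun x => 2 * θ₂ x / (μ ^ 2 + θ₁ x ^ 2)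
  have hKd : ∀ x ∈ Set.Icc a b, HasDerivAt K (K' x) x := by
    intro x hx
    have e1 := (((h2 x hx).div_const μ).arctan).const_mul (2 / μ)
    refine e1.congr_deriv ?_
    simp only [K']
    have := hden (θ₁ x)
    have h5 : 1 + (θ₁ x / μ) ^ 2 = (μ ^ 2 + θ₁ x ^ 2) / μ ^ 2 := by field_simp
    rw [h5]
    field_simp
  have cK' : ContinuousOn K' (Set.Icc a b) := by
    simp only [K']
    exact (continuousOn_const.mul h3).div (continuousOn_const.add (cθ₁.pow 2)) (fun x _ => (hden _).ne')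
  have iE : IntervalIntegrable (fun x => Complex.exp (c * θ x)) volume a b := cE.intervalIntegrable_of_Icc hab
  have iG : IntervalIntegrable G' volume a b := cG'.intervalIntegrable_of_Icc hab
  have iK : IntervalIntegrable K' volume a b := cK'.intervalIntegrable_of_Icc hab
  have eG : ∫ x in a..b, G' x = G b - G a :=
    integral_eq_sub_of_hasDerivAt (by rw [Set.uIcc_of_le hab]; exact hGd) iG
  have eK : ∫ x in a..b, K' x = K b - K a :=
    integral_eq_sub_of_hasDerivAt (by rw [Set.uIcc_of_le hab]; exact hKd) iK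
  have hb : ‖∫ x in a..b, (Complex.exp (c * θ x) - G' x)‖ ≤ ∫ x in a..b, K' x := by
    apply norm_integral_le_of_norm_le hab _ iK
    refine Filter.Eventually.of_forall fun x hx => ?_
    have hx' : x ∈ Set.Icc a b := Set.Ioc_subset_Icc_self hx
    have e1 : Complex.exp (c * θ x) - G' x = Complex.exp (c * θ x) * (μ ^ 2 / (μ ^ 2 + θ₁ x ^ 2) : ℝ) -
        c⁻¹ * Complex.exp (c * θ x) * (g' (θ₁ x) * θ₂ x : ℝ) := by
      simp only [G']
      have : (μ ^ 2 / (μ ^ 2 + θ₁ x ^ 2) : ℝ) = 1 - θ₁ x * g (θ₁ x) := by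
        simp only [g]
        have := hden (θ₁ x)
        field_simp
        ring
      rw [this]
      push_cast
      ring
    rw [e1]
    refine (norm_sub_le _ _).trans ?_
    rw [norm_mul, norm_mul, norm_mul, norm_inv, hcn, hexp, Complex.norm_real, Complex.norm_real, Real.norm_eq_abs,
      Real.norm_eq_abs, abs_mul, inv_one, one_mul, one_mul, one_mul]
    have hθ₂ : 0 < θ₂ x := hl.trans_le (h4 x hx')
    rw [abs_of_pos hθ₂, abs_of_pos (by have := hden (θ₁ x); positivity)]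
    have e2 := mul_le_mul_of_nonneg_right (hg' (θ₁ x)) hθ₂.le
    have e3 : μ ^ 2 / (μ ^ 2 + θ₁ x ^ 2) ≤ θ₂ x / (μ ^ 2 + θ₁ x ^ 2) := by
      apply div_le_div_of_nonneg_right _ (hden _).le
      rw [hμ2]; exact h4 x hx'
    have e4 : K' x = θ₂ x / (μ ^ 2 + θ₁ x ^ 2) + 1 / (μ ^ 2 + θ₁ x ^ 2) * θ₂ x := by
      simp only [K']; ring
    rw [e4]
    linarith
  have hKb : K b - K a ≤ 2 * Real.pi / μ := by
    simp only [K]
    have e1 := Real.arctan_lt_pi_div_two (θ₁ b / μ)
    have e2 := Real.neg_pi_div_two_lt_arctan (θ₁ a / μ)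
    have e3 : (2 / μ) * Real.arctan (θ₁ b / μ) - (2 / μ) * Real.arctan (θ₁ a / μ) =
      (2 / μ) * (Real.arctan (θ₁ b / μ) - Real.arctan (θ₁ a / μ)) := by ring
    rw [e3]
    have e4 : 2 * Real.pi / μ = (2 / μ) * Real.pi := by ring
    rw [e4]
    apply mul_le_mul_of_nonneg_left _ (by positivity)
    linarith
  have hGb : ∀ x, ‖G x‖ ≤ 1 / (2 * μ) := by
    intro x
    simp only [G]
    rw [norm_mul, norm_mul, norm_inv, hcn, hexp, Complex.norm_real, Real.norm_eq_abs, inv_one, one_mul, one_mul]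
    exact hg _
  rw [integral_sub iE iG, eG, eK] at hb
  have e5 : (∫ x in a..b, Complex.exp (c * θ x)) =
    ((∫ x in a..b, Complex.exp (c * θ x)) - (G b - G a)) + (G b - G a) := by ring
  rw [e5]
  refine (norm_add_le _ _).trans ?_
  have e6 : ‖G b - G a‖ ≤ 1 / μ := by
    refine (norm_sub_le _ _).trans ?_
    have := hGb b
    have := hGb a
    have e7 : 1 / μ = 1 / (2 * μ) + 1 / (2 * μ) := by field_simp; norm_num
    linarith
  have e8 : (1 + 2 * Real.pi) / μ = 2 * Real.pi / μ + 1 / μ := by ring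
  rw [e8]
  linarith

def th (n s t x : ℝ) : ℝ := s * x - t / x - 2 * n * Real.arctan x
def th1 (n s t x : ℝ) : ℝ := s + t / x ^ 2 - 2 * n / (1 + x ^ 2)
def ww (x : ℝ) : ℝ := (x ^ 2 / (1 + x ^ 2)) ^ 2
def th2 (n t x : ℝ) : ℝ := (4 * n * ww x - 2 * t) / x ^ 3

theorem th_d (n s t : ℝ) {x : ℝ} (hx : 0 < x) : HasDerivAt (th n s t) (th1 n s t x) x := by
  have e1 := ((((hasDerivAt_id x).const_mul s).fun_sub ((hasDerivAt_inv hx.ne').const_mul t))).fun_sub
    ((Real.hasDerivAt_arctan x).const_mul (2 * n))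
  have e2 : th n s t = fun x => s * id x - t * x⁻¹ - 2 * n * Real.arctan x := by
    funext x; simp [th, div_eq_mul_inv]
  rw [e2]
  refine e1.congr_deriv ?_
  simp only [th1]
  field_simp
  ring

theorem th1_d (n s t : ℝ) {x : ℝ} (hx : 0 < x) : HasDerivAt (th1 n s t) (th2 n t x) x := by
  have e1 : HasDerivAt (fun x : ℝ => x ^ 2) (2 * x) x := by simpa using hasDerivAt_pow 2 x
  have e2 : HasDerivAt (fun x : ℝ => 1 + x ^ 2) (2 * x) x := e1.const_add 1
  have e3 := (((hasDerivAt_const x t).fun_div e1 (by positivity)).const_add s).fun_sub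
    ((hasDerivAt_const x (2 * n)).fun_div e2 (by positivity))
  refine e3.congr_deriv ?_
  simp only [th2, ww]
  have : (0:ℝ) < 1 + x ^ 2 := by positivity
  field_simp
  ring

theorem ww_lip {x y : ℝ} (hx : 1 / 4 ≤ x) (hxy : x ≤ y) (hy : y ≤ 1 / 2) : (1 / 30) * (y - x) ≤ ww y - ww x := by
  have h1 : ww y - ww x = (y ^ 2 / (1 + y ^ 2) - x ^ 2 / (1 + x ^ 2)) * (y ^ 2 / (1 + y ^ 2) + x ^ 2 / (1 + x ^ 2)) := by
    unfold ww; ring
  have h2 : y ^ 2 / (1 + y ^ 2) - x ^ 2 / (1 + x ^ 2) = (y - x) * ((y + x) / ((1 + y ^ 2) * (1 + x ^ 2))) := by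
    have : (0:ℝ) < 1 + x ^ 2 := by positivity
    have : (0:ℝ) < 1 + y ^ 2 := by positivity
    field_simp
    ring
  have h3 : 8 / 25 ≤ (y + x) / ((1 + y ^ 2) * (1 + x ^ 2)) := by
    rw [div_le_div_iff₀ (by norm_num) (by positivity)]
    nlinarith [mul_nonneg (sub_nonneg.mpr hx) (sub_nonneg.mpr hxy), mul_nonneg (sub_nonneg.mpr hy) (sub_nonneg.mpr hxy),
      sq_nonneg x, sq_nonneg y, mul_pos (by linarith : (0:ℝ) < x) (by linarith : (0:ℝ) < y),
      pow_le_pow_left₀ (by linarith : (0:ℝ) ≤ x) (hxy.trans hy) 2, pow_le_pow_left₀ (by linarith : (0:ℝ) ≤ y) hy 2]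
  have h4 : ∀ z : ℝ, 1 / 4 ≤ z → 1 / 17 ≤ z ^ 2 / (1 + z ^ 2) := by
    intro z hz
    rw [div_le_div_iff₀ (by norm_num) (by positivity)]
    nlinarith
  rw [h1, h2]
  have h5 := h4 x hx
  have h6 := h4 y (hx.trans hxy)
  have h7 : 0 ≤ y - x := by linarith
  have h8 : (8 / 25) * (y - x) ≤ (y - x) * ((y + x) / ((1 + y ^ 2) * (1 + x ^ 2))) := by nlinarith
  have h9 : (8 / 25) * (y - x) * (2 / 17) ≤ (y - x) * ((y + x) / ((1 + y ^ 2) * (1 + x ^ 2))) *
      (y ^ 2 / (1 + y ^ 2) + x ^ 2 / (1 + x ^ 2)) := by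
    apply mul_le_mul h8 (by linarith) (by norm_num) (by nlinarith)
  nlinarith

theorem ww_cont : Continuous ww := by
  unfold ww
  exact (Continuous.div (by fun_prop) (by fun_prop) (fun x => (by positivity : (0:ℝ) < 1 + x ^ 2).ne')).pow 2

theorem exists_star (c0 : ℝ) : ∃ z ∈ Set.Icc (1 / 4 : ℝ) (1 / 2),
    (∀ x ∈ Set.Icc (1 / 4 : ℝ) (1 / 2), z ≤ x → (z < x → (1 / 30) * (x - z) ≤ ww x - c0)) ∧
    (∀ x ∈ Set.Icc (1 / 4 : ℝ) (1 / 2), x ≤ z → (x < z → (1 / 30) * (z - x) ≤ c0 - ww x)) := by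
  by_cases h1 : c0 ≤ ww (1 / 4)
  · refine ⟨1 / 4, by norm_num, fun x hx h _ => ?_, fun x hx h h' => ?_⟩
    · have := ww_lip le_rfl hx.1 hx.2; linarith
    · exact absurd hx.1 (not_le.mpr h')
  by_cases h2 : ww (1 / 2) ≤ c0
  · refine ⟨1 / 2, by norm_num, fun x hx h h' => ?_, fun x hx h _ => ?_⟩
    · exact absurd hx.2 (not_le.mpr h')
    · have := ww_lip hx.1 hx.2 le_rfl; linarith
  push Not at h1 h2
  obtain ⟨z, hz, hzc⟩ := intermediate_value_Icc (by norm_num : (1/4:ℝ) ≤ 1/2) ww_cont.continuousOn ⟨h1.le, h2.le⟩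
  refine ⟨z, hz, fun x hx h _ => ?_, fun x hx h _ => ?_⟩
  · have := ww_lip hz.1 h hx.2; linarith
  · have := ww_lip hx.1 h hz.2; linarith

theorem main_bound (n s t δ : ℝ) (hn : 0 < n) (hδ : 0 < δ) :
    ‖∫ x in (1/4:ℝ)..(1/2), Complex.exp (Complex.I * th n s t x)‖ ≤
      2 * δ + 2 * ((1 + 2 * Real.pi) / √(n * δ)) := by
  obtain ⟨z, hz, hz1, hz2⟩ := exists_star (t / (2 * n))
  set p := max (1/4) (z - δ) with hp
  set q := min (1/2) (z + δ) with hq
  have hpz : p ≤ z := max_le hz.1 (by linarith)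
  have hzq : z ≤ q := le_min hz.2 (by linarith)
  have hp4 : 1/4 ≤ p := le_max_left _ _
  have hq2 : q ≤ 1/2 := min_le_left _ _
  have hcont : ContinuousOn (fun x => Complex.exp (Complex.I * th n s t x)) (Set.Icc (1/4:ℝ) (1/2)) := by
    intro x hx
    have hx0 : 0 < x := by linarith [hx.1]
    exact (((th_d n s t hx0).ofReal_comp.const_mul Complex.I).cexp).continuousAt.continuousWithinAt
  have hint : ∀ a b : ℝ, 1/4 ≤ a → a ≤ b → b ≤ 1/2 →
      IntervalIntegrable (fun x => Complex.exp (Complex.I * th n s t x)) volume a b := by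
    intro a b ha hab hb
    exact (hcont.mono (Set.Icc_subset_Icc ha hb)).intervalIntegrable_of_Icc hab
  have e1 : ∫ x in (1/4:ℝ)..(1/2), Complex.exp (Complex.I * th n s t x) =
      (∫ x in (1/4:ℝ)..p, Complex.exp (Complex.I * th n s t x)) +
      (∫ x in p..q, Complex.exp (Complex.I * th n s t x)) +
      (∫ x in q..(1/2), Complex.exp (Complex.I * th n s t x)) := by
    rw [integral_add_adjacent_intervals (hint _ _ le_rfl hp4 (hpz.trans hz.2)) (hint _ _ hp4 (hpz.trans hzq) hq2),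
      integral_add_adjacent_intervals (hint _ _ le_rfl (hz.1.trans hzq) hq2) (hint _ _ (hz.1.trans hzq) hq2 le_rfl)]
  have hth2 : ContinuousOn (th2 n t) (Set.Icc (1/4:ℝ) (1/2)) := by
    unfold th2
    refine ContinuousOn.div ?_ (by fun_prop) (fun x hx => ?_)
    · exact ((continuous_const.mul ww_cont).sub continuous_const).continuousOn
    · have : 0 < x := by linarith [hx.1]
      positivity
  have hth2v : ∀ x, 0 < x → th2 n t x = 4 * n * (ww x - t / (2 * n)) / x ^ 3 := by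
    intro x hx
    unfold th2
    field_simp
    ring
  have hnd : 0 < n * δ := mul_pos hn hδ
  have b2 : ‖∫ x in p..q, Complex.exp (Complex.I * th n s t x)‖ ≤ 2 * δ := by
    have := norm_integral_le_of_norm_le_const (a := p) (b := q) (C := 1)
      (f := fun x => Complex.exp (Complex.I * th n s t x)) (fun x _ => by
        rw [Complex.norm_exp]; simp)
    rw [abs_of_nonneg (by linarith)] at this
    have h1 : q - p ≤ 2 * δ := by
      have : q ≤ z + δ := min_le_right _ _
      have : z - δ ≤ p := le_max_right _ _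
      linarith
    linarith
  have b3 : ‖∫ x in q..(1/2), Complex.exp (Complex.I * th n s t x)‖ ≤ (1 + 2 * Real.pi) / √(n * δ) := by
    by_cases hqq : q = 1/2
    · rw [hqq, integral_same, norm_zero]; positivity
    · have hq' : q = z + δ := by
        rcases min_choice (1/2) (z + δ) with h | h
        · exact absurd h hqq
        · exact h
      refine vdc hq2 Complex.I (Or.inl rfl) (th n s t) (th1 n s t) (th2 n t)
        (fun x hx => th_d n s t (by linarith [hx.1])) (fun x hx => th1_d n s t (by linarith [hx.1]))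
        (hth2.mono (Set.Icc_subset_Icc (by linarith) le_rfl)) hnd (fun x hx => ?_)
      have hx0 : 0 < x := by linarith [hx.1]
      rw [hth2v x hx0, le_div_iff₀ (by positivity)]
      have h1 := hz1 x ⟨by linarith [hx.1], hx.2⟩ (by linarith [hx.1]) (by linarith [hx.1])
      have h2 : δ ≤ x - z := by linarith [hx.1]
      have h3 : x ^ 3 ≤ 1 / 8 := by
        have := pow_le_pow_left₀ hx0.le hx.2 3
        norm_num at this
        linarith
      have h4 : n * δ * x ^ 3 ≤ n * δ * (1 / 8) := by gcongr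
      nlinarith
  have b1 : ‖∫ x in (1/4:ℝ)..p, Complex.exp (Complex.I * th n s t x)‖ ≤ (1 + 2 * Real.pi) / √(n * δ) := by
    by_cases hpp : p = 1/4
    · rw [hpp, integral_same, norm_zero]; positivity
    · have hp' : p = z - δ := by
        rcases max_choice (1/4) (z - δ) with h | h
        · exact absurd h hpp
        · exact h
      have e2 : ∀ x : ℝ, Complex.exp (Complex.I * th n s t x) = Complex.exp (-Complex.I * ((-th n s t x : ℝ) : ℂ)) := by
        intro x; congr 1; push_cast; ring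
      simp_rw [e2]
      refine vdc hp4 (-Complex.I) (Or.inr rfl) (fun x => -th n s t x) (fun x => -th1 n s t x) (fun x => -th2 n t x)
        (fun x hx => (th_d n s t (by linarith [hx.1])).fun_neg) (fun x hx => (th1_d n s t (by linarith [hx.1])).fun_neg)
        (hth2.mono (Set.Icc_subset_Icc le_rfl (hpz.trans hz.2))).neg hnd (fun x hx => ?_)
      have hx0 : 0 < x := by linarith [hx.1]
      rw [hth2v x hx0]
      have h1 := hz2 x ⟨hx.1, by linarith [hx.2, hz.2]⟩ (by linarith [hx.2]) (by linarith [hx.2])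
      have h2 : δ ≤ z - x := by linarith [hx.2]
      have hx2 : x ≤ 1/2 := by linarith [hx.2, hz.2]
      have h3 : x ^ 3 ≤ 1 / 8 := by
        have := pow_le_pow_left₀ hx0.le hx2 3
        norm_num at this
        linarith
      have h4 : n * δ * x ^ 3 ≤ n * δ * (1 / 8) := by gcongr
      rw [← neg_div, le_div_iff₀ (by positivity)]
      nlinarith
  rw [e1]
  refine (norm_add₃_le).trans ?_
  linarith

end

end Pool.Agent.H14.Cayley
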