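import Mathlib
import Pool.Agent.H14.Cay1

open MeasureTheory

namespace Pool.Agent.H14.Cayley

noncomputable section

set_option synthInstance.maxHeartbeats 400000
set_option maxHeartbeats 4000000

theorem hs {α : Type*} [AddCommMonoid α] [TopologicalSpace α] {f g : ℕ → α} {a : α} (h : ∀ n, f n = g n)
    (hf : HasSum f a) : HasSum g a := by
  have : f = g := funext h
  rwa [← this]

def an (n : ℕ) : ℝ := ((-1) ^ n - 1) / (Real.pi ^ 2 * n ^ 2)

theorem bern2 (x : ℝ) : (Polynomial.map (algebraMap ℚ ℝ) (Polynomial.bernoulli 2)).eval x = x ^ 2 - x + 1 / 6 := by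
  simp [Polynomial.bernoulli, Finset.sum_range_succ, bernoulli_eq_bernoulli'_of_ne_one]
  ring

theorem tri {u : ℝ} (h0 : 0 ≤ u) (h1 : u ≤ 1 / 2) :
    HasSum (fun n : ℕ => an n * Real.cos (n * (2 * Real.pi * u))) (u - 1 / 4) := by
  have e1 := hasSum_one_div_nat_pow_mul_cos (k := 1) (by norm_num) (x := u + 1 / 2) ⟨by linarith, by linarith⟩
  have e2 := hasSum_one_div_nat_pow_mul_cos (k := 1) (by norm_num) (x := u) ⟨by linarith, by linarith⟩
  rw [mul_one, bern2] at e1 e2
  have e3 := (e1.sub e2).mul_left (1 / Real.pi ^ 2)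
  have hpi : Real.pi ≠ 0 := Real.pi_ne_zero
  have hval : (1 / Real.pi ^ 2 *
      ((-1) ^ (1 + 1) * (2 * Real.pi) ^ 2 / 2 / ((Nat.factorial 2 : ℕ) : ℝ) * ((u + 1 / 2) ^ 2 - (u + 1 / 2) + 1 / 6) -
        (-1) ^ (1 + 1) * (2 * Real.pi) ^ 2 / 2 / ((Nat.factorial 2 : ℕ) : ℝ) * (u ^ 2 - u + 1 / 6))) = u - 1 / 4 := by
    have : ((Nat.factorial 2 : ℕ) : ℝ) = 2 := by norm_num [Nat.factorial]
    rw [this]
    field_simp
    ring
  rw [hval] at e3
  refine hs (fun n => ?_) e3
  have : Real.cos (2 * Real.pi * n * (u + 1 / 2)) = (-1) ^ n * Real.cos (2 * Real.pi * n * u) := by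
    rw [← Real.cos_add_nat_mul_pi]; congr 1; ring
  rw [this, an, show (n:ℝ) * (2 * Real.pi * u) = 2 * Real.pi * n * u by ring]
  by_cases hn : (n:ℝ) = 0
  · simp [hn]
  · field_simp

theorem an_nonpos (n : ℕ) : an n ≤ 0 := by
  unfold an
  apply div_nonpos_of_nonpos_of_nonneg
  · rcases Nat.even_or_odd n with h | h
    · simp [h.neg_one_pow]
    · simp [h.neg_one_pow]
  · positivity

theorem an_sum : HasSum an (-(1 / 4)) := by
  have := tri le_rfl (by norm_num : (0:ℝ) ≤ 1 / 2)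
  simpa using this

theorem an_abs : HasSum (fun n => |an n|) (1 / 4) := by
  have := an_sum.neg
  rw [neg_neg] at this
  refine hs (fun n => ?_) this
  rw [abs_of_nonpos (an_nonpos n)]

/-! ### the space -/

abbrev J : Set ℝ := Set.Icc (1 / 4 : ℝ) (1 / 2)

abbrev W := lp (fun _ : ℝ × ℝ => ℂ) ⊤

theorem J_pos (x : J) : (0:ℝ) < x := by linarith [x.2.1]

def mu : Measure J := Measure.comap Subtype.val volume

theorem mu_univ : mu Set.univ = ENNReal.ofReal (1 / 2 - 1 / 4) := by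
  rw [mu, (MeasurableEmbedding.subtype_coe measurableSet_Icc).comap_apply, Set.image_univ, Subtype.range_coe,
    Real.volume_Icc]

instance : IsFiniteMeasure mu := by
  constructor
  rw [mu_univ]
  exact ENNReal.ofReal_lt_top

theorem J_vol : mu.real Set.univ = 1 / 4 := by
  rw [Measure.real, mu_univ, ENNReal.toReal_ofReal (by norm_num)]
  norm_num

/-- the characters -/
def ker (p : ℝ × ℝ) : C(J, ℂ) where
  toFun x := Complex.exp (Complex.I * ((p.1 * x - p.2 / x : ℝ) : ℂ))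
  continuous_toFun := by
    have : Continuous fun x : J => p.1 * (x : ℝ) - p.2 / (x : ℝ) :=
      (by fun_prop : Continuous fun x : J => p.1 * (x : ℝ)).sub
        (continuous_const.div continuous_subtype_val (fun x => (J_pos x).ne'))
    fun_prop

theorem ker_apply (p : ℝ × ℝ) (x : J) : ker p x = Complex.exp (Complex.I * ((p.1 * x - p.2 / x : ℝ) : ℂ)) := rfl

theorem ker_add (p q : ℝ × ℝ) : ker (p + q) = ker p * ker q := by
  ext x
  rw [ContinuousMap.mul_apply, ker_apply, ker_apply, ker_apply, ← Complex.exp_add]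
  congr 1
  simp only [Prod.fst_add, Prod.snd_add]
  push_cast
  ring

theorem ker_norm (p : ℝ × ℝ) : ‖ker p‖ ≤ 1 := by
  rw [ContinuousMap.norm_le _ (by norm_num)]
  intro x
  rw [ker_apply, Complex.norm_exp]
  simp

def Inte : C(J, ℂ) →L[ℂ] ℂ :=
  LinearMap.mkContinuous
    { toFun := fun f => ∫ x : J, f x ∂mu
      map_add' := fun f g => by
        simp only [ContinuousMap.add_apply]
        exact integral_add (f.continuous.integrable_of_hasCompactSupport (HasCompactSupport.of_compactSpace _))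
          (g.continuous.integrable_of_hasCompactSupport (HasCompactSupport.of_compactSpace _))
      map_smul' := fun c f => by
        simp only [ContinuousMap.smul_apply, RingHom.id_apply]
        exact integral_smul c _ } (1 / 4) (fun f => by
      have := norm_integral_le_of_norm_le_const (μ := mu) (f := fun x : J => f x) (C := ‖f‖)
        (Filter.Eventually.of_forall fun x => f.norm_coe_le_norm x)
      rw [J_vol] at this
      rw [mul_comm]
      exact this)

theorem Inte_apply (f : C(J, ℂ)) : Inte f = ∫ x : J, f x ∂mu := rfl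

theorem Inte_le (f : C(J, ℂ)) : ‖Inte f‖ ≤ 1 / 4 * ‖f‖ := by
  have := norm_integral_le_of_norm_le_const (μ := mu) (f := fun x : J => f x) (C := ‖f‖)
    (Filter.Eventually.of_forall fun x => f.norm_coe_le_norm x)
  rw [J_vol] at this
  rw [mul_comm]
  exact this

def H : C(J, ℂ) →L[ℂ] W :=
  LinearMap.mkContinuous
    { toFun := fun ψ => ⟨fun p => Inte (ψ * ker p), memℓp_infty ⟨1 / 4 * ‖ψ‖, by
        rintro _ ⟨p, rfl⟩
        refine (Inte_le _).trans ?_
        have := (norm_mul_le ψ (ker p)).trans (mul_le_mul_of_nonneg_left (ker_norm p) (norm_nonneg ψ))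
        linarith⟩⟩
      map_add' := fun f g => by
        ext p
        show Inte ((f + g) * ker p) = Inte (f * ker p) + Inte (g * ker p)
        rw [add_mul, map_add]
      map_smul' := fun c f => by
        ext p
        show Inte ((c • f) * ker p) = c • Inte (f * ker p)
        rw [smul_mul_assoc, map_smul] } (1 / 4) (fun ψ => by
      apply lp.norm_le_of_forall_le (by positivity)
      intro p
      refine (Inte_le _).trans ?_
      have := (norm_mul_le ψ (ker p)).trans (mul_le_mul_of_nonneg_left (ker_norm p) (norm_nonneg ψ))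
      linarith)

theorem H_apply (ψ : C(J, ℂ)) (p : ℝ × ℝ) : H ψ p = Inte (ψ * ker p) := rfl

def Tr (q : ℝ × ℝ) : W →L[ℂ] W :=
  LinearMap.mkContinuous
    { toFun := fun F => ⟨fun p => F (p + q), memℓp_infty ⟨‖F‖, by
        rintro _ ⟨p, rfl⟩
        exact lp.norm_apply_le_norm (by simp) F _⟩⟩
      map_add' := fun f g => by ext p; rfl
      map_smul' := fun c f => by ext p; rfl } 1 (fun F => by
      rw [one_mul]
      apply lp.norm_le_of_forall_le (norm_nonneg _)
      intro p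
      exact lp.norm_apply_le_norm (by simp) F _)

theorem Tr_apply (q : ℝ × ℝ) (F : W) (p : ℝ × ℝ) : Tr q F p = F (p + q) := rfl

theorem Tr_norm (q : ℝ × ℝ) : ‖Tr q‖ ≤ 1 := LinearMap.mkContinuous_norm_le _ (by norm_num) _

theorem Tr_H (q : ℝ × ℝ) (ψ : C(J, ℂ)) : Tr q (H ψ) = H (ker q * ψ) := by
  ext p
  rw [Tr_apply, H_apply, H_apply, ker_add]
  congr 1
  ring

def Esub : Submodule ℂ W := (LinearMap.range (H : C(J, ℂ) →ₗ[ℂ] W)).topologicalClosure

def E : Type := ↥Esub

instance : NormedAddCommGroup E := inferInstanceAs (NormedAddCommGroup ↥Esub)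
instance : NormedSpace ℂ E := inferInstanceAs (NormedSpace ℂ ↥Esub)

instance : CompleteSpace E :=
  (Submodule.isClosed_topologicalClosure (LinearMap.range (H : C(J, ℂ) →ₗ[ℂ] W))).completeSpace_coe

def toW : E →L[ℂ] W := Esub.subtypeL

theorem toW_norm (x : E) : ‖toW x‖ = ‖x‖ := rfl

theorem toW_inj {x y : E} (h : toW x = toW y) : x = y := Subtype.ext h

theorem toW_mem (x : E) : toW x ∈ closure (LinearMap.range (H : C(J, ℂ) →ₗ[ℂ] W) : Set W) := x.2

def H' : C(J, ℂ) →L[ℂ] E := H.codRestrict Esub (fun ψ => subset_closure ⟨ψ, rfl⟩)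

theorem H'_coe (ψ : C(J, ℂ)) : toW (H' ψ) = H ψ := rfl

theorem H'_dense : DenseRange H' := by
  intro x
  rw [Metric.mem_closure_iff]
  intro ε hε
  obtain ⟨y, ⟨ψ, rfl⟩, hy⟩ := Metric.mem_closure_iff.mp (toW_mem x) ε hε
  exact ⟨H' ψ, ⟨ψ, rfl⟩, hy⟩

theorem Tr_mem (q : ℝ × ℝ) (x : E) : Tr q (toW x) ∈ Esub := by
  refine map_mem_closure (Tr q).continuous (toW_mem x) ?_
  rintro _ ⟨ψ, rfl⟩
  exact ⟨ker q * ψ, (Tr_H q ψ).symm⟩

def TE (q : ℝ × ℝ) : E →L[ℂ] E :=
  ((Tr q).comp toW).codRestrict Esub (Tr_mem q)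

theorem TE_coe (q : ℝ × ℝ) (x : E) : toW (TE q x) = Tr q (toW x) := rfl

theorem TE_norm (q : ℝ × ℝ) : ‖TE q‖ ≤ 1 := by
  apply ContinuousLinearMap.opNorm_le_bound _ (by norm_num)
  intro x
  have := (Tr q).le_opNorm (toW x)
  have h2 := Tr_norm q
  rw [← toW_norm, ← toW_norm, TE_coe]
  nlinarith [norm_nonneg (toW x)]

/-- operators given by multipliers -/
def Rel (P : E →L[ℂ] E) (f : C(J, ℂ)) : Prop := ∀ ψ, P (H' ψ) = H' (f * ψ)

theorem Rel.unique {P Q : E →L[ℂ] E} {f : C(J, ℂ)} (h1 : Rel P f) (h2 : Rel Q f) : P = Q := by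
  ext1 x
  have : (fun x => P x) = fun x => Q x := by
    apply DenseRange.equalizer H'_dense P.continuous Q.continuous
    funext ψ
    exact (h1 ψ).trans (h2 ψ).symm
  exact congrFun this x

theorem rel_TE (q : ℝ × ℝ) : Rel (TE q) (ker q) := fun ψ => toW_inj (Tr_H q ψ)

theorem rel_one : Rel 1 1 := fun ψ => by simp

theorem Rel.add {P Q : E →L[ℂ] E} {f g : C(J, ℂ)} (h1 : Rel P f) (h2 : Rel Q g) : Rel (P + Q) (f + g) := fun ψ => by
  rw [add_apply, h1, h2, add_mul, map_add]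

theorem Rel.sub {P Q : E →L[ℂ] E} {f g : C(J, ℂ)} (h1 : Rel P f) (h2 : Rel Q g) : Rel (P - Q) (f - g) := fun ψ => by
  rw [sub_apply, h1, h2, sub_mul, map_sub]

theorem Rel.mul {P Q : E →L[ℂ] E} {f g : C(J, ℂ)} (h1 : Rel P f) (h2 : Rel Q g) : Rel (P * Q) (f * g) := fun ψ => by
  rw [mul_apply_eq_comp, h2, h1, mul_assoc]

theorem Rel.smul {P : E →L[ℂ] E} {f : C(J, ℂ)} (h1 : Rel P f) (c : ℂ) : Rel (c • P) (c • f) := fun ψ => by
  rw [smul_apply, h1, smul_mul_assoc, map_smul]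

theorem Rel.pow {P : E →L[ℂ] E} {f : C(J, ℂ)} (h1 : Rel P f) (n : ℕ) : Rel (P ^ n) (f ^ n) := by
  induction n with
  | zero => simpa using rel_one
  | succ n ih => rw [pow_succ, pow_succ]; exact ih.mul h1

theorem Rel.hasSum {P : ℕ → E →L[ℂ] E} {f : ℕ → C(J, ℂ)} (h : ∀ n, Rel (P n) (f n)) {P' : E →L[ℂ] E} {f' : C(J, ℂ)}
    (hP : HasSum P P') (hf : HasSum f f') : Rel P' f' := fun ψ => by
  have h1 : HasSum (fun n => P n (H' ψ)) (P' (H' ψ)) :=
    hP.mapL (ContinuousLinearMap.apply ℂ E (H' ψ))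
  have h2 : HasSum (fun n => H' (f n * ψ)) (H' (f' * ψ)) :=
    (hf.mul_right ψ).mapL H'
  refine h1.unique ?_
  refine hs (fun n => ?_) h2
  rw [h n ψ]

theorem Rel.exp {P : E →L[ℂ] E} {f : C(J, ℂ)} (h : Rel P f) : Rel (NormedSpace.exp P) (NormedSpace.exp f) :=
  Rel.hasSum (fun n => (h.pow n).smul _) (NormedSpace.exp_series_hasSum_exp' (𝕂 := ℂ) P)
    (NormedSpace.exp_series_hasSum_exp' (𝕂 := ℂ) f)

end

end Pool.Agent.H14.Cayley
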