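import Mathlib
import Pool.Agent.H14.Cay2

open MeasureTheory Filter Topology

namespace Pool.Agent.H14.Cayley

noncomputable section

set_option synthInstance.maxHeartbeats 400000
set_option maxHeartbeats 4000000

theorem ker_zero : ker 0 = 1 := by
  ext x; simp [ker_apply]

theorem TE_zero : TE 0 = 1 := (rel_TE 0).unique (by rw [ker_zero]; exact rel_one)

theorem TE_add (p q : ℝ × ℝ) : TE (p + q) = TE p * TE q :=
  (rel_TE (p + q)).unique (by rw [ker_add]; exact (rel_TE p).mul (rel_TE q))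

def opn (d : ℝ × ℝ) (n : ℕ) : E →L[ℂ] E := (an n : ℂ) • ((1 / 2 : ℂ) • (TE ((n : ℝ) • d) + TE (-((n : ℝ) • d))))
def fun_n (d : ℝ × ℝ) (n : ℕ) : C(J, ℂ) := (an n : ℂ) • ((1 / 2 : ℂ) • (ker ((n : ℝ) • d) + ker (-((n : ℝ) • d))))

theorem opn_norm (d : ℝ × ℝ) (n : ℕ) : ‖opn d n‖ ≤ |an n| := by
  unfold opn
  rw [norm_smul, norm_smul, Complex.norm_real, Real.norm_eq_abs]
  have h1 := norm_add_le (TE ((n : ℝ) • d)) (TE (-((n : ℝ) • d)))
  have h2 := TE_norm ((n : ℝ) • d)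
  have h3 := TE_norm (-((n : ℝ) • d))
  have h4 : ‖(1 / 2 : ℂ)‖ = 1 / 2 := by norm_num
  rw [h4]
  have h5 : 1 / 2 * ‖TE ((n : ℝ) • d) + TE (-((n : ℝ) • d))‖ ≤ 1 := by linarith
  nlinarith [abs_nonneg (an n)]

theorem fun_n_norm (d : ℝ × ℝ) (n : ℕ) : ‖fun_n d n‖ ≤ |an n| := by
  unfold fun_n
  rw [norm_smul, norm_smul, Complex.norm_real, Real.norm_eq_abs]
  have h1 := norm_add_le (ker ((n : ℝ) • d)) (ker (-((n : ℝ) • d)))
  have h2 := ker_norm ((n : ℝ) • d)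
  have h3 := ker_norm (-((n : ℝ) • d))
  have h4 : ‖(1 / 2 : ℂ)‖ = 1 / 2 := by norm_num
  rw [h4]
  have h5 : 1 / 2 * ‖ker ((n : ℝ) • d) + ker (-((n : ℝ) • d))‖ ≤ 1 := by linarith
  nlinarith [abs_nonneg (an n)]

theorem opn_sum (d : ℝ × ℝ) : Summable (opn d) := Summable.of_norm_bounded an_abs.summable (opn_norm d)
theorem fun_n_sum (d : ℝ × ℝ) : Summable (fun_n d) := Summable.of_norm_bounded an_abs.summable (fun_n_norm d)

def Sd (d : ℝ × ℝ) : E →L[ℂ] E := (1 / 4 : ℂ) • 1 + ∑' n, opn d n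
def fd (d : ℝ × ℝ) : C(J, ℂ) := (1 / 4 : ℂ) • 1 + ∑' n, fun_n d n

theorem rel_Sd (d : ℝ × ℝ) : Rel (Sd d) (fd d) :=
  (rel_one.smul _).add (Rel.hasSum (fun _ => (((rel_TE _).add (rel_TE _)).smul _).smul _)
    (opn_sum d).hasSum (fun_n_sum d).hasSum)

theorem Sd_norm (d : ℝ × ℝ) : ‖Sd d‖ ≤ 1 / 2 := by
  unfold Sd
  refine (norm_add_le _ _).trans ?_
  have h1 : ‖(1 / 4 : ℂ) • (1 : E →L[ℂ] E)‖ ≤ 1 / 4 := by
    rw [norm_smul]
    have h2 : ‖(1 : E →L[ℂ] E)‖ ≤ 1 := ContinuousLinearMap.norm_id_le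
    have h3 : ‖(1 / 4 : ℂ)‖ = 1 / 4 := by norm_num
    rw [h3]; linarith
  have h2 : ‖∑' n, opn d n‖ ≤ 1 / 4 := by
    rw [← an_abs.tsum_eq]
    exact tsum_of_norm_bounded an_abs.summable.hasSum (opn_norm d)
  linarith

theorem fun_n_apply (d : ℝ × ℝ) (n : ℕ) (x : J) :
    fun_n d n x = ((an n * Real.cos (n * (d.1 * x - d.2 / x)) : ℝ) : ℂ) := by
  unfold fun_n
  simp only [ContinuousMap.smul_apply, ContinuousMap.add_apply, ker_apply, smul_eq_mul, Prod.smul_fst, Prod.smul_snd,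
    Prod.fst_neg, Prod.snd_neg]
  push_cast
  rw [Complex.cos]
  have e1 : Complex.I * ((n : ℂ) * d.1 * x - n * d.2 / x) = (n : ℂ) * (d.1 * x - d.2 / x) * Complex.I := by ring
  have e2 : Complex.I * (-((n : ℂ) * d.1) * x - -(n * d.2) / x) = -((n : ℂ) * (d.1 * x - d.2 / x)) * Complex.I := by
    ring
  rw [e1, e2]
  ring

theorem fd_apply (d : ℝ × ℝ) (x : J) {u : ℝ} (hu0 : 0 ≤ u) (hu1 : u ≤ 1 / 2)
    (h2 : ∀ n : ℕ, Real.cos (n * (d.1 * x - d.2 / x)) = Real.cos (n * (2 * Real.pi * u))) :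
    fd d x = (u : ℂ) := by
  unfold fd
  have h3 : HasSum (fun n => fun_n d n x) ((∑' n, fun_n d n) x) :=
    (fun_n_sum d).hasSum.mapL (ContinuousMap.evalCLM ℂ x)
  have h4 : HasSum (fun n => fun_n d n x) (((u - 1 / 4 : ℝ)) : ℂ) := by
    refine hs (fun n => ?_) ((tri hu0 hu1).mapL Complex.ofRealCLM)
    rw [fun_n_apply, h2]
    rfl
  rw [ContinuousMap.add_apply, h3.unique h4]
  simp only [ContinuousMap.smul_apply, ContinuousMap.one_apply, smul_eq_mul, mul_one]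
  push_cast
  ring

def d1 : ℝ × ℝ := (2 * Real.pi, 0)
def d2 : ℝ × ℝ := (0, Real.pi / 4)

theorem fd1 (x : J) : fd d1 x = ((x : ℝ) : ℂ) := by
  refine fd_apply d1 x (J_pos x).le x.2.2 (fun n => ?_)
  simp [d1]

theorem fd2 (x : J) : fd d2 x = ((1 / (8 * (x : ℝ)) : ℝ) : ℂ) := by
  have hx := J_pos x
  refine fd_apply d2 x (by positivity) ?_ (fun n => ?_)
  · rw [div_le_div_iff₀ (by positivity) (by norm_num)]
    linarith [x.2.1]
  · rw [← Real.cos_neg]
    congr 1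
    simp only [d2]
    field_simp
    ring

def A : E →L[ℂ] E := Complex.I • Sd d1
def fA : C(J, ℂ) := Complex.I • fd d1
def B : E →L[ℂ] E := (-(8 * Complex.I)) • Sd d2
def fB : C(J, ℂ) := (-(8 * Complex.I)) • fd d2

theorem fA_apply (x : J) : fA x = Complex.I * (x : ℝ) := by
  rw [fA, ContinuousMap.smul_apply, fd1, smul_eq_mul]

theorem fB_apply (x : J) : fB x = -Complex.I / (x : ℝ) := by
  have hx : ((x : ℝ) : ℂ) ≠ 0 := by exact_mod_cast (J_pos x).ne'
  rw [fB, ContinuousMap.smul_apply, fd2, smul_eq_mul]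
  push_cast
  field_simp

theorem rel_A : Rel A fA := (rel_Sd d1).smul _
theorem rel_B : Rel B fB := (rel_Sd d2).smul _

theorem fAB : fA * fB = 1 := by
  ext x
  have hx : ((x : ℝ) : ℂ) ≠ 0 := by exact_mod_cast (J_pos x).ne'
  rw [ContinuousMap.mul_apply, fA_apply, fB_apply, ContinuousMap.one_apply]
  field_simp
  rw [Complex.I_sq]; norm_num

theorem AB : A * B = 1 := (rel_A.mul rel_B).unique (by rw [fAB]; exact rel_one)
theorem BA : B * A = 1 := (rel_B.mul rel_A).unique (by rw [mul_comm, fAB]; exact rel_one)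

theorem exp_apply (f : C(J, ℂ)) (x : J) : (NormedSpace.exp f) x = Complex.exp (f x) := by
  have h1 : HasSum (fun n : ℕ => ((n.factorial⁻¹ : ℂ) • f ^ n) x) ((NormedSpace.exp f) x) :=
    (NormedSpace.exp_series_hasSum_exp' (𝕂 := ℂ) f).mapL (ContinuousMap.evalCLM ℂ x)
  have h2 := NormedSpace.exp_series_hasSum_exp' (𝕂 := ℂ) (f x)
  rw [Complex.exp_eq_exp_ℂ]
  exact h1.unique (hs (fun n => by simp) h2)

theorem expA (r : ℝ) : NormedSpace.exp ((r : ℂ) • A) = TE (r, 0) := by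
  refine (rel_A.smul (r : ℂ)).exp.unique ?_
  have : NormedSpace.exp ((r : ℂ) • fA) = ker (r, 0) := by
    ext x
    rw [exp_apply, ker_apply, ContinuousMap.smul_apply, fA_apply]
    congr 1
    simp
    ring
  rw [this]
  exact rel_TE _

theorem expB (r : ℝ) : NormedSpace.exp ((r : ℂ) • B) = TE (0, r) := by
  refine (rel_B.smul (r : ℂ)).exp.unique ?_
  have : NormedSpace.exp ((r : ℂ) • fB) = ker (0, r) := by
    ext x
    rw [exp_apply, ker_apply, ContinuousMap.smul_apply, fB_apply]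
    congr 1
    simp
    ring
  rw [this]
  exact rel_TE _

theorem gen_tendsto (P : E →L[ℂ] E) (T : ℝ → E →L[ℂ] E) (hT : ∀ r : ℝ, NormedSpace.exp ((r : ℂ) • P) = T r) :
    (∀ x, Continuous fun t => T t x) ∧
    ∀ x y : E, Tendsto (fun t : ℝ => t⁻¹ • (T t x - x)) (𝓝[>] 0) (𝓝 y) ↔ P x = y := by
  have hd : ∀ t : ℝ, HasDerivAt T (NormedSpace.exp ((t : ℂ) • P) * P) t := by
    intro t
    have h1 := (hasDerivAt_exp_smul_const (𝕂 := ℂ) P (t : ℂ)).scomp t (Complex.ofRealCLM.hasDerivAt)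
    have h2 : ((fun u : ℂ => NormedSpace.exp (u • P)) ∘ Complex.ofReal) = T := funext hT
    rw [h2] at h1
    refine h1.congr_deriv ?_
    simp
  have hc : Continuous T := continuous_iff_continuousAt.mpr fun t => (hd t).continuousAt
  have hev : ∀ x : E, Continuous fun Q : E →L[ℂ] E => Q x := fun x => (ContinuousLinearMap.apply ℂ E x).continuous
  refine ⟨fun x => (hev x).comp hc, fun x y => ?_⟩
  have hT0 : T 0 = 1 := by
    rw [← hT 0]; simp
  have h1 := (hd 0).tendsto_slope_zero_right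
  simp only [zero_add, Complex.ofReal_zero, zero_smul, NormedSpace.exp_zero, one_mul, hT0] at h1
  have h2 : Tendsto (fun t : ℝ => t⁻¹ • (T t x - x)) (𝓝[>] 0) (𝓝 (P x)) := by
    have := ((hev x).tendsto P).comp h1
    exact this
  constructor
  · intro h
    exact tendsto_nhds_unique h2 h
  · rintro rfl; exact h2

theorem A_norm : ‖A‖ ≤ 1 / 2 := by
  rw [A, norm_smul, Complex.norm_I, one_mul]
  exact Sd_norm d1

theorem exists_R : ∃ R : E →L[ℂ] E, R * (A - 1) = 1 ∧ (A - 1) * R = 1 := by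
  have h1 : IsUnit (1 - A) := isUnit_one_sub_of_norm_lt_one (A_norm.trans_lt (by norm_num))
  obtain ⟨u, hu⟩ := h1
  refine ⟨-(↑u⁻¹ : E →L[ℂ] E), ?_, ?_⟩
  · have : A - 1 = -(u : E →L[ℂ] E) := by rw [hu]; abel
    rw [this, neg_mul_neg, Units.inv_mul]
  · have : A - 1 = -(u : E →L[ℂ] E) := by rw [hu]; abel
    rw [this, neg_mul_neg, Units.mul_inv]

def inv1 : C(J, ℂ) where
  toFun x := (Complex.I * (x : ℝ) + 1)⁻¹
  continuous_toFun := by
    apply Continuous.inv₀ (by fun_prop)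
    intro x h
    have := congrArg Complex.re h
    simp at this

theorem I_ne (x : ℝ) : Complex.I * (x : ℝ) + 1 ≠ 0 := by
  intro h
  have := congrArg Complex.re h
  simp at this

theorem inv1_mul : (fA + 1) * inv1 = 1 := by
  ext x
  rw [ContinuousMap.mul_apply, ContinuousMap.add_apply, fA_apply, ContinuousMap.one_apply]
  exact mul_inv_cancel₀ (I_ne x)

def uu : C(J, ℂ) := (fA - 1) * inv1

theorem uu_apply (x : J) : uu x = -Complex.exp (-(2 * Complex.I * Real.arctan x)) := by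
  have h0 : uu x = (Complex.I * (x : ℝ) - 1) * (Complex.I * (x : ℝ) + 1)⁻¹ := by
    rw [uu, ContinuousMap.mul_apply, ContinuousMap.sub_apply, fA_apply, ContinuousMap.one_apply]; rfl
  rw [h0]
  set y : ℝ := (x : ℝ) with hy
  have h1 : Complex.exp (-(2 * Complex.I * Real.arctan y)) =
      (Real.cos (Real.arctan y) - Complex.I * Real.sin (Real.arctan y)) ^ 2 := by
    have e1 : -(2 * Complex.I * (Real.arctan y : ℂ)) = ((2 : ℕ) : ℂ) * (((-Real.arctan y : ℝ) : ℂ) * Complex.I) := by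
      push_cast; ring
    rw [e1, Complex.exp_nat_mul, Complex.exp_mul_I]
    push_cast
    rw [Complex.cos_neg, Complex.sin_neg]
    ring
  have hq : (0:ℝ) < 1 + y ^ 2 := by positivity
  have hs2 : √(1 + y ^ 2) ^ 2 = 1 + y ^ 2 := Real.sq_sqrt hq.le
  have h2 : (Real.cos (Real.arctan y) - Complex.I * Real.sin (Real.arctan y)) ^ 2 =
      (1 - Complex.I * y) ^ 2 / ((1 + y ^ 2 : ℝ) : ℂ) := by
    rw [Real.cos_arctan, Real.sin_arctan,
      show ((1 + y ^ 2 : ℝ) : ℂ) = ((√(1 + y ^ 2) : ℝ) : ℂ) ^ 2 from by exact_mod_cast hs2.symm]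
    have h3 : ((√(1 + y ^ 2) : ℝ) : ℂ) ≠ 0 := by
      have := Real.sqrt_pos.mpr hq
      exact_mod_cast this.ne'
    push_cast
    field_simp
  rw [h1, h2]
  have h4 : ((1 + y ^ 2 : ℝ) : ℂ) = (1 - Complex.I * y) * (1 + Complex.I * y) := by
    push_cast
    linear_combination ((y:ℂ) ^ 2) * Complex.I_sq
  have h5 : (1 - Complex.I * (y:ℂ)) ≠ 0 := by
    intro h
    have := congrArg Complex.re h
    simp at this
  have h6 := I_ne y
  have h7 : (1 + Complex.I * (y:ℂ)) ≠ 0 := by rwa [add_comm]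
  rw [h4, pow_two, mul_div_mul_left _ _ h5, ← div_eq_mul_inv, div_eq_iff h6]
  field_simp
  ring

theorem Inte_bound (n : ℕ) (hn : 0 < n) (δ : ℝ) (hδ : 0 < δ) (p : ℝ × ℝ) :
    ‖Inte (uu ^ n * ker p)‖ ≤ 2 * δ + 2 * ((1 + 2 * Real.pi) / √(n * δ)) := by
  have h1 : ∀ x : J, (uu ^ n * ker p) x = (-1) ^ n * Complex.exp (Complex.I * th n p.1 p.2 (x : ℝ)) := by
    intro x
    rw [ContinuousMap.mul_apply, ContinuousMap.pow_apply, uu_apply, ker_apply, neg_pow, ← Complex.exp_nat_mul,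
      mul_assoc, ← Complex.exp_add]
    congr 2
    simp only [th]
    push_cast
    ring
  rw [Inte_apply]
  simp_rw [h1]
  have h2 : ∫ x : J, (-1 : ℂ) ^ n * Complex.exp (Complex.I * th n p.1 p.2 (x : ℝ)) ∂mu =
      ∫ x in J, (-1 : ℂ) ^ n * Complex.exp (Complex.I * th n p.1 p.2 x) :=
    integral_subtype_comap measurableSet_Icc (fun x => (-1 : ℂ) ^ n * Complex.exp (Complex.I * th n p.1 p.2 x))
  rw [h2, integral_const_mul, norm_mul, norm_pow, norm_neg, norm_one, one_pow, one_mul,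
    integral_Icc_eq_integral_Ioc, ← intervalIntegral.integral_of_le (by norm_num)]
  exact main_bound n p.1 p.2 δ (by exact_mod_cast hn) hδ

theorem H'_bound (n : ℕ) (hn : 0 < n) (δ : ℝ) (hδ : 0 < δ) :
    ‖H' (uu ^ n)‖ ≤ 2 * δ + 2 * ((1 + 2 * Real.pi) / √(n * δ)) := by
  rw [← toW_norm, H'_coe]
  apply lp.norm_le_of_forall_le (by positivity)
  intro p
  rw [H_apply]
  exact Inte_bound n hn δ hδ p

theorem H'_one : 1 / 4 ≤ ‖H' 1‖ := by
  rw [← toW_norm, H'_coe]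
  have h1 := lp.norm_apply_le_norm (p := ⊤) (by simp) (H 1) (0, 0)
  refine le_trans ?_ h1
  rw [H_apply, show ((0, 0) : ℝ × ℝ) = 0 from rfl, ker_zero, mul_one, Inte_apply]
  simp only [ContinuousMap.one_apply]
  rw [integral_const, J_vol]
  simp

end

end Pool.Agent.H14.Cayley
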