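import Mathlib
import Pool.Agent.H14.Cay3

open MeasureTheory Filter Topology

namespace Pool.Agent.H14.Cayley

noncomputable section

set_option synthInstance.maxHeartbeats 400000
set_option maxHeartbeats 4000000

theorem V_step {V : E →L[ℂ] E} (hV : V * (A - 1) = A + 1) (φ : C(J, ℂ)) : V (H' (uu * φ)) = H' φ := by
  have h1 : (A - 1) (H' (inv1 * φ)) = H' (uu * φ) := by
    have := (rel_A.sub rel_one) (inv1 * φ)
    rw [this, uu, mul_assoc]
  have h2 : (A + 1) (H' (inv1 * φ)) = H' φ := by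
    have := (rel_A.add rel_one) (inv1 * φ)
    rw [this, ← mul_assoc, inv1_mul, one_mul]
  have h3 := congrArg (fun P : E →L[ℂ] E => P (H' (inv1 * φ))) hV
  simp only [mul_apply_eq_comp] at h3
  rw [h1, h2] at h3
  exact h3

theorem V_pow {V : E →L[ℂ] E} (hV : V * (A - 1) = A + 1) (n : ℕ) : (V ^ n) (H' (uu ^ n)) = H' 1 := by
  induction n with
  | zero => simp
  | succ n ih =>
    rw [pow_succ, mul_apply_eq_comp, pow_succ', V_step hV, ih]

theorem not_bdd {V : E →L[ℂ] E} (hV : V * (A - 1) = A + 1) : ¬ ∃ C : ℝ, ∀ n : ℕ, ‖V ^ n‖ ≤ C := by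
  rintro ⟨C, hC⟩
  have hC0 : 0 ≤ C := (norm_nonneg _).trans (hC 0)
  set δ : ℝ := 1 / (32 * (C + 1)) with hδ
  have hδ0 : 0 < δ := by positivity
  set M : ℝ := 32 * (1 + 2 * Real.pi) * (C + 1) with hM
  have hpi := Real.pi_pos
  have hM0 : 0 < M := by positivity
  obtain ⟨n, hn⟩ := exists_nat_gt (M ^ 2 / δ)
  have hn0 : (0:ℝ) < n := lt_trans (by positivity) hn
  have hnn : 0 < n := by exact_mod_cast hn0
  have h1 : M ≤ √(n * δ) := by
    apply Real.le_sqrt_of_sq_le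
    rw [div_lt_iff₀ hδ0] at hn
    exact hn.le
  have h2 : (1 + 2 * Real.pi) / √(n * δ) ≤ 1 / (32 * (C + 1)) := by
    rw [div_le_div_iff₀ (lt_of_lt_of_le hM0 h1) (by positivity)]
    rw [hM] at h1
    linarith
  have h3 := H'_bound n hnn δ hδ0
  have h4 : ‖H' (uu ^ n)‖ ≤ 1 / (8 * (C + 1)) := by
    have e : 1 / (8 * (C + 1)) = 2 * δ + 2 * (1 / (32 * (C + 1))) := by
      rw [hδ]; field_simp; norm_num
    rw [e]
    linarith
  have h5 := (V ^ n).le_opNorm (H' (uu ^ n))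
  rw [V_pow hV] at h5
  have h6 := H'_one
  have h7 : ‖V ^ n‖ * ‖H' (uu ^ n)‖ ≤ C * (1 / (8 * (C + 1))) :=
    mul_le_mul (hC n) h4 (norm_nonneg _) hC0
  have h8 : C * (1 / (8 * (C + 1))) ≤ 1 / 8 := by
    rw [mul_one_div, div_le_div_iff₀ (by positivity) (by norm_num)]
    linarith
  linarith

theorem main :
    ¬ (∀ (E : Type) [NormedAddCommGroup E] [NormedSpace ℂ E] [CompleteSpace E]
      (T S : ℝ → E →L[ℂ] E),
      T 0 = 1 → S 0 = 1 →
      (∀ s t : ℝ, 0 ≤ s → 0 ≤ t → T (s + t) = T s * T t) →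
      (∀ s t : ℝ, 0 ≤ s → 0 ≤ t → S (s + t) = S s * S t) →
      (∀ x : E, ContinuousOn (fun t : ℝ => T t x) (Set.Ici 0)) →
      (∀ x : E, ContinuousOn (fun t : ℝ => S t x) (Set.Ici 0)) →
      (∃ M : ℝ, ∀ t : ℝ, 0 ≤ t → ‖T t‖ ≤ M) →
      (∃ M : ℝ, ∀ t : ℝ, 0 ≤ t → ‖S t‖ ≤ M) →
      (∀ x y : E,
        Tendsto (fun t : ℝ => t⁻¹ • (T t x - x)) (𝓝[>] 0) (𝓝 y) ↔
          Tendsto (fun t : ℝ => t⁻¹ • (S t y - y)) (𝓝[>] 0) (𝓝 x)) →
      ∀ V : E →L[ℂ] E,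
        (∀ x y : E, Tendsto (fun t : ℝ => t⁻¹ • (T t x - x)) (𝓝[>] 0) (𝓝 y) →
          V (y - x) = y + x) →
        ∃ C : ℝ, ∀ n : ℕ, ‖V ^ n‖ ≤ C) := by
  intro h
  obtain ⟨R, hR1, hR2⟩ := exists_R
  have hV : ((A + 1) * R) * (A - 1) = A + 1 := by rw [mul_assoc, hR1, mul_one]
  have hT := gen_tendsto A (fun r => TE (r, 0)) expA
  have hS := gen_tendsto B (fun r => TE (0, r)) expB
  refine not_bdd hV (h E (fun r => TE (r, 0)) (fun r => TE (0, r)) TE_zero TE_zero ?_ ?_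
    (fun x => (hT.1 x).continuousOn) (fun x => (hS.1 x).continuousOn)
    ⟨1, fun t _ => TE_norm _⟩ ⟨1, fun t _ => TE_norm _⟩ ?_ ((A + 1) * R) ?_)
  · intro s t _ _
    rw [← TE_add]; simp
  · intro s t _ _
    rw [← TE_add]; simp
  · intro x y
    rw [hT.2, hS.2]
    constructor
    · rintro rfl
      have := congrArg (fun P : E →L[ℂ] E => P x) BA
      exact this
    · rintro rfl
      have := congrArg (fun P : E →L[ℂ] E => P y) AB
      exact this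
  · intro x y hxy
    rw [hT.2] at hxy
    subst hxy
    have := congrArg (fun P : E →L[ℂ] E => P x) hV
    exact this

end

end Pool.Agent.H14.Cayley
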