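import Mathlib

set_option autoImplicit false

open MeasureTheory Set

namespace Pool.Agent.Results.MP_410e25_an.Decomposition

/-- The interval `(-A, A)` in `ℝ`, for `A ∈ (0, ∞]`. -/
def Iv (A : EReal) : Set ℝ := {x : ℝ | -A < (x : EReal) ∧ (x : EReal) < A}

/-- `|∑ c_l f(l)| ≤ C sup_t |∑ c_l e^{i l t}|` for all finite families of (distinct) exponents
`l ∈ (-A, A)` and all coefficients `c_l ∈ ℂ`; that is, `‖Φ_f‖ ≤ C`. -/
def BoundedBy (A : EReal) (f : ℝ → ℂ) (C : ℝ) : Prop :=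
  ∀ (s : Finset ℝ) (c : ℝ → ℂ), (∀ l ∈ s, l ∈ Iv A) →
    ‖∑ l ∈ s, c l * f l‖ ≤ C * ⨆ t : ℝ, ‖∑ l ∈ s, c l * Complex.exp (Complex.I * l * t)‖

/-- `f ∈ R_A` (only the values of `f` on `(-A, A)` matter). -/
def MemR (A : EReal) (f : ℝ → ℂ) : Prop := ∃ C : ℝ, BoundedBy A f C

/-- `f ∈ R_A^c`: `f ∈ R_A` and `f` is continuous on `(-A, A)`. -/
def MemRc (A : EReal) (f : ℝ → ℂ) : Prop := MemR A f ∧ ContinuousOn f (Iv A)

/-- `f ∈ R_A^m`: `f ∈ R_A` and `f` is Lebesgue measurable on `(-A, A)` (every preimage of a Borel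
set is Lebesgue measurable, i.e. null-measurable). -/
def MemRm (A : EReal) (f : ℝ → ℂ) : Prop :=
  MemR A f ∧ NullMeasurable f ((volume : Measure ℝ).restrict (Iv A))

end Pool.Agent.Results.MP_410e25_an.Decomposition
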