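import Mathlib
import Pool.Agent.H14.DecompDefs

set_option autoImplicit false

open MeasureTheory Filter Topology Set

namespace Pool.Agent.Results.MP_410e25_an.Decomposition

/-- `e^{ixt}` -/
noncomputable def ex (x t : ℝ) : ℂ := Complex.exp (Complex.I * x * t)

theorem ex_eq (x t : ℝ) : ex x t = Complex.exp (Complex.I * ((x * t : ℝ) : ℂ)) := by
  rw [ex]; congr 1; push_cast; ring

theorem norm_ex (x t : ℝ) : ‖ex x t‖ = 1 := by
  rw [ex_eq, mul_comm, Complex.norm_exp_ofReal_mul_I]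

theorem ex_add (x y t : ℝ) : ex (x + y) t = ex x t * ex y t := by
  rw [ex, ex, ex, ← Complex.exp_add]; congr 1; push_cast; ring

theorem ex_add' (x t u : ℝ) : ex x (t + u) = ex x t * ex x u := by
  rw [ex, ex, ex, ← Complex.exp_add]; congr 1; push_cast; ring

theorem ex_sub_le (x y t : ℝ) : ‖ex x t - ex y t‖ ≤ |x - y| * |t| := by
  have h : ex x t - ex y t = ex y t * (Complex.exp (Complex.I * (((x - y) * t : ℝ) : ℂ)) - 1) := by
    have : x = y + (x - y) := by ring
    rw [this, ex_add, ← this, ex_eq (x - y)]; ring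
  rw [h, norm_mul, norm_ex, one_mul]
  refine Real.norm_exp_I_mul_ofReal_sub_one_le.trans ?_
  rw [Real.norm_eq_abs, abs_mul]

theorem continuous_ex (t : ℝ) : Continuous fun x : ℝ => ex x t := by
  unfold ex; fun_prop

theorem continuous_ex' (x : ℝ) : Continuous fun t : ℝ => ex x t := by
  unfold ex; fun_prop

/-- Riemann sum. -/
noncomputable def P (g : ℝ → ℂ) (B D s : ℝ) (N : ℕ) (t : ℝ) : ℂ :=
  ∑ k ∈ Finset.range N, (D : ℂ) * (g (-B + k * D + s) * ex (-B + k * D + s) t)

theorem riemann_small (g : ℝ → ℂ) (L M : ℝ) (hL : ∀ x y, ‖g x - g y‖ ≤ L * |x - y|)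
    (hM : ∀ x, ‖g x‖ ≤ M) (hgc : Continuous g) (B D s : ℝ) (N : ℕ) (hD : 0 < D)
    (hN : (N : ℝ) * D = 2 * B) (hs : 0 ≤ s) (hs' : s ≤ D) (t : ℝ) :
    ‖P g B D s N t - ∫ x in (-B)..B, g x * ex x t‖ ≤ 2 * B * D * (L + M * |t|) := by
  have hM0 : 0 ≤ M := (norm_nonneg _).trans (hM 0)
  have hL0 : 0 ≤ L := by
    have := (norm_nonneg _).trans (hL 1 0)
    simpa using this
  set h : ℝ → ℂ := fun x => g x * ex x t with hh
  have hc : Continuous h := hgc.mul (continuous_ex t)
  have hLip : ∀ x y, ‖h x - h y‖ ≤ (L + M * |t|) * |x - y| := by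
    intro x y
    have e1 : h x - h y = (g x - g y) * ex x t + g y * (ex x t - ex y t) := by
      simp only [hh]; ring
    rw [e1]
    refine (norm_add_le _ _).trans ?_
    rw [norm_mul, norm_mul, norm_ex, mul_one]
    have e2 := hL x y
    have e3 := hM y
    have e4 := ex_sub_le x y t
    have e5 : ‖g y‖ * ‖ex x t - ex y t‖ ≤ M * (|x - y| * |t|) :=
      mul_le_mul e3 e4 (norm_nonneg _) hM0
    nlinarith
  have hsplit : ∑ k ∈ Finset.range N, ∫ x in (-B + (k : ℝ) * D)..(-B + ((k + 1 : ℕ) : ℝ) * D), h x =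
      ∫ x in (-B)..B, h x := by
    have := intervalIntegral.sum_integral_adjacent_intervals (f := h) (μ := volume)
      (a := fun k : ℕ => -B + (k : ℝ) * D) (n := N)
      (fun k _ => hc.intervalIntegrable _ _)
    rw [this]
    congr 1
    · simp
    · rw [hN]; ring
  rw [← hsplit, P, ← Finset.sum_sub_distrib]
  refine (norm_sum_le _ _).trans ?_
  have hterm : ∀ k ∈ Finset.range N,
      ‖(D : ℂ) * (g (-B + k * D + s) * ex (-B + k * D + s) t) -
        ∫ x in (-B + (k : ℝ) * D)..(-B + ((k + 1 : ℕ) : ℝ) * D), h x‖ ≤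
        (L + M * |t|) * D * D := by
    intro k _
    have e1 : (D : ℂ) * (g (-B + k * D + s) * ex (-B + k * D + s) t) =
        ∫ x in (-B + (k : ℝ) * D)..(-B + ((k + 1 : ℕ) : ℝ) * D), h (-B + k * D + s) := by
      rw [intervalIntegral.integral_const]
      have : (-B + ((k + 1 : ℕ) : ℝ) * D) - (-B + (k : ℝ) * D) = D := by push_cast; ring
      rw [this, Complex.real_smul]
    rw [e1, ← intervalIntegral.integral_sub (by simp) (hc.intervalIntegrable _ _)]
    have hle : -B + (k : ℝ) * D ≤ -B + ((k + 1 : ℕ) : ℝ) * D := by push_cast; nlinarith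
    have e2 := intervalIntegral.norm_integral_le_of_norm_le_const
      (f := fun x => h (-B + k * D + s) - h x) (C := (L + M * |t|) * D)
      (a := -B + (k : ℝ) * D) (b := -B + ((k + 1 : ℕ) : ℝ) * D) (by
        intro x hx
        rw [uIoc_of_le hle] at hx
        refine (hLip _ _).trans ?_
        have : |(-B + k * D + s) - x| ≤ D := by
          rw [abs_le]
          have h1 := hx.1
          have h2 := hx.2
          push_cast at h2
          constructor <;> linarith
        have h3 : 0 ≤ L + M * |t| := by positivity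
        nlinarith)
    refine e2.trans (le_of_eq ?_)
    have : (-B + ((k + 1 : ℕ) : ℝ) * D) - (-B + (k : ℝ) * D) = D := by push_cast; ring
    rw [this, abs_of_pos hD]
  refine (Finset.sum_le_sum hterm).trans (le_of_eq ?_)
  rw [Finset.sum_const, Finset.card_range, nsmul_eq_mul]
  calc (N : ℝ) * ((L + M * |t|) * D * D) = (N * D) * D * (L + M * |t|) := by ring
    _ = 2 * B * D * (L + M * |t|) := by rw [hN]

/-- Summation by parts. -/
theorem parts (b : ℕ → ℂ) (z u₀ : ℂ) (hz : ‖z‖ = 1) (hu : ‖u₀‖ = 1) (N : ℕ) (c : ℝ)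
    (h0 : b 0 = 0) (hN : b (N + 1) = 0) (hb : ∀ k, ‖b (k + 1) - b k‖ ≤ c) :
    ‖(1 - z) * ∑ k ∈ Finset.range N, b (k + 1) * (u₀ * z ^ k)‖ ≤ (N + 1) * c := by
  have key : (1 - z) * ∑ k ∈ Finset.range N, b (k + 1) * (u₀ * z ^ k) =
      ∑ k ∈ Finset.range (N + 1), (b (k + 1) - b k) * (u₀ * z ^ k) := by
    have e1 : ∑ k ∈ Finset.range (N + 1), b (k + 1) * (u₀ * z ^ k) =
        ∑ k ∈ Finset.range N, b (k + 1) * (u₀ * z ^ k) := by
      rw [Finset.sum_range_succ, hN, zero_mul, add_zero]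
    have e2 : ∑ k ∈ Finset.range (N + 1), b k * (u₀ * z ^ k) =
        z * ∑ k ∈ Finset.range N, b (k + 1) * (u₀ * z ^ k) := by
      rw [Finset.sum_range_succ', h0, zero_mul, add_zero, Finset.mul_sum]
      refine Finset.sum_congr rfl fun k _ => ?_
      ring
    simp only [sub_mul, Finset.sum_sub_distrib]
    rw [e1, e2]
    ring
  rw [key]
  refine (norm_sum_le _ _).trans ?_
  have : ∀ k ∈ Finset.range (N + 1), ‖(b (k + 1) - b k) * (u₀ * z ^ k)‖ ≤ c := by
    intro k _
    rw [norm_mul, norm_mul, norm_pow, hz, hu, one_pow, mul_one, mul_one]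
    exact hb k
  refine (Finset.sum_le_sum this).trans (le_of_eq ?_)
  rw [Finset.sum_const, Finset.card_range, nsmul_eq_mul]
  push_cast
  ring

theorem ex_nat_mul (k : ℕ) (D t : ℝ) : ex (k * D) t = ex D t ^ k := by
  rw [ex, ex, ← Complex.exp_nat_mul]; congr 1; push_cast; ring

theorem riemann_large (g : ℝ → ℂ) (L : ℝ) (hL : ∀ x y, ‖g x - g y‖ ≤ L * |x - y|)
    (B D s : ℝ) (N : ℕ) (hD : 0 < D) (hN : (N : ℝ) * D = 2 * B) (hs : 0 < s) (hs' : s < D)
    (hsupp : ∀ x, x ∉ Icc (-B) B → g x = 0) (t : ℝ) :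
    ‖1 - ex D t‖ * ‖P g B D s N t‖ ≤ D * ((2 * B + D) * L) := by
  have h1 := parts (fun k : ℕ => g (-B + ((k : ℝ) - 1) * D + s)) (ex D t) (ex (-B + s) t)
    (norm_ex _ _) (norm_ex _ _) N (L * D) (hsupp _ (by
      intro h
      have := h.1
      push_cast at this
      linarith)) (hsupp _ (by
      intro h
      have := h.2
      push_cast at this
      nlinarith)) (by
      intro k
      refine (hL _ _).trans (le_of_eq ?_)
      have : (-B + (((k + 1 : ℕ) : ℝ) - 1) * D + s) - (-B + ((k : ℝ) - 1) * D + s) = D := by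
        push_cast; ring
      rw [this, abs_of_pos hD])
  have h2 : P g B D s N t = (D : ℂ) * ∑ k ∈ Finset.range N,
      g (-B + (((k + 1 : ℕ) : ℝ) - 1) * D + s) * (ex (-B + s) t * ex D t ^ k) := by
    rw [P, Finset.mul_sum]
    refine Finset.sum_congr rfl fun k _ => ?_
    have e1 : (-B + (((k + 1 : ℕ) : ℝ) - 1) * D + s) = -B + k * D + s := by push_cast; ring
    rw [e1, ← ex_nat_mul, ← ex_add]
    congr 3
    ring
  rw [h2, norm_mul, Complex.norm_real, Real.norm_of_nonneg hD.le]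
  rw [norm_mul] at h1
  calc ‖1 - ex D t‖ * (D * ‖∑ k ∈ Finset.range N,
      g (-B + (((k + 1 : ℕ) : ℝ) - 1) * D + s) * (ex (-B + s) t * ex D t ^ k)‖)
      = D * (‖1 - ex D t‖ * ‖∑ k ∈ Finset.range N,
      g (-B + (((k + 1 : ℕ) : ℝ) - 1) * D + s) * (ex (-B + s) t * ex D t ^ k)‖) := by ring
    _ ≤ D * (((N : ℝ) + 1) * (L * D)) := mul_le_mul_of_nonneg_left h1 hD.le
    _ = D * ((2 * B + D) * L) := by rw [← hN]; ring

theorem P_periodic (g : ℝ → ℂ) (B D s : ℝ) (N : ℕ) (hD : 0 < D) (t : ℝ) (m : ℤ) :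
    ‖P g B D s N (t + 2 * Real.pi * m / D)‖ = ‖P g B D s N t‖ := by
  have h : P g B D s N (t + 2 * Real.pi * m / D) =
      ex (-B + s) (2 * Real.pi * m / D) * P g B D s N t := by
    rw [P, P, Finset.mul_sum]
    refine Finset.sum_congr rfl fun k _ => ?_
    have e1 : ex (-B + k * D + s) (t + 2 * Real.pi * m / D) =
        ex (-B + k * D + s) t * ex (-B + s) (2 * Real.pi * m / D) := by
      rw [ex_add']
      congr 1
      have e2 : (-B + (k : ℝ) * D + s) = (-B + s) + k * D := by ring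
      rw [e2, ex_add]
      have e3 : ex ((k : ℝ) * D) (2 * Real.pi * m / D) = 1 := by
        rw [ex, Complex.exp_eq_one_iff]
        refine ⟨k * m, ?_⟩
        have : (D : ℂ) ≠ 0 := by exact_mod_cast hD.ne'
        push_cast
        field_simp
      rw [e3, mul_one]
    rw [e1]
    ring
  rw [h, norm_mul, norm_ex, one_mul]

/-- The uniform bound for the Riemann sums. -/
theorem riemann_bound (g : ℝ → ℂ) (L M : ℝ) (hL : ∀ x y, ‖g x - g y‖ ≤ L * |x - y|)
    (hM : ∀ x, ‖g x‖ ≤ M) (hgc : Continuous g) (B : ℝ) (hB : 0 < B)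
    (hsupp : ∀ x, x ∉ Icc (-B) B → g x = 0) (S : ℝ) (hS : ∀ t, ‖∫ x in (-B)..B, g x * ex x t‖ ≤ S)
    (η : ℝ) (hη : 0 < η) :
    ∃ N : ℕ, 0 < N ∧ ∀ s, 0 < s → s < 2 * B / N → ∀ t, ‖P g B (2 * B / N) s N t‖ ≤ S + η := by
  have hM0 : 0 ≤ M := (norm_nonneg _).trans (hM 0)
  have hL0 : 0 ≤ L := by
    have := (norm_nonneg _).trans (hL 1 0)
    simpa using this
  have hS0 : 0 ≤ S := (norm_nonneg _).trans (hS 0)
  have hpi := Real.pi_pos
  set T : ℝ := 2 * Real.pi * B * L / η + 1 with hT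
  have hT0 : 0 < T := by positivity
  obtain ⟨N, hN⟩ := exists_nat_gt (4 * B ^ 2 * (L + M * T) / η)
  have hN0 : (0 : ℝ) < N := lt_of_le_of_lt (by positivity) hN
  have hN0' : 0 < N := by exact_mod_cast hN0
  have hN1 : (1 : ℝ) ≤ N := by exact_mod_cast hN0'
  refine ⟨N, hN0', ?_⟩
  intro s hs hs' t
  set D : ℝ := 2 * B / N with hDdef
  have hD : 0 < D := by positivity
  have hND : (N : ℝ) * D = 2 * B := by rw [hDdef]; field_simp
  have hD2 : D ≤ 2 * B := by
    rw [hDdef, div_le_iff₀ hN0]; nlinarith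
  -- reduce `t`
  set m : ℤ := round (t * D / (2 * Real.pi)) with hm
  set t' : ℝ := t - 2 * Real.pi * m / D with ht'
  have hper := P_periodic g B D s N hD t' m
  rw [ht', sub_add_cancel] at hper
  rw [hper, ← ht']
  have htb : |D * t'| ≤ Real.pi := by
    have h1 := abs_sub_round (t * D / (2 * Real.pi))
    rw [← hm] at h1
    have h2 : D * t' = (t * D / (2 * Real.pi) - m) * (2 * Real.pi) := by
      rw [ht']; field_simp
    rw [h2, abs_mul, abs_of_pos (by positivity : (0 : ℝ) < 2 * Real.pi)]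
    nlinarith
  rcases le_total |t'| T with hcase | hcase
  · have h1 := riemann_small g L M hL hM hgc B D s N hD hND hs.le hs'.le t'
    have h2 : 2 * B * D * (L + M * |t'|) ≤ η := by
      have h3 : M * |t'| ≤ M * T := mul_le_mul_of_nonneg_left hcase hM0
      have h4 : 2 * B * D * (L + M * |t'|) ≤ 2 * B * D * (L + M * T) := by
        apply mul_le_mul_of_nonneg_left _ (by positivity)
        linarith
      refine h4.trans ?_
      rw [hDdef]
      rw [div_lt_iff₀ hη] at hN
      have h5 : 2 * B * (2 * B / N) * (L + M * T) = 4 * B ^ 2 * (L + M * T) / N := by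
        field_simp; ring
      rw [h5, div_le_iff₀ hN0]
      linarith
    have h6 := norm_le_norm_add_norm_sub' (P g B D s N t') (∫ x in (-B)..B, g x * ex x t')
    have h7 := hS t'
    have h8 : ‖(∫ x in (-B)..B, g x * ex x t') - P g B D s N t'‖ =
      ‖P g B D s N t' - (∫ x in (-B)..B, g x * ex x t')‖ := norm_sub_rev _ _
    linarith
  · have h1 := riemann_large g L hL B D s N hD hND hs hs' hsupp t'
    have h2 : (2 / Real.pi) * (D * T) ≤ ‖1 - ex D t'‖ := by
      rw [norm_sub_rev, ex_eq, Complex.norm_exp_I_mul_ofReal_sub_one, norm_mul, Real.norm_eq_abs,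
        Real.norm_eq_abs, abs_two]
      have h3 := Real.mul_abs_le_abs_sin (x := D * t' / 2) (by
        rw [abs_div, abs_two]; linarith)
      rw [abs_div, abs_two, abs_mul, abs_of_pos hD] at h3
      have h4 : D * T ≤ D * |t'| := mul_le_mul_of_nonneg_left hcase hD.le
      have h5 : (2 / Real.pi) * (D * T) ≤ (2 / Real.pi) * (D * |t'|) :=
        mul_le_mul_of_nonneg_left h4 (by positivity)
      have h6 : 2 / Real.pi * (D * |t'| / 2) = (2 / Real.pi * (D * |t'|)) / 2 := by ring
      rw [h6] at h3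
      linarith
    have h7 : (2 / Real.pi) * (D * T) * ‖P g B D s N t'‖ ≤ D * ((2 * B + D) * L) :=
      (mul_le_mul_of_nonneg_right h2 (norm_nonneg _)).trans h1
    have h8 : D * ((2 * B + D) * L) ≤ D * (4 * B * L) := by
      apply mul_le_mul_of_nonneg_left _ hD.le
      nlinarith
    have h9 : (2 / Real.pi) * T * ‖P g B D s N t'‖ ≤ 4 * B * L := by
      have h10 : D * ((2 / Real.pi) * T * ‖P g B D s N t'‖) ≤ D * (4 * B * L) := by
        calc D * ((2 / Real.pi) * T * ‖P g B D s N t'‖)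
            = (2 / Real.pi) * (D * T) * ‖P g B D s N t'‖ := by ring
          _ ≤ _ := h7.trans h8
      exact le_of_mul_le_mul_left h10 hD
    have h11 : T * ‖P g B D s N t'‖ ≤ 2 * Real.pi * B * L := by
      have h12 : (2 / Real.pi) * T * ‖P g B D s N t'‖ = (2 / Real.pi) * (T * ‖P g B D s N t'‖) := by
        ring
      rw [h12, div_mul_eq_mul_div, div_le_iff₀ hpi] at h9
      linarith
    have h13 : ‖P g B D s N t'‖ ≤ η := by
      have h14 : 2 * Real.pi * B * L ≤ T * η := by
        rw [hT, add_mul, div_mul_cancel₀ _ hη.ne']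
        linarith
      exact le_of_mul_le_mul_left (h11.trans h14) hT0
    linarith

/-! ### The key inequality -/

theorem zero_mem_Iv {A : EReal} (hA : 0 < A) : (0 : ℝ) ∈ Iv A := by
  constructor
  · rw [EReal.neg_lt_comm]; simpa using hA
  · simpa using hA

theorem BoundedBy.norm_le {A : EReal} {f : ℝ → ℂ} {C : ℝ} (h : BoundedBy A f C) {x : ℝ}
    (hx : x ∈ Iv A) : ‖f x‖ ≤ C := by
  have h1 := h {x} (fun _ => 1) (by intro l hl; rw [Finset.mem_singleton] at hl; rwa [hl])
  simp only [Finset.sum_singleton, one_mul] at h1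
  have h2 : ∀ t : ℝ, ‖Complex.exp (Complex.I * x * t)‖ = 1 := fun t => norm_ex x t
  simp only [h2, ciSup_const, mul_one] at h1
  exact h1

theorem BoundedBy.nonneg {A : EReal} (hA : 0 < A) {f : ℝ → ℂ} {C : ℝ} (h : BoundedBy A f C) :
    0 ≤ C := (norm_nonneg _).trans (h.norm_le (zero_mem_Iv hA))

theorem measurableSet_Iv (A : EReal) : MeasurableSet (Iv A) := by
  apply MeasurableSet.inter
  · exact measurableSet_lt measurable_const measurable_coe_real_ereal
  · exact measurableSet_lt measurable_coe_real_ereal measurable_const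

theorem key_aux {A : EReal} (hA : 0 < A) {f : ℝ → ℂ} {C : ℝ} (hf : BoundedBy A f C)
    (F : ℝ → ℂ) (hF : ∀ x ∈ Iv A, F x = f x) (hFm : AEStronglyMeasurable F volume)
    (hFb : ∀ x, ‖F x‖ ≤ C)
    (g : ℝ → ℂ) (L : ℝ) (hL : ∀ x y, ‖g x - g y‖ ≤ L * |x - y|)
    (B : ℝ) (hB : 0 < B) (hBA : Icc (-B) B ⊆ Iv A)
    (hsupp : ∀ x, x ∉ Icc (-B) B → g x = 0) (S : ℝ)
    (hS : ∀ t, ‖∫ x in (-B)..B, g x * ex x t‖ ≤ S) :
    ‖∫ x in (-B)..B, g x * F x‖ ≤ C * S := by
  have hC := hf.nonneg hA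
  have hL0 : 0 ≤ L := by
    have := (norm_nonneg _).trans (hL 1 0)
    simpa using this
  have hgc : Continuous g := by
    have : LipschitzWith ⟨L, hL0⟩ g := LipschitzWith.of_dist_le_mul fun x y => by
      rw [dist_eq_norm, Real.dist_eq]; exact hL x y
    exact this.continuous
  have hM : ∀ x, ‖g x‖ ≤ L * (3 * B) := by
    intro x
    by_cases hx : x ∈ Icc (-B) B
    · have h1 := hL x (2 * B)
      rw [hsupp (2 * B) (by intro h; have := h.2; linarith), sub_zero] at h1
      refine h1.trans (mul_le_mul_of_nonneg_left ?_ hL0)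
      rw [abs_le]
      constructor <;> linarith [hx.1, hx.2]
    · rw [hsupp x hx, norm_zero]
      positivity
  have hint : ∀ a b : ℝ, IntervalIntegrable (fun x => g x * F x) volume a b := by
    intro a b
    rw [intervalIntegrable_iff]
    refine Integrable.mono' (g := fun _ => L * (3 * B) * C) (by
      rw [← IntegrableOn, integrableOn_const_iff]
      right
      rw [uIoc]
      exact measure_Ioc_lt_top)
      ((hgc.aestronglyMeasurable.mul hFm).restrict) ?_
    refine Eventually.of_forall fun x => ?_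
    rw [norm_mul]
    exact mul_le_mul (hM x) (hFb x) (norm_nonneg _) (by positivity)
  apply le_of_forall_pos_le_add
  intro ε hε
  have hη : 0 < ε / (C + 1) := by positivity
  obtain ⟨N, hN0, hN⟩ := riemann_bound g L (L * (3 * B)) hL hM hgc B hB hsupp S hS _ hη
  set η := ε / (C + 1) with hηdef
  have hN0' : (0 : ℝ) < N := by exact_mod_cast hN0
  set D : ℝ := 2 * B / N with hDdef
  have hD : 0 < D := by positivity
  have hND : (N : ℝ) * D = 2 * B := by rw [hDdef]; field_simp
  have hsplit : ∑ k ∈ Finset.range N,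
      ∫ x in (-B + (k : ℝ) * D)..(-B + ((k + 1 : ℕ) : ℝ) * D), g x * F x =
      ∫ x in (-B)..B, g x * F x := by
    have := intervalIntegral.sum_integral_adjacent_intervals (f := fun x => g x * F x)
      (μ := volume) (a := fun k : ℕ => -B + (k : ℝ) * D) (n := N) (fun k _ => hint _ _)
    rw [this]
    congr 1
    · simp
    · rw [hND]; ring
  have hshift : ∀ k : ℕ, ∫ x in (-B + (k : ℝ) * D)..(-B + ((k + 1 : ℕ) : ℝ) * D), g x * F x =
      ∫ s in (0 : ℝ)..D, g (-B + k * D + s) * F (-B + k * D + s) := by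
    intro k
    have := intervalIntegral.integral_comp_add_left (a := 0) (b := D)
      (fun x => g x * F x) (-B + k * D)
    rw [this]
    congr 1
    · simp
    · push_cast; ring
  have hintk : ∀ k : ℕ, IntervalIntegrable
      (fun s => g (-B + k * D + s) * F (-B + k * D + s)) volume 0 D := by
    intro k
    have := (hint (-B + k * D) (-B + k * D + D)).comp_add_left (-B + k * D)
    simpa using this
  have htotal : ∫ x in (-B)..B, g x * F x = ∫ s in (0 : ℝ)..D, ∑ k ∈ Finset.range N,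
      g (-B + k * D + s) * F (-B + k * D + s) := by
    rw [← hsplit, intervalIntegral.integral_finsetSum (fun k _ => hintk k)]
    exact Finset.sum_congr rfl fun k _ => hshift k
  have hpoint : ∀ s, 0 < s → s < D → ‖∑ k ∈ Finset.range N,
      g (-B + k * D + s) * F (-B + k * D + s)‖ ≤ C * ((S + η) / D) := by
    intro s hs hs'
    have hmem : ∀ k ∈ Finset.range N, -B + (k : ℝ) * D + s ∈ Icc (-B) B := by
      intro k hk
      have h1 : (k : ℝ) + 1 ≤ N := by exact_mod_cast Finset.mem_range.1 hk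
      have h2 : ((k : ℝ) + 1) * D ≤ N * D := mul_le_mul_of_nonneg_right h1 hD.le
      have h3 : 0 ≤ (k : ℝ) * D := by positivity
      constructor <;> nlinarith
    have hinj : Set.InjOn (fun k : ℕ => -B + (k : ℝ) * D + s) (Finset.range N) := by
      intro k _ l _ h
      have h1 : (k : ℝ) * D = l * D := by
        have h' : -B + (k : ℝ) * D + s = -B + (l : ℝ) * D + s := h
        linarith
      have h2 := mul_right_cancel₀ hD.ne' h1
      exact_mod_cast h2
    have h1 := hf ((Finset.range N).image fun k : ℕ => -B + (k : ℝ) * D + s) g (by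
      intro l hl
      obtain ⟨k, hk, rfl⟩ := Finset.mem_image.1 hl
      exact hBA (hmem k hk))
    rw [Finset.sum_image hinj] at h1
    have h2 : ∑ k ∈ Finset.range N, g (-B + k * D + s) * F (-B + k * D + s) =
        ∑ k ∈ Finset.range N, g (-B + k * D + s) * f (-B + k * D + s) :=
      Finset.sum_congr rfl fun k hk => by rw [hF _ (hBA (hmem k hk))]
    rw [h2]
    refine h1.trans (mul_le_mul_of_nonneg_left ?_ hC)
    apply ciSup_le
    intro t
    rw [Finset.sum_image hinj]
    have h3 := hN s hs hs' t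
    rw [P, ← Finset.mul_sum, norm_mul, Complex.norm_real, Real.norm_of_nonneg hD.le] at h3
    rw [le_div_iff₀ hD, mul_comm]
    exact h3
  rw [htotal]
  have hfin := intervalIntegral.norm_integral_le_of_norm_le_const_ae
    (f := fun s => ∑ k ∈ Finset.range N, g (-B + k * D + s) * F (-B + k * D + s))
    (C := C * ((S + η) / D)) (a := 0) (b := D) (by
      have hne : ∀ᵐ x : ℝ, x ≠ D := by
        rw [ae_iff]
        simp
      filter_upwards [hne] with x hx hx2
      rw [uIoc_of_le hD.le] at hx2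
      exact hpoint x hx2.1 (lt_of_le_of_ne hx2.2 hx))
  refine hfin.trans ?_
  rw [sub_zero, abs_of_pos hD]
  have h4 : C * ((S + η) / D) * D = C * S + C * η := by
    field_simp
  rw [h4]
  have h5 : C * η ≤ ε := by
    rw [hηdef, ← mul_div_assoc, div_le_iff₀ (by positivity)]
    nlinarith
  linarith

/-! ### Test functions -/

/-- Lipschitz functions with compact support in `(-A, A)`. -/
def Test (A : EReal) (g : ℝ → ℂ) : Prop :=
  ∃ L B : ℝ, 0 ≤ L ∧ 0 < B ∧ Icc (-B) B ⊆ Iv A ∧ (∀ x y, ‖g x - g y‖ ≤ L * |x - y|) ∧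
    ∀ x, x ∉ Ioo (-B) B → g x = 0

/-- The transform. -/
noncomputable def G (g : ℝ → ℂ) (t : ℝ) : ℂ := ∫ x, g x * ex x t

/-- The pairing with `F`. -/
noncomputable def ell (F g : ℝ → ℂ) : ℂ := ∫ x, g x * F x

theorem Test.continuous {A : EReal} {g : ℝ → ℂ} (h : Test A g) : Continuous g := by
  obtain ⟨L, B, hL0, hB, hBA, hL, hs⟩ := h
  have : LipschitzWith ⟨L, hL0⟩ g := LipschitzWith.of_dist_le_mul fun x y => by
    rw [dist_eq_norm, Real.dist_eq]; exact hL x y
  exact this.continuous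

theorem Test.hasCompactSupport {A : EReal} {g : ℝ → ℂ} (h : Test A g) : HasCompactSupport g := by
  obtain ⟨L, B, hL0, hB, hBA, hL, hs⟩ := h
  refine HasCompactSupport.intro (isCompact_Icc (a := -B) (b := B)) ?_
  intro x hx
  exact hs x fun h => hx (Ioo_subset_Icc_self h)

theorem Test.integrable_mul {A : EReal} {g : ℝ → ℂ} (h : Test A g) {F : ℝ → ℂ} {C : ℝ}
    (hFm : AEStronglyMeasurable F volume) (hFb : ∀ x, ‖F x‖ ≤ C) :
    Integrable (fun x => g x * F x) volume := by
  have h1 : Integrable g volume := h.continuous.integrable_of_hasCompactSupport h.hasCompactSupport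
  exact h1.mul_bdd hFm (Eventually.of_forall hFb)

theorem Test.add_smul {A : EReal} {g₁ g₂ : ℝ → ℂ} (h₁ : Test A g₁) (h₂ : Test A g₂) (θ : ℂ) :
    Test A (fun x => g₁ x + θ * g₂ x) := by
  obtain ⟨L₁, B₁, hL0₁, hB₁, hBA₁, hL₁, hs₁⟩ := h₁
  obtain ⟨L₂, B₂, hL0₂, hB₂, hBA₂, hL₂, hs₂⟩ := h₂
  refine ⟨L₁ + ‖θ‖ * L₂, max B₁ B₂, by positivity, lt_max_of_lt_left hB₁, ?_, ?_, ?_⟩
  · rcases max_choice B₁ B₂ with h | h <;> rw [h] <;> assumption
  · intro x y
    have e1 : (g₁ x + θ * g₂ x) - (g₁ y + θ * g₂ y) = (g₁ x - g₁ y) + θ * (g₂ x - g₂ y) := by ring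
    rw [e1]
    refine (norm_add_le _ _).trans ?_
    rw [norm_mul, add_mul, mul_assoc]
    exact add_le_add (hL₁ x y) (mul_le_mul_of_nonneg_left (hL₂ x y) (norm_nonneg _))
  · intro x hx
    have h1 : x ∉ Ioo (-B₁) B₁ := fun h => hx
      ⟨lt_of_le_of_lt (neg_le_neg (le_max_left _ _)) h.1, lt_of_lt_of_le h.2 (le_max_left _ _)⟩
    have h2 : x ∉ Ioo (-B₂) B₂ := fun h => hx
      ⟨lt_of_le_of_lt (neg_le_neg (le_max_right _ _)) h.1, lt_of_lt_of_le h.2 (le_max_right _ _)⟩
    simp only [hs₁ x h1, hs₂ x h2]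
    simp

theorem G_add_smul {A : EReal} {g₁ g₂ : ℝ → ℂ} (h₁ : Test A g₁) (h₂ : Test A g₂) (θ : ℂ) (t : ℝ) :
    G (fun x => g₁ x + θ * g₂ x) t = G g₁ t + θ * G g₂ t := by
  have hb : ∀ x, ‖ex x t‖ ≤ 1 := fun x => (norm_ex x t).le
  have i1 := h₁.integrable_mul (continuous_ex t).aestronglyMeasurable hb
  have i2 := h₂.integrable_mul (continuous_ex t).aestronglyMeasurable hb
  rw [G, G, G, ← integral_const_mul, ← integral_add i1 (i2.const_mul θ)]
  congr 1
  funext x
  ring

theorem ell_add_smul {A : EReal} {g₁ g₂ : ℝ → ℂ} (h₁ : Test A g₁) (h₂ : Test A g₂) (θ : ℂ)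
    {F : ℝ → ℂ} {C : ℝ} (hFm : AEStronglyMeasurable F volume) (hFb : ∀ x, ‖F x‖ ≤ C) :
    ell F (fun x => g₁ x + θ * g₂ x) = ell F g₁ + θ * ell F g₂ := by
  have i1 := h₁.integrable_mul hFm hFb
  have i2 := h₂.integrable_mul hFm hFb
  rw [ell, ell, ell, ← integral_const_mul, ← integral_add i1 (i2.const_mul θ)]
  congr 1
  funext x
  ring

theorem G_vanish (g : ℝ → ℂ) (η : ℝ) (hη : 0 < η) :
    ∃ T : ℝ, 0 < T ∧ ∀ t, T ≤ |t| → ‖G g t‖ ≤ η := by
  have h := Real.tendsto_integral_exp_smul_cocompact g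
  have h2 := h.norm.eventually_le_const (u := η) (by simpa using hη)
  rw [cocompact_eq_atBot_atTop, eventually_sup, eventually_atBot, eventually_atTop] at h2
  obtain ⟨⟨a, ha⟩, ⟨b, hb⟩⟩ := h2
  have hG : ∀ t, G g t = ∫ v : ℝ, Real.fourierChar (-(v * (-t / (2 * Real.pi)))) • g v := by
    intro t
    rw [G]
    congr 1
    funext x
    rw [Circle.smul_def, Real.fourierChar_apply, ex, smul_eq_mul, mul_comm]
    congr 2
    have : (Real.pi : ℂ) ≠ 0 := by exact_mod_cast Real.pi_ne_zero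
    push_cast
    field_simp
  refine ⟨2 * Real.pi * (|a| + |b| + 1), by positivity, ?_⟩
  intro t ht
  rw [hG]
  have hpi := Real.pi_pos
  rcases le_total 0 t with h0 | h0
  · apply ha
    rw [abs_of_nonneg h0] at ht
    rw [div_le_iff₀ (by positivity)]
    have := neg_abs_le a
    have := abs_nonneg b
    nlinarith
  · apply hb
    rw [abs_of_nonpos h0] at ht
    rw [le_div_iff₀ (by positivity)]
    have := le_abs_self b
    have := abs_nonneg a
    nlinarith

theorem key {A : EReal} (hA : 0 < A) {f : ℝ → ℂ} {C : ℝ} (hf : BoundedBy A f C)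
    (F : ℝ → ℂ) (hF : ∀ x ∈ Iv A, F x = f x) (hFm : AEStronglyMeasurable F volume)
    (hFb : ∀ x, ‖F x‖ ≤ C) {g : ℝ → ℂ} (hg : Test A g) (S : ℝ) (hS : ∀ t, ‖G g t‖ ≤ S) :
    ‖ell F g‖ ≤ C * S := by
  obtain ⟨L, B, hL0, hB, hBA, hL, hs⟩ := hg
  have hsupp : Function.support g ⊆ Ioc (-B) B := by
    intro x hx
    by_contra h
    exact hx (hs x fun h' => h (Ioo_subset_Ioc_self h'))
  have hconv : ∀ k : ℝ → ℂ, ∫ x in (-B)..B, g x * k x = ∫ x, g x * k x := by
    intro k
    apply intervalIntegral.integral_eq_integral_of_support_subset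
    intro x hx
    apply hsupp
    intro h
    apply hx
    show g x * k x = 0
    rw [h, zero_mul]
  have := key_aux hA hf F hF hFm hFb g L hL B hB hBA (by
    intro x hx
    exact hs x fun h => hx (Ioo_subset_Icc_self h)) S (by
    intro t
    rw [hconv]
    exact hS t)
  rw [hconv] at this
  exact this

/-- Gliding hump. -/
theorem hump {A : EReal} (hA : 0 < A) {f : ℝ → ℂ} {C : ℝ} (hf : BoundedBy A f C)
    (F : ℝ → ℂ) (hF : ∀ x ∈ Iv A, F x = f x) (hFm : AEStronglyMeasurable F volume)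
    (hFb : ∀ x, ‖F x‖ ≤ C) {ι : Type*} (l : Filter ι) (g : ι → ℝ → ℂ)
    (h1 : ∀ᶠ i in l, Test A (g i)) (h2 : ∀ᶠ i in l, ∀ t, ‖G (g i) t‖ ≤ 2)
    (h3 : ∀ T η : ℝ, 0 < T → 0 < η → ∀ᶠ i in l, ∀ t, |t| ≤ T → ‖G (g i) t‖ ≤ η)
    (δ : ℝ) (hδ : 0 < δ) : ∀ᶠ i in l, ‖ell F (g i)‖ < δ := by
  by_contra hcon
  rw [not_eventually] at hcon
  have hC := hf.nonneg hA
  have step : ∀ (η : ℝ), 0 < η → ∀ N : ℕ, ∃ v : ℝ → ℂ, Test A v ∧
      (∀ t, ‖G v t‖ ≤ 2 + N * η) ∧ (ell F v).re ≥ N * δ := by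
    intro η hη N
    induction N with
    | zero =>
      refine ⟨fun _ => 0, ⟨0, ?_⟩, ?_, ?_⟩
      · obtain ⟨i, hi, _⟩ := (hcon.and_eventually h1).exists
        obtain ⟨_, B, _, hB, hBA, _, _⟩ := ‹Test A (g i)›
        exact ⟨B, le_rfl, hB, hBA, by simp, by simp⟩
      · intro t
        rw [G]
        simp
      · rw [ell]
        simp
    | succ N ih =>
      obtain ⟨v, hv, hvG, hvl⟩ := ih
      obtain ⟨T, hT, hvT⟩ := G_vanish v η hη
      obtain ⟨i, hi, hi1, hi2, hi3⟩ :=
        (hcon.and_eventually (h1.and (h2.and (h3 T η hT hη)))).exists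
      rw [not_lt] at hi
      have hne : ell F (g i) ≠ 0 := by
        rw [← norm_pos_iff]
        linarith
      set z := ell F (g i) with hz
      set θ : ℂ := (starRingEnd ℂ) z / ‖z‖ with hθ
      have hzn : (‖z‖ : ℂ) ≠ 0 := by
        exact_mod_cast (norm_pos_iff.2 hne).ne'
      have hθ1 : ‖θ‖ = 1 := by
        rw [hθ, norm_div, RCLike.norm_conj, Complex.norm_real, norm_norm,
          div_self (norm_pos_iff.2 hne).ne']
      have hθz : θ * z = (‖z‖ : ℂ) := by
        rw [hθ, div_mul_eq_mul_div, mul_comm, Complex.mul_conj, Complex.normSq_eq_norm_sq,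
          div_eq_iff hzn]
        push_cast
        ring
      refine ⟨fun x => v x + θ * g i x, hv.add_smul hi1 θ, ?_, ?_⟩
      · intro t
        rw [G_add_smul hv hi1]
        refine (norm_add_le _ _).trans ?_
        rw [norm_mul, hθ1, one_mul]
        push_cast
        have hNη : 0 ≤ (N : ℝ) * η := by positivity
        rcases le_total |t| T with h | h
        · have e1 := hvG t
          have e2 := hi3 t h
          linarith
        · have e1 := hvT t h
          have e2 := hi2 t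
          linarith
      · rw [ell_add_smul hv hi1 θ hFm hFb, ← hz, hθz, Complex.add_re, Complex.ofReal_re]
        push_cast
        linarith
  obtain ⟨N, hN⟩ := exists_nat_gt (C * 3 / δ)
  have hN0 : (0 : ℝ) < N := lt_of_le_of_lt (by positivity) hN
  obtain ⟨v, hv, hvG, hvl⟩ := step (1 / N) (by positivity) N
  have e1 : ‖ell F v‖ ≤ C * 3 := by
    apply key hA hf F hF hFm hFb hv
    intro t
    refine (hvG t).trans ?_
    rw [mul_one_div, div_self hN0.ne']
    norm_num
  have e2 := Complex.re_le_norm (ell F v)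
  rw [div_lt_iff₀ hδ] at hN
  linarith

/-! ### Mollification -/

/-- The bump function of radius `1 / (n + 1)`. -/
noncomputable def bump (n : ℕ) : ContDiffBump (0 : ℝ) :=
  ⟨1 / (2 * (n + 1)), 1 / (n + 1), by positivity, by
    apply one_div_lt_one_div_of_lt
    · positivity
    · have : (0 : ℝ) < n + 1 := by positivity
      linarith⟩

/-- The mollifier. -/
noncomputable def psi (n : ℕ) : ℝ → ℝ := (bump n).normed volume

theorem psi_nonneg (n : ℕ) (x : ℝ) : 0 ≤ psi n x := (bump n).nonneg_normed x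

theorem psi_integrable (n : ℕ) : Integrable (psi n) volume := (bump n).integrable_normed

theorem psi_integral (n : ℕ) : ∫ x, psi n x = 1 := (bump n).integral_normed

theorem psi_zero (n : ℕ) (x : ℝ) (hx : 1 / ((n : ℝ) + 1) ≤ |x|) : psi n x = 0 := by
  by_contra h
  have h1 : x ∈ Function.support (psi n) := h
  rw [psi, ContDiffBump.support_normed_eq] at h1
  rw [Metric.mem_ball, dist_zero_right, Real.norm_eq_abs] at h1
  have h2 : (bump n).rOut = 1 / ((n : ℝ) + 1) := rfl
  rw [h2] at h1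
  linarith

theorem psi_continuous (n : ℕ) : Continuous (psi n) := (bump n).continuous_normed

theorem psi_lipschitz (n : ℕ) : ∃ L : ℝ, 0 ≤ L ∧ ∀ x y, |psi n x - psi n y| ≤ L * |x - y| := by
  have h1 : ContDiff ℝ 1 (psi n) := (bump n).contDiff_normed
  obtain ⟨K, hK⟩ := ContDiff.lipschitzWith_of_hasCompactSupport
    ((bump n).hasCompactSupport_normed (μ := volume)) h1 (by simp)
  refine ⟨K, K.2, fun x y => ?_⟩
  have := hK.dist_le_mul x y
  rwa [Real.dist_eq, Real.dist_eq] at this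

/-- The test function `x ↦ ψ_n(λ - x)`. -/
noncomputable def gt (n : ℕ) (l : ℝ) (x : ℝ) : ℂ := (psi n (l - x) : ℂ)

theorem gt_test {A : EReal} (n : ℕ) (l B : ℝ) (hB : 0 < B) (hBA : Icc (-B) B ⊆ Iv A)
    (hl : |l| + 1 / ((n : ℝ) + 1) ≤ B) : Test A (gt n l) := by
  obtain ⟨L, hL0, hL⟩ := psi_lipschitz n
  refine ⟨L, B, hL0, hB, hBA, ?_, ?_⟩
  · intro x y
    rw [gt, gt, ← Complex.ofReal_sub, Complex.norm_real, Real.norm_eq_abs]
    refine (hL _ _).trans (le_of_eq ?_)
    rw [show l - x - (l - y) = -(x - y) by ring, abs_neg]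
  · intro x hx
    rw [gt, psi_zero, Complex.ofReal_zero]
    by_contra h
    push Not at h
    apply hx
    have h1 := abs_lt.1 h
    have h2 := abs_le.1 (le_refl |l|)
    constructor <;> linarith [h1.1, h1.2, h2.1, h2.2]

theorem gt_integral_norm (n : ℕ) (l : ℝ) (k : ℝ → ℂ) (c : ℝ)
    (hk : ∀ x, |l - x| < 1 / ((n : ℝ) + 1) → ‖k x‖ ≤ c) :
    ‖∫ x, gt n l x * k x‖ ≤ c := by
  have h1 : ∀ x, ‖gt n l x * k x‖ ≤ psi n (l - x) * c := by
    intro x
    rw [norm_mul, gt, Complex.norm_real, Real.norm_of_nonneg (psi_nonneg _ _)]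
    rcases lt_or_ge |l - x| (1 / ((n : ℝ) + 1)) with h | h
    · exact mul_le_mul_of_nonneg_left (hk x h) (psi_nonneg _ _)
    · rw [psi_zero n _ h]
      simp
  have h2 : Integrable (fun x => psi n (l - x) * c) volume :=
    ((psi_integrable n).comp_sub_left l).mul_const c
  refine (norm_integral_le_of_norm_le h2 (Eventually.of_forall h1)).trans (le_of_eq ?_)
  rw [integral_mul_const, integral_sub_left_eq_self (psi n) volume l, psi_integral, one_mul]

theorem gt_integral (n : ℕ) (l : ℝ) : ∫ x, gt n l x = 1 := by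
  have : ∫ x, gt n l x = ((∫ x, psi n (l - x) : ℝ) : ℂ) := by
    rw [← integral_complex_ofReal]; rfl
  rw [this, integral_sub_left_eq_self (psi n) volume l, psi_integral]
  simp

theorem gt_integrable (n : ℕ) (l : ℝ) : Integrable (gt n l) volume :=
  ((psi_integrable n).comp_sub_left l).ofReal

theorem G_gt_le (n : ℕ) (l t : ℝ) : ‖G (gt n l) t‖ ≤ 1 :=
  gt_integral_norm n l _ 1 fun x _ => (norm_ex x t).le

theorem G_gt_sub_le (n : ℕ) (l t : ℝ) :
    ‖G (gt n l) t - ex l t‖ ≤ 1 / ((n : ℝ) + 1) * |t| := by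
  have h1 : G (gt n l) t - ex l t = ∫ x, gt n l x * (ex x t - ex l t) := by
    have i1 : Integrable (fun x => gt n l x * ex x t) volume :=
      (gt_integrable n l).mul_bdd (c := 1) (continuous_ex t).aestronglyMeasurable
        (Eventually.of_forall fun x => (norm_ex x t).le)
    have i2 : Integrable (fun x => gt n l x * ex l t) volume := (gt_integrable n l).mul_const _
    rw [G]
    simp only [mul_sub]
    rw [integral_sub i1 i2, integral_mul_const, gt_integral, one_mul]
  rw [h1]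
  apply gt_integral_norm
  intro x hx
  refine (ex_sub_le x l t).trans ?_
  rw [abs_sub_comm]
  exact mul_le_mul_of_nonneg_right hx.le (abs_nonneg _)

/-- The mollified function. -/
noncomputable def fn (F : ℝ → ℂ) (n : ℕ) (l : ℝ) : ℂ := ∫ x, gt n l x * F x

theorem fn_eq_ell (F : ℝ → ℂ) (n : ℕ) (l : ℝ) : fn F n l = ell F (gt n l) := rfl

theorem fn_eq_conv (F : ℝ → ℂ) (n : ℕ) (l : ℝ) :
    fn F n l = MeasureTheory.convolution (psi n) F (ContinuousLinearMap.lsmul ℝ ℝ) volume l := by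
  rw [convolution_eq_swap, fn]
  congr 1

theorem fn_continuous {F : ℝ → ℂ} {C : ℝ} (hFm : AEStronglyMeasurable F volume)
    (hFb : ∀ x, ‖F x‖ ≤ C) (n : ℕ) : Continuous (fn F n) := by
  have hloc : LocallyIntegrable F volume := by
    refine (locallyIntegrable_const C).mono hFm (Eventually.of_forall fun x => ?_)
    rw [Real.norm_eq_abs]
    exact (hFb x).trans (le_abs_self C)
  have : fn F n = MeasureTheory.convolution (psi n) F (ContinuousLinearMap.lsmul ℝ ℝ) volume := by
    funext l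
    exact fn_eq_conv F n l
  rw [this]
  exact (bump n).hasCompactSupport_normed.continuous_convolution_left _
    (psi_continuous n) hloc

theorem fn_ae_tendsto {F : ℝ → ℂ} {C : ℝ} (hFm : AEStronglyMeasurable F volume)
    (hFb : ∀ x, ‖F x‖ ≤ C) :
    ∀ᵐ x : ℝ, Tendsto (fun n => fn F n x) atTop (𝓝 (F x)) := by
  have hloc : LocallyIntegrable F volume := by
    refine (locallyIntegrable_const C).mono hFm (Eventually.of_forall fun x => ?_)
    rw [Real.norm_eq_abs]
    exact (hFb x).trans (le_abs_self C)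
  have h := ContDiffBump.ae_convolution_tendsto_right_of_locallyIntegrable (μ := volume)
    (φ := bump) (l := atTop) (K := 2) (by
      have := tendsto_one_div_add_atTop_nhds_zero_nat (𝕜 := ℝ)
      exact this) (Eventually.of_forall fun n => by
      have h1 : (bump n).rOut = 1 / ((n : ℝ) + 1) := rfl
      have h2 : (bump n).rIn = 1 / (2 * ((n : ℝ) + 1)) := rfl
      rw [h1, h2]
      apply le_of_eq
      field_simp) hloc
  filter_upwards [h] with x hx
  refine hx.congr fun n => ?_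
  exact (fn_eq_conv F n x).symm

/-! ### The decomposition -/

theorem exists_Icc {A : EReal} {x : ℝ} (hx : x ∈ Iv A) :
    ∃ B : ℝ, |x| < B ∧ 0 < B ∧ Icc (-B) B ⊆ Iv A := by
  have h1 : ((|x| : ℝ) : EReal) < A := by
    rcases abs_cases x with ⟨h, _⟩ | ⟨h, _⟩
    · rw [h]; exact hx.2
    · rw [h, EReal.coe_neg, EReal.neg_lt_comm]; exact hx.1
  obtain ⟨B, hB1, hB2⟩ := EReal.lt_iff_exists_real_btwn.1 h1
  have hB1' : |x| < B := by exact_mod_cast hB1
  have hB0 : 0 < B := (abs_nonneg x).trans_lt hB1'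
  refine ⟨B, hB1', hB0, ?_⟩
  intro y hy
  constructor
  · have h2 : ((-B : ℝ) : EReal) ≤ (y : EReal) := by exact_mod_cast hy.1
    refine lt_of_lt_of_le ?_ h2
    rw [EReal.coe_neg, EReal.neg_lt_neg_iff]
    exact hB2
  · have h2 : (y : EReal) ≤ (B : EReal) := by exact_mod_cast hy.2
    exact lt_of_le_of_lt h2 hB2

theorem uniformCauchy {A : EReal} (hA : 0 < A) {f : ℝ → ℂ} {C : ℝ} (hf : BoundedBy A f C)
    (F : ℝ → ℂ) (hF : ∀ x ∈ Iv A, F x = f x) (hFm : AEStronglyMeasurable F volume)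
    (hFb : ∀ x, ‖F x‖ ≤ C) (B' B : ℝ) (hB : 0 < B) (hB' : B' < B) (hBA : Icc (-B) B ⊆ Iv A) :
    UniformCauchySeqOn (fun n => fn F n) atTop (Icc (-B') B') := by
  have hr : Tendsto (fun n : ℕ => 1 / ((n : ℝ) + 1)) atTop (𝓝 0) :=
    tendsto_one_div_add_atTop_nhds_zero_nat
  have hr1 : ∀ ε : ℝ, 0 < ε → ∀ᶠ n : ℕ in atTop, 1 / ((n : ℝ) + 1) ≤ ε := fun ε hε =>
    hr.eventually_le_const hε
  rw [Metric.uniformCauchySeqOn_iff]
  intro δ hδ
  have hl := hump hA hf F hF hFm hFb
    (((atTop : Filter ℕ) ×ˢ (atTop : Filter ℕ)) ×ˢ 𝓟 (Icc (-B') B'))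
    (fun i x => gt i.1.1 i.2 x + (-1 : ℂ) * gt i.1.2 i.2 x) ?_ ?_ ?_ δ hδ
  · rw [eventually_prod_principal_iff, prod_atTop_atTop_eq, eventually_atTop] at hl
    obtain ⟨⟨N1, N2⟩, hN⟩ := hl
    refine ⟨max N1 N2, ?_⟩
    intro m hm n hn x hx
    have h := hN (m, n) ⟨(le_max_left _ _).trans hm, (le_max_right _ _).trans hn⟩ x hx
    rw [dist_eq_norm, fn_eq_ell, fn_eq_ell]
    have i1 : Integrable (fun y => gt m x y * F y) volume :=
      (gt_integrable m x).mul_bdd hFm (Eventually.of_forall hFb)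
    have i2 : Integrable (fun y => gt n x y * F y) volume :=
      (gt_integrable n x).mul_bdd hFm (Eventually.of_forall hFb)
    have e1 : ell F (fun y => gt m x y + (-1 : ℂ) * gt n x y) = ell F (gt m x) - ell F (gt n x) := by
      rw [ell, ell, ell, ← integral_sub i1 i2]
      congr 1
      funext y
      ring
    rw [← e1]
    exact h
  · rw [eventually_prod_principal_iff, eventually_prod_iff]
    refine ⟨fun n => 1 / ((n : ℝ) + 1) ≤ B - B', hr1 _ (by linarith),
      fun n => 1 / ((n : ℝ) + 1) ≤ B - B', hr1 _ (by linarith), ?_⟩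
    intro m hm n hn x hx
    have hx' : |x| ≤ B' := abs_le.2 hx
    exact (gt_test m x B hB hBA (by linarith)).add_smul (gt_test n x B hB hBA (by linarith)) _
  · rw [eventually_prod_principal_iff, eventually_prod_iff]
    refine ⟨fun n => 1 / ((n : ℝ) + 1) ≤ B - B', hr1 _ (by linarith),
      fun n => 1 / ((n : ℝ) + 1) ≤ B - B', hr1 _ (by linarith), ?_⟩
    intro m hm n hn x hx t
    have hx' : |x| ≤ B' := abs_le.2 hx
    rw [G_add_smul (gt_test m x B hB hBA (by linarith)) (gt_test n x B hB hBA (by linarith))]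
    refine (norm_add_le _ _).trans ?_
    rw [norm_mul, norm_neg, norm_one, one_mul]
    have := G_gt_le m x t
    have := G_gt_le n x t
    linarith
  · intro T η hT hη
    rw [eventually_prod_principal_iff, eventually_prod_iff]
    refine ⟨fun n => 1 / ((n : ℝ) + 1) ≤ min (B - B') (η / (2 * T)),
      hr1 _ (lt_min (by linarith) (by positivity)),
      fun n => 1 / ((n : ℝ) + 1) ≤ min (B - B') (η / (2 * T)),
      hr1 _ (lt_min (by linarith) (by positivity)), ?_⟩
    intro m hm n hn x hx t ht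
    have hx' : |x| ≤ B' := abs_le.2 hx
    have hm1 := hm.trans (min_le_left _ _)
    have hm2 := hm.trans (min_le_right _ _)
    have hn1 := hn.trans (min_le_left _ _)
    have hn2 := hn.trans (min_le_right _ _)
    rw [G_add_smul (gt_test m x B hB hBA (by linarith)) (gt_test n x B hB hBA (by linarith))]
    have e1 : G (gt m x) t + (-1 : ℂ) * G (gt n x) t =
        (G (gt m x) t - ex x t) - (G (gt n x) t - ex x t) := by ring
    rw [e1]
    refine (norm_sub_le _ _).trans ?_
    have h1 := G_gt_sub_le m x t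
    have h2 := G_gt_sub_le n x t
    have h3 : η / (2 * T) * |t| ≤ η / 2 := by
      have : η / (2 * T) * |t| ≤ η / (2 * T) * T :=
        mul_le_mul_of_nonneg_left ht (by positivity)
      refine this.trans (le_of_eq ?_)
      field_simp
    have h4 := mul_le_mul_of_nonneg_right hm2 (abs_nonneg t)
    have h5 := mul_le_mul_of_nonneg_right hn2 (abs_nonneg t)
    linarith

theorem iSup_bdd (s : Finset ℝ) (c : ℝ → ℂ) :
    BddAbove (range fun t : ℝ => ‖∑ l ∈ s, c l * Complex.exp (Complex.I * l * t)‖) := by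
  refine ⟨∑ l ∈ s, ‖c l‖, ?_⟩
  rintro _ ⟨t, rfl⟩
  refine (norm_sum_le _ _).trans (Finset.sum_le_sum fun l _ => ?_)
  have := norm_ex l t
  rw [ex] at this
  rw [norm_mul, this, mul_one]

theorem bounded_shift {A : EReal} {f : ℝ → ℂ} {C : ℝ} (hC : 0 ≤ C) (hf : BoundedBy A f C)
    (s : Finset ℝ) (c : ℝ → ℂ) (y : ℝ) (hy : ∀ l ∈ s, l - y ∈ Iv A) :
    ‖∑ l ∈ s, c l * f (l - y)‖ ≤ C * ⨆ t : ℝ, ‖∑ l ∈ s, c l * Complex.exp (Complex.I * l * t)‖ := by
  have hinj : Set.InjOn (fun l : ℝ => l - y) s := fun a _ b _ h => sub_left_injective h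
  have h := hf (s.image fun l => l - y) (fun u => c (u + y)) (by
    intro l hl
    obtain ⟨k, hk, rfl⟩ := Finset.mem_image.1 hl
    exact hy k hk)
  rw [Finset.sum_image hinj] at h
  simp only [sub_add_cancel] at h
  refine h.trans (mul_le_mul_of_nonneg_left ?_ hC)
  apply ciSup_le
  intro t
  rw [Finset.sum_image hinj]
  simp only [sub_add_cancel]
  refine le_trans (le_of_eq ?_) (le_ciSup (iSup_bdd s c) t)
  have e1 : ∑ l ∈ s, c l * Complex.exp (Complex.I * ((l - y : ℝ) : ℂ) * t) =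
      ex (-y) t * ∑ l ∈ s, c l * Complex.exp (Complex.I * l * t) := by
    rw [Finset.mul_sum]
    refine Finset.sum_congr rfl fun l _ => ?_
    have := ex_add l (-y) t
    rw [ex, ex] at this
    rw [sub_eq_add_neg, this]
    ring
  rw [e1, norm_mul, norm_ex, one_mul]

theorem limit_bounded {A : EReal} (hA : 0 < A) {f : ℝ → ℂ} {C : ℝ} (hf : BoundedBy A f C)
    (F : ℝ → ℂ) (hF : ∀ x ∈ Iv A, F x = f x) (hFm : AEStronglyMeasurable F volume)
    (hFb : ∀ x, ‖F x‖ ≤ C) (fc : ℝ → ℂ)
    (hfc : ∀ x ∈ Iv A, Tendsto (fun n => fn F n x) atTop (𝓝 (fc x))) : BoundedBy A fc C := by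
  have hC := hf.nonneg hA
  intro s c hs
  have h1 : Tendsto (fun n => ∑ l ∈ s, c l * fn F n l) atTop (𝓝 (∑ l ∈ s, c l * fc l)) :=
    tendsto_finsetSum _ fun l hl => (hfc l (hs l hl)).const_mul (c l)
  refine le_of_tendsto h1.norm ?_
  have hr : Tendsto (fun n : ℕ => 1 / ((n : ℝ) + 1)) atTop (𝓝 0) :=
    tendsto_one_div_add_atTop_nhds_zero_nat
  have h2 : ∀ᶠ n : ℕ in atTop, ∀ l ∈ s, ∀ y : ℝ, |y| < 1 / ((n : ℝ) + 1) → l - y ∈ Iv A := by
    rw [Finset.eventually_all]
    intro l hl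
    obtain ⟨B, hlB, hB0, hBA⟩ := exists_Icc (hs l hl)
    filter_upwards [hr.eventually_le_const (u := B - |l|) (by linarith)] with n hn y hy
    apply hBA
    have h3 : |l - y| ≤ |l| + |y| := by
      have := norm_sub_le l y
      simpa only [Real.norm_eq_abs] using this
    exact abs_le.1 (h3.trans (by linarith))
  filter_upwards [h2] with n hn
  have h3 : ∑ l ∈ s, c l * fn F n l =
      ∫ y, gt n 0 y * ∑ l ∈ s, c l * F (l + y) := by
    have e1 : ∀ l, fn F n l = ∫ y, gt n 0 y * F (l + y) := by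
      intro l
      rw [fn, ← integral_add_left_eq_self _ l]
      congr 1
      funext y
      rw [gt, gt]
      congr 3
      ring
    have i1 : ∀ l, Integrable (fun y => gt n 0 y * F (l + y)) volume := by
      intro l
      refine (gt_integrable n 0).mul_bdd (c := C) ?_ (Eventually.of_forall fun y => hFb _)
      exact hFm.comp_measurePreserving (measurePreserving_add_left volume l)
    have e2 : ∀ y, gt n 0 y * ∑ l ∈ s, c l * F (l + y) =
        ∑ l ∈ s, c l * (gt n 0 y * F (l + y)) := by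
      intro y
      rw [Finset.mul_sum]
      exact Finset.sum_congr rfl fun l _ => by ring
    simp_rw [e2]
    rw [integral_finsetSum _ fun l _ => (i1 l).const_mul (c l)]
    refine Finset.sum_congr rfl fun l _ => ?_
    rw [integral_const_mul, e1]
  rw [h3]
  apply gt_integral_norm
  intro y hy
  rw [zero_sub, abs_neg] at hy
  have h4 : ∑ l ∈ s, c l * F (l + y) = ∑ l ∈ s, c l * f (l - (-y)) := by
    refine Finset.sum_congr rfl fun l hl => ?_
    have h5 := hn l hl (-y) (by rwa [abs_neg])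
    rw [sub_neg_eq_add] at h5 ⊢
    rw [hF _ h5]
  rw [h4]
  exact bounded_shift hC hf s c (-y) fun l hl => hn l hl (-y) (by rwa [abs_neg])

theorem main (A : EReal) (hA : 0 < A) (f : ℝ → ℂ) (C : ℝ) (hf : BoundedBy A f C)
    (hm : NullMeasurable f ((volume : Measure ℝ).restrict (Iv A))) :
    ∃ fc : ℝ → ℂ, (∀ C' : ℝ, BoundedBy A f C' → BoundedBy A fc C') ∧ ContinuousOn fc (Iv A) ∧
      ∀ᵐ x ∂(volume : Measure ℝ), x ∈ Iv A → f x = fc x := by
  have hC := hf.nonneg hA
  set F : ℝ → ℂ := (Iv A).indicator f with hFdef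
  have hF : ∀ x ∈ Iv A, F x = f x := fun x hx => indicator_of_mem hx f
  have hFm : AEStronglyMeasurable F volume := by
    have h1 : AEMeasurable f (volume.restrict (Iv A)) := hm.aemeasurable
    exact ((aemeasurable_indicator_iff (measurableSet_Iv A)).2 h1).aestronglyMeasurable
  have hFb' : ∀ C' : ℝ, BoundedBy A f C' → ∀ x, ‖F x‖ ≤ C' := by
    intro C' hf' x
    by_cases hx : x ∈ Iv A
    · rw [hF x hx]; exact hf'.norm_le hx
    · rw [hFdef, indicator_of_notMem hx, norm_zero]; exact hf'.nonneg hA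
  have hFb : ∀ x, ‖F x‖ ≤ C := hFb' C hf
  set fc : ℝ → ℂ := fun x => limUnder atTop (fun n => fn F n x) with hfcdef
  have hloc : ∀ x ∈ Iv A, ∃ B' : ℝ, |x| < B' ∧
      UniformCauchySeqOn (fun n => fn F n) atTop (Icc (-B') B') := by
    intro x hx
    obtain ⟨B, hxB, hB0, hBA⟩ := exists_Icc hx
    refine ⟨(|x| + B) / 2, by linarith, ?_⟩
    exact uniformCauchy hA hf F hF hFm hFb _ B hB0 (by linarith) hBA
  have hcau : ∀ B' : ℝ, UniformCauchySeqOn (fun n => fn F n) atTop (Icc (-B') B') →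
      ∀ y ∈ Icc (-B') B', Tendsto (fun n => fn F n y) atTop (𝓝 (fc y)) := by
    intro B' h y hy
    have h1 : CauchySeq (fun n => fn F n y) := h.cauchySeq hy
    exact h1.tendsto_limUnder
  have hfc : ∀ x ∈ Iv A, Tendsto (fun n => fn F n x) atTop (𝓝 (fc x)) := by
    intro x hx
    obtain ⟨B', hB', hU⟩ := hloc x hx
    exact hcau B' hU x (abs_le.1 hB'.le)
  refine ⟨fc, fun C' hf' => limit_bounded hA hf' F hF hFm (hFb' C' hf') fc hfc, ?_, ?_⟩
  · intro x hx
    obtain ⟨B', hB', hU⟩ := hloc x hx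
    have h1 : TendstoUniformlyOn (fun n => fn F n) fc atTop (Icc (-B') B') :=
      hU.tendstoUniformlyOn_of_tendsto (hcau B' hU)
    have h2 : ContinuousOn fc (Icc (-B') B') :=
      h1.continuousOn (Frequently.of_forall fun n => (fn_continuous hFm hFb n).continuousOn)
    have h3 : Icc (-B') B' ∈ 𝓝 x := by
      have := abs_lt.1 hB'
      exact Icc_mem_nhds this.1 this.2
    exact (h2.continuousAt h3).continuousWithinAt
  · filter_upwards [fn_ae_tendsto hFm hFb] with x hx hxA
    rw [← hF x hxA]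
    exact tendsto_nhds_unique hx (hfc x hxA)

theorem BoundedBy.sub {A : EReal} {f g : ℝ → ℂ} {C D : ℝ} (hf : BoundedBy A f C)
    (hg : BoundedBy A g D) : BoundedBy A (fun x => f x - g x) (C + D) := by
  intro s c hs
  have e1 : ∑ l ∈ s, c l * (f l - g l) = ∑ l ∈ s, c l * f l - ∑ l ∈ s, c l * g l := by
    rw [← Finset.sum_sub_distrib]
    exact Finset.sum_congr rfl fun l _ => by ring
  rw [e1, add_mul]
  exact (norm_sub_le _ _).trans (add_le_add (hf s c hs) (hg s c hs))

end Pool.Agent.Results.MP_410e25_an.Decomposition
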