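import Mathlib

set_option autoImplicit false

/-! The dodecahedron graph has no balanced shortest-path routing (MP_5836d8_co).
`f : V → ℤ/3` has the same sum along all shortest paths from `x` to `y`. -/

namespace Pool.Agent.H14.Dod

/-- neighbourhood bit masks of the dodecahedron graph, the generalised Petersen graph `GP(10,2)` -/
def masks : List ℕ := [1538, 2053, 4106, 8212, 16424, 32848, 65696, 131392, 262784, 524545, 266241, 532482, 17412, 34824, 69648, 139296, 278592, 557184, 66816, 133632]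

def dL : List (List ℕ) := [
  [0, 1, 2, 3, 4, 5, 4, 3, 2, 1, 1, 2, 2, 3, 3, 4, 3, 3, 2, 2],
  [1, 0, 1, 2, 3, 4, 5, 4, 3, 2, 2, 1, 2, 2, 3, 3, 4, 3, 3, 2],
  [2, 1, 0, 1, 2, 3, 4, 5, 4, 3, 2, 2, 1, 2, 2, 3, 3, 4, 3, 3],
  [3, 2, 1, 0, 1, 2, 3, 4, 5, 4, 3, 2, 2, 1, 2, 2, 3, 3, 4, 3],
  [4, 3, 2, 1, 0, 1, 2, 3, 4, 5, 3, 3, 2, 2, 1, 2, 2, 3, 3, 4],
  [5, 4, 3, 2, 1, 0, 1, 2, 3, 4, 4, 3, 3, 2, 2, 1, 2, 2, 3, 3],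
  [4, 5, 4, 3, 2, 1, 0, 1, 2, 3, 3, 4, 3, 3, 2, 2, 1, 2, 2, 3],
  [3, 4, 5, 4, 3, 2, 1, 0, 1, 2, 3, 3, 4, 3, 3, 2, 2, 1, 2, 2],
  [2, 3, 4, 5, 4, 3, 2, 1, 0, 1, 2, 3, 3, 4, 3, 3, 2, 2, 1, 2],
  [1, 2, 3, 4, 5, 4, 3, 2, 1, 0, 2, 2, 3, 3, 4, 3, 3, 2, 2, 1],
  [1, 2, 2, 3, 3, 4, 3, 3, 2, 2, 0, 3, 1, 4, 2, 5, 2, 4, 1, 3],
  [2, 1, 2, 2, 3, 3, 4, 3, 3, 2, 3, 0, 3, 1, 4, 2, 5, 2, 4, 1],
  [2, 2, 1, 2, 2, 3, 3, 4, 3, 3, 1, 3, 0, 3, 1, 4, 2, 5, 2, 4],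
  [3, 2, 2, 1, 2, 2, 3, 3, 4, 3, 4, 1, 3, 0, 3, 1, 4, 2, 5, 2],
  [3, 3, 2, 2, 1, 2, 2, 3, 3, 4, 2, 4, 1, 3, 0, 3, 1, 4, 2, 5],
  [4, 3, 3, 2, 2, 1, 2, 2, 3, 3, 5, 2, 4, 1, 3, 0, 3, 1, 4, 2],
  [3, 4, 3, 3, 2, 2, 1, 2, 2, 3, 2, 5, 2, 4, 1, 3, 0, 3, 1, 4],
  [3, 3, 4, 3, 3, 2, 2, 1, 2, 2, 4, 2, 5, 2, 4, 1, 3, 0, 3, 1],
  [2, 3, 3, 4, 3, 3, 2, 2, 1, 2, 1, 4, 2, 5, 2, 4, 1, 3, 0, 3],
  [2, 2, 3, 3, 4, 3, 3, 2, 2, 1, 3, 1, 4, 2, 5, 2, 4, 1, 3, 0]]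

def fL : List ℕ := [0, 0, 0, 0, 1, 0, 0, 0, 0, 1, 2, 0, 0, 2, 1, 2, 0, 0, 2, 1]

def cL : List (List ℕ) := [
  [0, 0, 0, 0, 1, 1, 1, 1, 1, 1, 2, 0, 2, 2, 0, 1, 1, 2, 1, 2],
  [0, 0, 0, 0, 1, 1, 1, 1, 1, 1, 2, 0, 0, 2, 1, 1, 1, 1, 1, 1],
  [0, 0, 0, 0, 1, 1, 1, 1, 1, 1, 2, 0, 0, 2, 1, 1, 1, 1, 1, 1],
  [0, 0, 0, 0, 1, 1, 1, 1, 1, 1, 2, 2, 0, 2, 2, 1, 2, 1, 1, 0],
  [1, 1, 1, 1, 1, 1, 1, 1, 1, 2, 1, 0, 2, 0, 2, 0, 2, 0, 1, 1],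
  [1, 1, 1, 1, 1, 0, 0, 0, 0, 1, 1, 1, 2, 1, 2, 2, 0, 2, 2, 0],
  [1, 1, 1, 1, 1, 0, 0, 0, 0, 1, 1, 1, 1, 1, 1, 2, 0, 0, 2, 1],
  [1, 1, 1, 1, 1, 0, 0, 0, 0, 1, 1, 1, 1, 1, 1, 2, 0, 0, 2, 1],
  [1, 1, 1, 1, 1, 0, 0, 0, 0, 1, 1, 2, 1, 1, 0, 2, 2, 0, 2, 2],
  [1, 1, 1, 1, 2, 1, 1, 1, 1, 1, 0, 2, 0, 1, 1, 1, 0, 2, 0, 2],
  [2, 2, 2, 2, 1, 1, 1, 1, 1, 0, 2, 2, 2, 1, 0, 0, 1, 1, 1, 1],
  [0, 0, 0, 2, 0, 1, 1, 1, 2, 2, 2, 0, 0, 2, 1, 1, 1, 1, 1, 1],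
  [2, 0, 0, 0, 2, 2, 1, 1, 1, 0, 2, 0, 0, 2, 1, 1, 1, 1, 1, 1],
  [2, 2, 2, 2, 0, 1, 1, 1, 1, 1, 1, 2, 2, 2, 1, 1, 1, 1, 0, 0],
  [0, 1, 1, 2, 2, 2, 1, 1, 0, 1, 0, 1, 1, 1, 1, 1, 1, 1, 0, 2],
  [1, 1, 1, 1, 0, 2, 2, 2, 2, 1, 0, 1, 1, 1, 1, 2, 2, 2, 1, 0],
  [1, 1, 1, 2, 2, 0, 0, 0, 2, 0, 1, 1, 1, 1, 1, 2, 0, 0, 2, 1],
  [2, 1, 1, 1, 0, 2, 0, 0, 0, 2, 1, 1, 1, 1, 1, 2, 0, 0, 2, 1],
  [1, 1, 1, 1, 1, 2, 2, 2, 2, 0, 1, 1, 1, 0, 0, 1, 2, 2, 2, 1],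
  [2, 1, 1, 0, 1, 0, 1, 1, 2, 2, 1, 1, 1, 0, 2, 0, 1, 1, 1, 1]]

def aL : List (List ℕ) := [
  [0, 1, 2, 3, 4, 5, 6, 7, 8, 9, 10, 11, 12, 13, 14, 15, 16, 17, 18, 19],
  [1, 0, 9, 8, 7, 6, 5, 4, 3, 2, 11, 10, 19, 18, 17, 16, 15, 14, 13, 12],
  [2, 1, 0, 9, 8, 7, 6, 5, 4, 3, 12, 11, 10, 19, 18, 17, 16, 15, 14, 13],
  [3, 2, 1, 0, 9, 8, 7, 6, 5, 4, 13, 12, 11, 10, 19, 18, 17, 16, 15, 14],
  [4, 3, 2, 1, 0, 9, 8, 7, 6, 5, 14, 13, 12, 11, 10, 19, 18, 17, 16, 15],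
  [5, 4, 3, 2, 1, 0, 9, 8, 7, 6, 15, 14, 13, 12, 11, 10, 19, 18, 17, 16],
  [6, 5, 4, 3, 2, 1, 0, 9, 8, 7, 16, 15, 14, 13, 12, 11, 10, 19, 18, 17],
  [7, 6, 5, 4, 3, 2, 1, 0, 9, 8, 17, 16, 15, 14, 13, 12, 11, 10, 19, 18],
  [8, 7, 6, 5, 4, 3, 2, 1, 0, 9, 18, 17, 16, 15, 14, 13, 12, 11, 10, 19],
  [9, 0, 1, 2, 3, 4, 5, 6, 7, 8, 19, 10, 11, 12, 13, 14, 15, 16, 17, 18],
  [10, 0, 9, 19, 17, 15, 5, 4, 14, 12, 18, 1, 8, 11, 7, 13, 6, 3, 16, 2],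
  [11, 1, 0, 10, 18, 16, 6, 5, 15, 13, 19, 2, 9, 12, 8, 14, 7, 4, 17, 3],
  [12, 2, 3, 13, 15, 17, 7, 8, 18, 10, 14, 1, 4, 11, 5, 19, 6, 9, 16, 0],
  [13, 3, 4, 14, 16, 18, 8, 9, 19, 11, 15, 2, 5, 12, 6, 10, 7, 0, 17, 1],
  [14, 4, 5, 15, 17, 19, 9, 0, 10, 12, 16, 3, 6, 13, 7, 11, 8, 1, 18, 2],
  [15, 5, 6, 16, 18, 10, 0, 1, 11, 13, 17, 4, 7, 14, 8, 12, 9, 2, 19, 3],
  [16, 6, 7, 17, 19, 11, 1, 2, 12, 14, 18, 5, 8, 15, 9, 13, 0, 3, 10, 4],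
  [17, 7, 8, 18, 10, 12, 2, 3, 13, 15, 19, 6, 9, 16, 0, 14, 1, 4, 11, 5],
  [18, 8, 7, 17, 15, 13, 3, 2, 12, 10, 16, 9, 6, 19, 5, 11, 4, 1, 14, 0],
  [19, 9, 8, 18, 16, 14, 4, 3, 13, 11, 17, 0, 7, 10, 6, 12, 5, 2, 15, 1]]

def iL : List (List ℕ) := [
  [0, 1, 2, 3, 4, 5, 6, 7, 8, 9, 10, 11, 12, 13, 14, 15, 16, 17, 18, 19],
  [1, 0, 9, 8, 7, 6, 5, 4, 3, 2, 11, 10, 19, 18, 17, 16, 15, 14, 13, 12],
  [2, 1, 0, 9, 8, 7, 6, 5, 4, 3, 12, 11, 10, 19, 18, 17, 16, 15, 14, 13],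
  [3, 2, 1, 0, 9, 8, 7, 6, 5, 4, 13, 12, 11, 10, 19, 18, 17, 16, 15, 14],
  [4, 3, 2, 1, 0, 9, 8, 7, 6, 5, 14, 13, 12, 11, 10, 19, 18, 17, 16, 15],
  [5, 4, 3, 2, 1, 0, 9, 8, 7, 6, 15, 14, 13, 12, 11, 10, 19, 18, 17, 16],
  [6, 5, 4, 3, 2, 1, 0, 9, 8, 7, 16, 15, 14, 13, 12, 11, 10, 19, 18, 17],
  [7, 6, 5, 4, 3, 2, 1, 0, 9, 8, 17, 16, 15, 14, 13, 12, 11, 10, 19, 18],
  [8, 7, 6, 5, 4, 3, 2, 1, 0, 9, 18, 17, 16, 15, 14, 13, 12, 11, 10, 19],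
  [1, 2, 3, 4, 5, 6, 7, 8, 9, 0, 11, 12, 13, 14, 15, 16, 17, 18, 19, 10],
  [1, 11, 19, 17, 7, 6, 16, 14, 12, 2, 0, 13, 9, 15, 8, 5, 18, 4, 10, 3],
  [2, 1, 11, 19, 17, 7, 6, 16, 14, 12, 3, 0, 13, 9, 15, 8, 5, 18, 4, 10],
  [19, 11, 1, 2, 12, 14, 16, 6, 7, 17, 9, 13, 0, 3, 10, 4, 18, 5, 8, 15],
  [17, 19, 11, 1, 2, 12, 14, 16, 6, 7, 15, 9, 13, 0, 3, 10, 4, 18, 5, 8],
  [7, 17, 19, 11, 1, 2, 12, 14, 16, 6, 8, 15, 9, 13, 0, 3, 10, 4, 18, 5],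
  [6, 7, 17, 19, 11, 1, 2, 12, 14, 16, 5, 8, 15, 9, 13, 0, 3, 10, 4, 18],
  [16, 6, 7, 17, 19, 11, 1, 2, 12, 14, 18, 5, 8, 15, 9, 13, 0, 3, 10, 4],
  [14, 16, 6, 7, 17, 19, 11, 1, 2, 12, 4, 18, 5, 8, 15, 9, 13, 0, 3, 10],
  [19, 17, 7, 6, 16, 14, 12, 2, 1, 11, 9, 15, 8, 5, 18, 4, 10, 3, 0, 13],
  [11, 19, 17, 7, 6, 16, 14, 12, 2, 1, 13, 9, 15, 8, 5, 18, 4, 10, 3, 0]]

def adjB (a b : Fin 20) : Bool := Nat.testBit (masks.getD a 0) b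

def d (x y : Fin 20) : ℕ := (dL.getD x []).getD y 0

def f (x : Fin 20) : ZMod 3 := ((fL.getD x 0 : ℕ) : ZMod 3)

def c (x y : Fin 20) : ZMod 3 := (((cL.getD x []).getD y 0 : ℕ) : ZMod 3)

def perm (x a : Fin 20) : Fin 20 := Fin.ofNat 20 ((aL.getD x []).getD a 0)

def inv (x a : Fin 20) : Fin 20 := Fin.ofNat 20 ((iL.getD x []).getD a 0)

set_option synthInstance.maxSize 100000

theorem adj_symm : ∀ a b : Fin 20, adjB a b = true → adjB b a = true := by decide +kernel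

theorem adj_irrefl : ∀ a : Fin 20, ¬ adjB a a = true := by decide +kernel

/-- the dodecahedron graph -/
def G : SimpleGraph (Fin 20) where
  Adj a b := adjB a b = true
  symm := ⟨fun a b h => adj_symm a b h⟩
  loopless := ⟨fun a h => adj_irrefl a h⟩

theorem perm_inv : ∀ x a : Fin 20, perm x (inv x a) = a := by decide +kernel

theorem inv_perm : ∀ x a : Fin 20, inv x (perm x a) = a := by decide +kernel

theorem perm_adj : ∀ x a b : Fin 20, adjB (perm x a) (perm x b) = adjB a b := by decide +kernel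

theorem perm_zero : ∀ x : Fin 20, perm x 0 = x := by decide +kernel

/-- the automorphism taking `0` to `x` -/
def aut (x : Fin 20) : G ≃g G where
  toFun := perm x
  invFun := inv x
  left_inv := inv_perm x
  right_inv := perm_inv x
  map_rel_iff' := by
    intro a b
    show adjB (perm x a) (perm x b) = true ↔ adjB a b = true
    rw [perm_adj]

theorem transitive (x y : Fin 20) : ∃ φ : G ≃g G, φ x = y := by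
  refine ⟨(aut x).symm.trans (aut y), ?_⟩
  have h1 : (aut x).symm x = 0 := by
    rw [RelIso.symm_apply_eq]
    exact (perm_zero x).symm
  show (aut y) ((aut x).symm x) = y
  rw [h1]
  exact perm_zero y

theorem d_self : ∀ x : Fin 20, d x x = 0 := by decide +kernel

theorem d_zero : ∀ x y : Fin 20, d x y = 0 → x = y := by decide +kernel

theorem d_adj : ∀ x z : Fin 20, adjB x z = true → ∀ y, d x y ≤ d z y + 1 := by decide +kernel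

theorem d_step : ∀ x y : Fin 20, 0 < d x y → ∃ z, adjB x z = true ∧ d z y + 1 = d x y := by
  decide +kernel

theorem c_self : ∀ x : Fin 20, c x x = f x := by decide +kernel

theorem c_step : ∀ x z : Fin 20, adjB x z = true → ∀ y, d x y = d z y + 1 → c x y = f x + c z y := by
  decide +kernel

theorem f_sum : ∑ v : Fin 20, f v = 0 := by decide +kernel

theorem c_sum : ∑ p ∈ (Finset.univ : Finset (Fin 20 × Fin 20)).filter (fun p => p.1 ≠ p.2), c p.1 p.2 ≠ 0 := by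
  decide +kernel

theorem walk_exists : ∀ (k : ℕ) (x y : Fin 20), d x y = k → ∃ p : G.Walk x y, p.length = k := by
  intro k
  induction k with
  | zero =>
    intro x y h
    have := d_zero x y h
    subst this
    exact ⟨SimpleGraph.Walk.nil, rfl⟩
  | succ k ih =>
    intro x y h
    obtain ⟨z, hz, hd⟩ := d_step x y (by omega)
    obtain ⟨p, hp⟩ := ih z y (by omega)
    exact ⟨SimpleGraph.Walk.cons (show G.Adj x z from hz) p, by simp [hp]⟩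

theorem walk_sum {x y : Fin 20} (p : G.Walk x y) :
    d x y ≤ p.length ∧ (p.length = d x y → (p.support.map f).sum = c x y) := by
  induction p with
  | nil =>
    refine ⟨by rw [d_self]; exact Nat.zero_le _, fun _ => ?_⟩
    simp [c_self]
  | @cons x z y h q ih =>
    have h' : adjB x z = true := h
    have h1 := d_adj x z h' y
    obtain ⟨ih1, ih2⟩ := ih
    refine ⟨by rw [SimpleGraph.Walk.length_cons]; omega, fun hl => ?_⟩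
    rw [SimpleGraph.Walk.length_cons] at hl
    have h2 : d x y = d z y + 1 := by omega
    have h3 : q.length = d z y := by omega
    rw [SimpleGraph.Walk.support_cons, List.map_cons, List.sum_cons, ih2 h3, c_step x z h' y h2]

theorem dist_eq (x y : Fin 20) : G.dist x y = d x y := by
  obtain ⟨p, hp⟩ := walk_exists (d x y) x y rfl
  have h1 : G.dist x y ≤ d x y := hp ▸ SimpleGraph.dist_le p
  obtain ⟨q, hq⟩ := SimpleGraph.Reachable.exists_walk_length_eq_dist ⟨p⟩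
  have := (walk_sum q).1
  omega

theorem connected : G.Connected := by
  rw [SimpleGraph.connected_iff]
  refine ⟨fun x y => ?_, ⟨0⟩⟩
  obtain ⟨p, _⟩ := walk_exists (d x y) x y rfl
  exact ⟨p⟩

theorem no_routing (P : (x : Fin 20) → (y : Fin 20) → G.Walk x y)
    (hP : ∀ x y : Fin 20, x ≠ y → (P x y).length = G.dist x y) (L : ℕ)
    (hL : ∀ v : Fin 20, (Finset.univ.filter
      (fun p : Fin 20 × Fin 20 => p.1 ≠ p.2 ∧ v ∈ (P p.1 p.2).support)).card = L) : False := by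
  have h1 : ∑ v : Fin 20, f v * (L : ZMod 3) = 0 := by
    rw [← Finset.sum_mul, f_sum, zero_mul]
  have h2 : ∑ v : Fin 20, f v * (L : ZMod 3) =
      ∑ p ∈ (Finset.univ : Finset (Fin 20 × Fin 20)).filter (fun p => p.1 ≠ p.2), c p.1 p.2 := by
    calc ∑ v : Fin 20, f v * (L : ZMod 3)
        = ∑ v : Fin 20, ∑ p ∈ (Finset.univ : Finset (Fin 20 × Fin 20)).filter (fun p => p.1 ≠ p.2),
            (if v ∈ (P p.1 p.2).support then f v else 0) := by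
          refine Finset.sum_congr rfl fun v _ => ?_
          rw [← hL v, Finset.sum_ite, Finset.sum_const_zero, add_zero, Finset.sum_const,
            Finset.filter_filter, nsmul_eq_mul, mul_comm]
      _ = ∑ p ∈ (Finset.univ : Finset (Fin 20 × Fin 20)).filter (fun p => p.1 ≠ p.2),
            ∑ v : Fin 20, (if v ∈ (P p.1 p.2).support then f v else 0) := Finset.sum_comm
      _ = _ := by
          refine Finset.sum_congr rfl fun p hp => ?_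
          have hne : p.1 ≠ p.2 := by simpa using hp
          have hl := hP p.1 p.2 hne
          have hpath : (P p.1 p.2).IsPath := SimpleGraph.Walk.isPath_of_length_eq_dist _ hl
          rw [dist_eq] at hl
          rw [← (walk_sum (P p.1 p.2)).2 hl, ← List.sum_toFinset f hpath.support_nodup,
            ← Finset.sum_filter]
          refine Finset.sum_congr ?_ fun _ _ => rfl
          ext v
          simp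
  exact c_sum (h2.symm.trans h1)

end Pool.Agent.H14.Dod
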