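import Mathlib

set_option autoImplicit false

open Filter Topology Set MeasureTheory
open scoped ENNReal InnerProductSpace ComplexConjugate

namespace Pool.Agent.Results.MP_6c6e33_an.NoBoundedGabor

/-! ### Definitions -/

/-- The complex Hilbert space `L²(ℝ)`. -/
abbrev L2R : Type := Lp ℂ 2 (volume : Measure ℝ)

/-- `{f_k}` is a frame: there are `A, B > 0` with
`A ‖h‖² ≤ ∑ |⟨h, f_k⟩|² ≤ B ‖h‖²` for all `h`. -/
def IsFrame {H : Type*} [NormedAddCommGroup H] [InnerProductSpace ℂ H] {I : Type*}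
    (f : I → H) : Prop :=
  ∃ A B : ℝ, 0 < A ∧ 0 < B ∧ ∀ h : H, Summable (fun k => ‖⟪h, f k⟫_ℂ‖ ^ 2) ∧
    A * ‖h‖ ^ 2 ≤ ∑' k, ‖⟪h, f k⟫_ℂ‖ ^ 2 ∧ ∑' k, ‖⟪h, f k⟫_ℂ‖ ^ 2 ≤ B * ‖h‖ ^ 2

/-- `{f_k}` is a Riesz basis: its linear span is dense and there are `A, B > 0` with
`A ∑ |c_k|² ≤ ‖∑ c_k f_k‖² ≤ B ∑ |c_k|²` for all finite scalar families `c`. -/
def IsRieszBasis {H : Type*} [NormedAddCommGroup H] [InnerProductSpace ℂ H] {I : Type*}
    (f : I → H) : Prop :=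
  Dense (Submodule.span ℂ (range f) : Set H) ∧ ∃ A B : ℝ, 0 < A ∧ 0 < B ∧
    ∀ (s : Finset I) (c : I → ℂ), A * ∑ k ∈ s, ‖c k‖ ^ 2 ≤ ‖∑ k ∈ s, c k • f k‖ ^ 2 ∧
      ‖∑ k ∈ s, c k • f k‖ ^ 2 ≤ B * ∑ k ∈ s, ‖c k‖ ^ 2

/-- A frame which is not a (Riesz) basis is overcomplete. -/
def IsOvercompleteFrame {H : Type*} [NormedAddCommGroup H] [InnerProductSpace ℂ H] {I : Type*}
    (f : I → H) : Prop :=
  IsFrame f ∧ ¬ IsRieszBasis f

/-- The sequence `{f_k}`, indexed by `I = ℕ` or `I = ℤ`, has a representation `{T^k φ}` with a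
bounded operator `T`: there is a bounded linear operator `T : span {f_k} → H` with
`T f_k = f_{k+1}` for all `k`. -/
def HasBoundedRepresentation {H : Type*} [NormedAddCommGroup H] [InnerProductSpace ℂ H]
    {I : Type*} [Add I] [One I] (f : I → H) : Prop :=
  ∃ T : Submodule.span ℂ (range f) →ₗ[ℂ] H,
    (∀ k, T ⟨f k, Submodule.subset_span (mem_range_self k)⟩ = f (k + 1)) ∧
    ∃ M : ℝ, ∀ v, ‖T v‖ ≤ M * ‖v‖

theorem memLp_tf (α β : ℝ) (h : L2R) :
    MemLp (fun x : ℝ => Complex.exp (2 * Real.pi * Complex.I * β * x) * h (x - α)) 2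
      (volume : Measure ℝ) := by
  have h1 : MemLp (h ∘ fun x : ℝ => x - α) 2 (volume : Measure ℝ) :=
    (Lp.memLp h).comp_measurePreserving (measurePreserving_sub_right volume α)
  refine h1.of_le ?_ ?_
  · refine AEStronglyMeasurable.mul ?_ h1.aestronglyMeasurable
    exact Continuous.aestronglyMeasurable (by fun_prop)
  · refine Eventually.of_forall fun x => ?_
    rw [norm_mul]
    have : ‖Complex.exp (2 * Real.pi * Complex.I * β * x)‖ = 1 := by
      rw [Complex.norm_exp]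
      simp
    rw [this, one_mul]
    rfl

/-- The time-frequency shift `E_β T_α` on `L²(ℝ)`:
`(E_β T_α h)(x) = e^{2 π i β x} h(x - α)`. -/
noncomputable def tfShift (α β : ℝ) (h : L2R) : L2R :=
  MemLp.toLp (fun x : ℝ => Complex.exp (2 * Real.pi * Complex.I * β * x) * h (x - α))
    (memLp_tf α β h)

/-- The Gabor system `{E_{mb} T_{na} g}`, indexed by `(m, n) ∈ ℤ × ℤ`. -/
noncomputable def gabor (a b : ℝ) (g : L2R) (x : ℤ × ℤ) : L2R :=
  tfShift (x.2 * a) (x.1 * b) g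

end Pool.Agent.Results.MP_6c6e33_an.NoBoundedGabor
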