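import Mathlib
import Pool.Agent.H14.GaborDefs

set_option autoImplicit false

open Filter Topology Set MeasureTheory
open scoped ENNReal InnerProductSpace ComplexConjugate

namespace Pool.Agent.Results.MP_6c6e33_an.NoBoundedGabor

/-! ### Time-frequency shifts -/

theorem norm_cexp (β x : ℝ) : ‖Complex.exp (2 * Real.pi * Complex.I * β * x)‖ = 1 := by
  rw [Complex.norm_exp]
  simp

theorem coeFn_tfShift (α β : ℝ) (h : L2R) :
    tfShift α β h =ᵐ[volume]
      fun x : ℝ => Complex.exp (2 * Real.pi * Complex.I * β * x) * h (x - α) :=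
  MemLp.coeFn_toLp _

theorem norm_tfShift (α β : ℝ) (h : L2R) : ‖tfShift α β h‖ = ‖h‖ := by
  rw [tfShift, Lp.norm_toLp, Lp.norm_def]
  congr 1
  have h2 : eLpNorm (fun x : ℝ => Complex.exp (2 * Real.pi * Complex.I * β * x) * h (x - α)) 2
      (volume : Measure ℝ) = eLpNorm (h ∘ fun x : ℝ => x - α) 2 (volume : Measure ℝ) := by
    apply eLpNorm_congr_norm_ae
    refine Eventually.of_forall fun x => ?_
    rw [norm_mul, norm_cexp, one_mul]
    rfl
  rw [h2]
  exact eLpNorm_comp_measurePreserving (Lp.aestronglyMeasurable h)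
    (measurePreserving_sub_right volume α)

theorem tendsto_ae_sub (α : ℝ) {p : ℝ → Prop} (hp : ∀ᵐ x ∂(volume : Measure ℝ), p x) :
    ∀ᵐ x ∂(volume : Measure ℝ), p (x - α) :=
  (measurePreserving_sub_right (volume : Measure ℝ) α).quasiMeasurePreserving.ae hp

/-- The time-frequency shift as a linear map. -/
noncomputable def tfLin (α β : ℝ) : L2R →ₗ[ℂ] L2R where
  toFun := tfShift α β
  map_add' := by
    intro h k
    apply Lp.ext
    filter_upwards [coeFn_tfShift α β (h + k), coeFn_tfShift α β h, coeFn_tfShift α β k,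
      Lp.coeFn_add (tfShift α β h) (tfShift α β k), tendsto_ae_sub α (Lp.coeFn_add h k)]
      with x h1 h2 h3 h4 h5
    rw [h1, h4, h5, Pi.add_apply, Pi.add_apply, h2, h3]
    ring
  map_smul' := by
    intro c h
    apply Lp.ext
    filter_upwards [coeFn_tfShift α β (c • h), coeFn_tfShift α β h,
      Lp.coeFn_smul c (tfShift α β h), tendsto_ae_sub α (Lp.coeFn_smul c h)]
      with x h1 h2 h4 h5
    rw [h1, RingHom.id_apply, h4, h5, Pi.smul_apply, Pi.smul_apply, h2]
    simp only [smul_eq_mul]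
    ring

theorem tfShift_tfShift (α β α' β' : ℝ) (g : L2R) :
    tfShift α β (tfShift α' β' g) =
      Complex.exp (2 * Real.pi * Complex.I * ((-(β' * α) : ℝ))) •
        tfShift (α + α') (β + β') g := by
  apply Lp.ext
  filter_upwards [coeFn_tfShift α β (tfShift α' β' g), coeFn_tfShift (α + α') (β + β') g,
      Lp.coeFn_smul (Complex.exp (2 * Real.pi * Complex.I * ((-(β' * α) : ℝ))))
        (tfShift (α + α') (β + β') g), tendsto_ae_sub α (coeFn_tfShift α' β' g)]
      with x h1 h2 h4 h5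
  rw [h1, h4, Pi.smul_apply, h5, h2, smul_eq_mul, ← mul_assoc, ← mul_assoc, ← Complex.exp_add,
    ← Complex.exp_add]
  congr 2
  · push_cast
    ring
  · rw [sub_sub]

/-- The phase in `E_{pb} T_{qa} E_{mb} T_{na} = phase • E_{(m+p)b} T_{(n+q)a}`. -/
noncomputable def phase (a b : ℝ) (y x : ℤ × ℤ) : ℂ :=
  Complex.exp (2 * Real.pi * Complex.I * ((-((x.1 * b) * (y.2 * a)) : ℝ)))

theorem norm_phase (a b : ℝ) (y x : ℤ × ℤ) : ‖phase a b y x‖ = 1 := by
  rw [phase, Complex.norm_exp]
  simp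

theorem tf_gabor (a b : ℝ) (g : L2R) (x y : ℤ × ℤ) :
    tfShift (y.2 * a) (y.1 * b) (gabor a b g x) = phase a b y x • gabor a b g (x + y) := by
  rw [gabor, tfShift_tfShift, phase, gabor]
  congr 2
  · push_cast [Prod.snd_add]
    ring
  · push_cast [Prod.fst_add]
    ring

/-! ### Weighted composition isometries of `ℓ²(J)` -/

section Abstract

variable {J : Type*} [DecidableEq J]

/-- `ℓ²(J)`. -/
abbrev L (J : Type*) : Type _ := lp (fun _ : J => ℂ) 2

/-- The standard basis vector. -/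
noncomputable def del (x : J) : L J := lp.single 2 x (1 : ℂ)

theorem inner_del_left (x : J) (c : L J) : ⟪del x, c⟫_ℂ = c x := by
  rw [del, lp.inner_single_left]
  simp

theorem norm_del (x : J) : ‖del x‖ = 1 := by
  rw [del, lp.norm_single (by norm_num)]
  simp

theorem del_apply_self (x : J) : (del x : L J) x = 1 := by
  rw [del, lp.single_apply_self]

theorem del_apply_ne {x y : J} (h : y ≠ x) : (del x : L J) y = 0 := by
  rw [del, lp.single_apply_ne _ _ _ h]

theorem orthonormal_w (s : J → J) (hs : Function.Injective s) (w : J → ℂ)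
    (hw : ∀ x, ‖w x‖ = 1) : Orthonormal ℂ (fun x => w x • (del (s x) : L J)) := by
  constructor
  · intro x
    rw [norm_smul, hw, norm_del, one_mul]
  · intro x y hxy
    rw [inner_smul_left, inner_smul_right, inner_del_left, del_apply_ne (fun h => hxy (hs h))]
    simp

/-- The isometry `δ_x ↦ w_x δ_{s x}` of `ℓ²(J)`. -/
noncomputable def shiftIso (s : J → J) (hs : Function.Injective s) (w : J → ℂ)
    (hw : ∀ x, ‖w x‖ = 1) : L J →ₗᵢ[ℂ] L J :=
  (orthonormal_w s hs w hw).orthogonalFamily.linearIsometry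

theorem shiftIso_del (s : J → J) (hs : Function.Injective s) (w : J → ℂ)
    (hw : ∀ x, ‖w x‖ = 1) (x : J) :
    shiftIso s hs w hw (del x) = w x • del (s x) := by
  rw [shiftIso, del, OrthogonalFamily.linearIsometry_apply_single]
  simp

theorem shiftIso_apply (s : J → J) (hs : Function.Injective s) (w : J → ℂ)
    (hw : ∀ x, ‖w x‖ = 1) (c : L J) (x : J) :
    shiftIso s hs w hw c (s x) = w x * c x := by
  have h := (shiftIso s hs w hw).inner_map_map (del x) c
  rw [shiftIso_del, inner_smul_left, inner_del_left, inner_del_left] at h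
  rw [← h, ← mul_assoc, Complex.mul_conj, Complex.normSq_eq_norm_sq, hw]
  simp

theorem shiftIso_apply_of_notMem (s : J → J) (hs : Function.Injective s) (w : J → ℂ)
    (hw : ∀ x, ‖w x‖ = 1) (c : L J) (y : J) (hy : ∀ x, s x ≠ y) :
    shiftIso s hs w hw c y = 0 := by
  have h := (orthonormal_w s hs w hw).orthogonalFamily.hasSum_linearIsometry c
  have h2 := (innerSL ℂ (del y : L J)).hasSum h
  have h3 : (fun x => innerSL ℂ (del y : L J)
      ((LinearIsometry.toSpanSingleton ℂ (L J) ((orthonormal_w s hs w hw).1 x)) (c x))) =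
      fun _ => 0 := by
    funext x
    simp only [innerSL_apply_apply, LinearIsometry.toSpanSingleton_apply]
    rw [inner_smul_right, inner_smul_right, inner_del_left, del_apply_ne (fun h => hy x h.symm)]
    simp
  have h4 : (innerSL ℂ (del y : L J)) (shiftIso s hs w hw c) = shiftIso s hs w hw c y := by
    rw [innerSL_apply_apply, inner_del_left]
  rw [← h4]
  refine HasSum.unique h2 ?_
  simp only [Function.comp_def]
  rw [h3]
  exact hasSum_zero

/-! ### The projection onto an invariant subspace -/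

variable (K : Submodule ℂ (L J)) [K.HasOrthogonalProjection]

/-- The projection of `δ_x` onto `K`. -/
noncomputable def pr (x : J) : L J := K.starProjection (del x)

theorem pr_mem (x : J) : pr K x ∈ K := Submodule.starProjection_apply_mem K _

theorem inner_pr_left {c : L J} (hc : c ∈ K) (x : J) : ⟪pr K x, c⟫_ℂ = c x := by
  rw [pr, Submodule.inner_starProjection_left_eq_right, Submodule.starProjection_eq_self_iff.2 hc,
    inner_del_left]

theorem pr_apply_self (x : J) : pr K x x = ((‖pr K x‖ ^ 2 : ℝ) : ℂ) := by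
  rw [← inner_pr_left K (pr_mem K x) x, inner_self_eq_norm_sq_to_K]
  simp

theorem pr_conj (x y : J) : pr K x y = conj (pr K y x) := by
  rw [← inner_pr_left K (pr_mem K x) y, ← inner_pr_left K (pr_mem K y) x, inner_conj_symm]

theorem pr_shift_key (s : J → J) (hs : Function.Injective s) (w : J → ℂ)
    (hw : ∀ x, ‖w x‖ = 1) (hK : ∀ c ∈ K, shiftIso s hs w hw c ∈ K) (x : J) :
    ‖w x • pr K (s x) - shiftIso s hs w hw (pr K x)‖ ^ 2 = ‖pr K (s x)‖ ^ 2 - ‖pr K x‖ ^ 2 := by
  have h1 : ⟪w x • pr K (s x), shiftIso s hs w hw (pr K x)⟫_ℂ = ((‖pr K x‖ ^ 2 : ℝ) : ℂ) := by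
    rw [inner_smul_left, inner_pr_left K (hK _ (pr_mem K x)), shiftIso_apply, ← mul_assoc,
      mul_comm (conj (w x)), Complex.mul_conj, Complex.normSq_eq_norm_sq, hw, pr_apply_self]
    simp
  rw [@norm_sub_sq ℂ, h1, norm_smul, hw, LinearIsometry.norm_map]
  simp only [RCLike.re_to_complex, Complex.ofReal_re]
  ring

theorem pr_le (s : J → J) (hs : Function.Injective s) (w : J → ℂ)
    (hw : ∀ x, ‖w x‖ = 1) (hK : ∀ c ∈ K, shiftIso s hs w hw c ∈ K) (x : J) :
    ‖pr K x‖ ^ 2 ≤ ‖pr K (s x)‖ ^ 2 := by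
  have := pr_shift_key K s hs w hw hK x
  nlinarith [sq_nonneg ‖w x • pr K (s x) - shiftIso s hs w hw (pr K x)‖]

theorem pr_shift_eq (s : J → J) (hs : Function.Injective s) (w : J → ℂ)
    (hw : ∀ x, ‖w x‖ = 1) (hK : ∀ c ∈ K, shiftIso s hs w hw c ∈ K) (x : J)
    (hx : ‖pr K (s x)‖ ^ 2 = ‖pr K x‖ ^ 2) :
    w x • pr K (s x) = shiftIso s hs w hw (pr K x) := by
  have := pr_shift_key K s hs w hw hK x
  rw [hx, sub_self] at this
  have h2 : ‖w x • pr K (s x) - shiftIso s hs w hw (pr K x)‖ = 0 := by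
    exact pow_eq_zero_iff (two_ne_zero) |>.1 this
  exact sub_eq_zero.1 (norm_eq_zero.1 h2)

/-- If `P_K` is diagonal with constant diagonal then `K` is trivial. -/
theorem trivial_of_diagonal (q : ℝ) (hq : ∀ x, ‖pr K x‖ ^ 2 = q)
    (hoff : ∀ x y, x ≠ y → pr K x y = 0) [Nonempty J] :
    K = ⊥ ∨ ∀ x : J, del x ∈ K := by
  have h1 : ∀ x, pr K x = (q : ℂ) • del x := by
    intro x
    apply lp.ext
    funext y
    rw [lp.coeFn_smul, Pi.smul_apply]
    rcases eq_or_ne y x with rfl | hxy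
    · rw [del_apply_self, pr_apply_self, hq]
      simp
    · rw [del_apply_ne hxy, hoff x y hxy.symm]
      simp
  have h2 : q * q = q := by
    obtain ⟨x⟩ := (inferInstance : Nonempty J)
    have h3 := hq x
    rw [h1 x, norm_smul, norm_del] at h3
    simp only [Complex.norm_real, mul_one, Real.norm_eq_abs, sq_abs] at h3
    nlinarith
  rcases eq_or_ne q 0 with h0 | h0
  · left
    rw [Submodule.eq_bot_iff]
    intro c hc
    apply lp.ext
    funext x
    rw [← inner_pr_left K hc x, h1 x, h0]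
    simp
  · right
    intro x
    have h3 : q = 1 := by
      have := mul_right_cancel₀ h0 (h2.trans (one_mul q).symm)
      exact this
    have h4 := pr_mem K x
    rw [h1 x, h3] at h4
    simpa using h4

end Abstract

/-! ### Off-diagonal entries -/

section OffDiagonal

theorem shift_inj {I J : Type*} [Add I] [One I] (h1 : ∀ k l : I, k + 1 = l + 1 → k = l)
    (σ : I ≃ J) : Function.Injective (fun x => σ (σ.symm x + 1)) := by
  intro x y h
  exact σ.symm.injective (h1 _ _ (σ.injective h))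

theorem off_nat {J : Type*} [DecidableEq J] (K : Submodule ℂ (L J)) [K.HasOrthogonalProjection]
    (σ : ℕ ≃ J) (hs : Function.Injective (fun x => σ (σ.symm x + 1)))
    (hw : ∀ _ : J, ‖(1 : ℂ)‖ = 1) (q : ℝ) (hq : ∀ x, ‖pr K x‖ ^ 2 = q)
    (hK : ∀ c ∈ K, shiftIso (fun x => σ (σ.symm x + 1)) hs (fun _ => 1) hw c ∈ K) :
    ∀ x y, x ≠ y → pr K x y = 0 := by
  have h1 : ∀ k : ℕ, pr K (σ (k + 1)) =
      shiftIso (fun x => σ (σ.symm x + 1)) hs (fun _ => 1) hw (pr K (σ k)) := by
    intro k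
    have := pr_shift_eq K (fun x => σ (σ.symm x + 1)) hs (fun _ => 1) hw hK (σ k)
      (by rw [hq, hq])
    rw [← this]
    simp
  have h2 : ∀ k j : ℕ, j < k → pr K (σ k) (σ j) = 0 := by
    intro k
    induction k with
    | zero => intro j hj; omega
    | succ k ih =>
      intro j hj
      rw [h1]
      rcases j with _ | j
      · apply shiftIso_apply_of_notMem
        intro x hx
        have := σ.injective hx
        omega
      · have h3 := shiftIso_apply (fun x => σ (σ.symm x + 1)) hs (fun _ => 1) hw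
          (pr K (σ k)) (σ j)
        simp only [Equiv.symm_apply_apply] at h3
        rw [h3, ih j (by omega), mul_zero]
  intro x y hxy
  obtain ⟨k, rfl⟩ := σ.surjective x
  obtain ⟨j, rfl⟩ := σ.surjective y
  have hkj : k ≠ j := fun h => hxy (by rw [h])
  rcases lt_or_gt_of_ne hkj with h | h
  · rw [pr_conj, h2 _ _ h, map_zero]
  · exact h2 _ _ h

theorem comb (σ : ℤ ≃ ℤ × ℤ) (a : ℤ → ℝ) (V : ℤ × ℤ → ℝ)
    (h4 : ∀ j k, a (j - k) = V (σ j - σ k)) (ε : ℝ) (n₀ : ℤ) (hn₀ : n₀ ≠ 0)
    (ha : ε ≤ a n₀) (M : ℕ) (hM : ∀ n, ε ≤ a n → |n| ≤ M) : False := by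
  have lip : ∀ u, ε ≤ V u → ∀ x, |σ.symm (x + u) - σ.symm x| ≤ M := by
    intro u hu x
    apply hM
    rw [h4]
    simpa using hu
  by_cases hA : ∃ u w, ε ≤ V u ∧ ε ≤ V w ∧ u.1 * w.2 - u.2 * w.1 ≠ 0
  · obtain ⟨u, w, hu, hw, hdet⟩ := hA
    have b1 : ∀ (i : ℕ) (x : ℤ × ℤ), |σ.symm (x + (i : ℤ) • u) - σ.symm x| ≤ M * i := by
      intro i
      induction i with
      | zero => intro x; simp
      | succ i ih =>
        intro x
        have e1 := ih x
        have e2 := lip u hu (x + (i : ℤ) • u)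
        have e3 : x + ((i + 1 : ℕ) : ℤ) • u = x + (i : ℤ) • u + u := by
          push_cast; rw [add_smul, one_smul, add_assoc]
        rw [e3]
        have := abs_sub_le (σ.symm (x + (i : ℤ) • u + u)) (σ.symm (x + (i : ℤ) • u)) (σ.symm x)
        push_cast
        nlinarith
    have b2 : ∀ (i : ℕ) (x : ℤ × ℤ), |σ.symm (x + (i : ℤ) • w) - σ.symm x| ≤ M * i := by
      intro i
      induction i with
      | zero => intro x; simp
      | succ i ih =>
        intro x
        have e1 := ih x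
        have e2 := lip w hw (x + (i : ℤ) • w)
        have e3 : x + ((i + 1 : ℕ) : ℤ) • w = x + (i : ℤ) • w + w := by
          push_cast; rw [add_smul, one_smul, add_assoc]
        rw [e3]
        have := abs_sub_le (σ.symm (x + (i : ℤ) • w + w)) (σ.symm (x + (i : ℤ) • w)) (σ.symm x)
        push_cast
        nlinarith
    set r : ℕ := 4 * M + 1 with hr
    set F : ℕ × ℕ → ℤ := fun ij => σ.symm ((0 + (ij.1 : ℤ) • u) + (ij.2 : ℤ) • w) with hF
    have hmaps : ∀ ij ∈ Finset.range (r + 1) ×ˢ Finset.range (r + 1),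
        F ij ∈ Finset.Icc (σ.symm 0 - 2 * M * r) (σ.symm 0 + 2 * M * r) := by
      intro ij hij
      rw [Finset.mem_product, Finset.mem_range, Finset.mem_range] at hij
      have e1 := b2 ij.2 (0 + (ij.1 : ℤ) • u)
      have e2 := b1 ij.1 0
      have e3 := abs_sub_le (F ij) (σ.symm (0 + (ij.1 : ℤ) • u)) (σ.symm 0)
      have e4 : (ij.1 : ℤ) ≤ r := by exact_mod_cast Nat.lt_succ_iff.1 hij.1
      have e5 : (ij.2 : ℤ) ≤ r := by exact_mod_cast Nat.lt_succ_iff.1 hij.2
      have e6 : |F ij - σ.symm 0| ≤ 2 * M * r := by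
        have : (0 : ℤ) ≤ M := by positivity
        nlinarith
      rw [abs_le] at e6
      rw [Finset.mem_Icc]
      constructor <;> linarith [e6.1, e6.2]
    have hinj : Set.InjOn F (Finset.range (r + 1) ×ˢ Finset.range (r + 1) : Finset (ℕ × ℕ)) := by
      intro ij _ kl _ h
      have h := σ.symm.injective h
      have hx := congrArg Prod.fst h
      have hy := congrArg Prod.snd h
      simp only [Prod.fst_add, Prod.snd_add, Prod.smul_fst, Prod.smul_snd, smul_eq_mul,
        zero_add] at hx hy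
      have d1 : ((ij.1 : ℤ) - kl.1) * (u.1 * w.2 - u.2 * w.1) = 0 := by
        linear_combination w.2 * hx - w.1 * hy
      have d2 : ((ij.2 : ℤ) - kl.2) * (u.1 * w.2 - u.2 * w.1) = 0 := by
        linear_combination u.1 * hy - u.2 * hx
      have d3 := (mul_eq_zero.1 d1).resolve_right hdet
      have d4 := (mul_eq_zero.1 d2).resolve_right hdet
      ext
      · exact_mod_cast sub_eq_zero.1 d3
      · exact_mod_cast sub_eq_zero.1 d4
    have hcard := Finset.card_le_card_of_injOn F hmaps hinj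
    rw [Finset.card_product, Finset.card_range, Int.card_Icc] at hcard
    have e7 : (((r + 1) * (r + 1) : ℕ) : ℤ) ≤
        ((σ.symm 0 + 2 * M * r + 1 - (σ.symm 0 - 2 * M * r)).toNat : ℤ) := by
      exact_mod_cast hcard
    rw [Int.toNat_of_nonneg (by have : (0 : ℤ) ≤ 2 * M * r := by positivity
                                linarith)] at e7
    rw [hr] at e7
    push_cast at e7
    have : (0 : ℤ) ≤ M := by positivity
    nlinarith
  · push Not at hA
    set u := σ n₀ - σ 0 with hu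
    have hu0 : ε ≤ V u := by
      rw [hu, ← h4, sub_zero]
      exact ha
    have hune : u ≠ 0 := by
      intro h
      rw [hu, sub_eq_zero] at h
      exact hn₀ (σ.injective h)
    clear_value u
    set Lf : ℤ → ℤ := fun k => u.1 * (σ k).2 - u.2 * (σ k).1 with hL
    have hper : Function.Periodic Lf n₀ := by
      intro k
      have e1 : ε ≤ V (σ (k + n₀) - σ k) := by
        rw [← h4, add_sub_cancel_left]
        exact ha
      have e2 := hA u _ hu0 e1
      rw [Prod.fst_sub, Prod.snd_sub] at e2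
      simp only [hL]
      linarith
    have hfin : (Set.range Lf).Finite := by
      apply Set.Finite.subset ((Set.finite_Icc (-|n₀|) |n₀|).image Lf)
      rintro _ ⟨k, rfl⟩
      refine ⟨k % n₀, ?_, ?_⟩
      · rw [Set.mem_Icc]
        have e1 := Int.emod_nonneg k hn₀
        have e2 := Int.emod_lt_abs k hn₀
        constructor
        · have := abs_nonneg n₀; linarith
        · exact e2.le
      · have e3 := hper.int_mul (k / n₀) (k % n₀)
        have e4 := Int.emod_add_mul_ediv k n₀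
        rw [Int.cast_id, mul_comm, e4] at e3
        exact e3.symm
    have hpos : 0 < u.1 * u.1 + u.2 * u.2 := by
      by_contra hle
      push Not at hle
      have e1 : u.1 = 0 := by nlinarith [mul_self_nonneg u.1, mul_self_nonneg u.2]
      have e2 : u.2 = 0 := by nlinarith [mul_self_nonneg u.1, mul_self_nonneg u.2]
      exact hune (Prod.ext e1 e2)
    refine Set.infinite_of_injective_forall_mem (f := fun t : ℤ => t * (u.1 * u.1 + u.2 * u.2))
      ?_ ?_ hfin
    · intro s t h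
      exact mul_right_cancel₀ hpos.ne' h
    · intro t
      refine ⟨σ.symm (-(t * u.2), t * u.1), ?_⟩
      simp only [hL, Equiv.apply_symm_apply]
      ring

theorem finite_large {J : Type*} (c : L J) (ε : ℝ) (hε : 0 < ε) :
    {x | ε ≤ ‖c x‖}.Finite := by
  have h1 : Summable fun x => ‖c x‖ ^ (2 : ℝ≥0∞).toReal := (lp.memℓp c).summable (by norm_num)
  have h2 : Summable fun x => ‖c x‖ ^ 2 := by
    simpa using h1
  have h3 := h2.tendsto_cofinite_zero
  have h4 : ∀ᶠ x in cofinite, ‖c x‖ ^ 2 < ε ^ 2 := h3.eventually_lt_const (by positivity)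
  rw [Filter.eventually_cofinite] at h4
  refine h4.subset ?_
  intro x hx
  simp only [mem_ofPred_eq, not_lt] at hx ⊢
  gcongr

theorem off_int (K : Submodule ℂ (L (ℤ × ℤ))) [K.HasOrthogonalProjection]
    (σ : ℤ ≃ ℤ × ℤ) (hs : Function.Injective (fun x => σ (σ.symm x + 1)))
    (hw : ∀ _ : ℤ × ℤ, ‖(1 : ℂ)‖ = 1) (q : ℝ) (hq : ∀ x, ‖pr K x‖ ^ 2 = q)
    (hK : ∀ c ∈ K, shiftIso (fun x => σ (σ.symm x + 1)) hs (fun _ => 1) hw c ∈ K)
    (hG : ∀ x x' y : ℤ × ℤ, ‖pr K (x + y) (x' + y)‖ = ‖pr K x x'‖) :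
    ∀ x y, x ≠ y → pr K x y = 0 := by
  have h1 : ∀ k : ℤ, pr K (σ (k + 1)) =
      shiftIso (fun x => σ (σ.symm x + 1)) hs (fun _ => 1) hw (pr K (σ k)) := by
    intro k
    have := pr_shift_eq K (fun x => σ (σ.symm x + 1)) hs (fun _ => 1) hw hK (σ k)
      (by rw [hq, hq])
    rw [← this]
    simp
  have h2 : ∀ k j : ℤ, pr K (σ (k + 1)) (σ (j + 1)) = pr K (σ k) (σ j) := by
    intro k j
    rw [h1]
    have h3 := shiftIso_apply (fun x => σ (σ.symm x + 1)) hs (fun _ => 1) hw
      (pr K (σ k)) (σ j)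
    simp only [Equiv.symm_apply_apply] at h3
    rw [h3, one_mul]
  have h3 : ∀ k j : ℤ, pr K (σ k) (σ j) = pr K (σ 0) (σ (j - k)) := by
    intro k
    induction k using Int.induction_on with
    | zero => intro j; rw [sub_zero]
    | succ k ih =>
      intro j
      have := h2 k (j - 1)
      rw [sub_add_cancel] at this
      rw [this, ih, show j - 1 - (k : ℤ) = j - ((k : ℤ) + 1) by ring]
    | pred k ih =>
      intro j
      have := h2 (-(k : ℤ) - 1) j
      rw [sub_add_cancel] at this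
      rw [← this, ih, show j + 1 - -(k : ℤ) = j - (-(k : ℤ) - 1) by ring]
  have hV : ∀ x x' : ℤ × ℤ, ‖pr K x x'‖ = ‖pr K 0 (x' - x)‖ := by
    intro x x'
    have := hG x x' (-x)
    rw [add_neg_cancel, ← sub_eq_add_neg] at this
    exact this.symm
  have h4 : ∀ j k : ℤ, ‖pr K (σ 0) (σ (j - k))‖ = ‖pr K 0 (σ j - σ k)‖ := by
    intro j k
    rw [← h3, hV]
  intro x y hxy
  obtain ⟨k, rfl⟩ := σ.surjective x
  obtain ⟨j, rfl⟩ := σ.surjective y
  have hkj : k ≠ j := fun h => hxy (by rw [h])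
  rw [h3]
  by_contra hne
  set ε := ‖pr K (σ 0) (σ (j - k))‖ with hε
  have hpos : 0 < ε := norm_pos_iff.2 hne
  have hfin := finite_large (pr K (σ 0)) ε hpos
  have hfin2 : (σ ⁻¹' {x | ε ≤ ‖pr K (σ 0) x‖}).Finite :=
    hfin.preimage (σ.injective.injOn)
  have hfin3 := hfin2.image (fun n : ℤ => n.natAbs)
  obtain ⟨M, hM⟩ := hfin3.bddAbove
  refine comb σ (fun n => ‖pr K (σ 0) (σ n)‖) (fun z => ‖pr K 0 z‖) h4 ε (j - k)
    (sub_ne_zero.2 hkj.symm) le_rfl M ?_
  intro n hn
  have := hM (mem_image_of_mem _ hn)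
  rw [Int.abs_eq_natAbs]
  exact_mod_cast this

end OffDiagonal

/-! ### Frames: analysis and synthesis operators -/

section Frame

variable {J : Type*} [DecidableEq J] {H : Type*} [NormedAddCommGroup H] [InnerProductSpace ℂ H]

omit [DecidableEq J] in
theorem memlp_analysis {f : J → H} (h : H) (hs : Summable (fun k => ‖⟪h, f k⟫_ℂ‖ ^ 2)) :
    Memℓp (fun k => ⟪f k, h⟫_ℂ) 2 := by
  apply memℓp_gen
  refine hs.congr fun k => ?_
  rw [norm_inner_symm]
  norm_num

/-- The analysis operator of a Bessel sequence. -/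
noncomputable def analysis (f : J → H) (B : ℝ)
    (hB : ∀ h : H, Summable (fun k => ‖⟪h, f k⟫_ℂ‖ ^ 2) ∧
      ∑' k, ‖⟪h, f k⟫_ℂ‖ ^ 2 ≤ B * ‖h‖ ^ 2) : H →L[ℂ] L J :=
  LinearMap.mkContinuous
    { toFun := fun h => ⟨fun k => ⟪f k, h⟫_ℂ, memlp_analysis h (hB h).1⟩
      map_add' := fun h k => by
        apply lp.ext
        funext x
        simp only [lp.coeFn_add, Pi.add_apply, inner_add_right]
      map_smul' := fun c h => by
        apply lp.ext
        funext x
        simp only [lp.coeFn_smul, Pi.smul_apply, inner_smul_right, smul_eq_mul,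
          RingHom.id_apply] }
    (Real.sqrt B) (by
      intro h
      have e1 := lp.norm_rpow_eq_tsum (p := 2) (by norm_num)
        (⟨fun k => ⟪f k, h⟫_ℂ, memlp_analysis h (hB h).1⟩ : L J)
      have e2 := (hB h).2
      have e3 : ‖(⟨fun k => ⟪f k, h⟫_ℂ, memlp_analysis h (hB h).1⟩ : L J)‖ ^ 2 ≤ B * ‖h‖ ^ 2 := by
        refine le_trans (le_of_eq ?_) e2
        have e4 : (2 : ℝ≥0∞).toReal = 2 := by norm_num
        rw [e4] at e1
        rw [← Real.rpow_natCast]
        push_cast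
        rw [e1]
        refine tsum_congr fun k => ?_
        rw [norm_inner_symm]
        norm_num
      simp only [LinearMap.coe_mk, AddHom.coe_mk]
      have e5 : ‖(⟨fun k => ⟪f k, h⟫_ℂ, memlp_analysis h (hB h).1⟩ : L J)‖ ≤
          Real.sqrt (B * ‖h‖ ^ 2) := Real.le_sqrt_of_sq_le e3
      refine e5.trans (le_of_eq ?_)
      rw [Real.sqrt_mul' _ (by positivity), Real.sqrt_sq (norm_nonneg _)])

omit [DecidableEq J] in
theorem analysis_apply (f : J → H) (B : ℝ)
    (hB : ∀ h : H, Summable (fun k => ‖⟪h, f k⟫_ℂ‖ ^ 2) ∧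
      ∑' k, ‖⟪h, f k⟫_ℂ‖ ^ 2 ≤ B * ‖h‖ ^ 2) (h : H) (k : J) :
    analysis f B hB h k = ⟪f k, h⟫_ℂ := rfl

omit [DecidableEq J] in
theorem norm_analysis_sq (f : J → H) (B : ℝ)
    (hB : ∀ h : H, Summable (fun k => ‖⟪h, f k⟫_ℂ‖ ^ 2) ∧
      ∑' k, ‖⟪h, f k⟫_ℂ‖ ^ 2 ≤ B * ‖h‖ ^ 2) (h : H) :
    ‖analysis f B hB h‖ ^ 2 = ∑' k, ‖⟪h, f k⟫_ℂ‖ ^ 2 := by
  have e1 := lp.norm_rpow_eq_tsum (p := 2) (by norm_num) (analysis f B hB h)
  have e4 : (2 : ℝ≥0∞).toReal = 2 := by norm_num
  rw [e4] at e1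
  rw [← Real.rpow_natCast]
  push_cast
  rw [e1]
  refine tsum_congr fun k => ?_
  rw [analysis_apply, norm_inner_symm]
  norm_num

variable [CompleteSpace H]

/-- The synthesis operator `ℓ²(J) → H`, `δ_k ↦ f_k`, of a Bessel sequence. -/
noncomputable def synthesis (f : J → H) (B : ℝ)
    (hB : ∀ h : H, Summable (fun k => ‖⟪h, f k⟫_ℂ‖ ^ 2) ∧
      ∑' k, ‖⟪h, f k⟫_ℂ‖ ^ 2 ≤ B * ‖h‖ ^ 2) : L J →L[ℂ] H :=
  ContinuousLinearMap.adjoint (analysis f B hB)

theorem synthesis_del (f : J → H) (B : ℝ)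
    (hB : ∀ h : H, Summable (fun k => ‖⟪h, f k⟫_ℂ‖ ^ 2) ∧
      ∑' k, ‖⟪h, f k⟫_ℂ‖ ^ 2 ≤ B * ‖h‖ ^ 2) (k : J) :
    synthesis f B hB (del k) = f k := by
  apply ext_inner_right ℂ
  intro h
  rw [synthesis, ContinuousLinearMap.adjoint_inner_left, inner_del_left, analysis_apply]

theorem sum_single_norm_sq (s : Finset J) (c : J → ℂ) :
    ‖∑ k ∈ s, c k • (del k : L J)‖ ^ 2 = ∑ k ∈ s, ‖c k‖ ^ 2 := by
  have ho : Orthonormal ℂ (fun x : J => (del x : L J)) := by
    have := orthonormal_w (J := J) id Function.injective_id (fun _ => 1) (fun _ => norm_one)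
    simpa using this
  have h1 := ho.inner_sum c c s
  rw [inner_self_eq_norm_sq_to_K] at h1
  have h2 : ∀ k, conj (c k) * c k = ((‖c k‖ ^ 2 : ℝ) : ℂ) := by
    intro k
    rw [mul_comm, Complex.mul_conj, Complex.normSq_eq_norm_sq]
  simp_rw [h2] at h1
  rw [← Complex.ofReal_sum] at h1
  apply Complex.ofReal_injective
  rw [← h1]
  simp

/-- A frame with injective synthesis operator is a Riesz basis. -/
theorem riesz_of_injective (f : J → H) (A B : ℝ) (hA : 0 < A)
    (hB : ∀ h : H, Summable (fun k => ‖⟪h, f k⟫_ℂ‖ ^ 2) ∧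
      ∑' k, ‖⟪h, f k⟫_ℂ‖ ^ 2 ≤ B * ‖h‖ ^ 2)
    (hlow : ∀ h : H, A * ‖h‖ ^ 2 ≤ ∑' k, ‖⟪h, f k⟫_ℂ‖ ^ 2)
    (hinj : ∀ c : L J, synthesis f B hB c = 0 → c = 0) : IsRieszBasis f := by
  have hunit : IsUnit ((synthesis f B hB) ∘L (analysis f B hB)) := by
    refine ContinuousLinearMap.isUnit_of_forall_le_norm_inner_map _ (c := A.toNNReal)
      (Real.toNNReal_pos.2 hA) ?_
    intro h
    have e1 : ⟪((synthesis f B hB) ∘L (analysis f B hB)) h, h⟫_ℂ =
        ((‖analysis f B hB h‖ ^ 2 : ℝ) : ℂ) := by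
      rw [ContinuousLinearMap.comp_apply, synthesis, ContinuousLinearMap.adjoint_inner_left,
        inner_self_eq_norm_sq_to_K]
      simp
    rw [e1, Complex.norm_real, Real.norm_of_nonneg (by positivity), norm_analysis_sq]
    have := hlow h
    rw [Real.coe_toNNReal A hA.le]
    linarith
  have hsurj : Function.Surjective (synthesis f B hB) := by
    intro y
    obtain ⟨u, hu⟩ := hunit
    refine ⟨analysis f B hB ((↑u⁻¹ : H →L[ℂ] H) y), ?_⟩
    have e2 : (u : H →L[ℂ] H) ((↑u⁻¹ : H →L[ℂ] H) y) = y := by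
      rw [← mul_apply_eq_comp, Units.mul_inv]
      rfl
    rw [hu] at e2
    exact e2
  have hinj' : Function.Injective (synthesis f B hB) := by
    intro c d h
    have := hinj (c - d) (by rw [map_sub, h, sub_self])
    exact sub_eq_zero.1 this
  set U : L J ≃L[ℂ] H := ContinuousLinearEquiv.ofBijective (synthesis f B hB)
    (LinearMap.ker_eq_bot.2 hinj') (LinearMap.range_eq_top.2 hsurj) with hU
  have hUf : ∀ k, U (del k) = f k := by
    intro k
    rw [hU, ContinuousLinearEquiv.coeFn_ofBijective]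
    exact synthesis_del f B hB k
  have hUc : ∀ (s : Finset J) (c : J → ℂ), U (∑ k ∈ s, c k • (del k : L J)) =
      ∑ k ∈ s, c k • f k := by
    intro s c
    rw [map_sum]
    refine Finset.sum_congr rfl fun k _ => ?_
    rw [map_smul, hUf]
  constructor
  · intro y
    obtain ⟨c, rfl⟩ := U.surjective y
    have h1 : HasSum (fun x => c x • (del x : L J)) c := by
      have := lp.hasSum_single (p := 2) (by norm_num) c
      refine this.congr_fun ?_
      intro x
      rw [del, ← lp.single_smul, smul_eq_mul, mul_one]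
    have h2 : HasSum (fun x => c x • f x) (U c) := by
      have := (U : L J →L[ℂ] H).hasSum h1
      refine this.congr_fun ?_
      intro x
      rw [map_smul]
      congr 1
      exact (hUf x).symm
    refine mem_closure_of_tendsto h2 (Eventually.of_forall fun s => ?_)
    refine Submodule.sum_mem _ fun k _ => ?_
    exact Submodule.smul_mem _ _ (Submodule.subset_span (mem_range_self k))
  · set a : ℝ := ‖(U.symm : H →L[ℂ] L J)‖ ^ 2 + 1 with ha
    set b : ℝ := ‖(U : L J →L[ℂ] H)‖ ^ 2 + 1 with hb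
    have ha0 : 0 < a := by positivity
    have hb0 : 0 < b := by positivity
    refine ⟨a⁻¹, b, by positivity, hb0, ?_⟩
    intro s c
    rw [← sum_single_norm_sq, ← hUc]
    set v : L J := ∑ k ∈ s, c k • (del k : L J) with hv
    have h1 : ‖v‖ ≤ ‖(U.symm : H →L[ℂ] L J)‖ * ‖U v‖ := by
      have := (U.symm : H →L[ℂ] L J).le_opNorm (U v)
      simpa using this
    have h2 : ‖U v‖ ≤ ‖(U : L J →L[ℂ] H)‖ * ‖v‖ := (U : L J →L[ℂ] H).le_opNorm v
    have h3 : ‖v‖ ^ 2 ≤ ‖(U.symm : H →L[ℂ] L J)‖ ^ 2 * ‖U v‖ ^ 2 := by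
      rw [← mul_pow]
      gcongr
    have h4 : ‖U v‖ ^ 2 ≤ ‖(U : L J →L[ℂ] H)‖ ^ 2 * ‖v‖ ^ 2 := by
      rw [← mul_pow]
      gcongr
    constructor
    · rw [inv_mul_le_iff₀ ha0, ha]
      nlinarith [sq_nonneg ‖U v‖]
    · rw [hb]
      nlinarith [sq_nonneg ‖v‖]

omit [CompleteSpace H] in
/-- Invariance of the kernel of the synthesis operator. -/
theorem ker_invariant (D : L J →L[ℂ] H) (f : J → H) (hD : ∀ x, D (del x) = f x)
    (s : J → J) (hs : Function.Injective s) (w : J → ℂ) (hw : ∀ x, ‖w x‖ = 1)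
    (T : Submodule.span ℂ (range f) →ₗ[ℂ] H) (M : ℝ) (hT : ∀ v, ‖T v‖ ≤ M * ‖v‖)
    (hTf : ∀ x, T ⟨f x, Submodule.subset_span (mem_range_self x)⟩ = w x • f (s x))
    (c : L J) (hc : D c = 0) : D (shiftIso s hs w hw c) = 0 := by
  have h0 : ∀ x, (lp.single 2 x (c x) : L J) = c x • del x := by
    intro x
    rw [del, ← lp.single_smul, smul_eq_mul, mul_one]
  have h1 : HasSum (fun x => c x • (del x : L J)) c := by
    have := lp.hasSum_single (p := 2) (by norm_num) c
    refine this.congr_fun ?_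
    intro x
    exact (h0 x).symm
  have h2 : HasSum (fun x => c x • f x) (D c) := by
    have := D.hasSum h1
    refine this.congr_fun ?_
    intro x
    rw [map_smul, hD]
  have h3 : HasSum (fun x => c x • w x • f (s x)) (D (shiftIso s hs w hw c)) := by
    have := (D ∘L (shiftIso s hs w hw).toContinuousLinearMap).hasSum h1
    refine this.congr_fun ?_
    intro x
    rw [map_smul, ContinuousLinearMap.comp_apply, LinearIsometry.coe_toContinuousLinearMap,
      shiftIso_del, map_smul, hD]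
  have h4 : ∀ F : Finset J, ‖∑ x ∈ F, c x • w x • f (s x)‖ ≤ M * ‖∑ x ∈ F, c x • f x‖ := by
    intro F
    have e1 := hT (∑ x ∈ F, c x • (⟨f x, Submodule.subset_span (mem_range_self x)⟩ :
      Submodule.span ℂ (range f)))
    rw [map_sum] at e1
    simp_rw [map_smul, hTf] at e1
    refine e1.trans (le_of_eq ?_)
    congr 1
    rw [Submodule.coe_norm, Submodule.coe_sum]
    rfl
  have h5 : Tendsto (fun F : Finset J => ‖∑ x ∈ F, c x • w x • f (s x)‖) atTop
    (𝓝 ‖D (shiftIso s hs w hw c)‖) := h3.norm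
  have h6 : Tendsto (fun F : Finset J => M * ‖∑ x ∈ F, c x • f x‖) atTop (𝓝 (M * ‖D c‖)) :=
    (Tendsto.norm h2).const_mul M
  have h7 := le_of_tendsto_of_tendsto' h5 h6 h4
  rw [hc, norm_zero, mul_zero] at h7
  exact norm_le_zero_iff.1 h7

end Frame

/-! ### The main theorem -/

theorem exists_ne_zero_L2R : ∃ h : L2R, h ≠ 0 := by
  refine ⟨indicatorConstLp 2 (measurableSet_Icc (a := (0 : ℝ)) (b := 1)) (by simp) (1 : ℂ), ?_⟩
  intro h
  have h2 := congrArg norm h
  rw [norm_indicatorConstLp (by norm_num) (by norm_num)] at h2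
  simp at h2

theorem main (a b : ℝ) (g : L2R) (hF : IsOvercompleteFrame (gabor a b g)) :
    ∀ {I : Type} [AddCommMonoid I] [One I] (σ : I ≃ ℤ × ℤ)
      (hs : Function.Injective (fun x => σ (σ.symm x + 1))),
      (∀ (K : Submodule ℂ (L (ℤ × ℤ))) [K.HasOrthogonalProjection]
        (hw : ∀ _ : ℤ × ℤ, ‖(1 : ℂ)‖ = 1) (q : ℝ) (_ : ∀ x, ‖pr K x‖ ^ 2 = q)
        (_ : ∀ c ∈ K, shiftIso (fun x => σ (σ.symm x + 1)) hs (fun _ => 1) hw c ∈ K)
        (_ : ∀ x x' y : ℤ × ℤ, ‖pr K (x + y) (x' + y)‖ = ‖pr K x x'‖),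
        ∀ x y, x ≠ y → pr K x y = 0) →
      ¬ HasBoundedRepresentation (fun k => gabor a b g (σ k)) := by
  intro I _ _ σ hs hoff hrep
  obtain ⟨⟨A, B, hA, hB, hfr⟩, hnr⟩ := hF
  have hBes : ∀ h : L2R, Summable (fun k => ‖⟪h, gabor a b g k⟫_ℂ‖ ^ 2) ∧
      ∑' k, ‖⟪h, gabor a b g k⟫_ℂ‖ ^ 2 ≤ B * ‖h‖ ^ 2 := fun h => ⟨(hfr h).1, (hfr h).2.2⟩
  set D := synthesis (gabor a b g) B hBes with hD
  have hDdel : ∀ x, D (del x) = gabor a b g x := synthesis_del (gabor a b g) B hBes
  let K : Submodule ℂ (L (ℤ × ℤ)) := LinearMap.ker D.toLinearMap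
  have hKmem : ∀ c : L (ℤ × ℤ), c ∈ K ↔ D c = 0 := fun c => LinearMap.mem_ker
  have hKc : CompleteSpace K := by
    have : IsClosed (K : Set (L (ℤ × ℤ))) := by
      have h1 : (K : Set (L (ℤ × ℤ))) = D ⁻¹' {0} := by
        ext c
        simp [hKmem]
      rw [h1]
      exact isClosed_singleton.preimage D.continuous
    exact this.completeSpace_coe
  have hw1 : ∀ _ : ℤ × ℤ, ‖(1 : ℂ)‖ = 1 := fun _ => norm_one
  -- Gabor covariance
  have hshift : ∀ y : ℤ × ℤ, Function.Injective (fun x : ℤ × ℤ => x + y) :=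
    fun y => add_left_injective y
  have hKG : ∀ y : ℤ × ℤ, ∀ c ∈ K,
      shiftIso (fun x : ℤ × ℤ => x + y) (hshift y) (phase a b y) (norm_phase a b y) c ∈ K := by
    intro y c hc
    rw [hKmem] at hc ⊢
    refine ker_invariant D (gabor a b g) hDdel _ _ _ _
      ((tfLin (y.2 * a) (y.1 * b)).comp (Submodule.subtype _)) 1 ?_ ?_ c hc
    · intro v
      rw [one_mul]
      exact (norm_tfShift _ _ _).le
    · intro x
      exact tf_gabor a b g x y
  have hle : ∀ x y : ℤ × ℤ, ‖pr K x‖ ^ 2 ≤ ‖pr K (x + y)‖ ^ 2 := fun x y =>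
    pr_le K _ (hshift y) _ (norm_phase a b y) (hKG y) x
  have hq : ∀ x, ‖pr K x‖ ^ 2 = ‖pr K 0‖ ^ 2 := by
    intro x
    apply le_antisymm
    · have := hle x (-x)
      rwa [add_neg_cancel] at this
    · have := hle 0 x
      rwa [zero_add] at this
  have hG : ∀ x x' y : ℤ × ℤ, ‖pr K (x + y) (x' + y)‖ = ‖pr K x x'‖ := by
    intro x x' y
    have h1 := pr_shift_eq K _ (hshift y) _ (norm_phase a b y) (hKG y) x
      (by simp only [hq])
    have h2 := shiftIso_apply _ (hshift y) _ (norm_phase a b y) (pr K x) x'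
    rw [← h1] at h2
    simp only [lp.coeFn_smul, Pi.smul_apply, smul_eq_mul] at h2
    have h3 := congrArg norm h2
    rw [norm_mul, norm_mul, norm_phase, norm_phase, one_mul, one_mul] at h3
    exact h3
  -- the bounded operator
  obtain ⟨T, hT, M, hM⟩ := hrep
  have hr : range (fun k => gabor a b g (σ k)) = range (gabor a b g) :=
    σ.surjective.range_comp (gabor a b g)
  have hKS : ∀ c ∈ K, shiftIso (fun x => σ (σ.symm x + 1)) hs (fun _ => 1) hw1 c ∈ K := by
    intro c hc
    rw [hKmem] at hc ⊢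
    refine ker_invariant D (gabor a b g) hDdel _ _ _ _
      (T.comp (Submodule.inclusion (Submodule.span_mono hr.ge))) M ?_ ?_ c hc
    · intro v
      exact hM _
    · intro x
      have h1 := hT (σ.symm x)
      rw [one_smul]
      refine Eq.trans ?_ h1
      rw [LinearMap.comp_apply]
      congr 1
      apply Subtype.ext
      simp
  have hdiag := hoff K hw1 _ hq hKS hG
  rcases trivial_of_diagonal K _ hq hdiag with hbot | hall
  · apply hnr
    refine riesz_of_injective (gabor a b g) A B hA hBes (fun h => (hfr h).2.1) ?_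
    intro c hc
    have : c ∈ K := (hKmem c).2 hc
    rw [hbot] at this
    exact (Submodule.mem_bot ℂ).1 this
  · have hzero : ∀ x, gabor a b g x = 0 := by
      intro x
      rw [← hDdel]
      exact (hKmem _).1 (hall x)
    obtain ⟨h, hh⟩ := exists_ne_zero_L2R
    have h1 := (hfr h).2.1
    simp only [hzero, inner_zero_right, norm_zero] at h1
    have h2 : 0 < ‖h‖ := norm_pos_iff.2 hh
    have h3 : 0 < A * ‖h‖ ^ 2 := by positivity
    have h4 : ∑' _ : ℤ × ℤ, (0 : ℝ) ^ 2 = 0 := by simp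
    rw [h4] at h1
    linarith

end Pool.Agent.Results.MP_6c6e33_an.NoBoundedGabor
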