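import Pool.Agent.H14.HamStar

set_option autoImplicit false

namespace H14.Ham

open Finset

theorem star_equiv {V V' : Type} [Fintype V] [Fintype V'] (e : V' ≃ V) (h : Star V') : Star V := by
  refine star_pbd (B := Unit) (fun _ => V') (fun _ => e) (fun _ => e.injective) (fun _ _ => ())
    ?_ (fun _ _ _ _ => rfl) (fun _ => h)
  intro u v _
  exact ⟨e.symm u, e.symm v, by simp, by simp⟩

theorem star_subsingleton (V : Type) [Fintype V] [Subsingleton V] : Star V := by
  classical
  refine ⟨Unit, inferInstance, fun _ _ _ => false, inferInstance, ?_, ?_⟩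
  · intro _
    refine ⟨fun _ => rfl, fun v w h => absurd (Subsingleton.elim v w) h, ?_⟩
    intro v
    simp
  · intro f hf
    have h1 : ∀ ω : Unit, Cont (fun _ _ : V => false) f := by
      intro _ u v huv
      have : u = v := Subsingleton.elim _ _
      subst this
      exact absurd huv (hf.2.1 u)
    have h2 : (univ.filter (fun ω : Unit => Cont (fun _ _ : V => false) f)).card = 1 := by
      rw [filter_true_of_mem (fun ω _ => h1 ω)]
      simp
    rw [h2]
    simp only [Fintype.card_unit, mul_one]
    exact Nat.one_le_two_pow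

theorem star_three : Star (Fin 3) := by
  classical
  refine ⟨Bool, inferInstance, fun b u v => if b then decide (v = u + 1) else decide (u = v + 1),
    inferInstance, ?_, ?_⟩
  · intro ω
    refine ⟨?_, ?_, ?_⟩
    · revert ω; decide
    · revert ω; decide
    · revert ω; decide
  · intro f hf
    have hpart : ∀ a b c : Option (Fin 3),
        ((a = none ∨ a ≠ b) ∧ (a = none ∨ a ≠ c) ∧ (b = none ∨ b ≠ c) ∧ a ≠ some 0 ∧ b ≠ some 1 ∧
          c ≠ some 2 ∧ ¬ (a = some 1 ∧ b = some 0) ∧ ¬ (a = some 2 ∧ c = some 0) ∧
          ¬ (b = some 2 ∧ c = some 1)) →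
        2 ≤ 2 ^ ((if a.isSome then 1 else 0) + (if b.isSome then 1 else 0) +
            (if c.isSome then 1 else 0)) *
          ((if (a = none ∨ a = some 1) ∧ (b = none ∨ b = some 2) ∧ (c = none ∨ c = some 0)
            then 1 else 0) +
           (if (a = none ∨ a = some 2) ∧ (b = none ∨ b = some 0) ∧ (c = none ∨ c = some 1)
            then 1 else 0)) := by
      decide
    have hinj : ∀ u v : Fin 3, u ≠ v → (f u = none ∨ f u ≠ f v) := by
      intro u v huv
      cases h : f u with
      | none => left; rfl
      | some x =>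
        right
        intro h'
        exact huv (hf.1 _ _ _ h h'.symm)
    have h := hpart (f 0) (f 1) (f 2) ⟨hinj 0 1 (by decide), hinj 0 2 (by decide),
      hinj 1 2 (by decide), hf.2.1 0, hf.2.1 1, hf.2.1 2, fun h => hf.2.2 0 1 h.1 h.2,
      fun h => hf.2.2 0 2 h.1 h.2, fun h => hf.2.2 1 2 h.1 h.2⟩
    have hs : size f = ((if (f 0).isSome then 1 else 0) + (if (f 1).isSome then 1 else 0) +
            (if (f 2).isSome then 1 else 0)) := by
      unfold size
      rw [card_filter, Fin.sum_univ_three]
    have hone : ∀ (a : Option (Fin 3)) (x : Fin 3), (∀ v, a = some v → v = x) ↔ (a = none ∨ a = some x) := by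
      decide
    have hc : (univ.filter (fun ω : Bool => Cont (fun u v : Fin 3 =>
        if ω then decide (v = u + 1) else decide (u = v + 1)) f)).card =
        ((if (f 0 = none ∨ f 0 = some 1) ∧ (f 1 = none ∨ f 1 = some 2) ∧ (f 2 = none ∨ f 2 = some 0)
            then 1 else 0) +
           (if (f 0 = none ∨ f 0 = some 2) ∧ (f 1 = none ∨ f 1 = some 0) ∧ (f 2 = none ∨ f 2 = some 1)
            then 1 else 0)) := by
      rw [card_filter, Fintype.sum_bool]
      congr 1
      · apply if_congr _ rfl rfl
        unfold Cont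
        simp only [if_true, decide_eq_true_eq]
        rw [← hone, ← hone, ← hone]
        constructor
        · intro h
          exact ⟨h 0, h 1, h 2⟩
        · rintro ⟨h0, h1, h2⟩ u
          fin_cases u
          · exact h0
          · exact h1
          · exact h2
      · apply if_congr _ rfl rfl
        unfold Cont
        simp only [Bool.false_eq_true, if_false, decide_eq_true_eq]
        rw [← hone, ← hone, ← hone]
        constructor
        · intro h
          refine ⟨?_, ?_, ?_⟩
          · intro v hv; have := h 0 v hv; clear hv; revert v; decide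
          · intro v hv; have := h 1 v hv; clear hv; revert v; decide
          · intro v hv; have := h 2 v hv; clear hv; revert v; decide
        · rintro ⟨h0, h1, h2⟩ u v huv
          fin_cases u
          · have := h0 v huv; subst this; decide
          · have := h1 v huv; subst this; decide
          · have := h2 v huv; subst this; decide
    rw [hs]
    simp only [Fintype.card_bool]
    calc 2 ≤ _ := h
      _ = _ := by rw [← hc]

/-- the 24 regular tournaments on five labelled vertices, as bit masks -/
def tab : List ℕ := [3727750, 3760300, 3818890, 3819820, 5810950, 5842570, 5843500, 5902090,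
  6858130, 6859060, 6890680, 6950200, 9560710, 9620230, 9651850, 9652780, 10608820, 10667410,
  10668340, 10699960, 12691090, 12692020, 12750610, 12783160]

def arc (m u v : ℕ) : Bool := Nat.testBit m (5 * u + v)

def okp (a b : ℕ) : Bool := a == 5 || a != b

def part5 (a b c d e : ℕ) : Bool :=
  a != 0 && b != 1 && c != 2 && d != 3 && e != 4 &&
  okp a b && okp a c && okp a d && okp a e && okp b c && okp b d && okp b e && okp c d && okp c e &&
  okp d e &&
  !(a == 1 && b == 0) && !(a == 2 && c == 0) && !(a == 3 && d == 0) && !(a == 4 && e == 0) &&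
  !(b == 2 && c == 1) && !(b == 3 && d == 1) && !(b == 4 && e == 1) &&
  !(c == 3 && d == 2) && !(c == 4 && e == 2) && !(d == 4 && e == 3)

def cont5 (m a b c d e : ℕ) : Bool :=
  (a == 5 || arc m 0 a) && (b == 5 || arc m 1 b) && (c == 5 || arc m 2 c) &&
  (d == 5 || arc m 3 d) && (e == 5 || arc m 4 e)

def one5 (a : ℕ) : ℕ := if a == 5 then 0 else 1

def chk5 (a b c d e : ℕ) : Bool :=
  !(part5 a b c d e) || Nat.ble 24 (2 ^ (one5 a + one5 b + one5 c + one5 d + one5 e) *
    (tab.countP (fun m => cont5 m a b c d e)))

def r6 : List ℕ := [0, 1, 2, 3, 4, 5]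

theorem all_chk : (r6.all fun a => r6.all fun b => r6.all fun c => r6.all fun d => r6.all fun e =>
    chk5 a b c d e) = true := by
  decide +kernel

theorem sum_get (l : List ℕ) (p : ℕ → Bool) :
    ∑ i : Fin l.length, (if p (l.get i) = true then 1 else 0) = l.countP p := by
  induction l with
  | nil => rfl
  | cons a l ih =>
    rw [List.countP_cons, ← ih]
    simp only [List.length_cons]
    rw [Fin.sum_univ_succ, add_comm]
    rfl

def code : Option (Fin 5) → ℕ
  | none => 5
  | some x => x.val

theorem code_mem (a : Option (Fin 5)) : code a ∈ r6 := by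
  revert a; decide

theorem chk_code (a b c d e : Option (Fin 5)) :
    chk5 (code a) (code b) (code c) (code d) (code e) = true := by
  have h := all_chk
  rw [List.all_eq_true] at h
  have h1 := h _ (code_mem a)
  rw [List.all_eq_true] at h1
  have h2 := h1 _ (code_mem b)
  rw [List.all_eq_true] at h2
  have h3 := h2 _ (code_mem c)
  rw [List.all_eq_true] at h3
  have h4 := h3 _ (code_mem d)
  rw [List.all_eq_true] at h4
  exact h4 _ (code_mem e)

theorem rt5 : ∀ ω : Fin tab.length, IsRT (fun u v : Fin 5 => arc (tab.get ω) u v) := by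
  unfold IsRT
  decide +kernel

theorem star_five : Star (Fin 5) := by
  classical
  refine ⟨Fin tab.length, inferInstance, fun ω u v => arc (tab.get ω) u v, ⟨⟨0, by decide⟩⟩,
    rt5, ?_⟩
  intro f hf
  have h := chk_code (f 0) (f 1) (f 2) (f 3) (f 4)
  have hinj : ∀ u v : Fin 5, u ≠ v → okp (code (f u)) (code (f v)) = true := by
    intro u v huv
    cases h : f u with
    | none => rfl
    | some x =>
      cases h' : f v with
      | none =>
        simp only [code, okp, Bool.or_eq_true, beq_iff_eq, bne_iff_ne]
        right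
        exact Nat.ne_of_lt x.2
      | some y =>
        simp only [code, okp, Bool.or_eq_true, beq_iff_eq, bne_iff_ne]
        right
        intro hxy
        have : x = y := Fin.ext hxy
        subst this
        exact huv (hf.1 _ _ _ h h')
  have hfix : ∀ u : Fin 5, (code (f u) != u.val) = true := by
    intro u
    rw [bne_iff_ne]
    cases h : f u with
    | none =>
      simp only [code]
      exact (Nat.ne_of_lt u.2).symm
    | some x =>
      simp only [code]
      intro hxu
      have : x = u := Fin.ext hxu
      subst this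
      exact hf.2.1 _ h
  have htwo : ∀ u v : Fin 5, (!(code (f u) == v.val && code (f v) == u.val)) = true := by
    intro u v
    rw [Bool.not_eq_true', ← Bool.not_eq_true, Bool.and_eq_true, beq_iff_eq, beq_iff_eq]
    rintro ⟨h1, h2⟩
    have g : ∀ (a : Option (Fin 5)) (w : Fin 5), code a = w.val → a = some w := by decide
    exact hf.2.2 _ _ (g _ _ h1) (g _ _ h2)
  have hp : part5 (code (f 0)) (code (f 1)) (code (f 2)) (code (f 3)) (code (f 4)) = true := by
    unfold part5
    simp only [Bool.and_eq_true]
    refine ⟨⟨⟨⟨⟨⟨⟨⟨⟨⟨⟨⟨⟨⟨⟨⟨⟨⟨⟨⟨⟨⟨⟨⟨?_, ?_⟩, ?_⟩, ?_⟩, ?_⟩, ?_⟩, ?_⟩, ?_⟩, ?_⟩, ?_⟩, ?_⟩, ?_⟩, ?_⟩, ?_⟩, ?_⟩,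
      ?_⟩, ?_⟩, ?_⟩, ?_⟩, ?_⟩, ?_⟩, ?_⟩, ?_⟩, ?_⟩, ?_⟩
    · exact hfix 0
    · exact hfix 1
    · exact hfix 2
    · exact hfix 3
    · exact hfix 4
    · exact hinj 0 1 (by decide)
    · exact hinj 0 2 (by decide)
    · exact hinj 0 3 (by decide)
    · exact hinj 0 4 (by decide)
    · exact hinj 1 2 (by decide)
    · exact hinj 1 3 (by decide)
    · exact hinj 1 4 (by decide)
    · exact hinj 2 3 (by decide)
    · exact hinj 2 4 (by decide)
    · exact hinj 3 4 (by decide)
    · exact htwo 0 1
    · exact htwo 0 2
    · exact htwo 0 3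
    · exact htwo 0 4
    · exact htwo 1 2
    · exact htwo 1 3
    · exact htwo 1 4
    · exact htwo 2 3
    · exact htwo 2 4
    · exact htwo 3 4
  unfold chk5 at h
  rw [hp] at h
  simp only [Bool.not_true, Bool.false_or, Nat.ble_eq] at h
  have hone : ∀ a : Option (Fin 5), one5 (code a) = if a.isSome = true then 1 else 0 := by decide
  have hs : size f = one5 (code (f 0)) + one5 (code (f 1)) + one5 (code (f 2)) +
      one5 (code (f 3)) + one5 (code (f 4)) := by
    unfold size
    rw [card_filter, Fin.sum_univ_five]
    simp only [hone]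
  have hcc : ∀ (m : ℕ) (u : Fin 5) (a : Option (Fin 5)),
      (code a == 5 || arc m u.val (code a)) = true ↔ ∀ v, a = some v → arc m u.val v.val = true := by
    intro m u a
    cases a with
    | none => simp [code]
    | some x =>
      have h5 : (x.val == 5) = false := by
        rw [beq_eq_false_iff_ne]; exact Nat.ne_of_lt x.2
      simp only [code, h5, Bool.false_or]
      constructor
      · intro h v hv
        rw [Option.some_inj] at hv
        rw [← hv]; exact h
      · intro h
        exact h x rfl
  have hc : (univ.filter (fun ω : Fin tab.length =>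
      Cont (fun u v : Fin 5 => arc (tab.get ω) u v) f)).card =
      tab.countP (fun m => cont5 m (code (f 0)) (code (f 1)) (code (f 2)) (code (f 3)) (code (f 4))) := by
    rw [card_filter, ← sum_get]
    apply Finset.sum_congr rfl
    intro ω _
    apply if_congr _ rfl rfl
    unfold cont5
    simp only [Bool.and_eq_true]
    constructor
    · intro h
      exact ⟨⟨⟨⟨(hcc _ 0 _).2 (h 0), (hcc _ 1 _).2 (h 1)⟩, (hcc _ 2 _).2 (h 2)⟩,
        (hcc _ 3 _).2 (h 3)⟩, (hcc _ 4 _).2 (h 4)⟩
    · rintro ⟨⟨⟨⟨h0, h1⟩, h2⟩, h3⟩, h4⟩ u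
      fin_cases u
      · exact (hcc _ 0 _).1 h0
      · exact (hcc _ 1 _).1 h1
      · exact (hcc _ 2 _).1 h2
      · exact (hcc _ 3 _).1 h3
      · exact (hcc _ 4 _).1 h4
  rw [hs, hc]
  have : Fintype.card (Fin tab.length) = 24 := by decide
  rw [this]
  exact h

end H14.Ham
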