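import Pool.Agent.H14.HamBase

set_option autoImplicit false

namespace H14.Ham

open Finset

/-! ### the Latin square construction -/

section Latin

variable (q : ℕ) [NeZero q] (E : Type) [Fintype E] [Subsingleton E]

abbrev LB := Fin 3 ⊕ (ZMod q × ZMod q)

abbrev LW : LB q → Type := Sum.elim (fun _ => E ⊕ ZMod q) (fun _ => Fin 3)

instance LWf : ∀ b : LB q, Fintype (LW q E b)
  | .inl _ => inferInstanceAs (Fintype (E ⊕ ZMod q))
  | .inr _ => inferInstanceAs (Fintype (Fin 3))

def third (x y : ZMod q) (j : Fin 3) : ZMod q := if j = 0 then x else if j = 1 then y else -x - y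

def Le : ∀ b : LB q, LW q E b → E ⊕ (Fin 3 × ZMod q)
  | .inl i => Sum.map id (fun x => (i, x))
  | .inr (x, y) => fun j => .inr (j, third q x y j)

def lval (k : Fin 3) (u v : Fin 3 × ZMod q) : ZMod q :=
  if u.1 = k then u.2 else if v.1 = k then v.2 else -u.2 - v.2

def Lbo : E ⊕ (Fin 3 × ZMod q) → E ⊕ (Fin 3 × ZMod q) → LB q
  | .inl _, .inl _ => .inl 0
  | .inl _, .inr v => .inl v.1
  | .inr u, .inl _ => .inl u.1
  | .inr u, .inr v => if u.1 = v.1 then .inl u.1 else .inr (lval q 0 u v, lval q 1 u v)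

def LMem (b : LB q) (u : E ⊕ (Fin 3 × ZMod q)) : Prop := ∃ x, Le q E b x = u

theorem lmem1 (i : Fin 3) (a : ZMod q) : LMem q E (.inl i) (.inr (i, a)) := ⟨.inr a, rfl⟩
theorem lmem0 (i : Fin 3) (a : E) : LMem q E (.inl i) (.inl a) := ⟨.inl a, rfl⟩
theorem lmem2 (x y a : ZMod q) (i : Fin 3) (h : third q x y i = a) :
    LMem q E (.inr (x, y)) (.inr (i, a)) := ⟨i, by rw [← h]; rfl⟩

theorem Lbo_eq (i : Fin 3) (a b : ZMod q) : Lbo q E (.inr (i, a)) (.inr (i, b)) = .inl i := by
  simp [Lbo]

theorem Lbo_ne (i j : Fin 3) (h : i ≠ j) (a b : ZMod q) : Lbo q E (.inr (i, a)) (.inr (j, b)) =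
    .inr (lval q 0 (i, a) (j, b), lval q 1 (i, a) (j, b)) := by
  simp [Lbo, h]

theorem star_latin (h : Star (E ⊕ ZMod q)) : Star (E ⊕ (Fin 3 × ZMod q)) := by
  have cov : ∀ u v, u ≠ v → LMem q E (Lbo q E u v) u ∧ LMem q E (Lbo q E u v) v := by
    rintro (u | ⟨i, a⟩) (v | ⟨j, b⟩) huv
    · exact absurd (congrArg _ (Subsingleton.elim u v)) huv
    · exact ⟨lmem0 _ _ _ _, lmem1 _ _ _ _⟩
    · exact ⟨lmem1 _ _ _ _, lmem0 _ _ _ _⟩
    · by_cases hij : i = j
      · subst hij
        rw [Lbo_eq]
        exact ⟨lmem1 _ _ _ _, lmem1 _ _ _ _⟩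
      · rw [Lbo_ne _ _ _ _ hij]
        constructor
        · apply lmem2
          fin_cases i <;> fin_cases j <;> simp [third, lval] at hij ⊢ <;> ring
        · apply lmem2
          fin_cases i <;> fin_cases j <;> simp [third, lval] at hij ⊢ <;> ring
  refine star_pbd (LW q E) (Le q E) ?_ (Lbo q E) ?_ ?_ ?_
  · rintro (i | ⟨x, y⟩)
    · rintro (a | a) (b | b) hab
      · simp only [Le, Sum.map_inl, id, Sum.inl.injEq] at hab
        rw [hab]
      · simp [Le] at hab
      · simp [Le] at hab
      · simp only [Le, Sum.map_inr, Sum.inr.injEq, Prod.mk.injEq, true_and] at hab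
        rw [hab]
    · intro a b hab
      simp only [Le, Sum.inr.injEq] at hab
      exact congrArg Prod.fst hab
  · intro u v huv
    obtain ⟨⟨x, hx⟩, ⟨y, hy⟩⟩ := cov u v huv
    exact ⟨x, y, hx, hy⟩
  · rintro (i | ⟨x, y⟩)
    · rintro (a | a) (b | b) hab
      · exact absurd (congrArg _ (Subsingleton.elim a b)) hab
      · rfl
      · rfl
      · simp [Le, Lbo]
    · intro a b hab
      simp only [Le]
      rw [Lbo_ne _ _ _ _ hab]
      congr 1
      rw [Prod.mk.injEq]
      constructor
      · fin_cases a <;> fin_cases b <;> simp [third, lval] at hab ⊢ <;> ring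
      · fin_cases a <;> fin_cases b <;> simp [third, lval] at hab ⊢ <;> ring
  · rintro (i | p)
    · exact h
    · exact star_three

end Latin

/-! ### the twisted Bose construction on `3q+2` points, `q` odd -/

section Twist

variable (q : ℕ) [NeZero q]

def pos (x : ZMod q) : Bool := decide (0 < x.val ∧ 2 * x.val < q)

theorem pos_zero : pos q 0 = false := by
  simp [pos]

theorem pos_neg (hq : Odd q) (x : ZMod q) (hx : x ≠ 0) : pos q (-x) = !(pos q x) := by
  have h0 : 0 < x.val := by
    rw [Nat.pos_iff_ne_zero]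
    intro h
    exact hx ((ZMod.val_eq_zero x).1 h)
  have h1 : x.val < q := ZMod.val_lt x
  have h2 : (-x).val = q - x.val := by
    rw [ZMod.neg_val, if_neg hx]
  unfold pos
  rw [h2, Bool.eq_iff_iff, Bool.not_eq_true', decide_eq_true_eq, decide_eq_false_iff_not]
  obtain ⟨k, hk⟩ := hq
  omega

/-- `1/2` -/
def half : ZMod q := ((q + 1) / 2 : ℕ)

theorem two_half (hq : Odd q) : (2 : ZMod q) * half q = 1 := by
  unfold half
  obtain ⟨k, hk⟩ := hq
  have h1 : 2 * ((q + 1) / 2) = q + 1 := by omega
  have h2 : ((2 * ((q + 1) / 2) : ℕ) : ZMod q) = ((q + 1 : ℕ) : ZMod q) := by rw [h1]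
  push_cast at h2
  rw [ZMod.natCast_self, zero_add] at h2
  exact h2

abbrev TV := Bool ⊕ (ZMod 3 × ZMod q)

abbrev TB2 := {p : ZMod 3 × ZMod q × ZMod q // pos q p.2.2 = true}
abbrev TB3 := {p : ZMod 3 × ZMod q // p.2 ≠ 0}
abbrev TB := Unit ⊕ (TB2 q ⊕ TB3 q)

abbrev TW : TB q → Type := Sum.elim (fun _ => Bool ⊕ ZMod 3) (fun _ => Fin 3)

instance TWf : ∀ b : TB q, Fintype (TW q b)
  | .inl _ => inferInstanceAs (Fintype (Bool ⊕ ZMod 3))
  | .inr _ => inferInstanceAs (Fintype (Fin 3))

def t2 (p : TB2 q) (j : Fin 3) : TV q :=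
  if j = 0 then .inr (p.1.1, p.1.2.1 + p.1.2.2) else
      if j = 1 then .inr (p.1.1, p.1.2.1 - p.1.2.2) else .inr (p.1.1 + 1, - p.1.2.1)

def t3 (p : TB3 q) (j : Fin 3) : TV q :=
  if j = 0 then .inr (p.1.1, p.1.2) else
      if j = 1 then .inr (p.1.1 + 1, -p.1.2) else .inl (pos q p.1.2)

def Te : ∀ b : TB q, TW q b → TV q
  | .inl _ => Sum.map id (fun i => (i, 0))
  | .inr (.inl p) => t2 q p
  | .inr (.inr p) => t3 q p

def mk2 (i : ZMod 3) (c d : ZMod q) : TB q :=
  if h : pos q d = true then .inr (.inl ⟨(i, c, d), h⟩) else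
    if h : pos q (-d) = true then .inr (.inl ⟨(i, c, -d), h⟩) else .inl ()

def mk3 (i : ZMod 3) (x : ZMod q) : TB q :=
  if h : x ≠ 0 then .inr (.inr ⟨(i, x), h⟩) else .inl ()

def Tbo : TV q → TV q → TB q
  | .inl _, .inl _ => .inl ()
  | .inl β, .inr (i, x) => if pos q x = β then mk3 q i x else mk3 q (i - 1) (-x)
  | .inr (i, x), .inl β => if pos q x = β then mk3 q i x else mk3 q (i - 1) (-x)
  | .inr (i, x), .inr (j, y) =>
    if i = j then mk2 q i ((x + y) * half q) ((x - y) * half q) else
      if j = i + 1 then (if x = -y then mk3 q i x else mk2 q i (-y) (x + y)) else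
        (if y = -x then mk3 q j y else mk2 q j (-x) (y + x))

def TMem (b : TB q) (u : TV q) : Prop := ∃ x, Te q b x = u

theorem tmem5 (β : Bool) : TMem q (.inl ()) (.inl β) := ⟨.inl β, rfl⟩
theorem tmem5' (i : ZMod 3) : TMem q (.inl ()) (.inr (i, 0)) := ⟨.inr i, rfl⟩

theorem tmem3 (i : ZMod 3) (x : ZMod q) : TMem q (mk3 q i x) (.inr (i, x)) ∧
    TMem q (mk3 q i x) (.inr (i + 1, -x)) ∧
    (∀ β, (x ≠ 0 → β = pos q x) → TMem q (mk3 q i x) (.inl β)) := by
  unfold mk3
  by_cases h : x ≠ 0
  · rw [dif_pos h]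
    refine ⟨⟨(0 : Fin 3), rfl⟩, ⟨(1 : Fin 3), rfl⟩, ?_⟩
    intro β hβ
    rw [hβ h]
    exact ⟨(2 : Fin 3), rfl⟩
  · rw [dif_neg h]
    push Not at h
    subst h
    refine ⟨tmem5' q i, ?_, fun β _ => tmem5 q β⟩
    rw [neg_zero]
    exact tmem5' q _

theorem tmem2 (hq : Odd q) (i : ZMod 3) (c d : ZMod q) (hd : d ≠ 0) :
    TMem q (mk2 q i c d) (.inr (i, c + d)) ∧ TMem q (mk2 q i c d) (.inr (i, c - d)) ∧
      TMem q (mk2 q i c d) (.inr (i + 1, -c)) := by
  unfold mk2
  by_cases h : pos q d = true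
  · rw [dif_pos h]
    exact ⟨⟨(0 : Fin 3), rfl⟩, ⟨(1 : Fin 3), rfl⟩, ⟨(2 : Fin 3), rfl⟩⟩
  · rw [dif_neg h]
    have h' : pos q (-d) = true := by
      rw [pos_neg q hq d hd]
      simpa using h
    rw [dif_pos h']
    refine ⟨⟨(1 : Fin 3), ?_⟩, ⟨(0 : Fin 3), ?_⟩, ⟨(2 : Fin 3), rfl⟩⟩
    · simp [Te, t2]
    · simp [Te, t2, sub_eq_add_neg]

theorem z3 (i j : ZMod 3) : i = j ∨ j = i + 1 ∨ i = j + 1 := by
  revert i j; decide

theorem z3' (i : ZMod 3) : i ≠ i + 1 ∧ i + 1 ≠ i + 1 + 1 ∧ i ≠ i + 1 + 1 := by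
  revert i; decide

theorem star_twist (hq : Odd q) : Star (TV q) := by
  have h2 := two_half q hq
  have hne : ∀ x : ZMod q, x * half q = 0 → x = 0 := by
    intro x hx
    have : x = 2 * (x * half q) := by
      rw [mul_comm x, ← mul_assoc, h2, one_mul]
    rw [this, hx, mul_zero]
  have cov : ∀ u v, u ≠ v → TMem q (Tbo q u v) u ∧ TMem q (Tbo q u v) v := by
    have c1 : ∀ (β : Bool) (i : ZMod 3) (x : ZMod q),
        TMem q (if pos q x = β then mk3 q i x else mk3 q (i - 1) (-x)) (.inl β) ∧
        TMem q (if pos q x = β then mk3 q i x else mk3 q (i - 1) (-x)) (.inr (i, x)) := by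
      intro β i x
      by_cases h : pos q x = β
      · rw [if_pos h]
        exact ⟨(tmem3 q i x).2.2 β (fun _ => h.symm), (tmem3 q i x).1⟩
      · rw [if_neg h]
        refine ⟨(tmem3 q (i - 1) (-x)).2.2 β ?_, ?_⟩
        · intro hx
          rw [pos_neg q hq x (by simpa using hx)]
          cases β <;> cases h' : pos q x <;> simp_all
        · have := (tmem3 q (i - 1) (-x)).2.1
          simpa using this
    rintro (u | ⟨i, x⟩) (v | ⟨j, y⟩) huv
    · exact ⟨tmem5 q u, tmem5 q v⟩
    · exact c1 u j y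
    · exact ⟨(c1 v i x).2, (c1 v i x).1⟩
    · by_cases hij : i = j
      · subst hij
        have hxy : x - y ≠ 0 := by
          intro h
          apply huv
          rw [sub_eq_zero.1 h]
        simp only [Tbo, if_true]
        have hd : (x - y) * half q ≠ 0 := fun h => hxy (hne _ h)
        have hx : (x + y) * half q + (x - y) * half q = x := by
          have : (x + y) * half q + (x - y) * half q = x * (2 * half q) := by ring
          rw [this, h2, mul_one]
        have hy : (x + y) * half q - (x - y) * half q = y := by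
          have : (x + y) * half q - (x - y) * half q = y * (2 * half q) := by ring
          rw [this, h2, mul_one]
        have h3 := tmem2 q hq i ((x + y) * half q) ((x - y) * half q) hd
        rw [hx, hy] at h3
        exact ⟨h3.1, h3.2.1⟩
      · have c2 : ∀ (i : ZMod 3) (x y : ZMod q),
            TMem q (if x = -y then mk3 q i x else mk2 q i (-y) (x + y)) (.inr (i, x)) ∧
            TMem q (if x = -y then mk3 q i x else mk2 q i (-y) (x + y)) (.inr (i + 1, y)) := by
          intro i x y
          by_cases h : x = -y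
          · rw [if_pos h]
            have h3 := tmem3 q i x
            refine ⟨h3.1, ?_⟩
            have : -x = y := by rw [h, neg_neg]
            rw [← this]
            exact h3.2.1
          · rw [if_neg h]
            have hd : x + y ≠ 0 := fun h' => h (eq_neg_of_add_eq_zero_left h')
            have h3 := tmem2 q hq i (-y) (x + y) hd
            refine ⟨?_, ?_⟩
            · have := h3.1
              rwa [show -y + (x + y) = x by ring] at this
            · have := h3.2.2
              rwa [neg_neg] at this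
        by_cases hji : j = i + 1
        · subst hji
          simp only [Tbo, if_neg hij, if_true]
          exact c2 i x y
        · have hij2 : i = j + 1 := by
            rcases z3 i j with h | h | h
            · exact absurd h hij
            · exact absurd h hji
            · exact h
          subst hij2
          simp only [Tbo, if_neg hij, if_neg hji]
          exact ⟨(c2 j y x).2, (c2 j y x).1⟩
  have uni2 : ∀ (p : TB2 q) (a b : Fin 3), a ≠ b →
      Tbo q (Te q (.inr (.inl p)) a) (Te q (.inr (.inl p)) b) = .inr (.inl p) := by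
    rintro ⟨⟨i, c, d⟩, hd⟩ a b hab
    simp only at hd
    have hd0 : d ≠ 0 := by
      rintro rfl
      rw [pos_zero] at hd
      exact Bool.noConfusion hd
    have hdn : pos q (-d) = false := by
      rw [pos_neg q hq d hd0, hd]; rfl
    have m1 : mk2 q i c d = .inr (.inl ⟨(i, c, d), hd⟩) := by
      unfold mk2
      rw [dif_pos hd]
    have m2 : mk2 q i c (-d) = .inr (.inl ⟨(i, c, d), hd⟩) := by
      unfold mk2
      rw [dif_neg (by rw [hdn]; exact Bool.false_ne_true)]
      simp only [neg_neg]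
      rw [dif_pos hd]
    obtain ⟨z1, z2, z4⟩ := z3' i
    have e0 : (c + d + (c - d)) * half q = c := by
      have : (c + d + (c - d)) * half q = c * (2 * half q) := by ring
      rw [this, h2, mul_one]
    have e1 : (c + d - (c - d)) * half q = d := by
      have : (c + d - (c - d)) * half q = d * (2 * half q) := by ring
      rw [this, h2, mul_one]
    have e2 : (c - d + (c + d)) * half q = c := by
      have : (c - d + (c + d)) * half q = c * (2 * half q) := by ring
      rw [this, h2, mul_one]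
    have e3 : (c - d - (c + d)) * half q = -d := by
      have : (c - d - (c + d)) * half q = -d * (2 * half q) := by ring
      rw [this, h2, mul_one]
    have e4 : (c + c) * half q = c := by
      have : (c + c) * half q = c * (2 * half q) := by ring
      rw [this, h2, mul_one]
    have e5 : (d + d) * half q = d := by
      have : (d + d) * half q = d * (2 * half q) := by ring
      rw [this, h2, mul_one]
    have n1 : ¬ (c + d = c) := by simpa using hd0
    have n2 : ¬ (c - d = c) := by simpa using hd0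
    have f1 : c + d + -c = d := by ring
    have f2 : c - d + -c = -d := by ring
    fin_cases a <;> fin_cases b
    · exact absurd rfl hab
    · simp [Te, t2, t3, Tbo, e0, e1, e4, e5, m1]
    · simp [Te, t2, t3, Tbo, hd0, f1, m1, z1]
    · simp [Te, t2, t3, Tbo, e2, e3, e4, e5, m2]
    · exact absurd rfl hab
    · simp [Te, t2, t3, Tbo, hd0, f2, m2, z1]
    · simp [Te, t2, t3, Tbo, hd0, f1, m1, z4]
    · simp [Te, t2, t3, Tbo, hd0, f2, m2, z4]
    · exact absurd rfl hab
  have uni3 : ∀ (p : TB3 q) (a b : Fin 3), a ≠ b →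
      Tbo q (Te q (.inr (.inr p)) a) (Te q (.inr (.inr p)) b) = .inr (.inr p) := by
    rintro ⟨⟨i, x⟩, hx⟩ a b hab
    simp only at hx
    have m1 : mk3 q i x = .inr (.inr ⟨(i, x), hx⟩) := by
      unfold mk3
      rw [dif_pos hx]
    obtain ⟨z1, z2, z4⟩ := z3' i
    have hp := pos_neg q hq x hx
    have hp2 : ¬ (pos q (-x) = pos q x) := by
      rw [hp]; cases pos q x <;> simp
    fin_cases a <;> fin_cases b
    · exact absurd rfl hab
    · simp [Te, t2, t3, Tbo, m1, z1]
    · simp [Te, t2, t3, Tbo, m1]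
    · simp [Te, t2, t3, Tbo, m1, z1, z4]
    · exact absurd rfl hab
    · simp [Te, t2, t3, Tbo, m1, hp2]
    · simp [Te, t2, t3, Tbo, m1]
    · simp [Te, t2, t3, Tbo, m1, hp2]
    · exact absurd rfl hab
  have uni1 : ∀ (a b : Bool ⊕ ZMod 3), a ≠ b →
      Tbo q (Te q (.inl ()) a) (Te q (.inl ()) b) = .inl () := by
    have m0 : ∀ i, mk3 q i 0 = .inl () := by intro i; unfold mk3; rw [dif_neg (by simp)]
    rintro (a | i) (b | j) hab
    · rfl
    · simp only [Te, Tbo, Sum.map_inl, Sum.map_inr, id, neg_zero, m0, ite_self]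
    · simp only [Te, Tbo, Sum.map_inl, Sum.map_inr, id, neg_zero, m0, ite_self]
    · have hij : i ≠ j := fun h => hab (by rw [h])
      simp only [Te, Tbo, Sum.map_inr, if_neg hij, neg_zero, m0, if_true, ite_self]
  refine star_pbd (TW q) (Te q) ?_ (Tbo q) ?_ ?_ ?_
  · rintro (_ | p | p)
    · rintro (a | i) (b | j) hab
      · simp only [Te, Sum.map_inl, id, Sum.inl.injEq] at hab
        rw [hab]
      · simp [Te] at hab
      · simp [Te] at hab
      · simp only [Te, Sum.map_inr, Sum.inr.injEq, Prod.mk.injEq, and_true] at hab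
        rw [hab]
    · intro a b hab
      by_contra hne'
      have h3 := uni2 p a b hne'
      have hd : pos q p.1.2.2 = true := p.2
      have hd0 : p.1.2.2 ≠ 0 := by
        intro h
        rw [h, pos_zero] at hd
        exact Bool.noConfusion hd
      have z1 := z3' p.1.1
      have hdd : p.1.2.2 + p.1.2.2 ≠ 0 := by
        intro h
        apply hd0
        have : p.1.2.2 = half q * (p.1.2.2 + p.1.2.2) := by
          have : half q * (p.1.2.2 + p.1.2.2) = p.1.2.2 * (2 * half q) := by ring
          rw [this, h2, mul_one]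
        rw [this, h, mul_zero]
      have g1 : p.1.2.1 + p.1.2.2 ≠ p.1.2.1 - p.1.2.2 := by
        intro h
        apply hdd
        have := sub_eq_zero.2 h
        rw [← this]; ring
      fin_cases a <;> fin_cases b <;> simp [Te, t2, g1, g1.symm, z1.1, z1.1.symm] at hab hne'
    · intro a b hab
      obtain ⟨⟨i, x⟩, hx⟩ := p
      have z1 := z3' i
      fin_cases a <;> fin_cases b <;> simp [Te, t3, z1.1] at hab ⊢
  · intro u v huv
    obtain ⟨⟨x, hx⟩, ⟨y, hy⟩⟩ := cov u v huv
    exact ⟨x, y, hx, hy⟩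
  · rintro (_ | p | p) a b hab
    · exact (uni1 a b hab).symm
    · exact (uni2 p a b hab).symm
    · exact (uni3 p a b hab).symm
  · rintro (_ | p)
    · refine star_equiv (V' := Fin 5) ?_ star_five
      exact (Fintype.equivOfCardEq (by rfl))
    · exact star_three

end Twist

end H14.Ham
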