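import Pool.Agent.H14.HamDes

set_option autoImplicit false

namespace H14.Ham

open Finset

theorem star_all (n : ℕ) : Odd n → Star (Fin n) := by
  induction n using Nat.strong_induction_on with
  | _ n ih =>
    intro hn
    obtain ⟨k, hk⟩ := hn
    have hmod : n = 3 * (n / 3) ∨ n = 3 * (n / 3) + 1 ∨ n = 3 * (n / 3) + 2 := by omega
    rcases hmod with h | h | h
    · have hq : Odd (n / 3) := by
        rw [Nat.odd_iff]; omega
      have : NeZero (n / 3) := ⟨by rcases hq with ⟨j, hj⟩; omega⟩
      have h1 := ih (n / 3) (by omega) hq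
      have h2 : Star (Empty ⊕ ZMod (n / 3)) :=
        star_equiv (Fintype.equivOfCardEq (by simp [ZMod.card])) h1
      have h3 := star_latin (n / 3) Empty h2
      exact star_equiv (Fintype.equivOfCardEq (by simp [ZMod.card]; omega)) h3
    · by_cases hq0 : n / 3 = 0
      · have : n = 1 := by omega
        subst this
        exact star_subsingleton _
      · have : NeZero (n / 3) := ⟨hq0⟩
        have h1 := ih (n / 3 + 1) (by omega) (by rw [Nat.odd_iff]; omega)
        have h2 : Star (Unit ⊕ ZMod (n / 3)) :=
          star_equiv (Fintype.equivOfCardEq (by simp [ZMod.card]; omega)) h1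
        have h3 := star_latin (n / 3) Unit h2
        exact star_equiv (Fintype.equivOfCardEq (by simp [ZMod.card]; omega)) h3
    · have hq : Odd (n / 3) := by
        rw [Nat.odd_iff]; omega
      have : NeZero (n / 3) := ⟨by rcases hq with ⟨j, hj⟩; omega⟩
      have h3 := star_twist (n / 3) hq
      exact star_equiv (Fintype.equivOfCardEq (by simp [ZMod.card]; omega)) h3

open Classical in
theorem card_full_cycles (n : ℕ) (hn : 2 ≤ n) :
    (univ.filter (fun c : Equiv.Perm (Fin n) => c.IsCycle ∧ c.support = univ)).card =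
      (n - 1).factorial := by
  classical
  have h := Equiv.Perm.card_of_cycleType_singleton (α := Fin n) hn (by simp)
  rw [Fintype.card_fin, Nat.choose_self, mul_one] at h
  rw [← h]
  congr 1
  ext c
  simp only [mem_filter, mem_univ, true_and]
  constructor
  · rintro ⟨h1, h2⟩
    rw [h1.cycleType, h2]
    simp
  · intro hc
    have h1 : c.IsCycle := by
      rw [← Equiv.Perm.card_cycleType_eq_one, hc]; simp
    refine ⟨h1, ?_⟩
    have h2 := Equiv.Perm.sum_cycleType c
    rw [hc, Multiset.sum_singleton] at h2
    rw [← Finset.card_eq_iff_eq_univ, ← h2]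
    simp

theorem part_of_cycle (n : ℕ) (hn : 3 ≤ n) (c : Equiv.Perm (Fin n)) (h1 : c.IsCycle)
    (h2 : c.support = univ) : IsPart (fun v => some (c v)) := by
  have hs : ∀ v, c v ≠ v := by
    intro v
    rw [← Equiv.Perm.mem_support, h2]
    exact mem_univ v
  refine ⟨?_, ?_, ?_⟩
  · intro u v w hu hv
    rw [Option.some_inj] at hu hv
    exact c.injective (hu.trans hv.symm)
  · intro u hu
    rw [Option.some_inj] at hu
    exact hs u hu
  · intro u v hu hv
    rw [Option.some_inj] at hu hv
    have h3 : (c ^ 2) u = u := by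
      rw [pow_two, Equiv.Perm.mul_apply, hu, hv]
    have h4 : c ^ 2 = 1 := (h1.pow_eq_one_iff' (hs u)).2 h3
    have h5 := orderOf_dvd_of_pow_eq_one h4
    rw [h1.orderOf, h2, card_univ, Fintype.card_fin] at h5
    have := Nat.le_of_dvd (by norm_num) h5
    omega

open Classical in
theorem main (n : ℕ) (hn : Odd n) (hn3 : 3 ≤ n) : ∃ T : Fin n → Fin n → Bool, IsRT T ∧
    (n - 1).factorial ≤ 2 ^ n * (univ.filter (fun c : Equiv.Perm (Fin n) =>
      c.IsCycle ∧ c.support = univ ∧ ∀ v, T v (c v) = true)).card := by
  classical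
  obtain ⟨Ω, fΩ, T, hne, hT, hf⟩ := star_all n hn
  by_contra hcon
  push Not at hcon
  have h1 : ∀ ω, 2 ^ n * (univ.filter (fun c : Equiv.Perm (Fin n) =>
      c.IsCycle ∧ c.support = univ ∧ ∀ v, T ω v (c v) = true)).card < (n - 1).factorial :=
    fun ω => hcon _ (hT ω)
  have h2 : ∑ ω : Ω, 2 ^ n * (univ.filter (fun c : Equiv.Perm (Fin n) =>
      c.IsCycle ∧ c.support = univ ∧ ∀ v, T ω v (c v) = true)).card <
      ∑ ω : Ω, (n - 1).factorial :=
    Finset.sum_lt_sum_of_nonempty univ_nonempty (fun ω _ => h1 ω)
  rw [sum_const, card_univ, smul_eq_mul] at h2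
  have h3 : Fintype.card Ω * (n - 1).factorial ≤ ∑ ω : Ω, 2 ^ n * (univ.filter
      (fun c : Equiv.Perm (Fin n) =>
      c.IsCycle ∧ c.support = univ ∧ ∀ v, T ω v (c v) = true)).card := by
    rw [← card_full_cycles n (by omega), ← Finset.mul_sum]
    have h4 : ∑ ω : Ω, (univ.filter (fun c : Equiv.Perm (Fin n) =>
        c.IsCycle ∧ c.support = univ ∧ ∀ v, T ω v (c v) = true)).card =
        ∑ c ∈ univ.filter (fun c : Equiv.Perm (Fin n) => c.IsCycle ∧ c.support = univ),
          (univ.filter (fun ω => Cont (T ω) (fun v => some (c v)))).card := by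
      simp only [card_filter]
      rw [Finset.sum_comm, Finset.sum_filter]
      apply Finset.sum_congr rfl
      intro c _
      by_cases hc : c.IsCycle ∧ c.support = univ
      · rw [if_pos hc]
        apply Finset.sum_congr rfl
        intro ω _
        apply if_congr _ rfl rfl
        unfold Cont
        constructor
        · rintro ⟨_, _, h⟩ u v huv
          rw [Option.some_inj] at huv
          rw [← huv]
          exact h u
        · intro h
          exact ⟨hc.1, hc.2, fun v => h v _ rfl⟩
      · rw [if_neg hc]
        apply Finset.sum_eq_zero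
        intro ω _
        rw [if_neg]
        rintro ⟨a, b, _⟩
        exact hc ⟨a, b⟩
    rw [h4, Finset.mul_sum, mul_comm, ← smul_eq_mul, ← Finset.sum_const]
    apply Finset.sum_le_sum
    intro c hc
    simp only [mem_filter, mem_univ, true_and] at hc
    have h5 := hf _ (part_of_cycle n hn3 c hc.1 hc.2)
    have h6 : size (fun v => some (c v)) = n := by
      unfold size
      simp
    rw [h6] at h5
    convert h5
  omega

theorem final : ∀ n : ℕ, Odd n → 3 ≤ n →
      ∃ adj : Fin n → Fin n → Prop,
        (∀ v, ¬ adj v v) ∧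
        (∀ v w, v ≠ w → (adj v w ↔ ¬ adj w v)) ∧
        (∀ v, {w : Fin n | adj v w}.ncard = (n - 1) / 2) ∧
        ((Nat.factorial (n - 1) : ℝ) / (2 : ℝ) ^ n ≤
          (({c : Equiv.Perm (Fin n) |
              c.IsCycle ∧ c.support = Finset.univ ∧ ∀ v, adj v (c v)}.ncard : ℕ) : ℝ)) := by
  classical
  intro n hn hn3
  obtain ⟨T, hT, hc⟩ := main n hn hn3
  refine ⟨fun v w => T v w = true, ?_, ?_, ?_, ?_⟩
  · intro v
    simp [hT.1 v]
  · intro v w hvw
    show T v w = true ↔ ¬ T w v = true
    rw [hT.2.1 v w hvw]
    simp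
  · intro v
    have h1 : {w : Fin n | T v w = true} = ((univ.filter (fun w => T v w = true) : Finset (Fin n)) : Set (Fin n)) := by
      ext w; simp
    rw [h1, Set.ncard_coe_finset]
    have h2 := hT.2.2 v
    have h3 : (univ.filter (fun w => T v w = true)) ∪ (univ.filter (fun w => T w v = true)) =
        univ.erase v := by
      ext w
      simp only [mem_union, mem_filter, mem_univ, true_and, mem_erase, and_true]
      constructor
      · rintro (h | h)
        · rintro rfl
          rw [hT.1] at h; exact Bool.noConfusion h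
        · rintro rfl
          rw [hT.1] at h; exact Bool.noConfusion h
      · intro hwv
        have := hT.2.1 w v hwv
        cases h : T w v
        · left
          rw [h] at this
          simpa using this.symm
        · right; rfl
    have h4 : Disjoint (univ.filter (fun w => T v w = true)) (univ.filter (fun w => T w v = true)) := by
      rw [Finset.disjoint_left]
      intro w hw hw'
      simp only [mem_filter, mem_univ, true_and] at hw hw'
      have hwv : w ≠ v := by
        rintro rfl
        rw [hT.1] at hw; exact Bool.noConfusion hw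
      have := hT.2.1 w v hwv
      rw [hw, hw'] at this
      exact Bool.noConfusion this
    have h5 := card_union_of_disjoint h4
    rw [h3, card_erase_of_mem (mem_univ v), card_univ, Fintype.card_fin, ← h2] at h5
    omega
  · have h1 : {c : Equiv.Perm (Fin n) | c.IsCycle ∧ c.support = Finset.univ ∧ ∀ v, T v (c v) = true} =
        ((univ.filter (fun c : Equiv.Perm (Fin n) =>
      c.IsCycle ∧ c.support = univ ∧ ∀ v, T v (c v) = true) : Finset (Equiv.Perm (Fin n))) :
        Set (Equiv.Perm (Fin n))) := by
      ext c; simp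
    rw [h1, Set.ncard_coe_finset, div_le_iff₀ (by positivity)]
    have h2 : ((n - 1).factorial : ℝ) ≤ ((2 ^ n * (univ.filter (fun c : Equiv.Perm (Fin n) =>
      c.IsCycle ∧ c.support = univ ∧ ∀ v, T v (c v) = true)).card : ℕ) : ℝ) := by
      exact_mod_cast hc
    calc ((n - 1).factorial : ℝ) ≤ _ := h2
      _ = _ := by push_cast; ring

end H14.Ham
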