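import Mathlib

set_option autoImplicit false

namespace H14.Ham

open Finset

/-- regular tournament -/
def IsRT {V : Type} [Fintype V] (T : V → V → Bool) : Prop :=
  (∀ v, T v v = false) ∧ (∀ v w, v ≠ w → T v w = !(T w v)) ∧
    ∀ v, (univ.filter (fun w => T v w = true)).card = (univ.filter (fun w => T w v = true)).card

/-- partial injections without fixed points and 2-cycles -/
def IsPart {V : Type} (f : V → Option V) : Prop :=
  (∀ u v w, f u = some w → f v = some w → u = v) ∧ (∀ u, f u ≠ some u) ∧
    (∀ u v, f u = some v → f v ≠ some u)

def size {V : Type} [Fintype V] (f : V → Option V) : ℕ :=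
  (univ.filter (fun u => (f u).isSome = true)).card

def Cont {V : Type} (T : V → V → Bool) (f : V → Option V) : Prop :=
  ∀ u v, f u = some v → T u v = true

open Classical in
/-- there is a random regular tournament containing each set of arcs with the right probability -/
def Star (V : Type) [Fintype V] : Prop :=
  ∃ (Ω : Type) (_ : Fintype Ω) (T : Ω → V → V → Bool), Nonempty Ω ∧ (∀ ω, IsRT (T ω)) ∧
    ∀ f : V → Option V, IsPart f →
      Fintype.card Ω ≤ 2 ^ size f * (univ.filter (fun ω => Cont (T ω) f)).card

theorem star_pbd {V B : Type} [Fintype V] [Fintype B] (W : B → Type) [∀ b, Fintype (W b)]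
    (e : ∀ b, W b → V) (he : ∀ b, Function.Injective (e b)) (bo : V → V → B)
    (h1 : ∀ u v, u ≠ v → ∃ x y, e (bo u v) x = u ∧ e (bo u v) y = v)
    (h2 : ∀ b x y, x ≠ y → b = bo (e b x) (e b y))
    (hs : ∀ b, Star (W b)) : Star V := by
  classical
  choose Ω fΩ T hne hT hf using hs
  let TT : (∀ b, Ω b) → V → V → Bool := fun ω u v =>
    decide (∃ b x y, e b x = u ∧ e b y = v ∧ T b (ω b) x y = true)
  have hTT : ∀ ω u v, TT ω u v = true ↔ ∃ b x y, e b x = u ∧ e b y = v ∧ T b (ω b) x y = true := by
    intro ω u v
    simp [TT]
  have key : ∀ (ω : ∀ b, Ω b) b x y, x ≠ y → (TT ω (e b x) (e b y) = true ↔ T b (ω b) x y = true) := by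
    intro ω b x y hxy
    rw [hTT]
    constructor
    · rintro ⟨b', x', y', hx, hy, ht⟩
      have hxy' : x' ≠ y' := by
        rintro rfl
        exact hxy (he b (hx.symm.trans hy))
      have e1 := h2 b' x' y' hxy'
      rw [hx, hy] at e1
      have e2 := h2 b x y hxy
      rw [← e2] at e1
      subst e1
      rw [← he _ hx, ← he _ hy]
      exact ht
    · intro ht
      exact ⟨b, x, y, rfl, rfl, ht⟩
  have irr : ∀ ω v, TT ω v v = false := by
    intro ω v
    rw [← Bool.not_eq_true, hTT]
    rintro ⟨b, x, y, hx, hy, ht⟩
    have : x = y := he b (hx.trans hy.symm)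
    subst this
    rw [(hT b (ω b)).1 x] at ht
    exact Bool.noConfusion ht
  refine ⟨∀ b, Ω b, inferInstance, TT, inferInstance, ?_, ?_⟩
  · intro ω
    refine ⟨irr ω, ?_, ?_⟩
    · intro u v huv
      obtain ⟨x, y, hx, hy⟩ := h1 u v huv
      have hxy : x ≠ y := by
        rintro rfl
        exact huv (hx.symm.trans hy)
      have k1 := key ω _ x y hxy
      have k2 := key ω _ y x hxy.symm
      rw [hx, hy] at k1 k2
      have k3 := (hT (bo u v) (ω _)).2.1 x y hxy
      rw [Bool.eq_iff_iff, k1, k3]
      simp only [Bool.not_eq_true', ← Bool.not_eq_true, k2]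
    · intro v
      -- out-degree as a sum over blocks
      have o1 : (univ.filter (fun w => TT ω v w = true)) =
          univ.biUnion (fun b : B => univ.filter (fun w => ∃ x y, e b x = v ∧ e b y = w ∧ T b (ω b) x y = true)) := by
        ext w
        simp only [mem_filter, mem_univ, true_and, mem_biUnion, hTT]
      have o2 : (univ.filter (fun w => TT ω w v = true)) =
          univ.biUnion (fun b : B => univ.filter (fun w => ∃ x y, e b x = w ∧ e b y = v ∧ T b (ω b) x y = true)) := by
        ext w
        simp only [mem_filter, mem_univ, true_and, mem_biUnion, hTT]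
      rw [o1, o2, card_biUnion, card_biUnion]
      · apply Finset.sum_congr rfl
        intro b _
        by_cases hv : ∃ x, e b x = v
        · obtain ⟨x, rfl⟩ := hv
          have a1 : (univ.filter (fun w => ∃ x' y, e b x' = e b x ∧ e b y = w ∧ T b (ω b) x' y = true)) =
              (univ.filter (fun y => T b (ω b) x y = true)).image (e b) := by
            ext w
            simp only [mem_filter, mem_univ, true_and, mem_image]
            constructor
            · rintro ⟨x', y, hx', hy, ht⟩
              rw [he b hx'] at ht
              exact ⟨y, ht, hy⟩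
            · rintro ⟨y, ht, hy⟩
              exact ⟨x, y, rfl, hy, ht⟩
          have a2 : (univ.filter (fun w => ∃ x' y, e b x' = w ∧ e b y = e b x ∧ T b (ω b) x' y = true)) =
              (univ.filter (fun y => T b (ω b) y x = true)).image (e b) := by
            ext w
            simp only [mem_filter, mem_univ, true_and, mem_image]
            constructor
            · rintro ⟨x', y, hx', hy, ht⟩
              rw [he b hy] at ht
              exact ⟨x', ht, hx'⟩
            · rintro ⟨y, ht, hy⟩
              exact ⟨y, x, hy, rfl, ht⟩
          rw [a1, a2, card_image_of_injective _ (he b), card_image_of_injective _ (he b)]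
          exact (hT b (ω b)).2.2 x
        · have a1 : (univ.filter (fun w => ∃ x' y, e b x' = v ∧ e b y = w ∧ T b (ω b) x' y = true)) = ∅ := by
            rw [filter_eq_empty_iff]
            rintro w _ ⟨x', y, hx', _⟩
            exact hv ⟨x', hx'⟩
          have a2 : (univ.filter (fun w => ∃ x' y, e b x' = w ∧ e b y = v ∧ T b (ω b) x' y = true)) = ∅ := by
            rw [filter_eq_empty_iff]
            rintro w _ ⟨x', y, _, hx', _⟩
            exact hv ⟨y, hx'⟩
          rw [a1, a2]
      · intro b _ b' _ hbb
        change Disjoint _ _
        rw [Finset.disjoint_left]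
        intro w hw hw'
        simp only [mem_filter, mem_univ, true_and] at hw hw'
        obtain ⟨x, y, hx, hy, ht⟩ := hw
        obtain ⟨x', y', hx', hy', ht'⟩ := hw'
        have n1 : x ≠ y := by
          rintro rfl; rw [(hT b (ω b)).1 x] at ht; exact Bool.noConfusion ht
        have n2 : x' ≠ y' := by
          rintro rfl; rw [(hT b' (ω b')).1 x'] at ht'; exact Bool.noConfusion ht'
        have e1 := h2 b x y n1
        have e2 := h2 b' x' y' n2
        rw [hx, hy] at e1
        rw [hx', hy'] at e2
        exact hbb (e1.trans e2.symm)
      · intro b _ b' _ hbb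
        change Disjoint _ _
        rw [Finset.disjoint_left]
        intro w hw hw'
        simp only [mem_filter, mem_univ, true_and] at hw hw'
        obtain ⟨x, y, hx, hy, ht⟩ := hw
        obtain ⟨x', y', hx', hy', ht'⟩ := hw'
        have n1 : x ≠ y := by
          rintro rfl; rw [(hT b (ω b)).1 x] at ht; exact Bool.noConfusion ht
        have n2 : x' ≠ y' := by
          rintro rfl; rw [(hT b' (ω b')).1 x'] at ht'; exact Bool.noConfusion ht'
        have e1 := h2 b x y n1
        have e2 := h2 b' x' y' n2
        rw [hx, hy] at e1
        rw [hx', hy'] at e2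
        exact hbb (e1.trans e2.symm)
  · intro f hfp
    -- restriction to the block
    let r : ∀ b, W b → Option (W b) := fun b x =>
      if h : ∃ y, f (e b x) = some (e b y) then some h.choose else none
    have hr : ∀ b x y, r b x = some y ↔ f (e b x) = some (e b y) := by
      intro b x y
      simp only [r]
      split_ifs with h
      · rw [Option.some_inj]
        have := h.choose_spec
        constructor
        · intro hh; rw [← hh]; exact this
        · intro hh
          rw [this, Option.some_inj] at hh
          exact he b hh
      · constructor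
        · intro hh; exact absurd hh (by simp)
        · intro hh; exact absurd ⟨y, hh⟩ h
    have hrp : ∀ b, IsPart (r b) := by
      intro b
      refine ⟨?_, ?_, ?_⟩
      · intro u v w hu hv
        rw [hr] at hu hv
        exact he b (hfp.1 _ _ _ hu hv)
      · intro u hu
        rw [hr] at hu
        exact hfp.2.1 _ hu
      · intro u v hu hv
        rw [hr] at hu hv
        exact hfp.2.2 _ _ hu hv
    have hcont : ∀ ω, Cont (TT ω) f ↔ ∀ b, Cont (T b (ω b)) (r b) := by
      intro ω
      constructor
      · intro hc b x y hxy
        rw [hr] at hxy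
        have hne' : x ≠ y := by
          rintro rfl
          exact hfp.2.1 _ hxy
        rw [← key ω b x y hne']
        exact hc _ _ hxy
      · intro hc u v huv
        have hne' : u ≠ v := by
          rintro rfl
          exact hfp.2.1 _ huv
        obtain ⟨x, y, hx, hy⟩ := h1 u v hne'
        have hxy : x ≠ y := by
          rintro rfl
          exact hne' (hx.symm.trans hy)
        have k1 := key ω _ x y hxy
        rw [hx, hy] at k1
        rw [k1]
        apply hc
        rw [hr, hx, hy]
        exact huv
    have hcard : (univ.filter (fun ω => Cont (TT ω) f)).card =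
        ∏ b, (univ.filter (fun ω => Cont (T b ω) (r b))).card := by
      rw [← Fintype.card_piFinset]
      congr 1
      ext ω
      simp only [mem_filter, mem_univ, true_and, Fintype.mem_piFinset, hcont]
    have hsize : ∑ b, size (r b) ≤ size f := by
      unfold size
      rw [← Finset.card_sigma]
      apply Finset.card_le_card_of_injOn (fun p : (Σ b, W b) => e p.1 p.2)
      · rintro ⟨b, x⟩ hbx
        simp only [coe_sigma, Set.mem_sigma_iff, coe_univ, Set.mem_univ, true_and, mem_coe,
          mem_filter, mem_univ] at hbx ⊢
        obtain ⟨y, hy⟩ := Option.isSome_iff_exists.1 hbx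
        rw [hr] at hy
        rw [hy]; rfl
      · rintro ⟨b, x⟩ hbx ⟨b', x'⟩ hbx' hxx
        simp only [coe_sigma, Set.mem_sigma_iff, coe_univ, Set.mem_univ, true_and, mem_coe,
          mem_filter, mem_univ] at hbx hbx' hxx
        obtain ⟨y, hy⟩ := Option.isSome_iff_exists.1 hbx
        obtain ⟨y', hy'⟩ := Option.isSome_iff_exists.1 hbx'
        rw [hr] at hy hy'
        rw [← hxx, hy, Option.some_inj] at hy'
        have n1 : x ≠ y := by
          rintro rfl; exact hfp.2.1 _ hy
        have n2 : x' ≠ y' := by
          rintro rfl
          exact n1 (he b (hxx.trans hy'.symm))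
        have e1 := h2 b x y n1
        have e2 := h2 b' x' y' n2
        rw [← hxx, ← hy', ← e1] at e2
        subst e2
        rw [he _ hxx]
    calc Fintype.card (∀ b, Ω b) = ∏ b, Fintype.card (Ω b) := Fintype.card_pi
      _ ≤ ∏ b, (2 ^ size (r b) * (univ.filter (fun ω => Cont (T b ω) (r b))).card) :=
        Finset.prod_le_prod' (fun b _ => hf b (r b) (hrp b))
      _ = 2 ^ (∑ b, size (r b)) * (univ.filter (fun ω => Cont (TT ω) f)).card := by
        rw [Finset.prod_mul_distrib, Finset.prod_pow_eq_pow_sum, hcard]
      _ ≤ 2 ^ size f * (univ.filter (fun ω => Cont (TT ω) f)).card :=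
        Nat.mul_le_mul_right _ (Nat.pow_le_pow_right (by norm_num) hsize)

end H14.Ham
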