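import Mathlib

set_option autoImplicit false

namespace H14.LP

open MeasureTheory Set Real intervalIntegral

noncomputable def ff (k : ℕ) (t : ℝ) : ℝ := (√t)⁻¹ * exp (-(k * t))
noncomputable def gg (k : ℕ) (t : ℝ) : ℝ := (√(exp t - 1))⁻¹ * exp (-(k * t))

theorem int_ff (k : ℕ) (hk : 0 < k) : ∫ t in Ioi (0 : ℝ), ff k t = √π * (√(k : ℝ))⁻¹ := by
  have h := Real.integral_rpow_mul_exp_neg_mul_Ioi (a := 1 / 2) (r := k) (by norm_num)
    (by exact_mod_cast hk)
  have h1 : ∫ t in Ioi (0 : ℝ), ff k t = ∫ t in Ioi (0 : ℝ), t ^ ((1 / 2 : ℝ) - 1) * exp (-(k * t)) := by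
    apply setIntegral_congr_fun measurableSet_Ioi
    intro t ht
    have ht' : (0 : ℝ) < t := ht
    simp only [ff]
    congr 1
    rw [Real.sqrt_eq_rpow, ← Real.rpow_neg ht'.le]
    norm_num
  rw [h1, h, Real.Gamma_one_half_eq, ← Real.sqrt_eq_rpow, Real.sqrt_div zero_le_one, Real.sqrt_one]
  ring

theorem image_logsin : (fun θ : ℝ => -2 * log (sin θ)) '' Ioo 0 (π / 2) = Ioi 0 := by
  ext x
  simp only [mem_image, mem_Ioi, mem_Ioo]
  constructor
  · rintro ⟨θ, ⟨h1, h2⟩, rfl⟩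
    have hs : 0 < sin θ := sin_pos_of_pos_of_lt_pi h1 (by linarith [pi_pos])
    have hs1 : sin θ < 1 := by
      rw [← sin_pi_div_two]
      exact sin_lt_sin_of_lt_of_le_pi_div_two (by linarith [pi_pos]) le_rfl h2
    have := log_neg hs hs1
    linarith
  · intro hx
    have h1 : 0 < exp (-x / 2) := exp_pos _
    have h2 : exp (-x / 2) < 1 := by
      rw [exp_lt_one_iff]; linarith
    refine ⟨arcsin (exp (-x / 2)), ⟨arcsin_pos.2 h1, ?_⟩, ?_⟩
    · rw [arcsin_lt_pi_div_two]; exact h2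
    · rw [sin_arcsin (by linarith) h2.le, log_exp]
      ring

theorem int_gg (k : ℕ) : ∫ t in Ioi (0 : ℝ), gg k t = ∫ x in (0 : ℝ)..π, sin x ^ (2 * k) := by
  have hpos : ∀ θ ∈ Ioo (0 : ℝ) (π / 2), 0 < sin θ := fun θ h =>
    sin_pos_of_pos_of_lt_pi h.1 (by linarith [pi_pos, h.2])
  have hcos : ∀ θ ∈ Ioo (0 : ℝ) (π / 2), 0 < cos θ := fun θ h =>
    cos_pos_of_mem_Ioo ⟨by linarith [pi_pos, h.1], h.2⟩
  have hd : ∀ θ ∈ Ioo (0 : ℝ) (π / 2), HasDerivWithinAt (fun θ : ℝ => -2 * log (sin θ))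
      (-2 * (cos θ / sin θ)) (Ioo 0 (π / 2)) θ := by
    intro θ hθ
    exact (((hasDerivAt_sin θ).log (hpos θ hθ).ne').const_mul (-2)).hasDerivWithinAt
  have hinj : InjOn (fun θ : ℝ => -2 * log (sin θ)) (Ioo 0 (π / 2)) := by
    intro x hx y hy hxy
    have h1 : log (sin x) = log (sin y) := by
      have : -2 * log (sin x) = -2 * log (sin y) := hxy
      linarith
    have h2 : sin x = sin y := log_injOn_pos (hpos x hx) (hpos y hy) h1
    exact injOn_sin ⟨by linarith [hx.1, pi_pos], hx.2.le⟩ ⟨by linarith [hy.1, pi_pos], hy.2.le⟩ h2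
  have h := integral_image_eq_integral_abs_deriv_smul measurableSet_Ioo hd hinj (gg k)
  rw [image_logsin] at h
  rw [h]
  have h2 : ∫ θ in Ioo (0 : ℝ) (π / 2), |(-2 * (cos θ / sin θ))| • gg k (-2 * log (sin θ)) =
      ∫ θ in Ioo (0 : ℝ) (π / 2), 2 * sin θ ^ (2 * k) := by
    apply setIntegral_congr_fun measurableSet_Ioo
    intro θ hθ
    have hs := hpos θ hθ
    have hc := hcos θ hθ
    have e1 : exp (-2 * log (sin θ)) = (sin θ ^ 2)⁻¹ := by
      rw [show -2 * log (sin θ) = -(2 * log (sin θ)) by ring, exp_neg, ← log_rpow hs,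
        exp_log (by positivity)]
      norm_num
    have e2 : exp (-(k * (-2 * log (sin θ)))) = sin θ ^ (2 * k) := by
      rw [show -((k : ℝ) * (-2 * log (sin θ))) = ((2 * k : ℕ) : ℝ) * log (sin θ) by push_cast; ring,
        ← log_pow, exp_log (by positivity)]
    have e3 : √((sin θ ^ 2)⁻¹ - 1) = cos θ / sin θ := by
      have : (sin θ ^ 2)⁻¹ - 1 = (cos θ / sin θ) ^ 2 := by
        rw [div_pow, cos_sq']
        field_simp
      rw [this, Real.sqrt_sq (by positivity)]
    simp only [gg, e1, e2, e3, smul_eq_mul]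
    rw [abs_mul, abs_of_pos (show 0 < cos θ / sin θ by positivity)]
    norm_num
    field_simp
  rw [h2, ← integral_Ioc_eq_integral_Ioo, ← intervalIntegral.integral_of_le (by positivity),
    intervalIntegral.integral_const_mul]
  have hc : ∀ a b : ℝ, IntervalIntegrable (fun x => sin x ^ (2 * k)) volume a b := fun a b =>
    (by fun_prop : Continuous fun x => sin x ^ (2 * k)).intervalIntegrable a b
  rw [← intervalIntegral.integral_add_adjacent_intervals (hc 0 (π / 2)) (hc (π / 2) π)]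
  have h3 : ∫ x in (π / 2)..π, sin x ^ (2 * k) = ∫ x in (0 : ℝ)..(π / 2), sin x ^ (2 * k) := by
    have := intervalIntegral.integral_comp_sub_left (a := 0) (b := π / 2) (fun x => sin x ^ (2 * k)) π
    simp only [sin_pi_sub, sub_zero] at this
    rw [this]
    congr 1
    ring
  rw [h3]
  ring

/-- `w_k = binom(2k,k)/4^k` -/
noncomputable def ww (k : ℕ) : ℝ := ∏ i ∈ Finset.range k, (2 * (i : ℝ) + 1) / (2 * i + 2)

theorem ww_pos (k : ℕ) : 0 < ww k := by
  unfold ww
  apply Finset.prod_pos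
  intro i _
  positivity

theorem ww_eq (k : ℕ) : ww k * (4 ^ k * (k.factorial : ℝ) ^ 2) = ((2 * k).factorial : ℝ) := by
  induction k with
  | zero => simp [ww]
  | succ k ih =>
    unfold ww at ih ⊢
    rw [Finset.prod_range_succ, show 2 * (k + 1) = 2 * k + 1 + 1 by ring,
      Nat.factorial_succ (2 * k + 1), Nat.factorial_succ (2 * k), Nat.factorial_succ k]
    push_cast
    rw [← ih]
    field_simp
    ring

theorem int_gg' (k : ℕ) : ∫ t in Ioi (0 : ℝ), gg k t = π * ww k := by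
  rw [int_gg, integral_sin_pow_even]; rfl

/-- the convolution -/
noncomputable def gs (s : ℝ) : ℝ := ∫ t in (0 : ℝ)..s, (√t)⁻¹ * (√(exp (s - t) - 1))⁻¹

theorem int_conv (k : ℕ) (hk : 0 < k) :
    ∫ s in Ioi (0 : ℝ), exp (-(k * s)) * gs s = √π * (√(k : ℝ))⁻¹ * (π * ww k) := by
  have hk' : (0 : ℝ) < k := by exact_mod_cast hk
  have i1 : IntegrableOn (ff k) (Ioi 0) := by
    apply Integrable.of_integral_ne_zero
    rw [int_ff k hk]
    have : 0 < √(k : ℝ) := Real.sqrt_pos.2 hk'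
    have : 0 < √π := Real.sqrt_pos.2 pi_pos
    positivity
  have i2 : IntegrableOn (gg k) (Ioi 0) := by
    apply Integrable.of_integral_ne_zero
    rw [int_gg' k]
    have := ww_pos k
    positivity
  have h := integral_posConvolution i1 i2 (ContinuousLinearMap.mul ℝ ℝ)
  simp only [ContinuousLinearMap.mul_apply'] at h
  rw [int_ff k hk, int_gg' k] at h
  rw [← h]
  congr 1
  funext s
  unfold gs
  rw [← intervalIntegral.integral_const_mul]
  congr 1
  funext t
  simp only [ff, gg]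
  rw [show -((k : ℝ) * s) = -(k * t) + -(k * (s - t)) by ring, exp_add]
  ring

/-! ### monotonicity of the convolution -/

theorem exp_convex (x y : ℝ) (hx : 0 < x) (hxy : x ≤ y) : y * (exp x - 1) ≤ x * (exp y - 1) := by
  have hy : 0 < y := hx.trans_le hxy
  have h := convexOn_exp.2 (mem_univ (0 : ℝ)) (mem_univ y)
    (show 0 ≤ 1 - x / y by rw [sub_nonneg, div_le_one hy]; exact hxy)
    (show 0 ≤ x / y by positivity) (by ring)
  simp only [smul_eq_mul, mul_zero, zero_add, exp_zero, mul_one] at h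
  rw [div_mul_cancel₀ _ hy.ne'] at h
  have h2 : y * exp x ≤ y * (1 - x / y + x / y * exp y) := mul_le_mul_of_nonneg_left h hy.le
  have h3 : y * (1 - x / y + x / y * exp y) = y - x + x * exp y := by
    field_simp
  rw [h3] at h2
  linarith

noncomputable def KK (s u : ℝ) : ℝ := (√u)⁻¹ * (√s * (√(exp (s * (1 - u)) - 1))⁻¹)

theorem gs_eq (s : ℝ) (hs : 0 < s) : gs s = ∫ u in (0 : ℝ)..1, KK s u := by
  unfold gs
  have h := intervalIntegral.integral_comp_mul_left (a := 0) (b := 1)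
    (fun t => (√t)⁻¹ * (√(exp (s - t) - 1))⁻¹) hs.ne'
  rw [mul_zero, mul_one] at h
  have h2 : ∫ t in (0 : ℝ)..s, (√t)⁻¹ * (√(exp (s - t) - 1))⁻¹ =
      s * ∫ u in (0 : ℝ)..1, (√(s * u))⁻¹ * (√(exp (s - s * u) - 1))⁻¹ := by
    rw [h, smul_eq_mul, ← mul_assoc, mul_inv_cancel₀ hs.ne', one_mul]
  rw [h2, ← intervalIntegral.integral_const_mul]
  congr 1
  funext u
  unfold KK
  have h3 : √s * √s = s := Real.mul_self_sqrt hs.le
  have h4 : √s ≠ 0 := (Real.sqrt_pos.2 hs).ne'
  rw [Real.sqrt_mul hs.le, mul_inv, show s - s * u = s * (1 - u) by ring]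
  calc s * ((√s)⁻¹ * (√u)⁻¹ * (√(exp (s * (1 - u)) - 1))⁻¹)
      = (√s * √s) * ((√s)⁻¹ * (√u)⁻¹ * (√(exp (s * (1 - u)) - 1))⁻¹) := by rw [h3]
    _ = _ := by field_simp

theorem KK_nonneg (s u : ℝ) : 0 ≤ KK s u := by
  unfold KK; positivity

theorem KK_anti (s t u : ℝ) (hs : 0 < s) (hst : s ≤ t) (hu : u < 1) : KK t u ≤ KK s u := by
  unfold KK
  apply mul_le_mul_of_nonneg_left _ (by positivity)
  have hc : 0 < 1 - u := by linarith
  have ht : 0 < t := hs.trans_le hst
  have e1 : 0 < exp (s * (1 - u)) - 1 := by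
    rw [sub_pos, one_lt_exp_iff]; positivity
  have e2 : 0 < exp (t * (1 - u)) - 1 := by
    rw [sub_pos, one_lt_exp_iff]; positivity
  rw [← div_eq_mul_inv, ← div_eq_mul_inv, ← Real.sqrt_div ht.le, ← Real.sqrt_div hs.le]
  apply Real.sqrt_le_sqrt
  rw [div_le_div_iff₀ e2 e1]
  have h := exp_convex (s * (1 - u)) (t * (1 - u)) (by positivity)
    (mul_le_mul_of_nonneg_right hst hc.le)
  have h2 : (1 - u) * (t * (exp (s * (1 - u)) - 1)) ≤ (1 - u) * (s * (exp (t * (1 - u)) - 1)) := by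
    linarith
  exact le_of_mul_le_mul_left h2 hc

theorem KK_le (s u : ℝ) (hs : 0 < s) (hu0 : 0 < u) (hu : u < 1) :
    KK s u ≤ (√u)⁻¹ + (√(1 - u))⁻¹ := by
  have hc : 0 < 1 - u := by linarith
  have e1 : s * (1 - u) ≤ exp (s * (1 - u)) - 1 := by
    have := add_one_le_exp (s * (1 - u)); linarith
  have hsc : 0 < s * (1 - u) := by positivity
  have h1 : √s * (√(exp (s * (1 - u)) - 1))⁻¹ ≤ (√(1 - u))⁻¹ := by
    rw [← div_eq_mul_inv, div_le_iff₀ (Real.sqrt_pos.2 (by linarith)), inv_mul_eq_div,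
      le_div_iff₀ (Real.sqrt_pos.2 hc), ← Real.sqrt_mul hs.le]
    exact Real.sqrt_le_sqrt e1
  have h2 : KK s u ≤ (√u)⁻¹ * (√(1 - u))⁻¹ := by
    unfold KK
    exact mul_le_mul_of_nonneg_left h1 (by positivity)
  refine h2.trans ?_
  have a1 : 0 < √u := Real.sqrt_pos.2 hu0
  have b1 : 0 < √(1 - u) := Real.sqrt_pos.2 hc
  have a2 : √u ≤ 1 := Real.sqrt_le_one.2 hu.le
  have b2 : √(1 - u) ≤ 1 := Real.sqrt_le_one.2 (by linarith)
  have ab : √u * √u + √(1 - u) * √(1 - u) = 1 := by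
    rw [Real.mul_self_sqrt hu0.le, Real.mul_self_sqrt hc.le]; ring
  rw [← mul_inv, inv_le_iff_one_le_mul₀ (by positivity)]
  have h3 : ((√u)⁻¹ + (√(1 - u))⁻¹) * (√u * √(1 - u)) = √(1 - u) + √u := by
    field_simp
  rw [h3]
  nlinarith

theorem int_bound : IntervalIntegrable (fun u : ℝ => (√u)⁻¹ + (√(1 - u))⁻¹) volume 0 1 := by
  have h1 : IntervalIntegrable (fun u : ℝ => (√u)⁻¹) volume 0 1 := by
    have h := intervalIntegral.intervalIntegrable_rpow' (a := 0) (b := 1) (r := -(1 / 2)) (by norm_num)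
    refine h.congr ?_
    rw [uIoc_of_le zero_le_one]
    intro x hx
    simp only
    rw [Real.sqrt_eq_rpow, ← Real.rpow_neg hx.1.le]
  have h2 : IntervalIntegrable (fun u : ℝ => (√(1 - u))⁻¹) volume 0 1 := by
    have := (h1.comp_sub_left 1).symm
    simpa using this
  exact h1.add h2

theorem KK_int (s : ℝ) (hs : 0 < s) : IntervalIntegrable (KK s) volume 0 1 := by
  rw [intervalIntegrable_iff_integrableOn_Ioo_of_le zero_le_one]
  have hb := int_bound
  rw [intervalIntegrable_iff_integrableOn_Ioo_of_le zero_le_one] at hb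
  refine Integrable.mono' hb ?_ ?_
  · apply Measurable.aestronglyMeasurable
    unfold KK
    fun_prop
  · rw [ae_restrict_iff' measurableSet_Ioo]
    apply ae_of_all
    intro u hu
    rw [Real.norm_of_nonneg (KK_nonneg s u)]
    exact KK_le s u hs hu.1 hu.2

noncomputable def BB : ℝ := ∫ u in (0 : ℝ)..1, ((√u)⁻¹ + (√(1 - u))⁻¹)

theorem gs_anti (s t : ℝ) (hs : 0 < s) (hst : s ≤ t) : gs t ≤ gs s := by
  rw [gs_eq s hs, gs_eq t (hs.trans_le hst)]
  apply intervalIntegral.integral_mono_on_of_le_Ioo zero_le_one (KK_int t (hs.trans_le hst)) (KK_int s hs)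
  intro u hu
  exact KK_anti s t u hs hst hu.2

theorem gs_nonneg (s : ℝ) (hs : 0 < s) : 0 ≤ gs s := by
  rw [gs_eq s hs]
  apply intervalIntegral.integral_nonneg zero_le_one
  intro u _
  exact KK_nonneg s u

theorem gs_le (s : ℝ) (hs : 0 < s) : gs s ≤ BB := by
  rw [gs_eq s hs]
  apply intervalIntegral.integral_mono_on_of_le_Ioo zero_le_one (KK_int s hs) int_bound
  intro u hu
  exact KK_le s u hs hu.1 hu.2

theorem BB_nonneg : 0 ≤ BB := (gs_nonneg 1 one_pos).trans (gs_le 1 one_pos)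

/-- the increasing weight -/
noncomputable def FF (t : ℝ) : ℝ := if t ≤ 0 then 0 else if t < 1 then gs (-2 * log t) else BB + 1

theorem FF_mono : Monotone FF := by
  intro x y hxy
  have hlog : ∀ t : ℝ, 0 < t → t < 1 → 0 < -2 * log t := by
    intro t h0 h1
    have := log_neg h0 h1
    linarith
  unfold FF
  by_cases hx : x ≤ 0
  · rw [if_pos hx]
    split_ifs with h1 h2
    · exact le_rfl
    · exact gs_nonneg _ (hlog y (not_le.1 h1) h2)
    · have := BB_nonneg; linarith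
  · push Not at hx
    have hy : 0 < y := hx.trans_le hxy
    rw [if_neg (not_le.2 hx), if_neg (not_le.2 hy)]
    by_cases hx1 : x < 1
    · rw [if_pos hx1]
      split_ifs with h2
      · apply gs_anti _ _ (hlog y hy h2)
        have := log_le_log hx hxy
        linarith
      · have := gs_le _ (hlog x hx hx1)
        linarith
    · rw [if_neg hx1, if_neg (by linarith)]

theorem FF_nonneg (t : ℝ) : 0 ≤ FF t := by
  have h := FF_mono (min_le_left t 0)
  have : FF (min t 0) = 0 := by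
    unfold FF
    rw [if_pos (min_le_right t 0)]
  rw [this] at h
  exact h

theorem FF_le (t : ℝ) : FF t ≤ BB + 1 := by
  have h := FF_mono (le_max_left t 1)
  have h2 : FF (max t 1) = BB + 1 := by
    unfold FF
    rw [if_neg (by push Not; exact lt_of_lt_of_le one_pos (le_max_right t 1)),
      if_neg (by push Not; exact le_max_right t 1)]
  rw [h2] at h
  exact h

theorem image_exp : (fun s : ℝ => exp (-s / 2)) '' Ioi 0 = Ioo 0 1 := by
  ext x
  simp only [mem_image, mem_Ioi, mem_Ioo]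
  constructor
  · rintro ⟨s, hs, rfl⟩
    exact ⟨exp_pos _, by rw [exp_lt_one_iff]; linarith⟩
  · rintro ⟨h0, h1⟩
    refine ⟨-2 * log x, ?_, ?_⟩
    · have := log_neg h0 h1; linarith
    · rw [show -(-2 * log x) / 2 = log x by ring, exp_log h0]

theorem moment (k : ℕ) (hk : 0 < k) : ∫ t in (0 : ℝ)..1, FF t * t ^ (2 * k - 1) =
    √π * (√(k : ℝ))⁻¹ * (π * ww k) / 2 := by
  rw [intervalIntegral.integral_of_le zero_le_one, integral_Ioc_eq_integral_Ioo, ← image_exp]
  have hd : ∀ s ∈ Ioi (0 : ℝ), HasDerivWithinAt (fun s : ℝ => exp (-s / 2))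
      (exp (-s / 2) * (-1 / 2)) (Ioi 0) s := by
    intro s _
    have h1 : HasDerivAt (fun s : ℝ => -s / 2) (-1 / 2) s := by
      simpa using ((hasDerivAt_id s).neg.div_const 2)
    exact h1.exp.hasDerivWithinAt
  have hinj : InjOn (fun s : ℝ => exp (-s / 2)) (Ioi 0) := by
    intro x _ y _ hxy
    have := exp_injective hxy
    linarith
  rw [integral_image_eq_integral_abs_deriv_smul measurableSet_Ioi hd hinj]
  rw [← int_conv k hk]
  have e : (∫ s in Ioi (0 : ℝ), exp (-(k * s)) * gs s) / 2 =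
      ∫ s in Ioi (0 : ℝ), 2⁻¹ * (exp (-(k * s)) * gs s) := by
    rw [MeasureTheory.integral_const_mul]; ring
  rw [e]
  apply setIntegral_congr_fun measurableSet_Ioi
  intro s hs
  have hs' : (0 : ℝ) < s := hs
  have h1 : exp (-s / 2) < 1 := by rw [exp_lt_one_iff]; linarith
  have h2 : FF (exp (-s / 2)) = gs s := by
    unfold FF
    rw [if_neg (not_le.2 (exp_pos _)), if_pos h1, log_exp]
    congr 1
    ring
  simp only [h2, smul_eq_mul]
  rw [abs_mul, abs_of_pos (exp_pos _)]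
  have h3 : exp (-(k * s)) = exp (-s / 2) * exp (-s / 2) ^ (2 * k - 1) := by
    rw [← pow_succ', show 2 * k - 1 + 1 = 2 * k by omega, ← exp_nat_mul]
    congr 1
    push_cast
    ring
  rw [h3]
  norm_num
  ring

end H14.LP
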