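import Pool.Agent.H14.LPRoot
import Pool.Agent.H14.LPMoment

set_option autoImplicit false

namespace H14.LP

open MeasureTheory Set intervalIntegral

/-! ### elementary estimates -/

theorem pow_sub_pow_le (a b : ℂ) (R : ℝ) (hR : 1 ≤ R) (ha : ‖a‖ ≤ R) (hb : ‖b‖ ≤ R) (n : ℕ) :
    ‖a ^ n - b ^ n‖ ≤ n * R ^ n * ‖a - b‖ := by
  induction n with
  | zero => simp
  | succ n ih =>
    have h1 : a ^ (n + 1) - b ^ (n + 1) = a * (a ^ n - b ^ n) + (a - b) * b ^ n := by ring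
    rw [h1]
    refine (norm_add_le _ _).trans ?_
    rw [norm_mul, norm_mul, norm_pow]
    have h2 : ‖a‖ * ‖a ^ n - b ^ n‖ ≤ R * (n * R ^ n * ‖a - b‖) :=
      mul_le_mul ha ih (norm_nonneg _) (by linarith)
    have h3 : ‖a - b‖ * ‖b‖ ^ n ≤ ‖a - b‖ * R ^ (n + 1) := by
      apply mul_le_mul_of_nonneg_left _ (norm_nonneg _)
      calc ‖b‖ ^ n ≤ R ^ n := pow_le_pow_left₀ (norm_nonneg _) hb n
        _ ≤ R ^ (n + 1) := pow_le_pow_right₀ hR (Nat.le_succ n)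
    push_cast
    have h4 : R * (n * R ^ n * ‖a - b‖) = n * R ^ (n + 1) * ‖a - b‖ := by ring
    rw [h4] at h2
    nlinarith

theorem one_add_pow (s : ℂ) (hs : ‖s‖ ≤ 1) (n : ℕ) :
    ‖(1 + s) ^ n - Complex.exp (n * s)‖ ≤ n * Real.exp (n * ‖s‖) * ‖s‖ ^ 2 := by
  rw [Complex.exp_nat_mul]
  have h1 : ‖1 + s‖ ≤ Real.exp ‖s‖ := by
    refine (norm_add_le _ _).trans ?_
    rw [norm_one]
    linarith [Real.add_one_le_exp ‖s‖]
  have h2 : ‖Complex.exp s‖ ≤ Real.exp ‖s‖ := Complex.norm_exp_le_exp_norm s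
  have h3 := pow_sub_pow_le (1 + s) (Complex.exp s) (Real.exp ‖s‖)
    (Real.one_le_exp (norm_nonneg s)) h1 h2 n
  rw [← Real.exp_nat_mul] at h3
  refine h3.trans ?_
  apply mul_le_mul_of_nonneg_left _ (by positivity)
  have h4 := Complex.norm_exp_sub_one_sub_id_le hs
  rw [← norm_neg]
  calc ‖-(1 + s - Complex.exp s)‖ = ‖Complex.exp s - 1 - s‖ := by congr 1; ring
    _ ≤ _ := h4

theorem exp_sub_le (a b : ℂ) (h : ‖a - b‖ ≤ 1) :
    ‖Complex.exp a - Complex.exp b‖ ≤ Real.exp ‖b‖ * (2 * ‖a - b‖) := by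
  have h1 : Complex.exp a - Complex.exp b = Complex.exp b * (Complex.exp (a - b) - 1) := by
    rw [mul_sub, ← Complex.exp_add]; ring_nf
  rw [h1, norm_mul]
  exact mul_le_mul (Complex.norm_exp_le_exp_norm b) (Complex.norm_exp_sub_one_le h) (norm_nonneg _)
    (Real.exp_pos _).le

/-- the basic term -/
noncomputable def EE (M k : ℕ) (s : ℂ) : ℂ := (1 + s) ^ (M + (k + 1)) * (1 - s) ^ (M - (k + 1))

noncomputable def CR (ρ : ℝ) : ℝ :=
  4 * ρ ^ 2 * Real.exp (2 * ρ) * Real.exp (2 * ρ) + Real.exp (2 * ρ) * (4 * ρ)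

theorem EE_le (ρ : ℝ) (hρ : 1 ≤ ρ) (M k : ℕ) (hM : 2 * ρ ≤ M) (hk : k < M) (σ : ℂ) (hσ : ‖σ‖ ≤ ρ)
    (t : ℝ) (ht0 : (k : ℝ) / M ≤ t) (ht1 : t ≤ ((k : ℝ) + 1) / M) :
    ‖EE M k (σ / M) - Complex.exp (2 * t * σ)‖ ≤ CR ρ / M := by
  have hMpos : (0 : ℝ) < M := by linarith
  have hM0 : (M : ℝ) ≠ 0 := hMpos.ne'
  have hMC : (M : ℂ) ≠ 0 := by exact_mod_cast hM0
  have hs : ‖σ / (M : ℂ)‖ ≤ ρ / M := by
    rw [norm_div, Complex.norm_natCast]
    exact div_le_div_of_nonneg_right hσ hMpos.le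
  have hs1 : ‖σ / (M : ℂ)‖ ≤ 1 := by
    refine hs.trans ?_
    rw [div_le_one hMpos]; linarith
  have hsn : ∀ n : ℕ, n ≤ 2 * M → n * ‖σ / (M : ℂ)‖ ≤ 2 * ρ := by
    intro n hn
    have hn' : (n : ℝ) ≤ 2 * M := by exact_mod_cast hn
    calc (n : ℝ) * ‖σ / (M : ℂ)‖ ≤ (2 * M) * (ρ / M) :=
          mul_le_mul hn' hs (norm_nonneg _) (by positivity)
      _ = 2 * ρ := by field_simp
  have key : ∀ (n : ℕ) (s : ℂ), n ≤ 2 * M → ‖s‖ = ‖σ / (M : ℂ)‖ →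
      ‖(1 + s) ^ n - Complex.exp (n * s)‖ ≤ 2 * ρ ^ 2 * Real.exp (2 * ρ) / M := by
    intro n s hn hsn'
    refine (one_add_pow s (by rw [hsn']; exact hs1) n).trans ?_
    rw [hsn']
    have h1 : Real.exp (n * ‖σ / (M : ℂ)‖) ≤ Real.exp (2 * ρ) := Real.exp_le_exp.2 (hsn n hn)
    calc (n : ℝ) * Real.exp (n * ‖σ / (M : ℂ)‖) * ‖σ / (M : ℂ)‖ ^ 2
        = (n * ‖σ / (M : ℂ)‖) * Real.exp (n * ‖σ / (M : ℂ)‖) * ‖σ / (M : ℂ)‖ := by ring
      _ ≤ (2 * ρ) * Real.exp (2 * ρ) * (ρ / M) := by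
        apply mul_le_mul _ hs (norm_nonneg _) (by positivity)
        exact mul_le_mul (hsn n hn) h1 (Real.exp_pos _).le (by positivity)
      _ = 2 * ρ ^ 2 * Real.exp (2 * ρ) / M := by field_simp
  have kA := key (M + (k + 1)) (σ / M) (by omega) rfl
  have kB := key (M - (k + 1)) (-(σ / M)) (by omega) (norm_neg _)
  rw [← sub_eq_add_neg] at kB
  have nB : ‖(1 - σ / (M : ℂ)) ^ (M - (k + 1))‖ ≤ Real.exp (2 * ρ) := by
    rw [norm_pow]
    have h1 : ‖1 - σ / (M : ℂ)‖ ≤ Real.exp ‖σ / (M : ℂ)‖ := by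
      refine (norm_sub_le _ _).trans ?_
      rw [norm_one]
      linarith [Real.add_one_le_exp ‖σ / (M : ℂ)‖]
    refine (pow_le_pow_left₀ (norm_nonneg _) h1 _).trans ?_
    rw [← Real.exp_nat_mul]
    exact Real.exp_le_exp.2 (hsn _ (by omega))
  have nA : ‖Complex.exp (((M + (k + 1) : ℕ) : ℂ) * (σ / M))‖ ≤ Real.exp (2 * ρ) := by
    refine (Complex.norm_exp_le_exp_norm _).trans ?_
    rw [norm_mul, Complex.norm_natCast]
    exact Real.exp_le_exp.2 (hsn _ (by omega))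
  have e1 : Complex.exp (((M + (k + 1) : ℕ) : ℂ) * (σ / M)) *
      Complex.exp (((M - (k + 1) : ℕ) : ℂ) * (-(σ / M))) =
      Complex.exp (2 * (((k : ℝ) + 1) / M : ℝ) * σ) := by
    rw [← Complex.exp_add]
    congr 1
    rw [Nat.cast_sub (by omega)]
    push_cast
    field_simp
    ring
  have step1 : ‖EE M k (σ / M) - Complex.exp (2 * (((k : ℝ) + 1) / M : ℝ) * σ)‖ ≤
      4 * ρ ^ 2 * Real.exp (2 * ρ) * Real.exp (2 * ρ) / M := by
    rw [← e1]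
    unfold EE
    have h1 : (1 + σ / (M : ℂ)) ^ (M + (k + 1)) * (1 - σ / (M : ℂ)) ^ (M - (k + 1)) -
        Complex.exp (((M + (k + 1) : ℕ) : ℂ) * (σ / M)) *
          Complex.exp (((M - (k + 1) : ℕ) : ℂ) * (-(σ / M))) =
        ((1 + σ / (M : ℂ)) ^ (M + (k + 1)) - Complex.exp (((M + (k + 1) : ℕ) : ℂ) * (σ / M))) *
          (1 - σ / (M : ℂ)) ^ (M - (k + 1)) +
        Complex.exp (((M + (k + 1) : ℕ) : ℂ) * (σ / M)) *
          ((1 - σ / (M : ℂ)) ^ (M - (k + 1)) - Complex.exp (((M - (k + 1) : ℕ) : ℂ) * (-(σ / M)))) := by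
      ring
    rw [h1]
    refine (norm_add_le _ _).trans ?_
    rw [norm_mul, norm_mul]
    have h2 := mul_le_mul kA nB (norm_nonneg _) (by positivity)
    have h3 := mul_le_mul nA kB (norm_nonneg _) (Real.exp_pos _).le
    refine (add_le_add h2 h3).trans (le_of_eq ?_)
    ring
  have step2 : ‖Complex.exp (2 * (((k : ℝ) + 1) / M : ℝ) * σ) - Complex.exp (2 * t * σ)‖ ≤
      Real.exp (2 * ρ) * (4 * ρ) / M := by
    have ht0' : 0 ≤ t := le_trans (by positivity) ht0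
    have ht1' : t ≤ 1 := by
      refine ht1.trans ?_
      rw [div_le_one hMpos]
      exact_mod_cast hk
    have h1 : ‖2 * ((((k : ℝ) + 1) / M : ℝ) : ℂ) * σ - 2 * t * σ‖ ≤ 2 * ρ / M := by
      have : 2 * ((((k : ℝ) + 1) / M : ℝ) : ℂ) * σ - 2 * t * σ =
          ((2 * (((k : ℝ) + 1) / M - t) : ℝ) : ℂ) * σ := by push_cast; ring
      rw [this, norm_mul, Complex.norm_real, Real.norm_of_nonneg (by linarith)]
      have h2 : ((k : ℝ) + 1) / M - t ≤ 1 / M := by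
        have : ((k : ℝ) + 1) / M = k / M + 1 / M := by ring
        linarith
      calc 2 * (((k : ℝ) + 1) / M - t) * ‖σ‖ ≤ 2 * (1 / M) * ρ := by
            apply mul_le_mul _ hσ (norm_nonneg _) (by positivity)
            linarith
        _ = 2 * ρ / M := by ring
    have h2 : 2 * ρ / M ≤ 1 := by rw [div_le_one hMpos]; exact hM
    have h3 := exp_sub_le _ _ (h1.trans h2)
    refine h3.trans ?_
    have h4 : ‖(2 : ℂ) * t * σ‖ ≤ 2 * ρ := by
      rw [norm_mul, norm_mul, Complex.norm_real, Real.norm_of_nonneg ht0']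
      simp only [Complex.norm_ofNat]
      nlinarith [norm_nonneg σ]
    calc Real.exp ‖(2 : ℂ) * t * σ‖ * (2 * ‖2 * ((((k : ℝ) + 1) / M : ℝ) : ℂ) * σ - 2 * t * σ‖)
        ≤ Real.exp (2 * ρ) * (2 * (2 * ρ / M)) := by
          apply mul_le_mul (Real.exp_le_exp.2 h4) _ (by positivity) (Real.exp_pos _).le
          linarith
      _ = Real.exp (2 * ρ) * (4 * ρ) / M := by ring
  calc ‖EE M k (σ / M) - Complex.exp (2 * t * σ)‖
      = ‖(EE M k (σ / M) - Complex.exp (2 * (((k : ℝ) + 1) / M : ℝ) * σ)) +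
        (Complex.exp (2 * (((k : ℝ) + 1) / M : ℝ) * σ) - Complex.exp (2 * t * σ))‖ := by
          congr 1; ring
    _ ≤ _ := norm_add_le _ _
    _ ≤ 4 * ρ ^ 2 * Real.exp (2 * ρ) * Real.exp (2 * ρ) / M + Real.exp (2 * ρ) * (4 * ρ) / M :=
        add_le_add step1 step2
    _ = CR ρ / M := by unfold CR; ring

end H14.LP
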