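import Pool.Agent.H14.LPConv

set_option autoImplicit false

namespace H14.LP

open MeasureTheory Set intervalIntegral

noncomputable def cc : ℝ := (√Real.pi)⁻¹ * Real.pi⁻¹

theorem cc_pos : 0 < cc := by
  unfold cc
  have := Real.pi_pos
  have : 0 < √Real.pi := Real.sqrt_pos.2 Real.pi_pos
  positivity

noncomputable def wt (t : ℝ) : ℝ := cc * FF t

noncomputable def CB : ℝ := cc * (BB + 1)

theorem wt_mono : Monotone wt := fun _ _ h => mul_le_mul_of_nonneg_left (FF_mono h) cc_pos.le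
theorem wt_nonneg (t : ℝ) : 0 ≤ wt t := mul_nonneg cc_pos.le (FF_nonneg t)
theorem wt_le (t : ℝ) : wt t ≤ CB := mul_le_mul_of_nonneg_left (FF_le t) cc_pos.le
theorem CB_nonneg : 0 ≤ CB := (wt_nonneg 0).trans (wt_le 0)
theorem wt_int (a b : ℝ) : IntervalIntegrable wt volume a b := wt_mono.intervalIntegrable

theorem wtc_int (a b : ℝ) : IntervalIntegrable (fun t => (wt t : ℂ)) volume a b :=
  ⟨(wt_int a b).1.ofReal, (wt_int a b).2.ofReal⟩

theorem gs_pos (s : ℝ) (hs : 0 < s) : 0 < gs s := by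
  rw [gs_eq s hs]
  apply intervalIntegral.intervalIntegral_pos_of_pos_on (KK_int s hs) _ zero_lt_one
  intro u hu
  unfold KK
  have h1 : 0 < √u := Real.sqrt_pos.2 hu.1
  have h2 : 0 < √s := Real.sqrt_pos.2 hs
  have hc : 0 < 1 - u := by linarith [hu.2]
  have h3 : 0 < √(Real.exp (s * (1 - u)) - 1) := by
    apply Real.sqrt_pos.2
    rw [sub_pos, Real.one_lt_exp_iff]; positivity
  positivity

theorem wt_pos (t : ℝ) (ht : 0 < t) : 0 < wt t := by
  apply mul_pos cc_pos
  unfold FF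
  rw [if_neg (not_le.2 ht)]
  split_ifs with h
  · apply gs_pos
    have := Real.log_neg ht h
    linarith
  · have := BB_nonneg; linarith

/-- the coefficients -/
noncomputable def aa (M k : ℕ) : ℝ := ∫ u in (0 : ℝ)..1, wt (((k : ℝ) + u) / M)

theorem aa_int (M k : ℕ) : IntervalIntegrable (fun u : ℝ => wt (((k : ℝ) + u) / M)) volume 0 1 := by
  apply Monotone.intervalIntegrable
  intro x y hxy
  apply wt_mono
  apply div_le_div_of_nonneg_right _ (Nat.cast_nonneg M)
  linarith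

theorem aa_mono (M : ℕ) : Monotone (aa M) := by
  intro j k hjk
  apply intervalIntegral.integral_mono zero_le_one (aa_int M j) (aa_int M k)
  intro u
  apply wt_mono
  apply div_le_div_of_nonneg_right _ (Nat.cast_nonneg M)
  have : (j : ℝ) ≤ k := by exact_mod_cast hjk
  linarith

theorem aa_nonneg (M k : ℕ) : 0 ≤ aa M k := by
  apply intervalIntegral.integral_nonneg zero_le_one
  intro u _
  exact wt_nonneg _

theorem aa_pos (M k : ℕ) (hM : 0 < M) : 0 < aa M k := by
  apply intervalIntegral.intervalIntegral_pos_of_pos_on (aa_int M k) _ zero_lt_one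
  intro u hu
  apply wt_pos
  have : (0 : ℝ) < M := by exact_mod_cast hM
  have h1 := hu.1
  positivity

theorem aa_eq (M k : ℕ) (hM : 0 < M) :
    aa M k / M = ∫ t in ((k : ℝ) / M)..(((k : ℝ) + 1) / M), wt t := by
  have hM' : (M : ℝ) ≠ 0 := by exact_mod_cast hM.ne'
  unfold aa
  have h := intervalIntegral.integral_comp_add_div (a := 0) (b := 1) wt hM' ((k : ℝ) / M)
  simp only [zero_div, add_zero, smul_eq_mul] at h
  have h2 : ∀ u : ℝ, (k : ℝ) / M + u / M = ((k : ℝ) + u) / M := fun u => by ring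
  simp only [h2] at h
  rw [h, mul_div_assoc, mul_comm, div_mul_cancel₀ _ hM']

/-- the limit function -/
noncomputable def LL (σ : ℂ) : ℂ :=
  σ * ∫ t in (0 : ℝ)..1, (wt t : ℂ) * (Complex.exp (2 * t * σ) - Complex.exp (-(2 * t * σ)))

theorem conv (ρ : ℝ) (hρ : 1 ≤ ρ) (m : ℕ) (hM : 2 * ρ ≤ ((m + 1 : ℕ) : ℝ)) (σ : ℂ) (hσ : ‖σ‖ ≤ ρ) :
    ‖(σ / ((m : ℂ) + 1)) * GG (aa (m + 1)) m (σ / ((m : ℂ) + 1)) - LL σ‖ ≤
      ρ * (CB * (2 * (CR ρ / ((m + 1 : ℕ) : ℝ)))) := by
  set M : ℕ := m + 1 with hMdef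
  have hMpos : (0 : ℝ) < M := by linarith
  have hM0 : (M : ℝ) ≠ 0 := hMpos.ne'
  have hMC : (M : ℂ) ≠ 0 := by exact_mod_cast hM0
  have hcast : (m : ℂ) + 1 = (M : ℂ) := by rw [hMdef]; push_cast; ring
  rw [hcast]
  have hG : GG (aa M) m (σ / M) = ∑ k ∈ Finset.range M, (aa M k : ℂ) *
      (EE M k (σ / M) - EE M k (-(σ / M))) := by
    unfold GG EE
    rw [hMdef]
    apply Finset.sum_congr rfl
    intro k _
    rw [sub_neg_eq_add, ← sub_eq_add_neg]
  have hint : ∀ a b : ℝ, IntervalIntegrable (fun t : ℝ => (wt t : ℂ) *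
      (Complex.exp (2 * t * σ) - Complex.exp (-(2 * t * σ)))) volume a b := by
    intro a b
    have h1 : IntervalIntegrable (fun t : ℝ => (wt t : ℂ)) volume a b := wtc_int a b
    apply h1.mul_continuousOn
    apply Continuous.continuousOn
    fun_prop
  have hL : LL σ = σ * ∑ k ∈ Finset.range M, ∫ t in ((k : ℝ) / M)..(((k : ℝ) + 1) / M), (wt t : ℂ) *
      (Complex.exp (2 * t * σ) - Complex.exp (-(2 * t * σ))) := by
    unfold LL
    congr 1
    have h := intervalIntegral.sum_integral_adjacent_intervals (a := fun k : ℕ => (k : ℝ) / M)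
      (n := M) (f := fun t : ℝ => (wt t : ℂ) *
      (Complex.exp (2 * t * σ) - Complex.exp (-(2 * t * σ)))) (μ := volume)
      (fun k _ => hint _ _)
    simp only [Nat.cast_zero, zero_div, div_self hM0, Nat.cast_add, Nat.cast_one] at h
    rw [h]
  have h1 : (σ / M) * GG (aa M) m (σ / M) = σ * ∑ k ∈ Finset.range M,
      ∫ t in ((k : ℝ) / M)..(((k : ℝ) + 1) / M), (wt t : ℂ) *
        (EE M k (σ / M) - EE M k (-(σ / M))) := by
    rw [hG, div_eq_mul_inv σ, mul_assoc]
    congr 1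
    rw [Finset.mul_sum]
    apply Finset.sum_congr rfl
    intro k _
    rw [intervalIntegral.integral_mul_const, intervalIntegral.integral_ofReal, ← aa_eq M k (by omega)]
    push_cast
    rw [← div_eq_mul_inv σ]
    ring
  rw [h1, hL, ← mul_sub, ← Finset.sum_sub_distrib, norm_mul]
  apply mul_le_mul hσ _ (norm_nonneg _) (by linarith)
  refine (norm_sum_le _ _).trans ?_
  have h2 : ∀ k ∈ Finset.range M, ‖(∫ t in ((k : ℝ) / M)..(((k : ℝ) + 1) / M), (wt t : ℂ) *
        (EE M k (σ / M) - EE M k (-(σ / M)))) - ∫ t in ((k : ℝ) / M)..(((k : ℝ) + 1) / M), (wt t : ℂ) *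
      (Complex.exp (2 * t * σ) - Complex.exp (-(2 * t * σ)))‖ ≤ CB * (2 * (CR ρ / M)) / M := by
    intro k hk
    rw [Finset.mem_range] at hk
    have hle : (k : ℝ) / M ≤ ((k : ℝ) + 1) / M := by
      apply div_le_div_of_nonneg_right _ hMpos.le
      linarith
    rw [← intervalIntegral.integral_sub _ (hint _ _)]
    · have h3 := intervalIntegral.norm_integral_le_of_norm_le_const (a := (k : ℝ) / M)
        (b := ((k : ℝ) + 1) / M) (C := CB * (2 * (CR ρ / M)))
        (f := fun t : ℝ => (wt t : ℂ) * (EE M k (σ / M) - EE M k (-(σ / M))) -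
          (wt t : ℂ) * (Complex.exp (2 * t * σ) - Complex.exp (-(2 * t * σ)))) ?_
      · refine h3.trans (le_of_eq ?_)
        rw [show ((k : ℝ) + 1) / M - k / M = 1 / M by ring, abs_of_pos (by positivity)]
        ring
      · intro t ht
        rw [uIoc_of_le hle] at ht
        rw [← mul_sub, norm_mul, Complex.norm_real, Real.norm_of_nonneg (wt_nonneg t)]
        apply mul_le_mul (wt_le t) _ (norm_nonneg _) CB_nonneg
        have k1 := EE_le ρ hρ M k hM hk σ hσ t ht.1.le ht.2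
        have k2 := EE_le ρ hρ M k hM hk (-σ) (by rw [norm_neg]; exact hσ) t ht.1.le ht.2
        rw [neg_div, mul_neg] at k2
        calc ‖EE M k (σ / M) - EE M k (-(σ / M)) - (Complex.exp (2 * t * σ) - Complex.exp (-(2 * t * σ)))‖
            = ‖(EE M k (σ / M) - Complex.exp (2 * t * σ)) -
              (EE M k (-(σ / M)) - Complex.exp (-(2 * t * σ)))‖ := by congr 1; ring
          _ ≤ _ := norm_sub_le _ _
          _ ≤ CR ρ / M + CR ρ / M := add_le_add k1 k2
          _ = 2 * (CR ρ / M) := by ring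
    · have h4 : IntervalIntegrable (fun t : ℝ => (wt t : ℂ)) volume ((k : ℝ) / M) (((k : ℝ) + 1) / M) :=
        wtc_int _ _
      exact h4.mul_const _
  refine (Finset.sum_le_sum h2).trans (le_of_eq ?_)
  rw [Finset.sum_const, Finset.card_range, nsmul_eq_mul]
  field_simp

/-- the coefficients of `φ` -/
noncomputable def cf (k : ℕ) : ℝ := √(k : ℝ) / (k.factorial : ℝ) ^ 2

theorem cf_moment (j : ℕ) : 2 * 2 ^ (2 * j + 1) / ((2 * j + 1).factorial : ℝ) *
    ∫ t in (0 : ℝ)..1, wt t * t ^ (2 * j + 1) = cf (j + 1) := by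
  have h := moment (j + 1) (Nat.succ_pos j)
  rw [show 2 * (j + 1) - 1 = 2 * j + 1 by omega] at h
  have h2 : ∫ t in (0 : ℝ)..1, wt t * t ^ (2 * j + 1) =
      cc * ∫ t in (0 : ℝ)..1, FF t * t ^ (2 * j + 1) := by
    rw [← intervalIntegral.integral_const_mul]
    congr 1
    funext t
    unfold wt
    ring
  rw [h2, h]
  have hw := ww_eq (j + 1)
  have hpi : Real.pi ≠ 0 := Real.pi_ne_zero
  have hsp : √Real.pi ≠ 0 := (Real.sqrt_pos.2 Real.pi_pos).ne'
  have hk : (0 : ℝ) < ((j + 1 : ℕ) : ℝ) := by positivity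
  have hsk : √((j + 1 : ℕ) : ℝ) ≠ 0 := (Real.sqrt_pos.2 hk).ne'
  have hsk2 : √((j + 1 : ℕ) : ℝ) ^ 2 = ((j + 1 : ℕ) : ℝ) := Real.sq_sqrt hk.le
  have hf : ((j + 1).factorial : ℝ) ≠ 0 := by positivity
  have hf2 : ((2 * j + 1).factorial : ℝ) ≠ 0 := by positivity
  have hw2 : ww (j + 1) = ((2 * (j + 1)).factorial : ℝ) / (4 ^ (j + 1) * ((j + 1).factorial : ℝ) ^ 2) := by
    rw [eq_div_iff (by positivity), hw]
  have hfac : ((2 * (j + 1)).factorial : ℝ) = 2 * ((j + 1 : ℕ) : ℝ) * ((2 * j + 1).factorial : ℝ) := by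
    rw [show 2 * (j + 1) = (2 * j + 1) + 1 by ring, Nat.factorial_succ]
    push_cast; ring
  unfold cf cc
  rw [hw2, hfac]
  have e4 : (4 : ℝ) ^ (j + 1) = 2 * 2 ^ (2 * j + 1) := by
    rw [show (4 : ℝ) = 2 ^ 2 by norm_num, ← pow_mul]; ring
  rw [e4]
  set r := √((j + 1 : ℕ) : ℝ) with hr
  rw [← hsk2]
  field_simp

theorem LL_hasSum (σ : ℂ) : HasSum (fun k : ℕ => (cf k : ℂ) * (σ ^ 2) ^ k) (LL σ) := by
  have h0 : (cf 0 : ℂ) * (σ ^ 2) ^ 0 = 0 := by
    unfold cf; simp
  rw [← hasSum_nat_add_iff' 1, Finset.sum_range_one, h0, sub_zero]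
  have hs : HasSum (fun j : ℕ => ∫ t in (0 : ℝ)..1, (wt t : ℂ) *
      (2 * ((2 * t * σ) ^ (2 * j + 1) / ((2 * j + 1).factorial : ℂ))))
      (∫ t in (0 : ℝ)..1, (wt t : ℂ) * (Complex.exp (2 * t * σ) - Complex.exp (-(2 * t * σ)))) := by
    apply intervalIntegral.hasSum_integral_of_dominated_convergence
      (bound := fun j _ => CB * (2 * ((2 * ‖σ‖) ^ (2 * j + 1) / ((2 * j + 1).factorial : ℝ))))
    · intro j
      apply AEStronglyMeasurable.mul
      · have := wtc_int 0 1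
        exact this.aestronglyMeasurable_restrict_uIoc
      · apply Continuous.aestronglyMeasurable
        fun_prop
    · intro j
      apply Filter.Eventually.of_forall
      intro t ht
      rw [uIoc_of_le zero_le_one] at ht
      rw [norm_mul, Complex.norm_real, Real.norm_of_nonneg (wt_nonneg t)]
      apply mul_le_mul (wt_le t) _ (norm_nonneg _) CB_nonneg
      rw [norm_mul, norm_div, norm_pow, norm_mul, norm_mul, Complex.norm_real,
        Real.norm_of_nonneg ht.1.le]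
      simp only [Complex.norm_ofNat, Complex.norm_natCast]
      apply mul_le_mul_of_nonneg_left _ (by norm_num)
      apply div_le_div_of_nonneg_right _ (by positivity)
      apply pow_le_pow_left₀ (by have := ht.1; positivity)
      have := ht.2
      nlinarith [norm_nonneg σ]
    · apply Filter.Eventually.of_forall
      intro t _
      apply Summable.mul_left
      apply Summable.mul_left
      have h1 := (Real.hasSum_sinh (2 * ‖σ‖)).summable
      exact h1
    · exact intervalIntegrable_const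
    · apply Filter.Eventually.of_forall
      intro t _
      have h1 := (Complex.hasSum_sinh (2 * t * σ)).mul_left 2
      have h2 := h1.mul_left (wt t : ℂ)
      rw [Complex.two_sinh] at h2
      exact h2
  have h3 := hs.mul_left σ
  unfold LL
  refine h3.congr_fun ?_
  intro j
  have h4 : ∫ t in (0 : ℝ)..1, (wt t : ℂ) * (2 * ((2 * t * σ) ^ (2 * j + 1) / ((2 * j + 1).factorial : ℂ))) =
      (2 * 2 ^ (2 * j + 1) / ((2 * j + 1).factorial : ℂ) * σ ^ (2 * j + 1)) *
        ((∫ t in (0 : ℝ)..1, wt t * t ^ (2 * j + 1) : ℝ) : ℂ) := by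
    rw [← intervalIntegral.integral_ofReal, ← intervalIntegral.integral_const_mul]
    congr 1
    funext t
    push_cast
    ring
  rw [h4, ← cf_moment j]
  push_cast
  ring

theorem final : ∃ p : ℕ → Polynomial ℝ,
      (∀ n, ∀ z : ℂ, Polynomial.aeval z (p n) = 0 → z.im = 0 ∧ z.re ≤ 0) ∧
      TendstoLocallyUniformly (fun n (z : ℂ) => Polynomial.aeval z (p n))
        (fun z : ℂ => ∑' k : ℕ,
          ((Real.sqrt (k : ℝ) / ((Nat.factorial k : ℝ) ^ 2) : ℝ) : ℂ) * z ^ k)
        Filter.atTop := by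
  refine ⟨fun m => QQ (aa (m + 1)) m, ?_, ?_⟩
  · intro m z hz
    exact QQ_roots (aa (m + 1)) (aa_nonneg _ _) (aa_mono _) m (aa_pos _ _ (Nat.succ_pos m)) z hz
  · rw [Metric.tendstoLocallyUniformly_iff]
    intro ε hε x
    refine ⟨Metric.ball x 1, Metric.ball_mem_nhds x one_pos, ?_⟩
    set ρ : ℝ := ‖x‖ + 2 with hρ
    have hρ1 : 1 ≤ ρ := by rw [hρ]; linarith [norm_nonneg x]
    have hlim : Filter.Tendsto (fun m : ℕ => ρ * (CB * (2 * (CR ρ / ((m + 1 : ℕ) : ℝ))))) Filter.atTop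
        (nhds 0) := by
      have h1 : Filter.Tendsto (fun m : ℕ => CR ρ / ((m + 1 : ℕ) : ℝ)) Filter.atTop (nhds 0) := by
        have := tendsto_const_div_atTop_nhds_zero_nat (CR ρ)
        exact this.comp (Filter.tendsto_add_atTop_nat 1)
      have h2 := ((h1.const_mul 2).const_mul CB).const_mul ρ
      simpa using h2
    have hM : ∀ᶠ m : ℕ in Filter.atTop, 2 * ρ ≤ ((m + 1 : ℕ) : ℝ) := by
      have := (tendsto_natCast_atTop_atTop (R := ℝ)).comp (Filter.tendsto_add_atTop_nat 1)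
      exact this.eventually_ge_atTop (2 * ρ)
    filter_upwards [hlim.eventually (gt_mem_nhds hε), hM] with m hm1 hm2 y hy
    obtain ⟨σ, hσ⟩ := IsAlgClosed.exists_pow_nat_eq y (n := 2) (by norm_num)
    have hy1 : ‖y‖ ≤ ‖x‖ + 1 := by
      have h1 : ‖y - x‖ < 1 := by rwa [← dist_eq_norm]
      have h2 : ‖y‖ ≤ ‖y - x‖ + ‖x‖ := by
        calc ‖y‖ = ‖(y - x) + x‖ := by congr 1; ring
          _ ≤ _ := norm_add_le _ _
      linarith
    have hσρ : ‖σ‖ ≤ ρ := by
      have h1 : ‖σ‖ ^ 2 = ‖y‖ := by rw [← norm_pow, hσ]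
      by_contra hcon
      push Not at hcon
      nlinarith [norm_nonneg σ, norm_nonneg x]
    have h1 : (∑' k : ℕ, ((Real.sqrt (k : ℝ) / ((Nat.factorial k : ℝ) ^ 2) : ℝ) : ℂ) * y ^ k) = LL σ := by
      rw [← hσ]
      exact (LL_hasSum σ).tsum_eq
    rw [h1, ← hσ, aeval_QQ, dist_comm, dist_eq_norm]
    exact (conv ρ hρ1 m hm2 σ hσρ).trans_lt hm1

end H14.LP
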