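import Mathlib

set_option autoImplicit false

namespace H14.LP

open Polynomial Finset

/-- Eneström–Kakeya, Abel summation -/
theorem abel (a : ℕ → ℝ) (h0 : 0 ≤ a 0) (ha : Monotone a) (z : ℂ) (hz : 1 ≤ ‖z‖) (m : ℕ) :
    ‖(z - 1) * ∑ k ∈ range (m + 1), (a k : ℂ) * z ^ k - a m * z ^ (m + 1)‖ ≤ a m * ‖z‖ ^ m := by
  induction m with
  | zero =>
    simp only [zero_add, sum_range_one, pow_zero, mul_one, pow_one]
    rw [show (z - 1) * (a 0 : ℂ) - a 0 * z = -(a 0 : ℂ) by ring, norm_neg, Complex.norm_real,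
      Real.norm_of_nonneg h0]
  | succ m ih =>
    rw [sum_range_succ]
    have h1 : (z - 1) * (∑ k ∈ range (m + 1), (a k : ℂ) * z ^ k + (a (m + 1) : ℂ) * z ^ (m + 1)) -
        a (m + 1) * z ^ (m + 1 + 1) =
        ((z - 1) * ∑ k ∈ range (m + 1), (a k : ℂ) * z ^ k - a m * z ^ (m + 1)) +
          (((a m - a (m + 1) : ℝ)) : ℂ) * z ^ (m + 1) := by
      push_cast; ring
    rw [h1]
    refine (norm_add_le _ _).trans ?_
    rw [norm_mul, norm_pow, Complex.norm_real, Real.norm_of_nonpos (by linarith [ha (Nat.le_succ m)])]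
    have h2 : a m * ‖z‖ ^ m ≤ a m * ‖z‖ ^ (m + 1) := by
      apply mul_le_mul_of_nonneg_left (pow_le_pow_right₀ hz (Nat.le_succ m))
      exact h0.trans (ha (Nat.zero_le m))
    linarith

theorem ek (a : ℕ → ℝ) (h0 : 0 ≤ a 0) (ha : Monotone a) (m : ℕ) (hm : 0 < a m) (z : ℂ)
    (hz : 1 < ‖z‖) : ∑ k ∈ range (m + 1), (a k : ℂ) * z ^ k ≠ 0 := by
  intro h
  have h1 := abel a h0 ha z hz.le m
  rw [h, mul_zero, zero_sub, norm_neg, norm_mul, norm_pow, Complex.norm_real,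
    Real.norm_of_nonneg hm.le] at h1
  have h2 := le_of_mul_le_mul_left h1 hm
  rw [pow_succ] at h2
  have h3 : 0 < ‖z‖ ^ m := by positivity
  nlinarith

/-- the polynomial `∑ a_k X^k` -/
noncomputable def BP (a : ℕ → ℝ) (m : ℕ) : ℂ[X] := ∑ k ∈ range (m + 1), C (a k : ℂ) * X ^ k

theorem eval_BP (a : ℕ → ℝ) (m : ℕ) (z : ℂ) :
    (BP a m).eval z = ∑ k ∈ range (m + 1), (a k : ℂ) * z ^ k := by
  simp [BP, eval_finsetSum]

theorem refl_le (z α : ℂ) (hz : 1 < ‖z‖) (hα : ‖α‖ ≤ 1) :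
    ‖(starRingEnd ℂ z)⁻¹ - α‖ ≤ ‖z - α‖ := by
  have hz0 : z ≠ 0 := by
    rintro rfl; rw [norm_zero] at hz; linarith
  have hc0 : starRingEnd ℂ z ≠ 0 := by simpa using hz0
  have h1 : ‖z‖ * ‖(starRingEnd ℂ z)⁻¹ - α‖ = ‖1 - α * starRingEnd ℂ z‖ := by
    rw [← Complex.norm_conj z, ← norm_mul, mul_sub, mul_inv_cancel₀ hc0, mul_comm α]
  have h2 : ‖1 - α * starRingEnd ℂ z‖ ≤ ‖z - α‖ := by
    rw [← abs_of_nonneg (norm_nonneg (1 - α * starRingEnd ℂ z)), ← abs_of_nonneg (norm_nonneg (z - α)),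
      ← sq_le_sq, ← Complex.normSq_eq_norm_sq, ← Complex.normSq_eq_norm_sq]
    have hz' : 1 < Complex.normSq z := by
      rw [Complex.normSq_eq_norm_sq]; nlinarith
    have hα' : Complex.normSq α ≤ 1 := by
      rw [Complex.normSq_eq_norm_sq]; nlinarith [norm_nonneg α]
    rw [Complex.normSq_apply] at hz' hα' ⊢
    rw [Complex.normSq_apply]
    simp only [Complex.sub_re, Complex.one_re, Complex.mul_re, Complex.conj_re, Complex.conj_im,
      Complex.sub_im, Complex.one_im, Complex.mul_im]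
    nlinarith [mul_nonneg (sub_nonneg.2 hz'.le) (sub_nonneg.2 hα')]
  have h3 : ‖(starRingEnd ℂ z)⁻¹ - α‖ ≤ ‖z‖ * ‖(starRingEnd ℂ z)⁻¹ - α‖ := by
    nlinarith [norm_nonneg ((starRingEnd ℂ z)⁻¹ - α)]
  linarith

theorem BP_le (a : ℕ → ℝ) (h0 : 0 ≤ a 0) (ha : Monotone a) (m : ℕ) (hm : 0 < a m) (z : ℂ)
    (hz : 1 < ‖z‖) : ‖(BP a m).eval z⁻¹‖ ≤ ‖(BP a m).eval z‖ := by
  have hconj : (BP a m).eval z⁻¹ = starRingEnd ℂ ((BP a m).eval ((starRingEnd ℂ z)⁻¹)) := by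
    rw [eval_BP, eval_BP, map_sum]
    apply Finset.sum_congr rfl
    intro k _
    simp
  rw [hconj, Complex.norm_conj]
  have hs : (BP a m).Splits := IsAlgClosed.splits _
  rw [hs.eval_eq_prod_roots, hs.eval_eq_prod_roots, norm_mul, norm_mul]
  apply mul_le_mul_of_nonneg_left _ (norm_nonneg _)
  have hn : ∀ s : Multiset ℂ, ‖s.prod‖ = (s.map (fun z => ‖z‖)).prod :=
    fun s => map_multiset_prod (normHom : ℂ →*₀ ℝ) s
  rw [hn, hn, Multiset.map_map, Multiset.map_map]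
  apply Multiset.prod_map_le_prod_map₀
  · intro α _
    simp
  · intro α hα
    simp only [Function.comp_apply]
    apply refl_le z α hz
    by_contra hcon
    push Not at hcon
    have h1 := (mem_roots'.1 hα).2
    rw [IsRoot, eval_BP] at h1
    exact ek a h0 ha m hm α hcon h1

theorem A_ne (a : ℕ → ℝ) (h0 : 0 ≤ a 0) (ha : Monotone a) (m : ℕ) (hm : 0 < a m) (z : ℂ)
    (hz : 1 < ‖z‖) : ∑ k ∈ range (m + 1), (a k : ℂ) * (z ^ (k + 1) - z⁻¹ ^ (k + 1)) ≠ 0 := by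
  intro h
  have h1 : z * (BP a m).eval z = z⁻¹ * (BP a m).eval z⁻¹ := by
    rw [eval_BP, eval_BP, ← sub_eq_zero, ← h, Finset.mul_sum, Finset.mul_sum,
      ← Finset.sum_sub_distrib]
    apply Finset.sum_congr rfl
    intro k _
    ring
  have h2 := congrArg norm h1
  rw [norm_mul, norm_mul, norm_inv] at h2
  have h3 := BP_le a h0 ha m hm z hz
  have h4 : 0 < ‖(BP a m).eval z‖ := by
    rw [norm_pos_iff, eval_BP]
    exact ek a h0 ha m hm z hz
  have h5 : ‖z‖⁻¹ < 1 := inv_lt_one_of_one_lt₀ hz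
  have h6 : ‖z‖⁻¹ * ‖(BP a m).eval z⁻¹‖ ≤ 1 * ‖(BP a m).eval z‖ :=
    mul_le_mul h5.le h3 (norm_nonneg _) zero_le_one
  nlinarith

/-- the odd function -/
noncomputable def GG (a : ℕ → ℝ) (m : ℕ) (s : ℂ) : ℂ :=
  ∑ k ∈ range (m + 1), (a k : ℂ) * ((1 + s) ^ (m + 1 + (k + 1)) * (1 - s) ^ (m + 1 - (k + 1)) -
    (1 - s) ^ (m + 1 + (k + 1)) * (1 + s) ^ (m + 1 - (k + 1)))

theorem GG_neg (a : ℕ → ℝ) (m : ℕ) (s : ℂ) : GG a m (-s) = - GG a m s := by
  unfold GG
  rw [← Finset.sum_neg_distrib]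
  apply Finset.sum_congr rfl
  intro k _
  rw [sub_neg_eq_add, ← sub_eq_add_neg]
  ring

theorem GG_ne (a : ℕ → ℝ) (h0 : 0 ≤ a 0) (ha : Monotone a) (m : ℕ) (hm : 0 < a m) (s : ℂ)
    (hs : 0 < s.re) : GG a m s ≠ 0 := by
  by_cases h1 : s = 1
  · subst h1
    unfold GG
    rw [Finset.sum_range_succ]
    have h2 : ∑ k ∈ range m, (a k : ℂ) * ((1 + 1 : ℂ) ^ (m + 1 + (k + 1)) * (1 - 1) ^ (m + 1 - (k + 1)) -
        (1 - 1) ^ (m + 1 + (k + 1)) * (1 + 1) ^ (m + 1 - (k + 1))) = 0 := by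
      apply Finset.sum_eq_zero
      intro k hk
      rw [mem_range] at hk
      rw [sub_self, zero_pow (by omega), zero_pow (by omega)]
      ring
    rw [h2, sub_self, Nat.sub_self, pow_zero, pow_zero, zero_pow (by omega)]
    have : (a m : ℂ) ≠ 0 := by exact_mod_cast hm.ne'
    simp only [zero_add, mul_one, sub_zero]
    apply mul_ne_zero this
    apply pow_ne_zero
    norm_num
  · have h2 : 1 - s ≠ 0 := by
      intro h; apply h1; linear_combination -h
    have h3 : 1 + s ≠ 0 := by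
      intro h
      have := congrArg Complex.re h
      simp at this
      linarith
    have hz : 1 < ‖(1 + s) / (1 - s)‖ := by
      rw [norm_div, one_lt_div (norm_pos_iff.2 h2)]
      rw [← abs_of_nonneg (norm_nonneg (1 - s)), ← abs_of_nonneg (norm_nonneg (1 + s)),
        ← sq_lt_sq, ← Complex.normSq_eq_norm_sq, ← Complex.normSq_eq_norm_sq, Complex.normSq_apply,
        Complex.normSq_apply]
      simp only [Complex.add_re, Complex.sub_re, Complex.one_re, Complex.add_im, Complex.sub_im,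
        Complex.one_im]
      nlinarith
    have h4 : GG a m s = ((1 + s) * (1 - s)) ^ (m + 1) *
        ∑ k ∈ range (m + 1), (a k : ℂ) * (((1 + s) / (1 - s)) ^ (k + 1) -
          ((1 + s) / (1 - s))⁻¹ ^ (k + 1)) := by
      unfold GG
      rw [Finset.mul_sum]
      apply Finset.sum_congr rfl
      intro k hk
      rw [mem_range] at hk
      have e1 : (1 - s) ^ (m + 1) = (1 - s) ^ (m + 1 - (k + 1)) * (1 - s) ^ (k + 1) := by
        rw [← pow_add]; congr 1; omega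
      have e2 : (1 + s) ^ (m + 1) = (1 + s) ^ (m + 1 - (k + 1)) * (1 + s) ^ (k + 1) := by
        rw [← pow_add]; congr 1; omega
      have e3 : ((1 + s) * (1 - s)) ^ (m + 1) * ((1 + s) / (1 - s)) ^ (k + 1) =
          (1 + s) ^ (m + 1 + (k + 1)) * (1 - s) ^ (m + 1 - (k + 1)) := by
        rw [mul_pow, div_pow, e1, pow_add (1 + s) (m + 1) (k + 1)]
        field_simp
      have e4 : ((1 + s) * (1 - s)) ^ (m + 1) * ((1 + s) / (1 - s))⁻¹ ^ (k + 1) =
          (1 - s) ^ (m + 1 + (k + 1)) * (1 + s) ^ (m + 1 - (k + 1)) := by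
        rw [mul_pow, inv_div, div_pow, e2, pow_add (1 - s) (m + 1) (k + 1)]
        field_simp
      rw [← e3, ← e4]
      ring
    rw [h4]
    apply mul_ne_zero
    · exact pow_ne_zero _ (mul_ne_zero h3 h2)
    · exact A_ne a h0 ha m hm _ hz

theorem GG_re (a : ℕ → ℝ) (h0 : 0 ≤ a 0) (ha : Monotone a) (m : ℕ) (hm : 0 < a m) (s : ℂ)
    (hs : GG a m s = 0) : s.re = 0 := by
  rcases lt_trichotomy s.re 0 with h | h | h
  · exfalso
    apply GG_ne a h0 ha m hm (-s) (by simpa using h)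
    rw [GG_neg, hs, neg_zero]
  · exact h
  · exact absurd hs (GG_ne a h0 ha m hm s h)

/-- the real polynomial `X G(X)` -/
noncomputable def PP (a : ℕ → ℝ) (m : ℕ) : ℝ[X] :=
  X * ∑ k ∈ range (m + 1), C (a k) * ((1 + X) ^ (m + 1 + (k + 1)) * (1 - X) ^ (m + 1 - (k + 1)) -
    (1 - X) ^ (m + 1 + (k + 1)) * (1 + X) ^ (m + 1 - (k + 1)))

theorem aeval_PP (a : ℕ → ℝ) (m : ℕ) (s : ℂ) : aeval s (PP a m) = s * GG a m s := by
  simp [PP, GG]

theorem PP_comp (a : ℕ → ℝ) (m : ℕ) : (PP a m).comp (C (-1) * X) = PP a m := by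
  unfold PP
  simp only [mul_comp, X_comp, Polynomial.sum_comp, C_comp, sub_comp, pow_comp, add_comp, one_comp]
  have h : (C (-1) * X : ℝ[X]) = -X := by simp
  rw [h, neg_mul, ← mul_neg, ← Finset.sum_neg_distrib]
  congr 1
  apply Finset.sum_congr rfl
  intro k _
  rw [sub_neg_eq_add, ← sub_eq_add_neg]
  ring

theorem PP_expand (a : ℕ → ℝ) (m : ℕ) : expand ℝ 2 (contract 2 (PP a m)) = PP a m := by
  ext n
  rw [coeff_expand (by norm_num)]
  split_ifs with h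
  · rw [coeff_contract (by norm_num), Nat.div_mul_cancel h]
  · have h1 := congrArg (fun p => coeff p n) (PP_comp a m)
    simp only [comp_C_mul_X_coeff] at h1
    have h2 : Odd n := by
      rw [← Nat.not_even_iff_odd, even_iff_two_dvd]; exact h
    rw [h2.neg_one_pow] at h1
    linarith

/-- the polynomials approximating `φ` -/
noncomputable def QQ (a : ℕ → ℝ) (m : ℕ) : ℝ[X] :=
  (contract 2 (PP a m)).comp (C (1 / ((m : ℝ) + 1) ^ 2) * X)

theorem aeval_QQ (a : ℕ → ℝ) (m : ℕ) (σ : ℂ) :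
    aeval (σ ^ 2) (QQ a m) = (σ / (m + 1)) * GG a m (σ / (m + 1)) := by
  unfold QQ
  rw [aeval_comp]
  have h1 : aeval (σ ^ 2) (C (1 / ((m : ℝ) + 1) ^ 2) * X : ℝ[X]) = (σ / (m + 1)) ^ 2 := by
    simp only [map_mul, aeval_C, aeval_X]
    simp only [Complex.coe_algebraMap]
    push_cast
    rw [div_pow]
    ring
  rw [h1, ← aeval_PP, ← PP_expand, expand_aeval, PP_expand]

theorem QQ_roots (a : ℕ → ℝ) (h0 : 0 ≤ a 0) (ha : Monotone a) (m : ℕ) (hm : 0 < a m) (z : ℂ)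
    (hz : aeval z (QQ a m) = 0) : z.im = 0 ∧ z.re ≤ 0 := by
  obtain ⟨σ, hσ⟩ := IsAlgClosed.exists_pow_nat_eq z (n := 2) (by norm_num)
  rw [← hσ, aeval_QQ] at hz
  have h1 : σ.re = 0 := by
    rcases mul_eq_zero.1 hz with h | h
    · have h2 : ((m : ℂ) + 1) ≠ 0 := by exact_mod_cast Nat.succ_ne_zero m
      have : σ = 0 := by
        rcases div_eq_zero_iff.1 h with h | h
        · exact h
        · exact absurd h h2
      rw [this]; rfl
    · have h2 := GG_re a h0 ha m hm _ h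
      have h3 : σ / ((m : ℂ) + 1) = σ / (((m : ℝ) + 1 : ℝ) : ℂ) := by push_cast; rfl
      rw [h3, Complex.div_ofReal_re] at h2
      rcases div_eq_zero_iff.1 h2 with h | h
      · exact h
      · exfalso
        have : (0 : ℝ) < (m : ℝ) + 1 := by positivity
        linarith
  rw [← hσ, pow_two, Complex.mul_re, Complex.mul_im, h1]
  constructor
  · ring
  · nlinarith [mul_self_nonneg σ.im]

end H14.LP
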