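import Mathlib

set_option autoImplicit false

/-!
Critical sets of latin squares, and a critical set with 17 triples of the cyclic latin square of
order 6.
-/

namespace H14.Latin

/-- `M` is a latin square of order `n`: every row and every column is a permutation. -/
def IsLatin {n : ℕ} (M : Fin n → Fin n → Fin n) : Prop :=
  (∀ i, Function.Injective (M i)) ∧ ∀ j, Function.Injective fun i => M i j

/-- The latin square `M` contains the set `U` of triples (row, column, symbol). -/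
def Contains {n : ℕ} (M : Fin n → Fin n → Fin n) (U : Finset (Fin n × Fin n × Fin n)) : Prop :=
  ∀ t ∈ U, M t.1 t.2.1 = t.2.2

/-- `U` is uniquely completable: exactly one latin square of order `n` contains `U`. -/
def UniquelyCompletable {n : ℕ} (U : Finset (Fin n × Fin n × Fin n)) : Prop :=
  ∃! M : Fin n → Fin n → Fin n, IsLatin M ∧ Contains M U

/-- `U` is a critical set of the latin square `L`: it is contained in `L`, it is uniquely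
completable, and no proper subset of it is uniquely completable. -/
def IsCriticalSet {n : ℕ} (L : Fin n → Fin n → Fin n) (U : Finset (Fin n × Fin n × Fin n)) : Prop :=
  Contains L U ∧ UniquelyCompletable U ∧ ∀ V, V ⊂ U → ¬ UniquelyCompletable V

/-- The cyclic latin square `(i, j) ↦ i + j mod n`. -/
def cyclic (n : ℕ) : Fin n → Fin n → Fin n := fun i j => i + j

def U : Finset (Fin 6 × Fin 6 × Fin 6) := {(0, 0, 0), (0, 1, 1), (0, 4, 4), (1, 0, 1), (1, 1, 2), (1, 3, 4), (1, 4, 5), (1, 5, 0), (2, 0, 2), (2, 3, 5), (2, 4, 0), (3, 3, 0), (3, 4, 1), (3, 5, 2), (5, 0, 5), (5, 1, 0), (5, 5, 4)}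

def el : Fin 17 → Fin 6 × Fin 6 × Fin 6 := ![(0, 0, 0), (0, 1, 1), (0, 4, 4), (1, 0, 1), (1, 1, 2), (1, 3, 4), (1, 4, 5), (1, 5, 0), (2, 0, 2), (2, 3, 5), (2, 4, 0), (3, 3, 0), (3, 4, 1), (3, 5, 2), (5, 0, 5), (5, 1, 0), (5, 5, 4)]

def alt : Fin 17 → Fin 6 → Fin 6 → Fin 6 := ![
  ![![3, 1, 0, 2, 4, 5], ![1, 2, 3, 4, 5, 0], ![2, 4, 1, 5, 0, 3], ![4, 3, 5, 0, 1, 2], ![0, 5, 4, 3, 2, 1], ![5, 0, 2, 1, 3, 4]],
  ![![0, 3, 2, 1, 4, 5], ![1, 2, 3, 4, 5, 0], ![2, 1, 4, 5, 0, 3], ![3, 4, 5, 0, 1, 2], ![4, 5, 0, 2, 3, 1], ![5, 0, 1, 3, 2, 4]],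
  ![![0, 1, 4, 3, 2, 5], ![1, 2, 3, 4, 5, 0], ![2, 4, 1, 5, 0, 3], ![4, 3, 5, 0, 1, 2], ![3, 5, 0, 2, 4, 1], ![5, 0, 2, 1, 3, 4]],
  ![![0, 1, 5, 2, 4, 3], ![3, 2, 1, 4, 5, 0], ![2, 3, 4, 5, 0, 1], ![4, 5, 3, 0, 1, 2], ![1, 4, 0, 3, 2, 5], ![5, 0, 2, 1, 3, 4]],
  ![![0, 1, 5, 2, 4, 3], ![1, 3, 2, 4, 5, 0], ![2, 4, 3, 5, 0, 1], ![3, 5, 4, 0, 1, 2], ![4, 2, 0, 1, 3, 5], ![5, 0, 1, 3, 2, 4]],
  ![![0, 1, 3, 2, 4, 5], ![1, 2, 4, 3, 5, 0], ![2, 4, 1, 5, 0, 3], ![4, 3, 5, 0, 1, 2], ![3, 5, 0, 4, 2, 1], ![5, 0, 2, 1, 3, 4]],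
  ![![0, 1, 2, 3, 4, 5], ![1, 2, 5, 4, 3, 0], ![2, 4, 1, 5, 0, 3], ![3, 5, 4, 0, 1, 2], ![4, 3, 0, 2, 5, 1], ![5, 0, 3, 1, 2, 4]],
  ![![0, 1, 2, 3, 4, 5], ![1, 2, 0, 4, 5, 3], ![2, 3, 4, 5, 0, 1], ![3, 4, 5, 0, 1, 2], ![4, 5, 1, 2, 3, 0], ![5, 0, 3, 1, 2, 4]],
  ![![0, 1, 5, 2, 4, 3], ![1, 2, 3, 4, 5, 0], ![4, 3, 2, 5, 0, 1], ![3, 5, 4, 0, 1, 2], ![2, 4, 0, 1, 3, 5], ![5, 0, 1, 3, 2, 4]],
  ![![0, 1, 2, 3, 4, 5], ![1, 2, 3, 4, 5, 0], ![2, 4, 5, 1, 0, 3], ![3, 5, 4, 0, 1, 2], ![4, 3, 0, 5, 2, 1], ![5, 0, 1, 2, 3, 4]],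
  ![![0, 1, 5, 2, 4, 3], ![1, 2, 3, 4, 5, 0], ![2, 4, 0, 5, 3, 1], ![3, 5, 4, 0, 1, 2], ![4, 3, 2, 1, 0, 5], ![5, 0, 1, 3, 2, 4]],
  ![![0, 1, 5, 2, 4, 3], ![1, 2, 3, 4, 5, 0], ![2, 3, 4, 5, 0, 1], ![4, 5, 0, 3, 1, 2], ![3, 4, 1, 0, 2, 5], ![5, 0, 2, 1, 3, 4]],
  ![![0, 1, 5, 2, 4, 3], ![1, 2, 3, 4, 5, 0], ![2, 3, 4, 5, 0, 1], ![4, 5, 1, 0, 3, 2], ![3, 4, 0, 1, 2, 5], ![5, 0, 2, 3, 1, 4]],
  ![![0, 1, 5, 2, 4, 3], ![1, 2, 3, 4, 5, 0], ![2, 3, 4, 5, 0, 1], ![3, 4, 2, 0, 1, 5], ![4, 5, 0, 1, 3, 2], ![5, 0, 1, 3, 2, 4]],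
  ![![0, 1, 2, 3, 4, 5], ![1, 2, 3, 4, 5, 0], ![2, 4, 1, 5, 0, 3], ![5, 3, 4, 0, 1, 2], ![4, 5, 0, 2, 3, 1], ![3, 0, 5, 1, 2, 4]],
  ![![0, 1, 2, 3, 4, 5], ![1, 2, 3, 4, 5, 0], ![2, 4, 1, 5, 0, 3], ![3, 5, 4, 0, 1, 2], ![4, 0, 5, 2, 3, 1], ![5, 3, 0, 1, 2, 4]],
  ![![0, 1, 2, 3, 4, 5], ![1, 2, 3, 4, 5, 0], ![2, 3, 1, 5, 0, 4], ![3, 4, 5, 0, 1, 2], ![4, 5, 0, 1, 2, 3], ![5, 0, 4, 2, 3, 1]]]

def unk : List (Fin 6 × Fin 6) := [(1, 2), (0, 2), (0, 5), (0, 3), (3, 2), (2, 2), (5, 2), (2, 1), (2, 5), (3, 1), (5, 3), (4, 5), (4, 2), (3, 0), (4, 3), (4, 4), (4, 0), (5, 4), (4, 1)]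

def R0 : ℕ := 52615339475
def C0 : ℕ := 23417061863

def chk : List (Fin 6 × Fin 6) → ℕ → ℕ → Bool → Bool
  | [], _, _, dev => !dev
  | p :: rest, R, C, dev => (List.finRange 6).all fun v =>
      R.testBit (6 * (p.1 : ℕ) + (v : ℕ)) || C.testBit (6 * (p.2 : ℕ) + (v : ℕ)) ||
        chk rest (R ||| 2 ^ (6 * (p.1 : ℕ) + (v : ℕ))) (C ||| 2 ^ (6 * (p.2 : ℕ) + (v : ℕ)))
          (dev || decide (v ≠ p.1 + p.2))

theorem chk_sound (M : Fin 6 → Fin 6 → Fin 6) (hM : IsLatin M) :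
    ∀ (cells : List (Fin 6 × Fin 6)) (R C : ℕ) (dev : Bool), cells.Nodup →
      (∀ p ∈ cells, ∀ v : Fin 6, R.testBit (6 * (p.1 : ℕ) + (v : ℕ)) = true → M p.1 p.2 ≠ v) →
      (∀ p ∈ cells, ∀ v : Fin 6, C.testBit (6 * (p.2 : ℕ) + (v : ℕ)) = true → M p.1 p.2 ≠ v) →
      chk cells R C dev = true → dev = false ∧ ∀ p ∈ cells, M p.1 p.2 = p.1 + p.2 := by
  intro cells
  induction cells with
  | nil =>
    intro R C dev _ _ _ h
    simp only [chk, Bool.not_eq_true'] at h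
    exact ⟨h, by simp⟩
  | cons p rest ih =>
    intro R C dev hnd hR hC h
    rw [List.nodup_cons] at hnd
    obtain ⟨hp, hnd⟩ := hnd
    rw [chk, List.all_eq_true] at h
    have h1 := h (M p.1 p.2) (List.mem_finRange _)
    have hRf : R.testBit (6 * (p.1 : ℕ) + ((M p.1 p.2 : Fin 6) : ℕ)) = false := by
      rw [← Bool.not_eq_true]
      exact fun hh => hR p (by simp) _ hh rfl
    have hCf : C.testBit (6 * (p.2 : ℕ) + ((M p.1 p.2 : Fin 6) : ℕ)) = false := by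
      rw [← Bool.not_eq_true]
      exact fun hh => hC p (by simp) _ hh rfl
    rw [hRf, hCf, Bool.false_or, Bool.false_or] at h1
    have key := ih _ _ _ hnd ?_ ?_ h1
    · obtain ⟨hd, hall⟩ := key
      rw [Bool.or_eq_false_iff, decide_eq_false_iff_not, not_not] at hd
      refine ⟨hd.1, ?_⟩
      intro q hq
      rcases List.mem_cons.mp hq with rfl | hq
      · exact hd.2
      · exact hall q hq
    · intro q hq w hw
      rw [Nat.testBit_or, Bool.or_eq_true, Nat.testBit_two_pow, decide_eq_true_eq] at hw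
      rcases hw with hw | hw
      · exact hR q (List.mem_cons_of_mem _ hq) w hw
      · intro hqw
        have b1 := (M p.1 p.2).2
        have b2 := w.2
        have e1 : (p.1 : ℕ) = (q.1 : ℕ) := by omega
        have e2 : ((M p.1 p.2 : Fin 6) : ℕ) = (w : ℕ) := by omega
        have e1' : p.1 = q.1 := Fin.ext e1
        have e2' : M p.1 p.2 = w := Fin.ext e2
        have e3 : M q.1 p.2 = M q.1 q.2 := by rw [hqw, ← e2', e1']
        have e4 : p.2 = q.2 := hM.1 q.1 e3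
        have : p = q := Prod.ext e1' e4
        exact hp (this ▸ hq)
    · intro q hq w hw
      rw [Nat.testBit_or, Bool.or_eq_true, Nat.testBit_two_pow, decide_eq_true_eq] at hw
      rcases hw with hw | hw
      · exact hC q (List.mem_cons_of_mem _ hq) w hw
      · intro hqw
        have b1 := (M p.1 p.2).2
        have b2 := w.2
        have e1 : (p.2 : ℕ) = (q.2 : ℕ) := by omega
        have e2 : ((M p.1 p.2 : Fin 6) : ℕ) = (w : ℕ) := by omega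
        have e1' : p.2 = q.2 := Fin.ext e1
        have e2' : M p.1 p.2 = w := Fin.ext e2
        have e3 : M p.1 q.2 = M q.1 q.2 := by rw [hqw, ← e2', e1']
        have e4 : p.1 = q.1 := hM.2 q.2 e3
        have : p = q := Prod.ext e4 e1'
        exact hp (this ▸ hq)

theorem cyc_latin : IsLatin (cyclic 6) := by
  constructor
  · have h : ∀ i a b : Fin 6, cyclic 6 i a = cyclic 6 i b → a = b := by decide +kernel
    exact fun i a b => h i a b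
  · have h : ∀ j a b : Fin 6, cyclic 6 a j = cyclic 6 b j → a = b := by decide +kernel
    exact fun j a b => h j a b

theorem cyc_contains : Contains (cyclic 6) U := by
  unfold Contains; decide +kernel

theorem unk_nodup : unk.Nodup := by decide +kernel

theorem chk_unk : chk unk R0 C0 false = true := by decide +kernel

theorem R0_ok : ∀ p ∈ unk, ∀ v : Fin 6, R0.testBit (6 * (p.1 : ℕ) + (v : ℕ)) = true →
    ∃ t ∈ U, t.1 = p.1 ∧ t.2.1 ≠ p.2 ∧ t.2.2 = v := by decide +kernel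

theorem C0_ok : ∀ p ∈ unk, ∀ v : Fin 6, C0.testBit (6 * (p.2 : ℕ) + (v : ℕ)) = true →
    ∃ t ∈ U, t.2.1 = p.2 ∧ t.1 ≠ p.1 ∧ t.2.2 = v := by decide +kernel

theorem cells_ok : ∀ i j : Fin 6, (i, j) ∈ unk ∨ (i, j, i + j) ∈ U := by decide +kernel

theorem unique (M : Fin 6 → Fin 6 → Fin 6) (hM : IsLatin M) (hU : Contains M U) :
    M = cyclic 6 := by
  have h := chk_sound M hM unk R0 C0 false unk_nodup ?_ ?_ chk_unk
  · funext i j
    rcases cells_ok i j with hij | hij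
    · exact h.2 (i, j) hij
    · exact hU _ hij
  · intro p hp v hv hpv
    obtain ⟨t, ht, h1, h2, h3⟩ := R0_ok p hp v hv
    have h4 := hU t ht
    rw [h1, h3, ← hpv] at h4
    exact h2 (hM.1 _ h4)
  · intro p hp v hv hpv
    obtain ⟨t, ht, h1, h2, h3⟩ := C0_ok p hp v hv
    have h4 := hU t ht
    rw [h1, h3, ← hpv] at h4
    exact h2 (hM.2 p.2 h4)

theorem alt_rows : ∀ k : Fin 17, ∀ i a b : Fin 6, alt k i a = alt k i b → a = b := by
  decide +kernel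

theorem alt_cols : ∀ k : Fin 17, ∀ j a b : Fin 6, alt k a j = alt k b j → a = b := by
  decide +kernel

theorem alt_ok : ∀ k : Fin 17, ∀ t ∈ U, t ≠ el k → alt k t.1 t.2.1 = t.2.2 := by
  decide +kernel

theorem alt_ne : ∀ k : Fin 17, alt k (el k).1 (el k).2.1 ≠ (el k).2.2 := by
  decide +kernel

theorem el_surj : ∀ t ∈ U, ∃ k, el k = t := by decide +kernel

theorem el_mem : ∀ k, el k ∈ U := by decide +kernel

theorem card_U : U.card = 17 := by decide +kernel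

theorem critical : IsCriticalSet (cyclic 6) U := by
  refine ⟨cyc_contains, ⟨cyclic 6, ⟨cyc_latin, cyc_contains⟩, ?_⟩, ?_⟩
  · rintro M ⟨hM, hU⟩
    exact unique M hM hU
  · intro V hV hUC
    obtain ⟨hVU, t, htU, htV⟩ := Finset.ssubset_iff_exists_cons_subset.mp hV |>.elim
      (fun t ht => by
        obtain ⟨h1, h2⟩ := ht
        exact (⟨hV.1, t, h2 (Finset.mem_cons_self _ _), h1⟩ : V ⊆ U ∧ ∃ t, t ∈ U ∧ t ∉ V))
    obtain ⟨k, rfl⟩ := el_surj t htU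
    obtain ⟨N, _, hN⟩ := hUC
    have e1 : cyclic 6 = N := hN _ ⟨cyc_latin, fun s hs => cyc_contains s (hVU hs)⟩
    have e2 : alt k = N := hN _ ⟨⟨fun i a b => alt_rows k i a b, fun j a b => alt_cols k j a b⟩,
      fun s hs => alt_ok k s (hVU hs) (fun h => htV (h ▸ hs))⟩
    have e3 : alt k = cyclic 6 := e2.trans e1.symm
    apply alt_ne k
    rw [e3]
    exact cyc_contains _ (el_mem k)

end H14.Latin
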