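import Mathlib

/-!
# MP_71be7b_lc : definitions

Projective algebras of plane sets, their generation and isomorphism.
-/

namespace H14.PA

abbrev Plane := ℝ × ℝ

/-- the axis `ℝ × {0}` -/
def X : Set Plane := {p | p.2 = 0}

/-- the axis `{0} × ℝ` -/
def Y : Set Plane := {p | p.1 = 0}

/-- `π₁(S) = {(x,0) : ∃ y, (x,y) ∈ S}` -/
def pr1 (S : Set Plane) : Set Plane := {p | p.2 = 0 ∧ ∃ y, (p.1, y) ∈ S}

/-- `π₂(S) = {(0,y) : ∃ x, (x,y) ∈ S}` -/
def pr2 (S : Set Plane) : Set Plane := {p | p.1 = 0 ∧ ∃ x, (x, p.2) ∈ S}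

/-- `A ⊗ B = {(x,y) : (x,0) ∈ A, (0,y) ∈ B}` -/
def otimes (A B : Set Plane) : Set Plane := {p | (p.1, 0) ∈ A ∧ (0, p.2) ∈ B}

/-- A projective algebra of plane sets: a family closed under complement, finite unions, `π₁`,
`π₂`, and under `A ⊗ B` for members `A ⊆ X`, `B ⊆ Y`. -/
structure IsProjAlg (F : Set (Set Plane)) : Prop where
  empty : ∅ ∈ F
  compl : ∀ S ∈ F, Sᶜ ∈ F
  union : ∀ S ∈ F, ∀ T ∈ F, S ∪ T ∈ F
  pr1 : ∀ S ∈ F, pr1 S ∈ F
  pr2 : ∀ S ∈ F, pr2 S ∈ F
  prod : ∀ A ∈ F, ∀ B ∈ F, A ⊆ X → B ⊆ Y → otimes A B ∈ F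

/-- The projective algebra generated by `S₁, …, S_k`: the smallest projective algebra containing
all of them. -/
def generated {k : ℕ} (s : Fin k → Set Plane) : Set (Set Plane) :=
  {T | ∀ F : Set (Set Plane), IsProjAlg F → (∀ i, s i ∈ F) → T ∈ F}

/-- `φ` restricts to a bijection `F → G` commuting with complement, union, `π₁`, `π₂`, `⊗`. -/
structure IsIso (F G : Set (Set Plane)) (φ : Set Plane → Set Plane) : Prop where
  bij : Set.BijOn φ F G
  compl : ∀ S ∈ F, φ Sᶜ = (φ S)ᶜ
  union : ∀ S ∈ F, ∀ T ∈ F, φ (S ∪ T) = φ S ∪ φ T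
  pr1 : ∀ S ∈ F, φ (pr1 S) = H14.PA.pr1 (φ S)
  pr2 : ∀ S ∈ F, φ (pr2 S) = H14.PA.pr2 (φ S)
  prod : ∀ A ∈ F, ∀ B ∈ F, A ⊆ X → B ⊆ Y → φ (otimes A B) = otimes (φ A) (φ B)

/-- `F` and `G` are isomorphic projective algebras. -/
def Isomorphic (F G : Set (Set Plane)) : Prop := ∃ φ, IsIso F G φ

/-- The projective algebras generated by `k` subsets of the plane. -/
def GenAlg (k : ℕ) : Type := {F : Set (Set Plane) // ∃ s : Fin k → Set Plane, F = generated s}

/-- The projective algebras generated by `k` pairwise distinct subsets of the plane. -/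
def GenAlgDistinct (k : ℕ) : Type :=
  {F : Set (Set Plane) // ∃ s : Fin k → Set Plane, Function.Injective s ∧ F = generated s}

/-- Isomorphism on `GenAlg k`. -/
def Iso {k : ℕ} (F G : GenAlg k) : Prop := Isomorphic F.1 G.1

/-- Isomorphism on `GenAlgDistinct k`. -/
def IsoDistinct {k : ℕ} (F G : GenAlgDistinct k) : Prop := Isomorphic F.1 G.1

/-- The number of isomorphism classes of projective algebras generated by `k` subsets of the
plane: the cardinality of the quotient of `GenAlg k` by `Iso`, which is an equivalence relation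
(this is part of the theorem). -/
noncomputable def numberOfIsoClasses (k : ℕ) : Cardinal := Cardinal.mk (Quot (@Iso k))

/-- The same with the `k` generating sets required to be pairwise distinct. -/
noncomputable def numberOfIsoClassesDistinct (k : ℕ) : Cardinal :=
  Cardinal.mk (Quot (@IsoDistinct k))

end H14.PA
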