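import Mathlib
import Pool.Agent.H14.PADefs

set_option autoImplicit false

namespace H14.PA

open Set

/-! ### basics -/

theorem pr1_subset (S : Set Plane) : pr1 S ⊆ X := fun _ hp => hp.1

theorem pr2_subset (S : Set Plane) : pr2 S ⊆ Y := fun _ hp => hp.1

theorem pr1_of_subset {A : Set Plane} (h : A ⊆ X) : pr1 A = A := by
  ext ⟨x, y⟩
  constructor
  · rintro ⟨h1, z, hz⟩
    have h2 : z = 0 := h hz
    simp only at h1
    subst h1 h2
    exact hz
  · intro hp
    have h2 : y = 0 := h hp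
    subst h2
    exact ⟨rfl, 0, hp⟩

theorem pr2_of_subset {A : Set Plane} (h : A ⊆ Y) : pr2 A = A := by
  ext ⟨x, y⟩
  constructor
  · rintro ⟨h1, z, hz⟩
    have h2 : z = 0 := h hz
    simp only at h1
    subst h1 h2
    exact hz
  · intro hp
    have h2 : x = 0 := h hp
    subst h2
    exact ⟨rfl, 0, hp⟩

theorem otimes_inter (A B : Set Plane) : otimes (A ∩ X) (B ∩ Y) = otimes A B := by
  ext ⟨x, y⟩
  simp [otimes, X, Y]

theorem IsProjAlg.univ {F : Set (Set Plane)} (h : IsProjAlg F) : (Set.univ : Set Plane) ∈ F := by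
  have := h.compl _ h.empty
  rwa [compl_empty] at this

theorem pr1_univ : pr1 Set.univ = X := by
  ext p; simp [pr1, X]

theorem pr2_univ : pr2 Set.univ = Y := by
  ext p; simp [pr2, Y]

theorem IsProjAlg.inter {F : Set (Set Plane)} (h : IsProjAlg F) {S T : Set Plane} (hS : S ∈ F)
    (hT : T ∈ F) : S ∩ T ∈ F := by
  have := h.compl _ (h.union _ (h.compl _ hS) _ (h.compl _ hT))
  rwa [compl_union, compl_compl, compl_compl] at this

theorem IsProjAlg.X_mem {F : Set (Set Plane)} (h : IsProjAlg F) : X ∈ F := by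
  rw [← pr1_univ]; exact h.pr1 _ h.univ

theorem IsProjAlg.Y_mem {F : Set (Set Plane)} (h : IsProjAlg F) : Y ∈ F := by
  rw [← pr2_univ]; exact h.pr2 _ h.univ

theorem IsProjAlg.otimes' {F : Set (Set Plane)} (h : IsProjAlg F) {A B : Set Plane} (hA : A ∈ F)
    (hB : B ∈ F) : otimes A B ∈ F := by
  rw [← otimes_inter]
  exact h.prod _ (h.inter hA h.X_mem) _ (h.inter hB h.Y_mem) inter_subset_right inter_subset_right

/-! ### terms -/

inductive Term (k : ℕ) : Type
  | gen (i : Fin k) : Term k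
  | empty : Term k
  | compl (t : Term k) : Term k
  | union (t u : Term k) : Term k
  | pr1 (t : Term k) : Term k
  | pr2 (t : Term k) : Term k
  | prod (t u : Term k) : Term k

def eval {k : ℕ} (s : Fin k → Set Plane) : Term k → Set Plane
  | .gen i => s i
  | .empty => ∅
  | .compl t => (eval s t)ᶜ
  | .union t u => eval s t ∪ eval s u
  | .pr1 t => H14.PA.pr1 (eval s t)
  | .pr2 t => H14.PA.pr2 (eval s t)
  | .prod t u => otimes (eval s t) (eval s u)

theorem generated_isProjAlg {k : ℕ} (s : Fin k → Set Plane) : IsProjAlg (generated s) where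
  empty := fun F hF _ => hF.empty
  compl := fun S hS F hF hs => hF.compl _ (hS F hF hs)
  union := fun S hS T hT F hF hs => hF.union _ (hS F hF hs) _ (hT F hF hs)
  pr1 := fun S hS F hF hs => hF.pr1 _ (hS F hF hs)
  pr2 := fun S hS F hF hs => hF.pr2 _ (hS F hF hs)
  prod := fun A hA B hB hAX hBY F hF hs => hF.prod _ (hA F hF hs) _ (hB F hF hs) hAX hBY

theorem gen_mem {k : ℕ} (s : Fin k → Set Plane) (i : Fin k) : s i ∈ generated s :=
  fun _ _ hs => hs i

theorem eval_mem {k : ℕ} {F : Set (Set Plane)} (hF : IsProjAlg F) (s : Fin k → Set Plane)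
    (hs : ∀ i, s i ∈ F) (t : Term k) : eval s t ∈ F := by
  induction t with
  | gen i => exact hs i
  | empty => exact hF.empty
  | compl t ih => exact hF.compl _ ih
  | union t u iht ihu => exact hF.union _ iht _ ihu
  | pr1 t ih => exact hF.pr1 _ ih
  | pr2 t ih => exact hF.pr2 _ ih
  | prod t u iht ihu => exact hF.otimes' iht ihu

theorem range_isProjAlg {k : ℕ} (s : Fin k → Set Plane) : IsProjAlg (range (eval s)) where
  empty := ⟨.empty, rfl⟩
  compl := by rintro _ ⟨t, rfl⟩; exact ⟨.compl t, rfl⟩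
  union := by rintro _ ⟨t, rfl⟩ _ ⟨u, rfl⟩; exact ⟨.union t u, rfl⟩
  pr1 := by rintro _ ⟨t, rfl⟩; exact ⟨.pr1 t, rfl⟩
  pr2 := by rintro _ ⟨t, rfl⟩; exact ⟨.pr2 t, rfl⟩
  prod := by rintro _ ⟨t, rfl⟩ _ ⟨u, rfl⟩ _ _; exact ⟨.prod t u, rfl⟩

theorem generated_eq_range {k : ℕ} (s : Fin k → Set Plane) : generated s = range (eval s) := by
  apply Subset.antisymm
  · intro T hT
    exact hT _ (range_isProjAlg s) fun i => ⟨.gen i, rfl⟩
  · rintro _ ⟨t, rfl⟩
    exact eval_mem (generated_isProjAlg s) s (gen_mem s) t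

instance (k : ℕ) : Countable (Term k) := by
  -- stack machine decoding
  let ops : List (Term k) → ℕ → List (Term k) := fun st n =>
    if h : n < k then Term.gen ⟨n, h⟩ :: st
    else if n = k then Term.empty :: st
    else if n = k + 1 then (match st with | t :: r => Term.compl t :: r | [] => [])
    else if n = k + 2 then (match st with | t :: u :: r => Term.union t u :: r | r => r)
    else if n = k + 3 then (match st with | t :: r => Term.pr1 t :: r | [] => [])
    else if n = k + 4 then (match st with | t :: r => Term.pr2 t :: r | [] => [])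
    else (match st with | t :: u :: r => Term.prod t u :: r | r => r)
  have key : ∀ t : Term k, ∃ l : List ℕ, ∀ st, l.foldl ops st = t :: st := by
    intro t
    induction t with
    | gen i => exact ⟨[i.1], fun st => by simp [ops]⟩
    | empty => exact ⟨[k], fun st => by simp [ops]⟩
    | compl t ih =>
      obtain ⟨l, hl⟩ := ih
      refine ⟨l ++ [k + 1], fun st => ?_⟩
      rw [List.foldl_append, hl]; simp [ops]
    | union t u iht ihu =>
      obtain ⟨l, hl⟩ := iht
      obtain ⟨m, hm⟩ := ihu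
      refine ⟨m ++ l ++ [k + 2], fun st => ?_⟩
      rw [List.foldl_append, List.foldl_append, hm, hl]; simp [ops]
    | pr1 t ih =>
      obtain ⟨l, hl⟩ := ih
      refine ⟨l ++ [k + 3], fun st => ?_⟩
      rw [List.foldl_append, hl]; simp [ops]
    | pr2 t ih =>
      obtain ⟨l, hl⟩ := ih
      refine ⟨l ++ [k + 4], fun st => ?_⟩
      rw [List.foldl_append, hl]; simp [ops]
    | prod t u iht ihu =>
      obtain ⟨l, hl⟩ := iht
      obtain ⟨m, hm⟩ := ihu
      refine ⟨m ++ l ++ [k + 5], fun st => ?_⟩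
      rw [List.foldl_append, List.foldl_append, hm, hl]; simp [ops]
  choose g hg using key
  have hinj : Function.Injective g := by
    intro t u htu
    have h1 := hg t []
    have h2 := hg u []
    rw [htu, h2] at h1
    simpa using h1.symm
  exact hinj.countable

theorem generated_countable {k : ℕ} (s : Fin k → Set Plane) : (generated s).Countable := by
  rw [generated_eq_range]
  exact countable_range _

/-! ### isomorphism is an equivalence relation -/

theorem IsIso.refl (F : Set (Set Plane)) : IsIso F F id where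
  bij := bijOn_id F
  compl := fun _ _ => rfl
  union := fun _ _ _ _ => rfl
  pr1 := fun _ _ => rfl
  pr2 := fun _ _ => rfl
  prod := fun _ _ _ _ _ _ => rfl

theorem IsIso.sub_X {F G : Set (Set Plane)} {φ : Set Plane → Set Plane} (h : IsIso F G φ)
    {A : Set Plane} (hA : A ∈ F) (hAX : A ⊆ X) : φ A ⊆ X := by
  have := h.pr1 A hA
  rw [pr1_of_subset hAX] at this
  rw [this]
  exact pr1_subset _

theorem IsIso.sub_Y {F G : Set (Set Plane)} {φ : Set Plane → Set Plane} (h : IsIso F G φ)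
    {A : Set Plane} (hA : A ∈ F) (hAY : A ⊆ Y) : φ A ⊆ Y := by
  have := h.pr2 A hA
  rw [pr2_of_subset hAY] at this
  rw [this]
  exact pr2_subset _

theorem IsIso.trans {F G H : Set (Set Plane)} {φ ψ : Set Plane → Set Plane}
    (h : IsIso F G φ) (h' : IsIso G H ψ) : IsIso F H (ψ ∘ φ) where
  bij := h'.bij.comp h.bij
  compl := fun S hS => by
    simp only [Function.comp]; rw [h.compl S hS, h'.compl _ (h.bij.mapsTo hS)]
  union := fun S hS T hT => by
    simp only [Function.comp]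
    rw [h.union S hS T hT, h'.union _ (h.bij.mapsTo hS) _ (h.bij.mapsTo hT)]
  pr1 := fun S hS => by
    simp only [Function.comp]; rw [h.pr1 S hS, h'.pr1 _ (h.bij.mapsTo hS)]
  pr2 := fun S hS => by
    simp only [Function.comp]; rw [h.pr2 S hS, h'.pr2 _ (h.bij.mapsTo hS)]
  prod := fun A hA B hB hAX hBY => by
    simp only [Function.comp]
    rw [h.prod A hA B hB hAX hBY, h'.prod _ (h.bij.mapsTo hA) _ (h.bij.mapsTo hB)
      (h.sub_X hA hAX) (h.sub_Y hB hBY)]

theorem IsIso.symm {F G : Set (Set Plane)} {φ : Set Plane → Set Plane}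
    (hF : IsProjAlg F) (hG : IsProjAlg G) (h : IsIso F G φ) :
    IsIso G F (Function.invFunOn φ F) := by
  set ψ := Function.invFunOn φ F with hψ
  have hinv : InvOn ψ φ F G := h.bij.invOn_invFunOn
  have hmaps : MapsTo ψ G F := h.bij.surjOn.mapsTo_invFunOn
  have hbij : BijOn ψ G F := (bijOn_comm hinv).2 h.bij
  have hr : ∀ S ∈ G, φ (ψ S) = S := fun S hS => hinv.2 hS
  refine ⟨hbij, ?_, ?_, ?_, ?_, ?_⟩
  · intro S hS
    apply h.bij.injOn (hmaps (hG.compl _ hS)) (hF.compl _ (hmaps hS))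
    rw [hr _ (hG.compl _ hS), h.compl _ (hmaps hS), hr _ hS]
  · intro S hS T hT
    apply h.bij.injOn (hmaps (hG.union _ hS _ hT)) (hF.union _ (hmaps hS) _ (hmaps hT))
    rw [hr _ (hG.union _ hS _ hT), h.union _ (hmaps hS) _ (hmaps hT), hr _ hS, hr _ hT]
  · intro S hS
    apply h.bij.injOn (hmaps (hG.pr1 _ hS)) (hF.pr1 _ (hmaps hS))
    rw [hr _ (hG.pr1 _ hS), h.pr1 _ (hmaps hS), hr _ hS]
  · intro S hS
    apply h.bij.injOn (hmaps (hG.pr2 _ hS)) (hF.pr2 _ (hmaps hS))
    rw [hr _ (hG.pr2 _ hS), h.pr2 _ (hmaps hS), hr _ hS]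
  · intro A hA B hB hAX hBY
    have h1 : ψ A ⊆ X := by
      have : H14.PA.pr1 (ψ A) = ψ A := by
        apply h.bij.injOn (hF.pr1 _ (hmaps hA)) (hmaps hA)
        rw [h.pr1 _ (hmaps hA), hr _ hA, pr1_of_subset hAX]
      rw [← this]
      exact pr1_subset _
    have h2 : ψ B ⊆ Y := by
      have : H14.PA.pr2 (ψ B) = ψ B := by
        apply h.bij.injOn (hF.pr2 _ (hmaps hB)) (hmaps hB)
        rw [h.pr2 _ (hmaps hB), hr _ hB, pr2_of_subset hBY]
      rw [← this]
      exact pr2_subset _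
    apply h.bij.injOn (hmaps (hG.prod _ hA _ hB hAX hBY)) (hF.prod _ (hmaps hA) _ (hmaps hB) h1 h2)
    rw [hr _ (hG.prod _ hA _ hB hAX hBY), h.prod _ (hmaps hA) _ (hmaps hB) h1 h2, hr _ hA, hr _ hB]

/-- isomorphism restricted to a class of algebras -/
def IsoP (p : Set (Set Plane) → Prop) (F G : {F // p F}) : Prop := Isomorphic F.1 G.1

theorem isoP_equivalence (p : Set (Set Plane) → Prop) (hp : ∀ F, p F → IsProjAlg F) :
    Equivalence (IsoP p) where
  refl := fun F => ⟨id, IsIso.refl _⟩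
  symm := fun {F G} h => by
    obtain ⟨φ, hφ⟩ := h
    exact ⟨_, hφ.symm (hp _ F.2) (hp _ G.2)⟩
  trans := fun {F G H} h h' => by
    obtain ⟨φ, hφ⟩ := h
    obtain ⟨ψ, hψ⟩ := h'
    exact ⟨_, hφ.trans hψ⟩

theorem quot_eq_iff (p : Set (Set Plane) → Prop) (hp : ∀ F, p F → IsProjAlg F) (F G : {F // p F}) :
    Quot.mk (IsoP p) F = Quot.mk (IsoP p) G ↔ IsoP p F G := by
  rw [Quot.eq, (isoP_equivalence p hp).eqvGen_iff]

/-! ### upper bound -/

theorem iso_of_theory {k : ℕ} (s s' : Fin k → Set Plane)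
    (h : ∀ t u : Term k, eval s t = eval s u ↔ eval s' t = eval s' u) :
    ∃ φ, IsIso (generated s) (generated s') φ := by
  classical
  have hex : ∀ T : Set Plane, ∃ t : Term k, T ∈ generated s → eval s t = T := by
    intro T
    by_cases hT : T ∈ generated s
    · rw [generated_eq_range] at hT
      obtain ⟨t, ht⟩ := hT
      exact ⟨t, fun _ => ht⟩
    · exact ⟨.empty, fun h => absurd h hT⟩
  choose τ hτ using hex
  have hmem : ∀ t : Term k, eval s t ∈ generated s := fun t => by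
    rw [generated_eq_range]; exact ⟨t, rfl⟩
  have hφ : ∀ t : Term k, eval s' (τ (eval s t)) = eval s' t := by
    intro t
    rw [← h]
    exact hτ _ (hmem t)
  refine ⟨fun T => eval s' (τ T), ⟨⟨?_, ?_, ?_⟩, ?_, ?_, ?_, ?_, ?_⟩⟩
  · intro T _
    rw [generated_eq_range]
    exact ⟨_, rfl⟩
  · intro T hT U hU hTU
    rw [generated_eq_range] at hT hU
    obtain ⟨t, rfl⟩ := hT
    obtain ⟨u, rfl⟩ := hU
    beta_reduce at hTU
    rw [hφ, hφ] at hTU
    exact (h t u).2 hTU
  · intro T hT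
    rw [generated_eq_range] at hT
    obtain ⟨t, rfl⟩ := hT
    exact ⟨eval s t, hmem t, hφ t⟩
  · intro S hS
    rw [generated_eq_range] at hS
    obtain ⟨t, rfl⟩ := hS
    rw [hφ]
    exact hφ (.compl t)
  · intro S hS T hT
    rw [generated_eq_range] at hS hT
    obtain ⟨t, rfl⟩ := hS
    obtain ⟨u, rfl⟩ := hT
    rw [hφ, hφ]
    exact hφ (.union t u)
  · intro S hS
    rw [generated_eq_range] at hS
    obtain ⟨t, rfl⟩ := hS
    rw [hφ]
    exact hφ (.pr1 t)
  · intro S hS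
    rw [generated_eq_range] at hS
    obtain ⟨t, rfl⟩ := hS
    rw [hφ]
    exact hφ (.pr2 t)
  · intro S hS T hT _ _
    rw [generated_eq_range] at hS hT
    obtain ⟨t, rfl⟩ := hS
    obtain ⟨u, rfl⟩ := hT
    rw [hφ, hφ]
    exact hφ (.prod t u)

theorem upper (k : ℕ) (p : Set (Set Plane) → Prop)
    (h1 : ∀ F, p F → ∃ s : Fin k → Set Plane, F = generated s) :
    Cardinal.mk (Quot (IsoP p)) ≤ Cardinal.continuum := by
  classical
  have hp : ∀ F, p F → IsProjAlg F := by
    intro F hF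
    obtain ⟨s, rfl⟩ := h1 F hF
    exact generated_isProjAlg s
  have hex : ∀ q : Quot (IsoP p), ∃ F : {F // p F}, ∃ s : Fin k → Set Plane,
      q = Quot.mk (IsoP p) F ∧ F.1 = generated s := by
    intro q
    obtain ⟨F, rfl⟩ := Quot.exists_rep q
    obtain ⟨s, hs⟩ := h1 F.1 F.2
    exact ⟨F, s, rfl, hs⟩
  choose Φ σ hσ using hex
  let th : Quot (IsoP p) → Set (Term k × Term k) := fun q =>
    {p | eval (σ q) p.1 = eval (σ q) p.2}
  have hinj : Function.Injective th := by
    intro q r hqr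
    rw [(hσ q).1, (hσ r).1, quot_eq_iff p hp]
    show Isomorphic _ _
    rw [(hσ q).2, (hσ r).2]
    apply iso_of_theory
    intro t u
    have : (t, u) ∈ th q ↔ (t, u) ∈ th r := by rw [hqr]
    exact this
  have h1 := Cardinal.mk_le_of_injective hinj
  refine h1.trans ?_
  rw [Cardinal.mk_set, ← Cardinal.two_power_aleph0]
  exact Cardinal.power_le_power_left two_ne_zero Cardinal.mk_le_aleph0

/-! ### lower bound -/

def RZ (Z : Set ℕ) : Set Plane :=
  {p | (∃ n : ℕ, p = ((n : ℝ), (n : ℝ) + 1)) ∨ (∃ n : ℕ, p = ((n : ℝ) + 1, (n : ℝ) + 1)) ∨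
    (∃ n ∈ Z, p = ((n : ℝ), 0))}

section terms

variable {k : ℕ} (i0 : Fin k)

def tX : Term k := .pr1 (.compl .empty)
def tY : Term k := .pr2 (.compl .empty)
def tI (t u : Term k) : Term k := .compl (.union (.compl t) (.compl u))
def tO : Term k := tI tX tY
def tD (t u : Term k) : Term k := tI t (.compl u)
def tNy (i0 : Fin k) (t : Term k) : Term k := .pr2 (tI (.gen i0) (.prod t tY))
def tNx (i0 : Fin k) (t : Term k) : Term k := .pr1 (tI (.gen i0) (.prod tX t))

def tPQ (i0 : Fin k) : ℕ → Term k × Term k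
  | 0 => (tO, tO)
  | n + 1 =>
    (tD (tNx i0 (tD (tD (tNy i0 (tPQ i0 n).1) tO) (tPQ i0 n).2)) (tPQ i0 n).1,
      tD (tD (tNy i0 (tPQ i0 n).1) tO) (tPQ i0 n).2)

def tT (i0 : Fin k) (n : ℕ) : Term k := tI (.gen i0) (.prod (tPQ i0 n).1 tO)

variable (s : Fin k → Set Plane)

theorem eval_tX : eval s tX = X := by
  simp only [tX, eval, compl_empty, pr1_univ]

theorem eval_tY : eval s tY = Y := by
  simp only [tY, eval, compl_empty, pr2_univ]

theorem eval_tI (t u : Term k) : eval s (tI t u) = eval s t ∩ eval s u := by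
  simp only [tI, eval, compl_union, compl_compl]

theorem eval_tO : eval s tO = {((0 : ℝ), (0 : ℝ))} := by
  rw [tO, eval_tI, eval_tX, eval_tY]
  ext ⟨x, y⟩
  simp [X, Y, and_comm]

theorem eval_tD (t u : Term k) : eval s (tD t u) = eval s t ∩ (eval s u)ᶜ := by
  rw [tD, eval_tI]; rfl

theorem mem_tNy (t : Term k) (p : Plane) : p ∈ eval s (tNy i0 t) ↔
    p.1 = 0 ∧ ∃ x, (x, p.2) ∈ s i0 ∧ (x, 0) ∈ eval s t := by
  show p ∈ H14.PA.pr2 (eval s (tI (.gen i0) (.prod t tY))) ↔ _
  rw [eval_tI]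
  show p ∈ H14.PA.pr2 (s i0 ∩ otimes (eval s t) (eval s tY)) ↔ _
  rw [eval_tY]
  simp [H14.PA.pr2, otimes, Y]

theorem mem_tNx (t : Term k) (p : Plane) : p ∈ eval s (tNx i0 t) ↔
    p.2 = 0 ∧ ∃ y, (p.1, y) ∈ s i0 ∧ (0, y) ∈ eval s t := by
  show p ∈ H14.PA.pr1 (eval s (tI (.gen i0) (.prod tX t))) ↔ _
  rw [eval_tI]
  show p ∈ H14.PA.pr1 (s i0 ∩ otimes (eval s tX) (eval s t)) ↔ _
  rw [eval_tX]
  simp [H14.PA.pr1, otimes, X]

theorem mem_RZ (Z : Set ℕ) (x y : ℝ) : (x, y) ∈ RZ Z ↔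
    (∃ n : ℕ, x = n ∧ y = n + 1) ∨ (∃ n : ℕ, x = n + 1 ∧ y = n + 1) ∨
      (∃ n ∈ Z, x = (n : ℕ) ∧ y = 0) := by
  simp [RZ, Prod.ext_iff]

theorem eval_tPQ (Z : Set ℕ) (hs : s i0 = RZ Z) (n : ℕ) :
    eval s (tPQ i0 n).1 = {((n : ℝ), (0 : ℝ))} ∧ eval s (tPQ i0 n).2 = {((0 : ℝ), (n : ℝ))} := by
  induction n with
  | zero => simp [tPQ, eval_tO]
  | succ n ih =>
    obtain ⟨ih1, ih2⟩ := ih
    have hQ : eval s (tD (tD (tNy i0 (tPQ i0 n).1) tO) (tPQ i0 n).2) =
        {((0 : ℝ), ((n + 1 : ℕ) : ℝ))} := by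
      rw [eval_tD, eval_tD, ih2, eval_tO]
      ext ⟨x, y⟩
      simp only [mem_inter_iff, mem_tNy, ih1, hs, mem_RZ, mem_singleton_iff, mem_compl_iff,
        Prod.mk.injEq]
      constructor
      · rintro ⟨⟨⟨h0, x', h1, h2, _⟩, h3⟩, h4⟩
        refine ⟨h0, ?_⟩
        subst h0 h2
        rcases h1 with ⟨m, hm1, hm2⟩ | ⟨m, hm1, hm2⟩ | ⟨m, _, hm1, hm2⟩
        · have : n = m := by exact_mod_cast hm1
          subst this
          push_cast; exact hm2
        · exfalso; apply h4; refine ⟨rfl, ?_⟩; rw [hm2, hm1]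
        · exfalso; apply h3; exact ⟨rfl, hm2⟩
      · rintro ⟨rfl, rfl⟩
        refine ⟨⟨⟨rfl, n, Or.inl ⟨n, rfl, by push_cast; rfl⟩, by simp⟩, ?_⟩, ?_⟩
        · rintro ⟨_, h⟩
          have : n + 1 = 0 := by exact_mod_cast h
          omega
        · rintro ⟨_, h⟩
          have : n + 1 = n := by exact_mod_cast h
          omega
    refine ⟨?_, hQ⟩
    show eval s (tD (tNx i0 (tD (tD (tNy i0 (tPQ i0 n).1) tO) (tPQ i0 n).2)) (tPQ i0 n).1) = _
    rw [eval_tD, ih1]
    ext ⟨x, y⟩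
    simp only [mem_inter_iff, mem_tNx, hQ, hs, mem_RZ, mem_singleton_iff, mem_compl_iff,
      Prod.mk.injEq]
    constructor
    · rintro ⟨⟨h0, y', h1, _, h2⟩, h3⟩
      refine ⟨?_, h0⟩
      subst h0 h2
      rcases h1 with ⟨m, hm1, hm2⟩ | ⟨m, hm1, hm2⟩ | ⟨m, _, hm1, hm2⟩
      · exfalso
        apply h3
        refine ⟨?_, rfl⟩
        rw [hm1]
        push_cast at hm2
        linarith
      · rw [hm1, hm2]
      · exfalso
        have : n + 1 = 0 := by exact_mod_cast hm2
        omega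
    · rintro ⟨rfl, rfl⟩
      refine ⟨⟨rfl, ((n + 1 : ℕ) : ℝ), Or.inr (Or.inl ⟨n, by push_cast; rfl, by push_cast; rfl⟩),
        by simp⟩, ?_⟩
      rintro ⟨h, _⟩
      have : n + 1 = n := by exact_mod_cast h
      omega

theorem eval_tT (Z : Set ℕ) (hs : s i0 = RZ Z) (n : ℕ) :
    (eval s (tT i0 n)).Nonempty ↔ n ∈ Z := by
  rw [tT, eval_tI]
  show (s i0 ∩ otimes (eval s (tPQ i0 n).1) (eval s tO)).Nonempty ↔ _
  rw [(eval_tPQ i0 s Z hs n).1, eval_tO, hs]
  constructor
  · rintro ⟨⟨x, y⟩, h1, h2, h3⟩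
    rw [mem_RZ] at h1
    simp only [mem_singleton_iff, Prod.mk.injEq, and_true, true_and] at h2 h3
    subst h2 h3
    rcases h1 with ⟨m, hm1, hm2⟩ | ⟨m, hm1, hm2⟩ | ⟨m, hm, hm1, _⟩
    · exfalso
      have : 0 = m + 1 := by exact_mod_cast hm2
      omega
    · exfalso
      have : 0 = m + 1 := by exact_mod_cast hm2
      omega
    · have : n = m := by exact_mod_cast hm1
      rwa [this]
  · intro hn
    refine ⟨((n : ℝ), 0), ?_, ?_, ?_⟩
    · rw [mem_RZ]
      exact Or.inr (Or.inr ⟨n, hn, rfl, rfl⟩)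
    · simp
    · simp

end terms

theorem IsIso.eval {k : ℕ} {F G : Set (Set Plane)} {φ : Set Plane → Set Plane}
    (hF : IsProjAlg F) (h : IsIso F G φ) (s : Fin k → Set Plane) (hs : ∀ i, s i ∈ F)
    (t : Term k) : φ (H14.PA.eval s t) = H14.PA.eval (fun i => φ (s i)) t := by
  have hempty : φ ∅ = ∅ := by
    have h1 := h.compl _ hF.empty
    have h2 := h.union _ hF.empty _ (hF.compl _ hF.empty)
    have h3 := h.compl _ (hF.compl _ hF.empty)
    rw [compl_compl] at h3
    rw [empty_union] at h2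
    rw [h1] at h2 h3
    -- h2 : (φ ∅)ᶜ = φ ∅ ∪ (φ ∅)ᶜ
    rw [union_compl_self] at h2
    exact compl_univ_iff.1 h2
  have hotimes : ∀ A ∈ F, ∀ B ∈ F, φ (otimes A B) = otimes (φ A) (φ B) := by
    intro A hA B hB
    have hX : φ X = X := by
      rw [← pr1_univ, ← compl_empty, h.pr1 _ (hF.compl _ hF.empty), h.compl _ hF.empty, hempty]
    have hY : φ Y = Y := by
      rw [← pr2_univ, ← compl_empty, h.pr2 _ (hF.compl _ hF.empty), h.compl _ hF.empty, hempty]
    have hinter : ∀ S ∈ F, ∀ T ∈ F, φ (S ∩ T) = φ S ∩ φ T := by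
      intro S hS T hT
      have e : S ∩ T = (Sᶜ ∪ Tᶜ)ᶜ := by rw [compl_union, compl_compl, compl_compl]
      rw [e, h.compl _ (hF.union _ (hF.compl _ hS) _ (hF.compl _ hT)),
        h.union _ (hF.compl _ hS) _ (hF.compl _ hT), h.compl _ hS, h.compl _ hT, compl_union,
        compl_compl, compl_compl]
    rw [← otimes_inter A B, h.prod _ (hF.inter hA hF.X_mem) _ (hF.inter hB hF.Y_mem)
      inter_subset_right inter_subset_right, hinter _ hA _ hF.X_mem, hinter _ hB _ hF.Y_mem,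
      hX, hY, otimes_inter]
  induction t with
  | gen i => rfl
  | empty => exact hempty
  | compl t ih =>
    show φ (H14.PA.eval s t)ᶜ = (H14.PA.eval _ t)ᶜ
    rw [h.compl _ (eval_mem hF s hs t), ih]
  | union t u iht ihu =>
    show φ (H14.PA.eval s t ∪ H14.PA.eval s u) = H14.PA.eval _ t ∪ H14.PA.eval _ u
    rw [h.union _ (eval_mem hF s hs t) _ (eval_mem hF s hs u), iht, ihu]
  | pr1 t ih =>
    show φ (H14.PA.pr1 (H14.PA.eval s t)) = H14.PA.pr1 (H14.PA.eval _ t)
    rw [h.pr1 _ (eval_mem hF s hs t), ih]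
  | pr2 t ih =>
    show φ (H14.PA.pr2 (H14.PA.eval s t)) = H14.PA.pr2 (H14.PA.eval _ t)
    rw [h.pr2 _ (eval_mem hF s hs t), ih]
  | prod t u iht ihu =>
    show φ (otimes (H14.PA.eval s t) (H14.PA.eval s u)) =
      otimes (H14.PA.eval _ t) (H14.PA.eval _ u)
    rw [hotimes _ (eval_mem hF s hs t) _ (eval_mem hF s hs u), iht, ihu]

/-- the generators -/
def SZ (k : ℕ) (Z : Set ℕ) (i : Fin k) : Set Plane :=
  if i.1 = 0 then RZ Z else {((i.1 : ℝ), (0 : ℝ))}

theorem SZ_injective (k : ℕ) (Z : Set ℕ) : Function.Injective (SZ k Z) := by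
  have hne : ∀ j : ℕ, RZ Z ≠ {((j : ℝ), (0 : ℝ))} := by
    intro j h
    have h1 : ((0 : ℝ), (1 : ℝ)) ∈ RZ Z := by
      rw [mem_RZ]
      exact Or.inl ⟨0, by simp⟩
    rw [h] at h1
    simp at h1
  intro i j hij
  unfold SZ at hij
  by_cases hi : i.1 = 0 <;> by_cases hj : j.1 = 0
  · exact Fin.ext (by omega)
  · rw [if_pos hi, if_neg hj] at hij
    exact absurd hij (hne _)
  · rw [if_neg hi, if_pos hj] at hij
    exact absurd hij.symm (hne _)
  · rw [if_neg hi, if_neg hj] at hij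
    have : ((i.1 : ℝ), (0 : ℝ)) = ((j.1 : ℝ), (0 : ℝ)) := by
      rw [Set.singleton_eq_singleton_iff] at hij
      exact hij
    rw [Prod.mk.injEq] at this
    exact Fin.ext (by exact_mod_cast this.1)

theorem lower (k : ℕ) (hk : 1 ≤ k) (p : Set (Set Plane) → Prop)
    (h1 : ∀ F, p F → ∃ s : Fin k → Set Plane, F = generated s)
    (h2 : ∀ Z, p (generated (SZ k Z))) :
    Cardinal.continuum ≤ Cardinal.mk (Quot (IsoP p)) := by
  classical
  have hp : ∀ F, p F → IsProjAlg F := by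
    intro F hF
    obtain ⟨s, rfl⟩ := h1 F hF
    exact generated_isProjAlg s
  let i0 : Fin k := ⟨0, by omega⟩
  have hS0 : ∀ Z, SZ k Z i0 = RZ Z := fun Z => by simp [SZ, i0]
  let c : Set ℕ → Quot (IsoP p) := fun Z => Quot.mk (IsoP p) ⟨generated (SZ k Z), h2 Z⟩
  have hfib : ∀ q : Quot (IsoP p), Cardinal.mk (c ⁻¹' {q}) ≤ Cardinal.aleph0 := by
    intro q
    rw [Cardinal.mk_le_aleph0_iff]
    by_cases hne : (c ⁻¹' {q}).Nonempty
    · obtain ⟨Z0, hZ0⟩ := hne
      have hZ0' : c Z0 = q := hZ0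
      have hphi : ∀ Z : (c ⁻¹' {q} : Set (Set ℕ)),
          ∃ φ, IsIso (generated (SZ k Z.1)) (generated (SZ k Z0)) φ := by
        rintro ⟨Z, hZ⟩
        have hZ' : c Z = q := hZ
        rw [← hZ0'] at hZ'
        exact (quot_eq_iff p hp _ _).1 hZ'
      choose Φ hΦ using hphi
      have hcount : Countable (generated (SZ k Z0)) := (generated_countable (SZ k Z0)).to_subtype
      let g : (c ⁻¹' {q} : Set (Set ℕ)) → (Fin k → (generated (SZ k Z0))) := fun Z i =>
        ⟨Φ Z (SZ k Z.1 i), (hΦ Z).bij.mapsTo (gen_mem (SZ k Z.1) i)⟩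
      have hginj : Function.Injective g := by
        intro Z W hZW
        have hZW' : (fun i => Φ Z (SZ k Z.1 i)) = (fun i => Φ W (SZ k W.1 i)) := by
          funext i
          exact congrArg Subtype.val (congrFun hZW i)
        have key : ∀ Z : (c ⁻¹' {q} : Set (Set ℕ)), ∀ n : ℕ,
            (eval (fun i => Φ Z (SZ k Z.1 i)) (tT i0 n)).Nonempty ↔ n ∈ Z.1 := by
          intro Z n
          rw [← eval_tT i0 (SZ k Z.1) Z.1 (hS0 _) n]
          have hpa := generated_isProjAlg (SZ k Z.1)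
          have h1 := (hΦ Z).eval hpa (SZ k Z.1) (gen_mem (SZ k Z.1)) (tT i0 n)
          have h2 := (hΦ Z).eval hpa (SZ k Z.1) (gen_mem (SZ k Z.1)) .empty
          rw [← h1]
          have hm := eval_mem hpa (SZ k Z.1) (gen_mem (SZ k Z.1)) (tT i0 n)
          rw [nonempty_iff_ne_empty, nonempty_iff_ne_empty, not_iff_not]
          constructor
          · intro h4
            apply (hΦ Z).bij.injOn hm hpa.empty
            rw [h4]
            exact h2.symm
          · intro h4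
            rw [h4]
            exact h2
        apply Subtype.ext
        ext n
        rw [← key Z n, ← key W n, hZW']
      exact hginj.countable
    · rw [not_nonempty_iff_eq_empty] at hne
      rw [hne]
      infer_instance
  have h1 := Cardinal.mk_le_mk_mul_of_mk_preimage_le c hfib
  by_contra hlt
  rw [not_le] at hlt
  have h2 : Cardinal.mk (Set ℕ) = Cardinal.continuum := by
    rw [Cardinal.mk_set, Cardinal.mk_nat, Cardinal.two_power_aleph0]
  rw [h2] at h1
  exact absurd h1 (not_le.2 (Cardinal.mul_lt_of_lt Cardinal.aleph0_le_continuum hlt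
    Cardinal.aleph0_lt_continuum))

theorem main (k : ℕ) (hk : 1 ≤ k) :
    Equivalence (@Iso k) ∧ Equivalence (@IsoDistinct k) ∧
      numberOfIsoClasses k = Cardinal.continuum ∧
      numberOfIsoClassesDistinct k = Cardinal.continuum := by
  have hp1 : ∀ F : Set (Set Plane), (∃ s : Fin k → Set Plane, F = generated s) →
      ∃ s : Fin k → Set Plane, F = generated s := fun F h => h
  have hp2 : ∀ F : Set (Set Plane), (∃ s : Fin k → Set Plane, Function.Injective s ∧
      F = generated s) → ∃ s : Fin k → Set Plane, F = generated s :=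
    fun F ⟨s, _, h⟩ => ⟨s, h⟩
  have hq : ∀ p : Set (Set Plane) → Prop, (∀ F, p F → ∃ s : Fin k → Set Plane, F = generated s) →
      ∀ F, p F → IsProjAlg F := by
    intro p h1 F hF
    obtain ⟨s, rfl⟩ := h1 F hF
    exact generated_isProjAlg s
  refine ⟨isoP_equivalence _ (hq _ hp1), isoP_equivalence _ (hq _ hp2), ?_, ?_⟩
  · exact le_antisymm (upper k _ hp1) (lower k hk _ hp1 fun Z => ⟨_, rfl⟩)
  · exact le_antisymm (upper k _ hp2) (lower k hk _ hp2 fun Z => ⟨_, SZ_injective k Z, rfl⟩)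

end H14.PA
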