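import Mathlib

open Polynomial

namespace Pool.Agent.H14.PRI

noncomputable section

variable {A : Type} [Ring A]

/-- the operator v -> sigma^n(v) a, in the opposite ring of additive endomorphisms -/
def tw (σ : A →+* A) (n : ℕ) (a : A) : (AddMonoid.End A)ᵐᵒᵖ :=
  MulOpposite.op ((AddMonoidHom.mulRight a).comp ((σ ^ n : A →+* A) : A →+ A))

theorem tw_app (σ : A →+* A) (n : ℕ) (a v : A) : (MulOpposite.unop (tw σ n a)) v = (σ ^ n) v * a := rfl

theorem tw_add (σ : A →+* A) (n : ℕ) (a b : A) : tw σ n (a + b) = tw σ n a + tw σ n b := by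
  apply MulOpposite.unop_injective
  ext v
  show (σ ^ n) v * (a + b) = (σ ^ n) v * a + (σ ^ n) v * b
  rw [mul_add]

theorem tw_zero (σ : A →+* A) (n : ℕ) : tw σ n 0 = 0 := by
  apply MulOpposite.unop_injective
  ext v
  show (σ ^ n) v * 0 = 0
  rw [mul_zero]

theorem tw_neg (σ : A →+* A) (n : ℕ) (a : A) : tw σ n (-a) = -tw σ n a := by
  apply MulOpposite.unop_injective
  ext v
  show (σ ^ n) v * (-a) = -((σ ^ n) v * a)
  rw [mul_neg]

theorem tw_mul (σ : A →+* A) (i j : ℕ) (a b : A) : tw σ i a * tw σ j b = tw σ (i + j) ((σ ^ j) a * b) := by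
  apply MulOpposite.unop_injective
  ext v
  show (σ ^ j) ((σ ^ i) v * a) * b = (σ ^ (i + j)) v * ((σ ^ j) a * b)
  rw [map_mul, add_comm i j, pow_add, mul_assoc]
  rfl

def twHom (σ : A →+* A) (n : ℕ) : A →+ (AddMonoid.End A)ᵐᵒᵖ where
  toFun := tw σ n
  map_zero' := tw_zero σ n
  map_add' := tw_add σ n

theorem tw_one (σ : A →+* A) : tw σ 0 1 = 1 := by
  apply MulOpposite.unop_injective
  ext v
  show (σ ^ 0) v * 1 = v
  rw [mul_one, pow_zero]; rfl

/-- skew polynomial ring with right coefficients, a x = x sigma(a) -/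
def R (σ : A →+* A) : Subring ((AddMonoid.End A)ᵐᵒᵖ)[X] where
  carrier := {f | ∀ n, ∃ a, f.coeff n = tw σ n a}
  mul_mem' := by
    intro f g hf hg n
    choose a ha using hf
    choose b hb using hg
    refine ⟨∑ p ∈ Finset.HasAntidiagonal.antidiagonal n, (σ ^ p.2) (a p.1) * b p.2, ?_⟩
    rw [coeff_mul]
    have h1 : tw σ n (∑ p ∈ Finset.HasAntidiagonal.antidiagonal n, (σ ^ p.2) (a p.1) * b p.2) =
      ∑ p ∈ Finset.HasAntidiagonal.antidiagonal n, tw σ n ((σ ^ p.2) (a p.1) * b p.2) := map_sum (twHom σ n) _ _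
    rw [h1]
    refine Finset.sum_congr rfl fun p hp => ?_
    rw [ha, hb, tw_mul, Finset.HasAntidiagonal.mem_antidiagonal.mp hp]
  one_mem' := by
    intro n
    by_cases hn : n = 0
    · subst hn; exact ⟨1, by rw [coeff_one_zero, tw_one]⟩
    · exact ⟨0, by rw [coeff_one, if_neg hn, tw_zero]⟩
  add_mem' := by
    intro f g hf hg n
    obtain ⟨a, ha⟩ := hf n
    obtain ⟨b, hb⟩ := hg n
    exact ⟨a + b, by rw [coeff_add, ha, hb, tw_add]⟩
  zero_mem' := fun n => ⟨0, by rw [coeff_zero, tw_zero]⟩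
  neg_mem' := by
    intro f hf n
    obtain ⟨a, ha⟩ := hf n
    exact ⟨-a, by rw [coeff_neg, ha, tw_neg]⟩

variable {σ : A →+* A}

/-- coefficient -/
def c (f : R σ) (n : ℕ) : A := (MulOpposite.unop (f.1.coeff n)) 1

theorem coeff_eq (f : R σ) (n : ℕ) : f.1.coeff n = tw σ n (c f n) := by
  obtain ⟨a, ha⟩ := f.2 n
  have : c f n = a := by
    rw [c, ha, tw_app, map_one, one_mul]
  rw [this, ha]

theorem c_of {f : R σ} {n : ℕ} {a : A} (h : f.1.coeff n = tw σ n a) : c f n = a := by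
  rw [c, h, tw_app, map_one, one_mul]

theorem c_ext {f g : R σ} (h : ∀ n, c f n = c g n) : f = g := by
  apply Subtype.ext
  ext n : 1
  rw [coeff_eq, coeff_eq, h]

theorem c_add (f g : R σ) (n : ℕ) : c (f + g) n = c f n + c g n := by
  apply c_of
  rw [tw_add, ← coeff_eq, ← coeff_eq]; exact coeff_add _ _ _

theorem c_neg (f : R σ) (n : ℕ) : c (-f) n = -c f n := by
  apply c_of
  rw [tw_neg, ← coeff_eq]; exact coeff_neg _ _

theorem c_sub (f g : R σ) (n : ℕ) : c (f - g) n = c f n - c g n := by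
  rw [sub_eq_add_neg, c_add, c_neg, sub_eq_add_neg]

theorem c_zero (n : ℕ) : c (0 : R σ) n = 0 := by
  apply c_of
  rw [tw_zero]; exact coeff_zero _

theorem c_mul (f g : R σ) (n : ℕ) : c (f * g) n = ∑ p ∈ Finset.HasAntidiagonal.antidiagonal n, (σ ^ p.2) (c f p.1) * c g p.2 := by
  apply c_of
  have h1 : tw σ n (∑ p ∈ Finset.HasAntidiagonal.antidiagonal n, (σ ^ p.2) (c f p.1) * c g p.2) =
      ∑ p ∈ Finset.HasAntidiagonal.antidiagonal n, tw σ n ((σ ^ p.2) (c f p.1) * c g p.2) := map_sum (twHom σ n) _ _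
  rw [h1]
  have h2 : (f * g).1.coeff n = ∑ p ∈ Finset.HasAntidiagonal.antidiagonal n, f.1.coeff p.1 * g.1.coeff p.2 := coeff_mul _ _ _
  rw [h2]
  refine Finset.sum_congr rfl fun p hp => ?_
  rw [coeff_eq, coeff_eq, tw_mul, Finset.HasAntidiagonal.mem_antidiagonal.mp hp]

def io (σ : A →+* A) (a : A) : R σ := ⟨C (tw σ 0 a), fun n => by
  by_cases hn : n = 0
  · subst hn; exact ⟨a, by rw [coeff_C_zero]⟩
  · exact ⟨0, by rw [coeff_C_of_ne_zero hn, tw_zero]⟩⟩

theorem c_io_zero (a : A) : c (io σ a) 0 = a := c_of (by simp [io])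
theorem c_io_ne (a : A) {n : ℕ} (hn : n ≠ 0) : c (io σ a) n = 0 :=
  c_of (by rw [tw_zero]; exact coeff_C_of_ne_zero hn)

def xx (σ : A →+* A) : R σ := ⟨monomial 1 (tw σ 1 1), fun n => by
  rw [coeff_monomial]
  split_ifs with h
  · subst h; exact ⟨1, rfl⟩
  · exact ⟨0, by rw [tw_zero]⟩⟩

theorem c_xx_one : c (xx σ) 1 = 1 := c_of (by simp [xx])
theorem c_xx_ne {n : ℕ} (hn : n ≠ 1) : c (xx σ) n = 0 :=
  c_of (by rw [tw_zero]; exact coeff_monomial_of_ne _ hn)

theorem c_mul_zero (f g : R σ) : c (f * g) 0 = c f 0 * c g 0 := by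
  rw [c_mul]; simp

theorem c_mul_one (f g : R σ) : c (f * g) 1 = σ (c f 0) * c g 1 + c f 1 * c g 0 := by
  rw [c_mul, Finset.Nat.antidiagonal_succ]
  simp

theorem c_io_mul (a : A) (f : R σ) (n : ℕ) : c (io σ a * f) n = (σ ^ n) a * c f n := by
  rw [c_mul, Finset.sum_eq_single (0, n)]
  · rw [c_io_zero]
  · intro p hp hne
    have h1 := Finset.HasAntidiagonal.mem_antidiagonal.mp hp
    have : p.1 ≠ 0 := by
      intro h0
      apply hne
      ext
      · exact h0
      · simp only; omega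
    rw [c_io_ne _ this, map_zero, zero_mul]
  · intro h; exact absurd (Finset.HasAntidiagonal.mem_antidiagonal.mpr (by simp)) h

theorem c_mul_io (f : R σ) (a : A) (n : ℕ) : c (f * io σ a) n = c f n * a := by
  rw [c_mul, Finset.sum_eq_single (n, 0)]
  · rw [c_io_zero]; rfl
  · intro p hp hne
    have h1 := Finset.HasAntidiagonal.mem_antidiagonal.mp hp
    have : p.2 ≠ 0 := by
      intro h0
      apply hne
      ext
      · simp only; omega
      · exact h0
    rw [c_io_ne _ this, mul_zero]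
  · intro h; exact absurd (Finset.HasAntidiagonal.mem_antidiagonal.mpr (by simp)) h

theorem c_xx_mul_succ (f : R σ) (n : ℕ) : c (xx σ * f) (n + 1) = c f n := by
  rw [c_mul, Finset.sum_eq_single (1, n)]
  · rw [c_xx_one, map_one, one_mul]
  · intro p hp hne
    have h1 := Finset.HasAntidiagonal.mem_antidiagonal.mp hp
    have : p.1 ≠ 1 := by
      intro h0
      apply hne
      ext
      · exact h0
      · simp only; omega
    rw [c_xx_ne this, map_zero, zero_mul]
  · intro h; exact absurd (Finset.HasAntidiagonal.mem_antidiagonal.mpr (by simp; omega)) h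

theorem c_xx_mul_zero (f : R σ) : c (xx σ * f) 0 = 0 := by
  rw [c_mul_zero, c_xx_ne (by norm_num), zero_mul]

theorem c_mul_xx_succ (f : R σ) (n : ℕ) : c (f * xx σ) (n + 1) = σ (c f n) := by
  rw [c_mul, Finset.sum_eq_single (n, 1)]
  · rw [c_xx_one, pow_one, mul_one]
  · intro p hp hne
    have h1 := Finset.HasAntidiagonal.mem_antidiagonal.mp hp
    have : p.2 ≠ 1 := by
      intro h0
      apply hne
      ext
      · simp only; omega
      · exact h0
    rw [c_xx_ne this, mul_zero]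
  · intro h; exact absurd (Finset.HasAntidiagonal.mem_antidiagonal.mpr (by simp)) h

/-- degree at most m -/
def dle (f : R σ) (m : ℕ) : Prop := ∀ k, m < k → c f k = 0

theorem exists_dle (f : R σ) : ∃ m, dle f m := by
  refine ⟨f.1.natDegree, fun k hk => c_of ?_⟩
  rw [tw_zero]
  exact coeff_eq_zero_of_natDegree_lt hk

theorem dle.mul {f g : R σ} {m n : ℕ} (hf : dle f m) (hg : dle g n) : dle (f * g) (m + n) := by
  intro k hk
  rw [c_mul]
  apply Finset.sum_eq_zero
  intro p hp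
  have h1 := Finset.HasAntidiagonal.mem_antidiagonal.mp hp
  by_cases h : m < p.1
  · rw [hf _ h, map_zero, zero_mul]
  · rw [hg p.2 (by omega), mul_zero]

theorem c_mul_top {f g : R σ} {m n : ℕ} (hf : dle f m) (hg : dle g n) :
    c (f * g) (m + n) = (σ ^ n) (c f m) * c g n := by
  rw [c_mul, Finset.sum_eq_single (m, n)]
  · intro p hp hne
    have h1 := Finset.HasAntidiagonal.mem_antidiagonal.mp hp
    by_cases h : m < p.1
    · rw [hf _ h, map_zero, zero_mul]
    · rcases eq_or_ne p.1 m with h2 | h2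
      · exfalso; apply hne
        ext
        · exact h2
        · simp only; omega
      · rw [hg p.2 (by omega), mul_zero]
  · intro h; exact absurd (by simp) h

theorem exists_lead (f : R σ) (hf : f ≠ 0) : ∃ m, dle f m ∧ c f m ≠ 0 := by
  classical
  let m := Nat.find (exists_dle f)
  refine ⟨m, Nat.find_spec (exists_dle f), ?_⟩
  intro h0
  by_cases hm : m = 0
  · apply hf
    apply c_ext
    intro n
    rw [c_zero]
    by_cases hn : n = 0
    · rw [hn, ← hm]; exact h0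
    · exact Nat.find_spec (exists_dle f) n (by
        show m < n
        omega)
  · have : dle f (m - 1) := by
      intro k hk
      by_cases hkm : k = m
      · rw [hkm]; exact h0
      · exact Nat.find_spec (exists_dle f) k (by
          show m < k
          omega)
    have h2 := Nat.find_min' (exists_dle f) this
    have h3 : m ≤ m - 1 := h2
    omega

theorem pow_ne [IsDomain A] (hσ : ∀ a, a ≠ 0 → IsUnit (σ a)) (n : ℕ) {a : A} (ha : a ≠ 0) : (σ ^ n) a ≠ 0 := by
  induction n with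
  | zero => simpa using ha
  | succ n ih =>
    rw [pow_succ']
    show σ ((σ ^ n) a) ≠ 0
    exact (hσ _ ih).ne_zero

theorem domain [IsDomain A] (hσ : ∀ a, a ≠ 0 → IsUnit (σ a)) (f g : R σ) (h : f * g = 0) : f = 0 ∨ g = 0 := by
  by_contra hcon
  push Not at hcon
  obtain ⟨m, hm1, hm2⟩ := exists_lead f hcon.1
  obtain ⟨n, hn1, hn2⟩ := exists_lead g hcon.2
  have h1 := c_mul_top hm1 hn1
  rw [h, c_zero] at h1
  exact mul_ne_zero (pow_ne hσ n hm2) hn2 h1.symm

/-- right ideals are principal -/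
theorem right_principal [IsDomain A] (hσ : ∀ a, a ≠ 0 → IsUnit (σ a))
    (hA : ∀ I : AddSubmonoid A, (∀ x r : A, x ∈ I → x * r ∈ I) → ∃ a : A, ∀ x : A, x ∈ I ↔ ∃ r : A, x = a * r)
    (I : AddSubmonoid (R σ)) (hI : ∀ x r : R σ, x ∈ I → x * r ∈ I) :
    ∃ a : R σ, ∀ x : R σ, x ∈ I ↔ ∃ r : R σ, x = a * r := by
  classical
  have hneg : ∀ x ∈ I, -x ∈ I := fun x hx => by
    have := hI x (-1) hx
    simpa using this
  have hsub : ∀ x ∈ I, ∀ y ∈ I, x - y ∈ I := fun x hx y hy => by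
    rw [sub_eq_add_neg]; exact I.add_mem hx (hneg y hy)
  by_cases h0 : ∀ x ∈ I, x = 0
  · refine ⟨0, fun x => ⟨fun hx => ⟨0, by rw [h0 x hx, zero_mul]⟩, ?_⟩⟩
    rintro ⟨r, rfl⟩
    rw [zero_mul]; exact I.zero_mem
  push Not at h0
  have hex : ∃ n, ∃ f ∈ I, f ≠ 0 ∧ dle f n := by
    obtain ⟨f, hf, hf0⟩ := h0
    obtain ⟨m, hm⟩ := exists_dle f
    exact ⟨m, f, hf, hf0, hm⟩
  obtain ⟨n, hn, hmin⟩ : ∃ n, (∃ f ∈ I, f ≠ 0 ∧ dle f n) ∧ ∀ m < n, ¬ ∃ f ∈ I, f ≠ 0 ∧ dle f m :=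
    ⟨Nat.find hex, Nat.find_spec hex, fun m hm => Nat.find_min hex hm⟩
  have hmin' : ∀ f ∈ I, dle f n → c f n = 0 → f = 0 := by
    intro f hf hd hc0
    by_contra hf0
    obtain ⟨m, hm1, hm2⟩ := exists_lead f hf0
    have hmn : m < n := by
      by_contra hcon
      rcases Nat.lt_or_ge n m with h | h
      · exact hm2 (hd m h)
      · have : m = n := by omega
        rw [this] at hm2
        exact hm2 hc0
    exact hmin m hmn ⟨f, hf, hf0, hm1⟩
  let Lc : AddSubmonoid A :=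
    { carrier := {b | ∃ f ∈ I, dle f n ∧ c f n = b}
      zero_mem' := ⟨0, I.zero_mem, fun k _ => c_zero k, c_zero n⟩
      add_mem' := by
        rintro a b ⟨f, hf, hfd, rfl⟩ ⟨g, hg, hgd, rfl⟩
        exact ⟨f + g, I.add_mem hf hg, fun k hk => by rw [c_add, hfd k hk, hgd k hk, add_zero], c_add _ _ _⟩ }
  obtain ⟨b, hb⟩ := hA Lc (by
    rintro _ r ⟨f, hf, hfd, rfl⟩
    exact ⟨f * io σ r, hI _ _ hf, fun k hk => by rw [c_mul_io, hfd k hk, zero_mul], c_mul_io _ _ _⟩)
  obtain ⟨f, hf, hfd, hfb⟩ := (hb b).mpr ⟨1, (mul_one b).symm⟩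
  have hb0 : b ≠ 0 := by
    rintro rfl
    obtain ⟨g, hg, hg0, hgd⟩ := hn
    apply hg0
    apply hmin' g hg hgd
    obtain ⟨r, hr⟩ := (hb (c g n)).mp ⟨g, hg, hgd, rfl⟩
    rw [hr, zero_mul]
  obtain ⟨u, hu⟩ := hσ b hb0
  -- monic element
  have hmon : ∀ k, ∃ q : R σ, dle (f * q) (n + 1 + k) ∧ c (f * q) (n + 1 + k) = 1 := by
    intro k
    induction k with
    | zero =>
      refine ⟨xx σ * io σ (↑u⁻¹), ?_, ?_⟩
      · intro j hj
        rw [← mul_assoc, c_mul_io]
        obtain ⟨j', rfl⟩ : ∃ j', j = j' + 1 := ⟨j - 1, by omega⟩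
        rw [c_mul_xx_succ, hfd j' (by omega), map_zero, zero_mul]
      · rw [← mul_assoc, c_mul_io, add_zero, c_mul_xx_succ, hfb, ← hu, Units.mul_inv]
    | succ k ih =>
      obtain ⟨q, hq1, hq2⟩ := ih
      refine ⟨q * xx σ, ?_, ?_⟩
      · intro j hj
        rw [← mul_assoc]
        obtain ⟨j', rfl⟩ : ∃ j', j = j' + 1 := ⟨j - 1, by omega⟩
        rw [c_mul_xx_succ, hq1 j' (by omega), map_zero]
      · rw [← mul_assoc, show n + 1 + (k + 1) = (n + 1 + k) + 1 by ring, c_mul_xx_succ, hq2, map_one]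
  have hmain : ∀ m, ∀ g ∈ I, dle g m → ∃ r, g = f * r := by
    intro m
    induction m using Nat.strong_induction_on with
    | _ m ih =>
      intro g hg hgd
      have hfin : ∀ h : R σ, (∃ r, h = f * r) → dle (g - h) m → c (g - h) m = 0 → n ≤ m → ∃ r, g = f * r := by
        rintro h ⟨r, rfl⟩ hd hc0 hnm
        have hmem : g - f * r ∈ I := hsub g hg _ (hI f r hf)
        by_cases hm0 : m = n
        · rw [hm0] at hd hc0
          have := hmin' _ hmem hd hc0
          exact ⟨r, sub_eq_zero.mp this⟩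
        · have hd' : dle (g - f * r) (m - 1) := by
            intro k hk
            by_cases hkm : k = m
            · rw [hkm]; exact hc0
            · exact hd k (by omega)
          obtain ⟨r', hr'⟩ := ih (m - 1) (by omega) _ hmem hd'
          refine ⟨r' + r, ?_⟩
          rw [mul_add, ← hr', sub_add_cancel]
      rcases lt_trichotomy m n with hmn | hmn | hmn
      · by_cases hg0 : g = 0
        · exact ⟨0, by rw [hg0, mul_zero]⟩
        · exact absurd ⟨g, hg, hg0, hgd⟩ (hmin m hmn)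
      · subst hmn
        obtain ⟨r, hr⟩ := (hb (c g m)).mp ⟨g, hg, hgd, rfl⟩
        refine hfin (f * io σ r) ⟨_, rfl⟩ ?_ ?_ le_rfl
        · intro k hk
          rw [c_sub, c_mul_io, hgd k hk, hfd k hk, zero_mul, sub_zero]
        · rw [c_sub, c_mul_io, hfb, hr, sub_self]
      · obtain ⟨q, hq1, hq2⟩ := hmon (m - n - 1)
        have e : n + 1 + (m - n - 1) = m := by omega
        rw [e] at hq1 hq2
        refine hfin (f * (q * io σ (c g m))) ⟨_, rfl⟩ ?_ ?_ hmn.le
        · intro k hk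
          rw [c_sub, ← mul_assoc, c_mul_io, hgd k hk, hq1 k hk, zero_mul, sub_zero]
        · rw [c_sub, ← mul_assoc, c_mul_io, hq2, one_mul, sub_self]
  refine ⟨f, fun g => ⟨fun hg => ?_, ?_⟩⟩
  · obtain ⟨m, hm⟩ := exists_dle g
    exact hmain m g hg hm
  · rintro ⟨r, rfl⟩
    exact hI f r hf

/-! ### products of ideals -/

def prodI (L : List (AddSubmonoid (R σ))) : AddSubmonoid (R σ) :=
  L.foldr (fun P J => AddSubmonoid.closure {x : R σ | ∃ a ∈ P, ∃ b ∈ J, x = a * b}) ⊤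

theorem prodI_nil : prodI ([] : List (AddSubmonoid (R σ))) = ⊤ := rfl
theorem prodI_cons (P : AddSubmonoid (R σ)) (L : List (AddSubmonoid (R σ))) :
    prodI (P :: L) = AddSubmonoid.closure {x : R σ | ∃ a ∈ P, ∃ b ∈ prodI L, x = a * b} := rfl

def Two (P : AddSubmonoid (R σ)) : Prop := ∀ x r : R σ, x ∈ P → r * x ∈ P ∧ x * r ∈ P

theorem prodI_two (L : List (AddSubmonoid (R σ))) (hL : ∀ P ∈ L, Two P) : Two (prodI L) := by
  induction L with
  | nil => intro x r _; exact ⟨AddSubmonoid.mem_top _, AddSubmonoid.mem_top _⟩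
  | cons P L ih =>
    have ih' := ih (fun Q hQ => hL Q (List.mem_cons_of_mem _ hQ))
    have hP := hL P List.mem_cons_self
    intro x r hx
    rw [prodI_cons] at hx ⊢
    induction hx using AddSubmonoid.closure_induction with
    | mem x hx =>
      obtain ⟨a, ha, b, hb, rfl⟩ := hx
      exact ⟨AddSubmonoid.subset_closure ⟨r * a, (hP a r ha).1, b, hb, by rw [mul_assoc]⟩,
        AddSubmonoid.subset_closure ⟨a, ha, b * r, (ih' b r hb).2, by rw [mul_assoc]⟩⟩
    | zero => rw [mul_zero, zero_mul]; exact ⟨AddSubmonoid.zero_mem _, AddSubmonoid.zero_mem _⟩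
    | add x y _ _ h1 h2 =>
      rw [mul_add, add_mul]
      exact ⟨AddSubmonoid.add_mem _ h1.1 h2.1, AddSubmonoid.add_mem _ h1.2 h2.2⟩

theorem prodI_le (L : List (AddSubmonoid (R σ))) (hL : ∀ P ∈ L, Two P) : ∀ P ∈ L, prodI L ≤ P := by
  induction L with
  | nil => intro P hP; simp at hP
  | cons Q L ih =>
    intro P hP
    rw [prodI_cons, AddSubmonoid.closure_le]
    rintro _ ⟨a, ha, b, hb, rfl⟩
    rcases List.mem_cons.mp hP with h | h
    · subst h
      exact (hL P List.mem_cons_self a b ha).2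
    · exact (hL P (List.mem_cons_of_mem _ h) b a (ih (fun Q hQ => hL Q (List.mem_cons_of_mem _ hQ)) P h hb)).1

def Good (J : AddSubmonoid (R σ)) : Prop :=
  (∃ f ∈ J, c f 0 ≠ 0) ∨ ((∀ f ∈ J, c f 0 = 0) ∧ ∀ a : A, ∀ f ∈ J, ∃ g ∈ J, c g 1 = a * c f 1)

theorem prodI_good [IsDomain A] (hσ : ∀ a, a ≠ 0 → IsUnit (σ a)) (L : List (AddSubmonoid (R σ)))
    (hL : ∀ P ∈ L, Two P) (hx : ∀ P ∈ L, xx σ ∈ P) : Good (prodI L) := by
  induction L with
  | nil => exact Or.inl ⟨1, AddSubmonoid.mem_top _, by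
      have : (1 : R σ) = io σ 1 := by
        apply Subtype.ext
        show (1 : ((AddMonoid.End A)ᵐᵒᵖ)[X]) = C (tw σ 0 1)
        rw [tw_one, map_one]
      rw [this, c_io_zero]; exact one_ne_zero⟩
  | cons P L ih =>
    have hL' : ∀ Q ∈ L, Two Q := fun Q hQ => hL Q (List.mem_cons_of_mem _ hQ)
    have ih' := ih hL' (fun Q hQ => hx Q (List.mem_cons_of_mem _ hQ))
    have hP := hL P List.mem_cons_self
    have hxP := hx P List.mem_cons_self
    have hJ' := prodI_two L hL'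
    rw [prodI_cons]
    set J' := prodI L with hJ'def
    by_cases hp : ∃ p ∈ P, c p 0 ≠ 0
    · obtain ⟨p0, hp0, hp00⟩ := hp
      rcases ih' with ⟨j, hj, hj0⟩ | ⟨hz, hT⟩
      · left
        exact ⟨p0 * j, AddSubmonoid.subset_closure ⟨p0, hp0, j, hj, rfl⟩, by
          rw [c_mul_zero]; exact mul_ne_zero hp00 hj0⟩
      · right
        have hcl : ∀ f ∈ AddSubmonoid.closure {x : R σ | ∃ a ∈ P, ∃ b ∈ J', x = a * b},
            c f 0 = 0 ∧ ∃ j ∈ J', c f 1 = c j 1 := by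
          intro f hf
          induction hf using AddSubmonoid.closure_induction with
          | mem x hx =>
            obtain ⟨a, ha, b, hb, rfl⟩ := hx
            refine ⟨by rw [c_mul_zero, hz b hb, mul_zero], ?_⟩
            obtain ⟨j, hj, hj1⟩ := hT (σ (c a 0)) b hb
            exact ⟨j, hj, by rw [c_mul_one, hz b hb, mul_zero, add_zero, hj1]⟩
          | zero => exact ⟨c_zero 0, 0, J'.zero_mem, rfl⟩
          | add x y _ _ h1 h2 =>
            obtain ⟨j1, hj1, e1⟩ := h1.2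
            obtain ⟨j2, hj2, e2⟩ := h2.2
            exact ⟨by rw [c_add, h1.1, h2.1, add_zero], j1 + j2, J'.add_mem hj1 hj2, by rw [c_add, c_add, e1, e2]⟩
        refine ⟨fun f hf => (hcl f hf).1, fun a f hf => ?_⟩
        obtain ⟨j, hj, e⟩ := (hcl f hf).2
        obtain ⟨u, hu⟩ := hσ _ hp00
        obtain ⟨j2, hj2, e2⟩ := hT (↑u⁻¹ * a) j hj
        refine ⟨p0 * j2, AddSubmonoid.subset_closure ⟨p0, hp0, j2, hj2, rfl⟩, ?_⟩
        rw [c_mul_one, hz j2 hj2, mul_zero, add_zero, e2, ← hu, e, ← mul_assoc, ← mul_assoc, Units.mul_inv, one_mul]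
    · push Not at hp
      right
      have hcl : ∀ f ∈ AddSubmonoid.closure {x : R σ | ∃ a ∈ P, ∃ b ∈ J', x = a * b},
          c f 0 = 0 ∧ ∃ j ∈ J', c f 1 = c j 0 := by
        intro f hf
        induction hf using AddSubmonoid.closure_induction with
        | mem x hx =>
          obtain ⟨a, ha, b, hb, rfl⟩ := hx
          refine ⟨by rw [c_mul_zero, hp a ha, zero_mul], io σ (c a 1) * b, (hJ' b _ hb).1, ?_⟩
          rw [c_mul_one, hp a ha, map_zero, zero_mul, zero_add, c_mul_zero, c_io_zero]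
        | zero => exact ⟨c_zero 0, 0, J'.zero_mem, by rw [c_zero, c_zero]⟩
        | add x y _ _ h1 h2 =>
          obtain ⟨j1, hj1, e1⟩ := h1.2
          obtain ⟨j2, hj2, e2⟩ := h2.2
          exact ⟨by rw [c_add, h1.1, h2.1, add_zero], j1 + j2, J'.add_mem hj1 hj2, by rw [c_add, c_add, e1, e2]⟩
      refine ⟨fun f hf => (hcl f hf).1, fun a f hf => ?_⟩
      obtain ⟨j, hj, e⟩ := (hcl f hf).2
      refine ⟨xx σ * (io σ a * j), AddSubmonoid.subset_closure ⟨xx σ, hxP, io σ a * j, (hJ' j _ hj).1, rfl⟩, ?_⟩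
      rw [c_xx_mul_succ, c_mul_zero, c_io_zero, e]

/-- the main abstract statement -/
theorem not_product [IsDomain A] (hσ : ∀ a, a ≠ 0 → IsUnit (σ a)) (Cc : AddSubmonoid A)
    (hC1 : ∀ x ∈ Cc, ∀ r, x * r ∈ Cc) (hC2 : ∀ a, ∀ x ∈ Cc, σ a * x ∈ Cc) (hC3 : ∃ a, ∃ x ∈ Cc, a * x ∉ Cc) :
    ∃ I : AddSubmonoid (R σ), Two I ∧ ∀ L : List (AddSubmonoid (R σ)),
      (∀ P ∈ L, Two P ∧ (1 : R σ) ∉ P ∧ ∀ a b : R σ, (∀ r : R σ, a * r * b ∈ P) → a ∈ P ∨ b ∈ P) → prodI L ≠ I := by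
  let I : AddSubmonoid (R σ) :=
    { carrier := {f | c f 0 = 0 ∧ c f 1 ∈ Cc}
      zero_mem' := ⟨c_zero 0, by rw [c_zero]; exact Cc.zero_mem⟩
      add_mem' := by
        rintro f g ⟨h1, h2⟩ ⟨h3, h4⟩
        exact ⟨by rw [c_add, h1, h3, add_zero], by rw [c_add]; exact Cc.add_mem h2 h4⟩ }
  refine ⟨I, ?_, ?_⟩
  · rintro f r ⟨h1, h2⟩
    refine ⟨⟨by rw [c_mul_zero, h1, mul_zero], ?_⟩, by rw [c_mul_zero, h1, zero_mul], ?_⟩
    · rw [c_mul_one, h1, mul_zero, add_zero]; exact hC2 _ _ h2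
    · rw [c_mul_one, h1, map_zero, zero_mul, zero_add]; exact hC1 _ h2 _
  · intro L hL hLI
    have hTwo : ∀ P ∈ L, Two P := fun P hP => (hL P hP).1
    have hx : ∀ P ∈ L, xx σ ∈ P := by
      intro P hP
      have hIP : I ≤ P := hLI ▸ prodI_le L hTwo P hP
      have := (hL P hP).2.2 (xx σ) (xx σ) (fun r => hIP ⟨?_, ?_⟩)
      · exact this.elim id id
      · rw [c_mul_zero, c_xx_mul_zero, zero_mul]
      · rw [c_mul_one, c_xx_mul_zero, map_zero, zero_mul, zero_add, c_xx_ne (by norm_num), mul_zero]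
        exact Cc.zero_mem
    have hg := prodI_good hσ L hTwo hx
    rw [hLI] at hg
    rcases hg with ⟨f, hf, hf0⟩ | ⟨_, hT⟩
    · exact hf0 hf.1
    · obtain ⟨a, x, hxC, hax⟩ := hC3
      obtain ⟨g, hg, hg1⟩ := hT a (xx σ * io σ x) ⟨c_xx_mul_zero _, by rw [c_xx_mul_succ, c_io_zero]; exact hxC⟩
      rw [c_xx_mul_succ, c_io_zero] at hg1
      apply hax
      rw [← hg1]
      exact hg.2

end

end Pool.Agent.H14.PRI
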