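import Mathlib

open HahnSeries

namespace Pool.Agent.H14.PRI

noncomputable section

set_option synthInstance.maxHeartbeats 400000

variable {L : Type} [Field L]

/-- the operator v -> a tau^n(v) -/
def tz (τ : L ≃+* L) (n : ℤ) (a : L) : AddMonoid.End L :=
  (AddMonoidHom.mulLeft a).comp (((τ ^ n : L ≃+* L) : L →+* L) : L →+ L)

theorem tz_app (τ : L ≃+* L) (n : ℤ) (a v : L) : (tz τ n a) v = a * (τ ^ n) v := rfl

theorem tz_add (τ : L ≃+* L) (n : ℤ) (a b : L) : tz τ n (a + b) = tz τ n a + tz τ n b := by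
  ext v
  show (a + b) * (τ ^ n) v = a * (τ ^ n) v + b * (τ ^ n) v
  rw [add_mul]

theorem tz_zero (τ : L ≃+* L) (n : ℤ) : tz τ n 0 = 0 := by
  ext v
  show 0 * (τ ^ n) v = 0
  rw [zero_mul]

theorem tz_neg (τ : L ≃+* L) (n : ℤ) (a : L) : tz τ n (-a) = -tz τ n a := by
  ext v
  show (-a) * (τ ^ n) v = -(a * (τ ^ n) v)
  rw [neg_mul]

theorem tz_mul (τ : L ≃+* L) (i j : ℤ) (a b : L) : tz τ i a * tz τ j b = tz τ (i + j) (a * (τ ^ i) b) := by
  ext v
  show a * (τ ^ i) (b * (τ ^ j) v) = (a * (τ ^ i) b) * (τ ^ (i + j)) v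
  rw [map_mul, zpow_add, mul_assoc]
  rfl

theorem tz_one (τ : L ≃+* L) : tz τ 0 1 = 1 := by
  ext v
  show 1 * (τ ^ (0 : ℤ)) v = v
  rw [one_mul, zpow_zero]; rfl

theorem tz_at_one (τ : L ≃+* L) (n : ℤ) (a : L) : (tz τ n a) 1 = a := by
  rw [tz_app, map_one, mul_one]

theorem tz_inj {τ : L ≃+* L} {n : ℤ} {a : L} (h : tz τ n a = 0) : a = 0 := by
  rw [← tz_at_one τ n a, h]; rfl

def tzHom (τ : L ≃+* L) (n : ℤ) : L →+ AddMonoid.End L where
  toFun := tz τ n
  map_zero' := tz_zero τ n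
  map_add' := tz_add τ n

theorem supp_sub {B : Type} [Ring B] (F G : HahnSeries ℤ B) (n : ℤ) :
    (Function.support fun i : ℤ => F.coeff i * G.coeff (n - i)) ⊆
      ((Finset.antidiagonal F.isPWO_support G.isPWO_support n).image Prod.fst : Finset ℤ) := by
  intro i hi
  rw [Function.mem_support] at hi
  rw [Finset.coe_image, Set.mem_image]
  refine ⟨(i, n - i), ?_, rfl⟩
  rw [Finset.mem_coe, Finset.mem_antidiagonal]
  refine ⟨?_, ?_, by simp⟩
  · rw [HahnSeries.mem_support]; intro h; apply hi; rw [h, zero_mul]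
  · rw [HahnSeries.mem_support]; intro h; apply hi; rw [h, mul_zero]

theorem supp_fin {B : Type} [Ring B] (F G : HahnSeries ℤ B) (n : ℤ) :
    (Function.support fun i : ℤ => F.coeff i * G.coeff (n - i)).Finite :=
  (Finset.finite_toSet _).subset (supp_sub F G n)

/-- convolution formula -/
theorem coeff_mul_finsum {B : Type} [Ring B] (F G : HahnSeries ℤ B) (n : ℤ) :
    (F * G).coeff n = ∑ᶠ i : ℤ, F.coeff i * G.coeff (n - i) := by
  rw [finsum_eq_sum_of_support_subset _ (supp_sub F G n), HahnSeries.coeff_mul, Finset.sum_image]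
  · refine Finset.sum_congr rfl fun p hp => ?_
    rw [Finset.mem_antidiagonal] at hp
    have : n - p.1 = p.2 := by omega
    rw [this]
  · intro p hp q hq hpq
    rw [Finset.mem_coe, Finset.mem_antidiagonal] at hp hq
    ext
    · exact hpq
    · have : p.1 = q.1 := hpq
      omega

/-- twisted Laurent series over L -/
def Kr (τ : L ≃+* L) : Subring (HahnSeries ℤ (AddMonoid.End L)) where
  carrier := {f | ∀ n, ∃ a, f.coeff n = tz τ n a}
  mul_mem' := by
    intro f g hf hg n
    choose a ha using hf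
    choose b hb using hg
    rw [HahnSeries.coeff_mul]
    refine ⟨∑ p ∈ Finset.antidiagonal f.isPWO_support g.isPWO_support n, a p.1 * (τ ^ p.1) (b p.2), ?_⟩
    have h1 : tz τ n (∑ p ∈ Finset.antidiagonal f.isPWO_support g.isPWO_support n, a p.1 * (τ ^ p.1) (b p.2)) =
      ∑ p ∈ Finset.antidiagonal f.isPWO_support g.isPWO_support n, tz τ n (a p.1 * (τ ^ p.1) (b p.2)) :=
      map_sum (tzHom τ n) _ _
    rw [h1]
    refine Finset.sum_congr rfl fun p hp => ?_
    rw [ha, hb, tz_mul, (Finset.mem_antidiagonal.mp hp).2.2]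
  one_mem' := by
    intro n
    by_cases hn : n = 0
    · subst hn; exact ⟨1, by rw [tz_one]; simp⟩
    · exact ⟨0, by rw [tz_zero]; simp [HahnSeries.coeff_one, hn]⟩
  add_mem' := by
    intro f g hf hg n
    obtain ⟨a, ha⟩ := hf n
    obtain ⟨b, hb⟩ := hg n
    exact ⟨a + b, by rw [HahnSeries.coeff_add, ha, hb, tz_add]⟩
  zero_mem' := fun n => ⟨0, by rw [tz_zero]; rfl⟩
  neg_mem' := by
    intro f hf n
    obtain ⟨a, ha⟩ := hf n
    exact ⟨-a, by rw [HahnSeries.coeff_neg, ha, tz_neg]⟩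

/-- evaluation at 1 -/
def ev : AddMonoid.End L →+ L where
  toFun P := P 1
  map_zero' := rfl
  map_add' _ _ := rfl

theorem ev_app (P : AddMonoid.End L) : ev P = P 1 := rfl

theorem ev_tz (τ : L ≃+* L) (n : ℤ) (a : L) : ev (tz τ n a) = a := tz_at_one τ n a

def K (τ : L ≃+* L) : Type := Kr τ

instance (τ : L ≃+* L) : Ring (K τ) := inferInstanceAs (Ring (Kr τ))

variable {τ : L ≃+* L}

def vl (f : K τ) : HahnSeries ℤ (AddMonoid.End L) := Subtype.val f

theorem vl_inj {f g : K τ} (h : vl f = vl g) : f = g := Subtype.ext h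
theorem vl_mul (f g : K τ) : vl (f * g) = vl f * vl g := rfl
theorem vl_add (f g : K τ) : vl (f + g) = vl f + vl g := rfl
theorem vl_zero : vl (0 : K τ) = 0 := rfl
theorem vl_one : vl (1 : K τ) = 1 := rfl

def d (f : K τ) (n : ℤ) : L := ev ((vl f).coeff n)

theorem dcoeff (f : K τ) (n : ℤ) : (vl f).coeff n = tz τ n (d f n) := by
  obtain ⟨a, ha⟩ := f.2 n
  have ha' : (vl f).coeff n = tz τ n a := ha
  have : d f n = a := by rw [d, ha', ev_tz]
  rw [this, ha']

theorem d_of {f : K τ} {n : ℤ} {a : L} (h : (vl f).coeff n = tz τ n a) : d f n = a := by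
  rw [d, h, ev_tz]

theorem d_ext {f g : K τ} (h : ∀ n, d f n = d g n) : f = g := by
  apply vl_inj
  ext n : 2
  rw [dcoeff, dcoeff, h]

theorem d_add (f g : K τ) (n : ℤ) : d (f + g) n = d f n + d g n := by
  rw [d, vl_add, HahnSeries.coeff_add, map_add]; rfl

theorem d_zero (n : ℤ) : d (0 : K τ) n = 0 := by
  rw [d, vl_zero, HahnSeries.coeff_zero, map_zero]

theorem d_one (n : ℤ) : d (1 : K τ) n = if n = 0 then 1 else 0 := by
  rw [d, vl_one, HahnSeries.coeff_one]
  split_ifs with h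
  · rfl
  · rw [map_zero]

theorem d_supp_fin (f g : K τ) (n : ℤ) : (Function.support fun i : ℤ => d f i * (τ ^ i) (d g (n - i))).Finite := by
  refine (supp_fin (vl f) (vl g) n).subset fun i hi => ?_
  rw [Function.mem_support] at hi ⊢
  intro h
  apply hi
  rw [dcoeff, dcoeff, tz_mul] at h
  have := congrArg ev h
  rw [ev_tz, map_zero] at this
  exact this

theorem d_mul (f g : K τ) (n : ℤ) : d (f * g) n = ∑ᶠ i : ℤ, d f i * (τ ^ i) (d g (n - i)) := by
  rw [d, vl_mul, coeff_mul_finsum, AddMonoidHom.map_finsum ev (supp_fin (vl f) (vl g) n)]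
  apply finsum_congr
  intro i
  rw [dcoeff, dcoeff, tz_mul, ev_tz]

/-- constructor -/
def mkK (τ : L ≃+* L) (a : ℤ → L) (h : ∃ m, ∀ n < m, a n = 0) : K τ :=
  (⟨HahnSeries.ofSuppBddBelow (fun n => tz τ n (a n)) (by
    obtain ⟨m, hm⟩ := h
    refine ⟨m, fun n hn => ?_⟩
    rw [Function.mem_support] at hn
    by_contra hcon
    push Not at hcon
    exact hn (by rw [hm n hcon, tz_zero])), fun n => ⟨a n, rfl⟩⟩ : Kr τ)

theorem d_mkK (a : ℤ → L) (h : ∃ m, ∀ n < m, a n = 0) (n : ℤ) : d (mkK τ a h) n = a n := d_of rfl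

theorem d_bdd (f : K τ) : ∃ m, ∀ n < m, d f n = 0 := by
  refine ⟨(vl f).order, fun n hn => d_of ?_⟩
  rw [tz_zero]
  exact HahnSeries.coeff_eq_zero_of_lt_order hn

def unitT (τ : L ≃+* L) (m : ℤ) (a : L) (ha : a ≠ 0) : (AddMonoid.End L)ˣ where
  val := tz τ m a
  inv := tz τ (-m) ((τ ^ (-m)) a⁻¹)
  val_inv := by
    rw [tz_mul, add_neg_cancel]
    have : (τ ^ m) ((τ ^ (-m)) a⁻¹) = a⁻¹ := by
      rw [zpow_neg]
      exact RingEquiv.apply_symm_apply (τ ^ m) _
    rw [this, mul_inv_cancel₀ ha, tz_one]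
  inv_val := by
    rw [tz_mul, neg_add_cancel, ← map_mul, inv_mul_cancel₀ ha, map_one, tz_one]

theorem exists_right_inv (f : K τ) (hf : f ≠ 0) : ∃ g : K τ, f * g = 1 := by
  set F := vl f with hF
  have hF0 : F ≠ 0 := fun h => hf (vl_inj h)
  set m := F.order with hm
  set a := d f m with ha
  have hlead : F.coeff m = tz τ m a := dcoeff f m
  have ha0 : a ≠ 0 := by
    intro h0
    have h1 : F.coeff F.order ≠ 0 := HahnSeries.coeff_order_eq_zero.not.mpr hF0
    apply h1
    rw [← hm, hlead, h0, tz_zero]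
  set P := LaurentSeries.powerSeriesPart F with hP
  have hPc : PowerSeries.constantCoeff P = (unitT τ m a ha0 : AddMonoid.End L) := by
    rw [← PowerSeries.coeff_zero_eq_constantCoeff_apply, hP, LaurentSeries.powerSeriesPart_coeff]
    simp only [Nat.cast_zero, add_zero]
    rw [← hm, hlead]; rfl
  set Q := PowerSeries.invOfUnit P (unitT τ m a ha0) with hQ
  have hPQ : P * Q = 1 := PowerSeries.mul_invOfUnit P _ hPc
  set G : HahnSeries ℤ (AddMonoid.End L) := (HahnSeries.ofPowerSeries ℤ _ Q) * HahnSeries.single (-m) 1 with hG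
  have hFG : F * G = 1 := by
    have h1 : HahnSeries.single m 1 * HahnSeries.ofPowerSeries ℤ _ P = F :=
      LaurentSeries.single_order_mul_powerSeriesPart F
    have h2 : HahnSeries.ofPowerSeries ℤ _ P * HahnSeries.ofPowerSeries ℤ _ Q = 1 := by
      rw [← map_mul, hPQ]
      exact map_one (HahnSeries.ofPowerSeries ℤ (AddMonoid.End L))
    rw [← h1, hG, mul_assoc, ← mul_assoc (HahnSeries.ofPowerSeries ℤ _ P), h2, one_mul,
      HahnSeries.single_mul_single, add_neg_cancel, mul_one]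
    rfl
  refine ⟨mkK τ (fun n => ev (G.coeff n)) ⟨G.order, fun n hn => ?_⟩, ?_⟩
  · rw [HahnSeries.coeff_eq_zero_of_lt_order hn, map_zero]
  · apply d_ext
    intro n
    rw [d_mul]
    have h2 : d (1 : K τ) n = ev ((F * G).coeff n) := by
      rw [hFG]; rfl
    rw [h2, coeff_mul_finsum, AddMonoidHom.map_finsum ev (supp_fin F G n)]
    apply finsum_congr
    intro i
    rw [d_mkK]
    have h3 : F.coeff i = tz τ i (d f i) := dcoeff f i
    rw [h3]
    rfl

instance : Nontrivial (K τ) := ⟨⟨0, 1, fun h => by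
  have := congrArg (fun f => d f 0) h
  simp only [d_zero, d_one, if_true] at this
  exact zero_ne_one this⟩⟩

theorem isUnit_or (f : K τ) : IsUnit f ∨ f = 0 := by
  by_cases hf : f = 0
  · exact Or.inr hf
  · left
    obtain ⟨g, hg⟩ := exists_right_inv f hf
    have hg0 : g ≠ 0 := by
      rintro rfl
      rw [mul_zero] at hg
      exact zero_ne_one hg
    obtain ⟨k, hk⟩ := exists_right_inv g hg0
    have : f = k := by
      calc f = f * (g * k) := by rw [hk, mul_one]
        _ = (f * g) * k := by rw [mul_assoc]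
        _ = k := by rw [hg, one_mul]
    rw [← this] at hk
    exact ⟨⟨f, g, hg, hk⟩, rfl⟩

instance : DivisionRing (K τ) := DivisionRing.ofIsUnitOrEqZero isUnit_or

/-! ### the endomorphism -/

theorem d_mul_const (f g : K τ) (n j : ℤ) (hf : ∀ i, i ≠ j → d f i = 0) :
    d (f * g) n = d f j * (τ ^ j) (d g (n - j)) := by
  rw [d_mul]
  rw [finsum_eq_single _ j]
  intro i hi
  rw [hf i hi, zero_mul]

theorem d_mul_const' (f g : K τ) (n j : ℤ) (hg : ∀ i, i ≠ j → d g i = 0) :
    d (f * g) n = d f (n - j) * (τ ^ (n - j)) (d g j) := by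
  rw [d_mul]
  rw [finsum_eq_single _ (n - j)]
  · rw [sub_sub_cancel]
  intro i hi
  rw [hg (n - i) (fun h => hi (by omega)), map_zero, mul_zero]

def dub (s : L →+* L) (f : K τ) (n : ℤ) : L := if Even n then s (d f (n / 2)) else 0

theorem dub_bdd (s : L →+* L) (f : K τ) : ∃ m, ∀ n < m, dub s f n = 0 := by
  obtain ⟨m, hm⟩ := d_bdd f
  refine ⟨2 * m, fun n hn => ?_⟩
  unfold dub
  split_ifs with h
  · rw [hm _ (by omega), map_zero]
  · rfl

theorem tau_s (s : L →+* L) (hs : ∀ a, s (τ a) = τ (τ (s a))) (i : ℤ) (a : L) : s ((τ ^ i) a) = (τ ^ (2 * i)) (s a) := by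
  have h2 : ∀ a, s (τ a) = (τ ^ (2 : ℤ)) (s a) := fun a => by
    rw [hs]
    show _ = (τ ^ (1 + 1 : ℤ)) (s a)
    rw [zpow_add, zpow_one]; rfl
  have hsym : ∀ a, s ((τ⁻¹ : L ≃+* L) a) = ((τ ^ (2 : ℤ))⁻¹ : L ≃+* L) (s a) := by
    intro a
    have h3 := h2 ((τ⁻¹ : L ≃+* L) a)
    have h4 : τ ((τ⁻¹ : L ≃+* L) a) = a := RingEquiv.apply_symm_apply τ a
    rw [h4] at h3
    rw [h3]
    exact (RingEquiv.symm_apply_apply (τ ^ (2 : ℤ)) _).symm
  induction i using Int.induction_on generalizing a with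
  | zero => simp
  | succ i ih =>
    rw [zpow_add_one]
    show s ((τ ^ (i : ℤ)) (τ a)) = _
    rw [ih, h2, mul_add, zpow_add]
    rfl
  | pred i ih =>
    rw [zpow_sub_one]
    show s ((τ ^ (-(i : ℤ))) ((τ⁻¹ : L ≃+* L) a)) = _
    rw [ih, hsym, mul_sub, zpow_sub]
    rfl

theorem finsum_two (F : ℤ → L) (h : ∀ i, ¬ Even i → F i = 0) : ∑ᶠ i, F i = ∑ᶠ j : ℤ, F (2 * j) := by
  have hinj : Function.Injective (fun j : ℤ => 2 * j) := fun a b h => by simpa using h
  rw [← finsum_mem_range hinj (f := F)]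
  apply finsum_congr
  intro i
  by_cases hi : Even i
  · have : i ∈ Set.range (fun j : ℤ => 2 * j) := by
      obtain ⟨k, hk⟩ := hi
      exact ⟨k, by simp only; omega⟩
    simp only [this, finsum_true]
  · rw [h i hi]; simp

def sig0 (s : L →+* L) (hs : ∀ a, s (τ a) = τ (τ (s a))) : K τ →+* K τ where
  toFun f := mkK τ (dub s f) (dub_bdd s f)
  map_zero' := by
    apply d_ext; intro n
    rw [d_mkK, d_zero]; unfold dub; simp [d_zero]
  map_one' := by
    apply d_ext; intro n
    rw [d_mkK, d_one]; unfold dub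
    simp only [d_one]
    by_cases hn : n = 0
    · simp [hn]
    · rw [if_neg hn]
      split_ifs with h1 h2
      · exfalso; obtain ⟨k, hk⟩ := h1; omega
      · exact map_zero s
      · rfl
  map_add' f g := by
    apply d_ext; intro n
    rw [d_add, d_mkK, d_mkK, d_mkK]; unfold dub
    split_ifs with h
    · rw [d_add, map_add]
    · rw [add_zero]
  map_mul' f g := by
    apply d_ext; intro n
    rw [d_mul, d_mkK]
    have h1 : ∀ i, d (mkK τ (dub s f) (dub_bdd s f)) i * (τ ^ i) (d (mkK τ (dub s g) (dub_bdd s g)) (n - i)) =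
      dub s f i * (τ ^ i) (dub s g (n - i)) := fun i => by rw [d_mkK, d_mkK]
    simp_rw [h1]
    rw [finsum_two _ (fun i hi => by rw [dub, if_neg hi, zero_mul])]
    by_cases hn : Even n
    · have h2 : dub s (f * g) n = s (d (f * g) (n / 2)) := by rw [dub, if_pos hn]
      rw [h2, d_mul]
      have h3 : s (∑ᶠ i : ℤ, d f i * (τ ^ i) (d g (n / 2 - i))) = ∑ᶠ i : ℤ, s (d f i * (τ ^ i) (d g (n / 2 - i))) :=
        AddMonoidHom.map_finsum (s : L →+ L) (d_supp_fin f g (n / 2))
      rw [h3]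
      apply finsum_congr
      intro i
      have h4 : dub s f (2 * i) = s (d f i) := by
        rw [dub, if_pos (even_two_mul i)]; congr 2; omega
      have h5 : dub s g (n - 2 * i) = s (d g (n / 2 - i)) := by
        rw [dub, if_pos (hn.sub (even_two_mul i))]; congr 2
        obtain ⟨k, hk⟩ := hn
        omega
      rw [h4, h5, map_mul, tau_s s hs]
    · have h2 : dub s (f * g) n = 0 := by rw [dub, if_neg hn]
      rw [h2]
      symm
      apply finsum_eq_zero_of_forall_eq_zero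
      intro i
      have h5 : dub s g (n - 2 * i) = 0 := by
        rw [dub, if_neg]
        intro h
        apply hn
        have := h.add (even_two_mul i)
        simpa using this
      rw [h5, map_zero, mul_zero]

theorem d_sig0 (s : L →+* L) (hs : ∀ a, s (τ a) = τ (τ (s a))) (f : K τ) (n : ℤ) : d (sig0 s hs f) n = dub s f n :=
  d_mkK _ (dub_bdd s f) n

/-- monomials -/
def mono (τ : L ≃+* L) (j : ℤ) (a : L) : K τ := mkK τ (fun n => if n = j then a else 0) ⟨j, fun n hn => by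
  rw [if_neg (by omega)]⟩

theorem d_mono (j : ℤ) (a : L) (n : ℤ) : d (mono τ j a) n = if n = j then a else 0 := d_mkK _ _ _

theorem mono_mul (i j : ℤ) (a b : L) : mono τ i a * mono τ j b = mono τ (i + j) (a * (τ ^ i) b) := by
  apply d_ext
  intro n
  rw [d_mul_const _ _ n i (fun k hk => by rw [d_mono, if_neg hk]), d_mono, d_mono, d_mono, if_pos rfl]
  by_cases h : n = i + j
  · rw [if_pos h, if_pos (by omega)]
  · rw [if_neg h, if_neg (by omega), map_zero, mul_zero]

theorem mono_pow (a : L) (k : ℕ) : (mono τ 0 a) ^ k = mono τ 0 (a ^ k) := by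
  induction k with
  | zero =>
    rw [pow_zero, pow_zero]
    apply d_ext; intro n; rw [d_one, d_mono]
  | succ k ih =>
    rw [pow_succ, ih, mono_mul, add_zero, zpow_zero, pow_succ]; rfl

end

end Pool.Agent.H14.PRI
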