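import Pool.Agent.H14.PRI1
import Pool.Agent.H14.PRI2

open Polynomial

namespace Pool.Agent.H14.PRI

noncomputable section

set_option synthInstance.maxHeartbeats 400000

/-! ### right ideals of polynomial rings over division rings -/

theorem poly_principal {D : Type} [DivisionRing D] (I : AddSubmonoid D[X]) (hI : ∀ x r : D[X], x ∈ I → x * r ∈ I) :
    ∃ a : D[X], ∀ x : D[X], x ∈ I ↔ ∃ r : D[X], x = a * r := by
  classical
  by_cases h0 : ∀ x ∈ I, x = 0
  · refine ⟨0, fun x => ⟨fun hx => ⟨0, by rw [h0 x hx, zero_mul]⟩, ?_⟩⟩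
    rintro ⟨r, rfl⟩
    rw [zero_mul]; exact I.zero_mem
  · push Not at h0
    have hex : ∃ n, ∃ x ∈ I, x ≠ 0 ∧ x.natDegree = n := by
      obtain ⟨x, hx, hx0⟩ := h0
      exact ⟨_, x, hx, hx0, rfl⟩
    obtain ⟨q0, hq0I, hq00, hq0d⟩ := Nat.find_spec hex
    have hlc : q0.leadingCoeff ≠ 0 := leadingCoeff_ne_zero.mpr hq00
    set q := q0 * C (q0.leadingCoeff⁻¹) with hq
    have hqI : q ∈ I := hI _ _ hq0I
    have hqm : q.Monic := by
      rw [Monic, hq, leadingCoeff_mul, leadingCoeff_C, mul_inv_cancel₀ hlc]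
    have hqd : q.natDegree = q0.natDegree := by
      rw [hq, natDegree_mul hq00 (C_ne_zero.mpr (inv_ne_zero hlc)), natDegree_C, add_zero]
    refine ⟨q, fun x => ⟨fun hx => ?_, ?_⟩⟩
    · refine ⟨x /ₘ q, ?_⟩
      have h1 := modByMonic_add_div x q
      have hmem : x %ₘ q ∈ I := by
        have h2 : x %ₘ q = x + (q * (x /ₘ q)) * (-1) := by
          rw [mul_neg, mul_one]
          exact eq_add_neg_of_add_eq h1
        rw [h2]
        exact I.add_mem hx (hI _ _ (hI _ _ hqI))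
      have hz : x %ₘ q = 0 := by
        by_contra hne
        have h3 : (x %ₘ q).natDegree < q.natDegree := by
          apply natDegree_modByMonic_lt x hqm
          intro h4
          apply hne
          rw [h4, modByMonic_one]
        rw [hqd, hq0d] at h3
        exact Nat.find_min hex h3 ⟨_, hmem, hne, rfl⟩
      rw [hz, zero_add] at h1
      exact h1.symm
    · rintro ⟨r, rfl⟩
      exact hI _ _ hqI

/-! ### the endomorphism of K[X] -/

variable {L : Type} [Field L] {τ : L ≃+* L}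

theorem zpow_fix (g : L ≃+* L) (u : L) (h : g u = u) (k : ℤ) : (g ^ k) u = u := by
  have hinv : (g⁻¹ : L ≃+* L) u = u := by
    have h1 : (g⁻¹ : L ≃+* L) (g u) = u := RingEquiv.symm_apply_apply g u
    rwa [h] at h1
  induction k using Int.induction_on with
  | zero => rfl
  | succ i ih =>
    rw [zpow_add_one]
    show (g ^ (i : ℤ)) (g u) = u
    rw [h, ih]
  | pred i ih =>
    rw [zpow_sub_one]
    show (g ^ (-(i : ℤ))) ((g⁻¹ : L ≃+* L) u) = u
    rw [hinv, ih]

theorem tau_even {u : L} (hu : τ u = -u) {n : ℤ} (hn : Even n) : (τ ^ n) u = u := by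
  obtain ⟨k, rfl⟩ := hn
  rw [← two_mul, zpow_mul]
  apply zpow_fix
  show (τ ^ (1 + 1 : ℤ)) u = u
  rw [zpow_add, zpow_one]
  show τ (τ u) = u
  rw [hu, map_neg, hu, neg_neg]

theorem comm_sig {s : L →+* L} {hs : ∀ a, s (τ a) = τ (τ (s a))} {u : L} (hu : τ u = -u) (f : K τ) :
    Commute (sig0 s hs f) (mono τ 0 u) := by
  show sig0 s hs f * mono τ 0 u = mono τ 0 u * sig0 s hs f
  apply d_ext
  intro n
  rw [d_mul_const' _ _ n 0 (fun i hi => by rw [d_mono, if_neg hi]), d_mul_const _ _ n 0 (fun i hi => by rw [d_mono, if_neg hi])]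
  rw [sub_zero, d_mono, if_pos rfl, d_sig0, zpow_zero]
  show _ = u * dub s f n
  by_cases hn : Even n
  · rw [tau_even hu hn, mul_comm]
  · rw [dub, if_neg hn, zero_mul, mul_zero]

def sig1 (s : L →+* L) (hs : ∀ a, s (τ a) = τ (τ (s a))) (u : L) (hu : τ u = -u) : (K τ)[X] →+* K τ :=
  eval₂RingHom' (sig0 s hs) (mono τ 0 u) (fun a => comm_sig hu a)

theorem sig1_eq (s : L →+* L) (hs : ∀ a, s (τ a) = τ (τ (s a))) (u : L) (hu : τ u = -u) (p : (K τ)[X]) :
    sig1 s hs u hu p = ∑ i ∈ p.support, sig0 s hs (p.coeff i) * (mono τ 0 u) ^ i := by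
  show eval₂ (sig0 s hs) (mono τ 0 u) p = _
  rw [eval₂_eq_sum, sum_def]

theorem sig1_comm (s : L →+* L) (hs : ∀ a, s (τ a) = τ (τ (s a))) (u : L) (hu : τ u = -u) (p : (K τ)[X]) :
    Commute (sig1 s hs u hu p) (mono τ 0 u) := by
  rw [sig1_eq]
  apply Commute.sum_left
  intro i _
  exact (comm_sig hu _).mul_left ((Commute.refl _).pow_left i)

theorem d_sum {ι : Type} (S : Finset ι) (F : ι → K τ) (n : ℤ) : d (∑ i ∈ S, F i) n = ∑ i ∈ S, d (F i) n := by
  classical
  induction S using Finset.induction_on with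
  | empty => rw [Finset.sum_empty, Finset.sum_empty, d_zero]
  | insert a S ha ih => rw [Finset.sum_insert ha, Finset.sum_insert ha, d_add, ih]

theorem sig1_ne (s : L →+* L) (hs : ∀ a, s (τ a) = τ (τ (s a))) (u : L) (hu : τ u = -u)
    (hT : ∀ p : L[X], eval₂ s u p = 0 → p = 0) (p : (K τ)[X]) (hp : p ≠ 0) : sig1 s hs u hu p ≠ 0 := by
  intro h
  apply hp
  ext i : 1
  rw [coeff_zero]
  apply d_ext
  intro n
  rw [d_zero]
  have key : ∀ n : ℤ, ∑ i ∈ p.support, s (d (p.coeff i) n) * u ^ i = 0 := by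
    intro n
    have h1 := congrArg (fun f => d f (2 * n)) h
    simp only [d_zero] at h1
    rw [sig1_eq, d_sum] at h1
    rw [← h1]
    apply Finset.sum_congr rfl
    intro i _
    rw [mono_pow, d_mul_const' _ _ (2 * n) 0 (fun j hj => by rw [d_mono, if_neg hj]), sub_zero, d_mono, if_pos rfl, map_pow,
      tau_even hu (even_two_mul n), d_sig0, dub, if_pos (even_two_mul n)]
    congr 3
    omega
  let P : L[X] := ∑ i ∈ p.support, monomial i (d (p.coeff i) n)
  have hP : P = 0 := by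
    apply hT
    show eval₂ s u (∑ i ∈ p.support, monomial i (d (p.coeff i) n)) = 0
    rw [eval₂_finsetSum]
    simp only [eval₂_monomial]
    exact key n
  by_cases hi : i ∈ p.support
  · have h2 := congrArg (fun P => coeff P i) hP
    simp only [coeff_zero] at h2
    rw [← h2]
    show _ = (∑ i ∈ p.support, monomial i (d (p.coeff i) n)).coeff i
    rw [finsetSum_coeff]
    simp only [coeff_monomial]
    rw [Finset.sum_ite_eq' p.support i, if_pos hi]
  · rw [notMem_support_iff.mp hi, d_zero]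

/-- the skew endomorphism -/
def sig2 (s : L →+* L) (hs : ∀ a, s (τ a) = τ (τ (s a))) (u : L) (hu : τ u = -u) : (K τ)[X] →+* (K τ)[X] :=
  C.comp (sig1 s hs u hu)

theorem sig2_unit (s : L →+* L) (hs : ∀ a, s (τ a) = τ (τ (s a))) (u : L) (hu : τ u = -u)
    (hT : ∀ p : L[X], eval₂ s u p = 0 → p = 0) (p : (K τ)[X]) (hp : p ≠ 0) : IsUnit (sig2 s hs u hu p) := by
  show IsUnit (C (sig1 s hs u hu p))
  exact (isUnit_iff_ne_zero.mpr (sig1_ne s hs u hu hT p hp)).map C

def Cc (u : L) : AddSubmonoid (K τ)[X] where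
  carrier := {x | ∃ r, x = (X - C (mono τ 0 u)) * r}
  zero_mem' := ⟨0, (mul_zero _).symm⟩
  add_mem' := by
    rintro _ _ ⟨r, rfl⟩ ⟨t, rfl⟩
    exact ⟨r + t, (mul_add _ _ _).symm⟩

theorem hC1 (u : L) : ∀ x ∈ Cc (τ := τ) u, ∀ r, x * r ∈ Cc (τ := τ) u := by
  rintro _ ⟨t, rfl⟩ r
  exact ⟨t * r, mul_assoc _ _ _⟩

theorem hC2 (s : L →+* L) (hs : ∀ a, s (τ a) = τ (τ (s a))) (u : L) (hu : τ u = -u) :
    ∀ a, ∀ x ∈ Cc (τ := τ) u, sig2 s hs u hu a * x ∈ Cc (τ := τ) u := by
  rintro a _ ⟨r, rfl⟩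
  refine ⟨sig2 s hs u hu a * r, ?_⟩
  rw [← mul_assoc, ← mul_assoc]
  congr 1
  show C (sig1 s hs u hu a) * (X - C (mono τ 0 u)) = (X - C (mono τ 0 u)) * C (sig1 s hs u hu a)
  rw [mul_sub, sub_mul, ← C_mul, ← C_mul, (sig1_comm s hs u hu a).eq, X_mul_C]

theorem hC3 (u : L) (hu : τ u = -u) (hu0 : u ≠ 0) (h2 : (2 : L) ≠ 0) :
    ∃ a, ∃ x ∈ Cc (τ := τ) u, a * x ∉ Cc (τ := τ) u := by
  refine ⟨C (mono τ 1 1), X - C (mono τ 0 u), ⟨1, (mul_one _).symm⟩, ?_⟩
  rintro ⟨r, hr⟩
  have hm : (X - C (mono τ 0 u)).Monic := monic_X_sub_C _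
  have hy : mono τ 1 1 ≠ 0 := by
    intro h
    have h1 := congrArg (fun f => d f 1) h
    simp only [d_mono, d_zero, if_true] at h1
    exact one_ne_zero h1
  have hr0 : r ≠ 0 := by
    rintro rfl
    rw [mul_zero] at hr
    rcases mul_eq_zero.mp hr with h | h
    · exact C_ne_zero.mpr hy h
    · exact hm.ne_zero h
  have hd := congrArg natDegree hr
  rw [natDegree_mul (C_ne_zero.mpr hy) hm.ne_zero, natDegree_mul hm.ne_zero hr0, natDegree_C, natDegree_X_sub_C, zero_add] at hd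
  have hrc : r = C (r.coeff 0) := eq_C_of_natDegree_eq_zero (by omega)
  rw [hrc] at hr
  have e1 := congrArg (fun P => coeff P 1) hr
  have e0 := congrArg (fun P => coeff P 0) hr
  simp only [coeff_C_mul, coeff_mul_C, coeff_sub, coeff_X_one, coeff_X_zero, coeff_C_zero] at e1 e0
  have hC1' : (C (mono τ 0 u)).coeff 1 = 0 := coeff_C_of_ne_zero one_ne_zero
  rw [hC1', sub_zero, mul_one, one_mul] at e1
  rw [zero_sub, mul_neg, neg_mul, neg_inj, ← e1, mono_mul, mono_mul] at e0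
  have e := congrArg (fun f => d f 1) e0
  simp only [d_mono, add_zero, zero_add, if_true, zpow_one, zpow_zero, one_mul, map_one, mul_one] at e
  rw [hu] at e
  have : (2 : L) * u = 0 := by
    rw [two_mul]
    nth_rewrite 1 [← e]
    exact neg_add_cancel u
  rcases mul_eq_zero.mp this with h | h
  · exact h2 h
  · exact hu0 h

end

end Pool.Agent.H14.PRI
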