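import Pool.Agent.H14.PRI3

open Polynomial

namespace Pool.Agent.H14.PRI

noncomputable section

set_option synthInstance.maxHeartbeats 400000

abbrev MP : Type := MvPolynomial ℕ ℂ

def dg (z : ℕ → ℂ) : MP →ₐ[ℂ] MP := MvPolynomial.aeval (fun n => MvPolynomial.C (z n) * MvPolynomial.X n)

theorem dg_X (z : ℕ → ℂ) (n : ℕ) : dg z (MvPolynomial.X n) = MvPolynomial.C (z n) * MvPolynomial.X n := by
  rw [dg, MvPolynomial.aeval_X]

theorem dg_C (z : ℕ → ℂ) (a : ℂ) : dg z (MvPolynomial.C a) = MvPolynomial.C a := by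
  rw [dg, MvPolynomial.aeval_C]; rfl

theorem dg_comp (z w : ℕ → ℂ) (h : ∀ n, z n * w n = 1) : (dg z).comp (dg w) = AlgHom.id ℂ MP := by
  apply MvPolynomial.algHom_ext
  intro n
  rw [AlgHom.comp_apply, dg_X, map_mul, dg_X, dg_C, ← mul_assoc, ← MvPolynomial.C_mul, mul_comm (w n), h n, MvPolynomial.C_1, one_mul]
  rfl

def Dg (z : ℕ → ℂˣ) : MP ≃+* MP :=
  (AlgEquiv.ofAlgHom (dg (fun n => (z n : ℂ))) (dg (fun n => ((z n)⁻¹ : ℂˣ)))
    (dg_comp _ _ (fun n => by simp)) (dg_comp _ _ (fun n => by simp))).toRingEquiv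

theorem Dg_apply (z : ℕ → ℂˣ) (p : MP) : Dg z p = dg (fun n => (z n : ℂ)) p := rfl

abbrev LL : Type := FractionRing MP

def am : MP →+* LL := algebraMap MP LL

theorem am_inj : Function.Injective am := IsFractionRing.injective MP LL

def DF (z : ℕ → ℂˣ) : LL ≃+* LL := IsFractionRing.ringEquivOfRingEquiv (Dg z)

theorem DF_am (z : ℕ → ℂˣ) (p : MP) : DF z (am p) = am (dg (fun n => (z n : ℂ)) p) :=
  IsFractionRing.ringEquivOfRingEquiv_algebraMap (K := LL) (L := LL) (Dg z) p

def s0 : MP →ₐ[ℂ] MP := MvPolynomial.rename Nat.succ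

theorem s0_inj : Function.Injective (am.comp (s0 : MP →+* MP)) := by
  intro a b h
  exact MvPolynomial.rename_injective _ Nat.succ_injective (am_inj h)

def ss : LL →+* LL := IsFractionRing.lift (A := MP) (K := LL) (g := am.comp (s0 : MP →+* MP)) s0_inj

theorem ss_am (p : MP) : ss (am p) = am (s0 p) := IsFractionRing.lift_algebraMap (A := MP) (K := LL) (g := am.comp (s0 : MP →+* MP)) s0_inj p

theorem LL_ext {f g : LL →+* LL} (hC : ∀ a, f (am (MvPolynomial.C a)) = g (am (MvPolynomial.C a)))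
    (hX : ∀ n, f (am (MvPolynomial.X n)) = g (am (MvPolynomial.X n))) : f = g := by
  apply IsFractionRing.ringHom_ext (A := MP)
  intro x
  have : f.comp am = g.comp am := MvPolynomial.ringHom_ext hC hX
  exact RingHom.congr_fun this x

/-- the roots of unity -/
def zt (n : ℕ) : ℂ := Complex.exp (Real.pi * Complex.I / 2 ^ n)

theorem zt_zero : zt 0 = -1 := by
  rw [zt, pow_zero, div_one, Complex.exp_pi_mul_I]

theorem zt_succ (n : ℕ) : zt (n + 1) * zt (n + 1) = zt n := by
  rw [zt, zt, ← Complex.exp_add]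
  congr 1
  rw [pow_succ]
  field_simp
  norm_num

def ztu (n : ℕ) : ℂˣ := Units.mk0 (zt n) (Complex.exp_ne_zero _)

def tau : LL ≃+* LL := DF ztu

theorem tau_X (n : ℕ) : tau (am (MvPolynomial.X n)) = am (MvPolynomial.C (zt n) * MvPolynomial.X n) := by
  rw [tau, DF_am, dg_X]; rfl

theorem tau_C (a : ℂ) : tau (am (MvPolynomial.C a)) = am (MvPolynomial.C a) := by
  rw [tau, DF_am, dg_C]

theorem s0_X (n : ℕ) : s0 (MvPolynomial.X n) = MvPolynomial.X (n + 1) := by
  rw [s0, MvPolynomial.rename_X]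

theorem s0_C (a : ℂ) : s0 (MvPolynomial.C a) = MvPolynomial.C a := by
  rw [s0, MvPolynomial.rename_C]

theorem hss (a : LL) : ss (tau a) = tau (tau (ss a)) := by
  have : ss.comp (tau : LL →+* LL) = ((tau : LL →+* LL).comp (tau : LL →+* LL)).comp ss := by
    apply LL_ext
    · intro a
      show ss (tau (am (MvPolynomial.C a))) = tau (tau (ss (am (MvPolynomial.C a))))
      rw [tau_C, ss_am, s0_C, tau_C, tau_C]
    · intro n
      show ss (tau (am (MvPolynomial.X n))) = tau (tau (ss (am (MvPolynomial.X n))))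
      rw [tau_X, ss_am, ss_am, map_mul s0, s0_C, s0_X, tau_X, map_mul am (MvPolynomial.C (zt (n + 1))), map_mul tau, tau_C, tau_X, ← map_mul, ← mul_assoc,
        ← MvPolynomial.C_mul, zt_succ]
  exact RingHom.congr_fun this a

def uu : LL := am (MvPolynomial.X 0)

theorem tau_uu : tau uu = -uu := by
  rw [uu, tau_X, zt_zero, map_mul, MvPolynomial.C_neg, MvPolynomial.C_1, map_neg, map_one, neg_one_mul]

theorem uu_ne : uu ≠ 0 := by
  intro h
  have : am (MvPolynomial.X 0) = am 0 := by rw [map_zero]; exact h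
  exact MvPolynomial.X_ne_zero 0 (am_inj this)

theorem two_ne : (2 : LL) ≠ 0 := by
  intro h
  have h1 : am 2 = am 0 := by rw [map_zero, map_ofNat]; exact h
  exact two_ne_zero (am_inj h1)

def rz (n : ℕ) : ℂˣ := if n = 0 then Units.mk0 2 two_ne_zero else 1

def rho : LL →+* LL := (DF rz : LL →+* LL)

theorem rho_ss : rho.comp ss = ss := by
  apply LL_ext
  · intro a
    show DF rz (ss (am (MvPolynomial.C a))) = ss (am (MvPolynomial.C a))
    rw [ss_am, s0_C, DF_am, dg_C]
  · intro n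
    show DF rz (ss (am (MvPolynomial.X n))) = ss (am (MvPolynomial.X n))
    rw [ss_am, s0_X, DF_am, dg_X]
    have : ((rz (n + 1) : ℂˣ) : ℂ) = 1 := by simp [rz]
    rw [this, MvPolynomial.C_1, one_mul]

theorem rho_uu : rho uu = 2 * uu := by
  show DF rz (am (MvPolynomial.X 0)) = 2 * am (MvPolynomial.X 0)
  rw [DF_am, dg_X, map_mul]
  have : ((rz 0 : ℂˣ) : ℂ) = 2 := by simp [rz]
  rw [this, map_ofNat, map_ofNat]

theorem eval_rho (p : LL[X]) (hp : eval₂ ss uu p = 0) (k : ℕ) : eval₂ ss (2 ^ k * uu) p = 0 := by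
  induction k with
  | zero => rw [pow_zero, one_mul]; exact hp
  | succ k ih =>
    have h1 := congrArg rho ih
    rw [map_zero, hom_eval₂, rho_ss, map_mul, map_pow, map_ofNat, rho_uu, ← mul_assoc, ← pow_succ] at h1
    exact h1

theorem hTT (p : LL[X]) (hp : eval₂ ss uu p = 0) : p = 0 := by
  have h1 : p.map ss = 0 := by
    apply eq_zero_of_infinite_isRoot
    have hinj : Function.Injective (fun k : ℕ => (2 : LL) ^ k * uu) := by
      intro a b h
      have h2 : (2 : LL) ^ a = 2 ^ b := mul_right_cancel₀ uu_ne h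
      have h3 : am (2 ^ a) = am (2 ^ b) := by
        rw [map_pow, map_pow, map_ofNat]; exact h2
      have h4 := am_inj h3
      have h5 : ((2 ^ a : ℕ) : MP) = ((2 ^ b : ℕ) : MP) := by push_cast; exact h4
      exact Nat.pow_right_injective le_rfl (Nat.cast_injective h5)
    refine (Set.infinite_range_of_injective hinj).mono ?_
    rintro _ ⟨k, rfl⟩
    show IsRoot (p.map ss) _
    rw [IsRoot.def, eval_map]
    exact eval_rho p hp k
  exact (Polynomial.map_eq_zero ss).mp h1

/-- the final theorem -/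
theorem final :
    ¬ (∀ (R : Type) [Ring R], Nontrivial R →
      (∀ a b : R, (∀ r : R, a * r * b = 0) → a = 0 ∨ b = 0) →
      (∀ I : AddSubmonoid R, (∀ x r : R, x ∈ I → x * r ∈ I) →
          ∃ a : R, ∀ x : R, x ∈ I ↔ ∃ r : R, x = a * r) →
      ∀ I : AddSubmonoid R, (∀ x r : R, x ∈ I → r * x ∈ I ∧ x * r ∈ I) →
        ∃ L : List (AddSubmonoid R),
          (∀ P ∈ L, (∀ x r : R, x ∈ P → r * x ∈ P ∧ x * r ∈ P) ∧ (1 : R) ∉ P ∧
              ∀ a b : R, (∀ r : R, a * r * b ∈ P) → a ∈ P ∨ b ∈ P) ∧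
          L.foldr (fun P J => AddSubmonoid.closure {x : R | ∃ a ∈ P, ∃ b ∈ J, x = a * b}) ⊤ = I) := by
  intro h
  have hσ := sig2_unit ss hss uu tau_uu hTT
  let σ := sig2 ss hss uu tau_uu
  have hnt : Nontrivial (R σ) := ⟨⟨0, io σ 1, fun h => by
    have := congrArg (fun f => c f 0) h
    simp only [c_zero, c_io_zero] at this
    exact zero_ne_one this⟩⟩
  obtain ⟨I, hI, hno⟩ := not_product hσ (Cc uu) (hC1 uu) (hC2 ss hss uu tau_uu) (hC3 uu tau_uu uu_ne two_ne)
  obtain ⟨Ls, hLs, hLI⟩ := h (R σ) hnt (fun a b hab => domain hσ a b (by have := hab 1; rwa [mul_one] at this))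
    (right_principal hσ poly_principal) I hI
  exact hno Ls hLs hLI

end

end Pool.Agent.H14.PRI
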