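import Mathlib

open Finset

namespace Pool.Agent.H14.PAP

noncomputable section

abbrev H := lp (fun _ : ℕ => ℝ) 2

def bas (i : ℕ) : H := lp.single 2 i (1 : ℝ)

theorem bas_apply (i j : ℕ) : bas i j = if j = i then 1 else 0 := by
  by_cases h : j = i
  · subst h; simp [bas]
  · simp [bas, h]

theorem coord_le (x : H) (i : ℕ) : |x i| ≤ ‖x‖ := by
  have := lp.norm_apply_le_norm (p := 2) (by norm_num) x i
  simpa using this

/-- the functionals -/
def ph (k : ℕ) : H →ₗ[ℝ] ℝ where
  toFun x := x 0 + (Nat.unpair k).1 * x 1 + x (k + 2)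
  map_add' x y := by simp; ring
  map_smul' r x := by simp; ring

theorem ph_apply (k : ℕ) (x : H) : ph k x = x 0 + (Nat.unpair k).1 * x 1 + x (k + 2) := rfl

theorem unpair_le (k : ℕ) : ((Nat.unpair k).1 : ℝ) ≤ k := by
  exact_mod_cast Nat.unpair_left_le k

theorem ph_le (k : ℕ) (x : H) : |ph k x| ≤ (k + 2) * ‖x‖ := by
  rw [ph_apply]
  have h0 := coord_le x 0
  have h1 := coord_le x 1
  have h2 := coord_le x (k + 2)
  have hk := unpair_le k
  have hk0 : (0:ℝ) ≤ (Nat.unpair k).1 := Nat.cast_nonneg _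
  calc |x 0 + (Nat.unpair k).1 * x 1 + x (k + 2)|
      ≤ |x 0| + |((Nat.unpair k).1 : ℝ) * x 1| + |x (k + 2)| := abs_add_three _ _ _
    _ = |x 0| + ((Nat.unpair k).1 : ℝ) * |x 1| + |x (k + 2)| := by rw [abs_mul, abs_of_nonneg hk0]
    _ ≤ ‖x‖ + k * ‖x‖ + ‖x‖ := by gcongr
    _ = _ := by ring

def w (k : ℕ) : ℝ := (1 / 2) ^ k

theorem w_pos (k : ℕ) : 0 < w k := by unfold w; positivity

def cw (k : ℕ) : ℝ := w k * (k + 2)

theorem cw_sum : Summable cw := by
  have h1 : Summable fun k : ℕ => (k : ℝ) ^ 1 * (1 / 2 : ℝ) ^ k :=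
    summable_pow_mul_geometric_of_norm_lt_one 1 (by norm_num)
  have h2 : Summable fun k : ℕ => 2 * (1 / 2 : ℝ) ^ k :=
    (summable_geometric_of_lt_one (by norm_num) (by norm_num)).mul_left 2
  refine (h1.add h2).congr fun k => ?_
  simp only [cw, w]; ring

theorem sm (x : H) : Summable fun k => w k * |ph k x| := by
  refine Summable.of_nonneg_of_le (fun k => mul_nonneg (w_pos k).le (abs_nonneg _)) (fun k => ?_)
    (cw_sum.mul_right ‖x‖)
  have := mul_le_mul_of_nonneg_left (ph_le k x) (w_pos k).le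
  unfold cw
  linarith

def pp (x : H) : ℝ := ∑' k, w k * |ph k x|

theorem pp_nonneg (x : H) : 0 ≤ pp x := tsum_nonneg fun k => mul_nonneg (w_pos k).le (abs_nonneg _)

theorem pp_le (x : H) : pp x ≤ (∑' k, cw k) * ‖x‖ := by
  unfold pp
  rw [← tsum_mul_right]
  refine (sm x).tsum_le_tsum (fun k => ?_) (cw_sum.mul_right _)
  have := mul_le_mul_of_nonneg_left (ph_le k x) (w_pos k).le
  unfold cw
  linarith

theorem pp_add (x y : H) : pp (x + y) ≤ pp x + pp y := by
  unfold pp
  rw [← (sm x).tsum_add (sm y)]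
  refine (sm _).tsum_le_tsum (fun k => ?_) ((sm x).add (sm y))
  rw [map_add, ← mul_add]
  exact mul_le_mul_of_nonneg_left (abs_add_le _ _) (w_pos k).le

theorem pp_smul (r : ℝ) (x : H) : pp (r • x) = |r| * pp x := by
  unfold pp
  rw [← tsum_mul_left]
  refine tsum_congr fun k => ?_
  rw [map_smul, smul_eq_mul, abs_mul]; ring

theorem pp_neg (x : H) : pp (-x) = pp x := by
  have := pp_smul (-1) x
  simpa using this

/-- the renormed space -/
def E : Type := H

instance : AddCommGroup E := inferInstanceAs (AddCommGroup H)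
instance : Module ℝ E := inferInstanceAs (Module ℝ H)

def toH : E ≃ₗ[ℝ] H := LinearEquiv.refl ℝ H

def NN (x : H) : ℝ := ‖x‖ + pp x

def agn : AddGroupNorm E where
  toFun x := NN (toH x)
  map_zero' := by
    have : pp (0 : H) = 0 := by simpa using pp_smul 0 0
    simp [NN, this]
  add_le' x y := by
    rw [map_add]
    unfold NN
    have h1 := pp_add (toH x) (toH y)
    have h2 := norm_add_le (toH x) (toH y)
    linarith
  neg' x := by
    rw [map_neg]
    simp [NN, pp_neg]
  eq_zero_of_map_eq_zero' x hx := by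
    have h1 := pp_nonneg (toH x)
    have h2 := norm_nonneg (toH x)
    have hx' : ‖toH x‖ + pp (toH x) = 0 := hx
    have h3 : ‖toH x‖ = 0 := by linarith
    have h4 : toH x = 0 := norm_eq_zero.mp h3
    exact toH.map_eq_zero_iff.mp h4

instance : NormedAddCommGroup E := agn.toNormedAddCommGroup

theorem norm_E (x : E) : ‖x‖ = ‖toH x‖ + pp (toH x) := rfl

instance : NormedSpace ℝ E where
  norm_smul_le r x := by
    rw [norm_E, norm_E, map_smul, pp_smul, norm_smul, Real.norm_eq_abs]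
    apply le_of_eq; ring

def CC : ℝ := 1 + ∑' k, cw k

theorem le_E (x : E) : ‖toH x‖ ≤ ‖x‖ := by
  rw [norm_E]; linarith [pp_nonneg (toH x)]

theorem E_le (x : E) : ‖x‖ ≤ CC * ‖toH x‖ := by
  rw [norm_E, CC, add_mul, one_mul]; linarith [pp_le (toH x)]

def toHc : E ≃L[ℝ] H := LinearEquiv.toContinuousLinearEquivOfBounds toH 1 CC
  (fun x => by rw [one_mul]; exact le_E x)
  (fun x => by
    have := E_le (toH.symm x)
    simpa using this)

instance : CompleteSpace E :=
  (completeSpace_congr (e := toH.toEquiv) toHc.isUniformEmbedding).mpr inferInstance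

theorem single_eq (x : H) (i : ℕ) : lp.single 2 i (x i) = x i • bas i := by
  unfold bas
  rw [← lp.single_smul]
  simp

theorem hasSum_bas (x : H) : HasSum (fun i => x i • bas i) x := by
  have := lp.hasSum_single (p := 2) (by norm_num) x
  simpa only [single_eq] using this

instance : TopologicalSpace.SeparableSpace H := by
  rw [← TopologicalSpace.isSeparable_univ_iff]
  have h1 : TopologicalSpace.IsSeparable (closure (Submodule.span ℝ (Set.range bas) : Set H)) :=
    (Set.countable_range bas).isSeparable.span.closure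
  refine h1.mono fun x _ => ?_
  refine mem_closure_of_tendsto (hasSum_bas x) (Filter.Eventually.of_forall fun s => ?_)
  exact Submodule.sum_mem _ fun i _ => Submodule.smul_mem _ _ (Submodule.subset_span ⟨i, rfl⟩)

instance : TopologicalSpace.SeparableSpace E :=
  toHc.symm.surjective.denseRange.separableSpace toHc.symm.continuous

/-- coordinate projection -/
def PP (n : ℕ) : H →ₗ[ℝ] H where
  toFun x := ∑ i ∈ range (n + 2), x i • bas i
  map_add' x y := by simp [add_smul, Finset.sum_add_distrib]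
  map_smul' r x := by simp [Finset.smul_sum, smul_smul]

theorem PP_apply (n : ℕ) (x : H) : PP n x = ∑ i ∈ range (n + 2), x i • bas i := rfl

theorem PP_coord (n : ℕ) (x : H) (j : ℕ) : PP n x j = if j < n + 2 then x j else 0 := by
  rw [PP_apply]
  have h1 : (↑(∑ i ∈ range (n + 2), x i • bas i) : ℕ → ℝ) j = ∑ i ∈ range (n + 2), (x i • bas i : H) j := by
    rw [lp.coeFn_sum, Finset.sum_apply]
  rw [h1]
  simp only [lp.coeFn_smul, Pi.smul_apply, smul_eq_mul, bas_apply]
  simp

theorem PP_norm (n : ℕ) (x : H) : ‖PP n x‖ ≤ ‖x‖ := by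
  have h1 := lp.norm_sum_single (p := 2) (by norm_num) (fun i => x i) (range (n + 2))
  have h2 := lp.sum_rpow_le_norm_rpow (p := 2) (by norm_num) x (range (n + 2))
  have h3 : PP n x = ∑ i ∈ range (n + 2), lp.single 2 i (x i) := by
    rw [PP_apply]; exact Finset.sum_congr rfl fun i _ => (single_eq x i).symm
  rw [← h3] at h1
  rw [← h1] at h2
  simp only [ENNReal.toReal_ofNat, Real.rpow_ofNat] at h2
  exact le_of_sq_le_sq h2 (norm_nonneg _)

theorem PP_tendsto (x : H) : Filter.Tendsto (fun n => PP n x) Filter.atTop (nhds x) := by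
  have := (hasSum_bas x).tendsto_sum_nat
  exact this.comp (Filter.tendsto_add_atTop_nat 2)

theorem PP_idem (n : ℕ) (x : H) : PP n (PP n x) = PP n x := by
  ext j
  rw [PP_coord, PP_coord]
  split_ifs <;> rfl

theorem ph_PP_lt {n k : ℕ} (hk : k < n) (x : H) : ph k (PP n x) = ph k x := by
  rw [ph_apply, ph_apply, PP_coord, PP_coord, PP_coord, if_pos (by omega), if_pos (by omega), if_pos (by omega)]

theorem ph_PP_ge {n k : ℕ} (x : H) : |ph k (PP n x)| ≤ (k + 2) * ‖x‖ := by
  refine (ph_le k _).trans ?_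
  have := PP_norm n x
  gcongr

def tl (n : ℕ) : ℝ := ∑' k, cw (k + n)

theorem tl_tendsto : Filter.Tendsto tl Filter.atTop (nhds 0) := tendsto_sum_nat_add cw

theorem pp_PP (n : ℕ) (x : H) : pp (PP n x) ≤ pp x + tl n * ‖x‖ := by
  unfold pp
  rw [← (sm (PP n x)).sum_add_tsum_nat_add n, ← (sm x).sum_add_tsum_nat_add n]
  have h1 : ∑ k ∈ range n, w k * |ph k (PP n x)| = ∑ k ∈ range n, w k * |ph k x| :=
    Finset.sum_congr rfl fun k hk => by rw [ph_PP_lt (Finset.mem_range.mp hk)]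
  have h2 : ∑' k, w (k + n) * |ph (k + n) (PP n x)| ≤ tl n * ‖x‖ := by
    unfold tl
    rw [← tsum_mul_right]
    refine ((summable_nat_add_iff n).mpr (sm (PP n x))).tsum_le_tsum (fun k => ?_)
      (((summable_nat_add_iff n).mpr cw_sum).mul_right _)
    have := mul_le_mul_of_nonneg_left (ph_PP_ge (n := n) (k := k + n) x) (w_pos (k + n)).le
    unfold cw
    linarith
  have h3 : 0 ≤ ∑' k, w (k + n) * |ph (k + n) x| :=
    tsum_nonneg fun k => mul_nonneg (w_pos _).le (abs_nonneg _)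
  rw [h1]
  linarith

theorem tl_nonneg (n : ℕ) : 0 ≤ tl n := tsum_nonneg fun k => by
  unfold cw; have := w_pos (k + n); positivity

theorem NN_PP (n : ℕ) (x : H) : NN (PP n x) ≤ (1 + tl n) * NN x := by
  unfold NN
  have h1 := pp_PP n x
  have h2 := PP_norm n x
  have h3 := pp_nonneg x
  have h4 := tl_nonneg n
  nlinarith [norm_nonneg x, mul_nonneg h4 h3]

/-- the projections on E -/
def PE (n : ℕ) : E →L[ℝ] E :=
  LinearMap.mkContinuous (toH.symm.toLinearMap ∘ₗ PP n ∘ₗ toH.toLinearMap) (1 + tl n) (fun x => NN_PP n (toH x))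

theorem PE_norm (n : ℕ) : ‖PE n‖ ≤ 1 + tl n :=
  LinearMap.mkContinuous_norm_le _ (by linarith [tl_nonneg n]) _

theorem PE_apply (n : ℕ) (x : E) : PE n x = toH.symm (PP n (toH x)) := rfl

theorem PE_idem (n : ℕ) : (PE n).comp (PE n) = PE n := by
  ext x
  show PE n (PE n x) = PE n x
  rw [PE_apply, PE_apply, LinearEquiv.apply_symm_apply, PP_idem]

theorem PE_fin (n : ℕ) : FiniteDimensional ℝ (LinearMap.range (PE n : E →ₗ[ℝ] E)) := by
  classical
  have h1 : LinearMap.range (PE n : E →ₗ[ℝ] E) ≤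
      Submodule.span ℝ ((Finset.image (fun i => toH.symm (bas i)) (range (n + 2)) : Finset E) : Set E) := by
    rintro _ ⟨x, rfl⟩
    show PE n x ∈ _
    rw [PE_apply, PP_apply, map_sum]
    refine Submodule.sum_mem _ fun i hi => ?_
    rw [map_smul]
    exact Submodule.smul_mem _ _ (Submodule.subset_span (Finset.mem_coe.mpr (Finset.mem_image_of_mem _ hi)))
  exact Submodule.finiteDimensional_of_le h1

theorem PE_tendsto (x : E) : Filter.Tendsto (fun n => PE n x) Filter.atTop (nhds x) := by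
  have h1 := (toHc.symm.continuous.tendsto (toH x)).comp (PP_tendsto (toH x))
  exact h1

theorem unif {F : Type*} [NormedAddCommGroup F] [NormedSpace ℝ F] (P : ℕ → F →L[ℝ] F) (C : ℝ)
    (hC : ∀ n, ‖P n‖ ≤ C) (hP : ∀ x, Filter.Tendsto (fun n => P n x) Filter.atTop (nhds x))
    (Q : Set F) (hQ : IsCompact Q) (ε : ℝ) (hε : 0 < ε) :
    ∀ᶠ n in Filter.atTop, ∀ x ∈ Q, ‖P n x - x‖ ≤ ε := by
  have hC0 : 0 ≤ C := (norm_nonneg _).trans (hC 0)
  set r : ℝ := ε / (2 * (C + 2)) with hr
  have hrp : 0 < r := by positivity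
  obtain ⟨t, -, htf, htc⟩ := hQ.finite_cover_balls hrp
  have h1 : ∀ᶠ n in Filter.atTop, ∀ y ∈ t, ‖P n y - y‖ < ε / 2 := by
    rw [Filter.eventually_all_finite htf]
    intro y _
    have := (tendsto_iff_norm_sub_tendsto_zero.mp (hP y)).eventually (gt_mem_nhds (half_pos hε))
    exact this
  filter_upwards [h1] with n hn x hx
  obtain ⟨y, hy, hxy⟩ := Set.mem_iUnion₂.mp (htc hx)
  rw [Metric.mem_ball, dist_eq_norm] at hxy
  have e1 : P n x - x = P n (x - y) + (P n y - y) - (x - y) := by rw [map_sub]; abel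
  have e2 : ‖P n (x - y)‖ ≤ C * r := by
    refine ((P n).le_opNorm _).trans ?_
    exact mul_le_mul (hC n) hxy.le (norm_nonneg _) hC0
  have e3 : (C + 1) * r ≤ ε / 2 := by
    rw [hr]
    have : (C + 1) * (ε / (2 * (C + 2))) = ((C + 1) / (C + 2)) * (ε / 2) := by field_simp
    rw [this]
    have h2 : (C + 1) / (C + 2) ≤ 1 := by rw [div_le_one (by positivity)]; linarith
    nlinarith
  rw [e1]
  calc ‖P n (x - y) + (P n y - y) - (x - y)‖ ≤ ‖P n (x - y) + (P n y - y)‖ + ‖x - y‖ := norm_sub_le _ _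
    _ ≤ (‖P n (x - y)‖ + ‖P n y - y‖) + ‖x - y‖ := by gcongr; exact norm_add_le _ _
    _ ≤ ε := by linarith [hn y hy]

theorem partA (δ : ℝ) (hδ : 0 < δ) (Q : Set E) (hQ : IsCompact Q) (ε : ℝ) (hε : 0 < ε) :
    ∃ u : E →L[ℝ] E, FiniteDimensional ℝ (LinearMap.range (u : E →ₗ[ℝ] E)) ∧
      u.comp u = u ∧ ‖u‖ ≤ 1 + δ ∧ ∀ x ∈ Q, ‖u x - x‖ ≤ ε := by
  have h0 : ∃ C, ∀ n, ‖PE n‖ ≤ C := by
    obtain ⟨C, hC⟩ := tl_tendsto.bddAbove_range
    exact ⟨1 + C, fun n => (PE_norm n).trans (by linarith [hC ⟨n, rfl⟩])⟩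
  obtain ⟨C, hC⟩ := h0
  have h1 := unif PE C hC PE_tendsto Q hQ ε hε
  have h2 := tl_tendsto.eventually (gt_mem_nhds hδ)
  obtain ⟨n, hn1, hn2⟩ := (h1.and h2).exists
  exact ⟨PE n, PE_fin n, PE_idem n, (PE_norm n).trans (by linarith), hn1⟩

end

end Pool.Agent.H14.PAP
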