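import Mathlib
import Pool.Agent.H14.Pap1

open Finset

namespace Pool.Agent.H14.PAP

noncomputable section

/-- one-sided derivative inequality -/
theorem deriv_ineq {F : ℝ → ℝ} {a : ℝ} (hF : HasDerivAt F a 0) (h0 : F 0 = 0) (c : ℝ)
    (h : ∀ t : ℝ, 0 < t → 0 ≤ F t + c * t) : 0 ≤ a + c := by
  have h1 : HasDerivAt (fun t => F t + c * t) (a + c) 0 := by
    have := hF.fun_add ((hasDerivAt_id (0:ℝ)).const_mul c)
    simpa using this
  have h2 := h1.tendsto_slope_zero_right
  simp only [h0, mul_zero, add_zero, zero_add, sub_zero] at h2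
  refine ge_of_tendsto h2 ?_
  filter_upwards [self_mem_nhdsWithin] with t ht
  exact mul_nonneg (inv_nonneg.mpr (le_of_lt ht)) (h t ht)

theorem hasDerivAt_abs_line {p q : ℝ} (hp : p ≠ 0) :
    HasDerivAt (fun t : ℝ => |p + t * q|) (SignType.sign p * q) 0 := by
  have h1 : HasDerivAt (fun t : ℝ => p + t * q) q 0 := by
    have := ((hasDerivAt_id (0:ℝ)).mul_const q).const_add p
    simpa using this
  have h2 : HasDerivAt (fun x : ℝ => |x|) (SignType.sign (p + 0 * q) : ℝ) (p + 0 * q) :=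
    hasDerivAt_abs (by simpa using hp)
  have h3 := h2.comp (0:ℝ) h1
  have h4 : HasDerivAt (fun t : ℝ => |p + t * q|) ((SignType.sign (p + 0 * q) : ℝ) * q) 0 := h3
  refine h4.congr_deriv ?_
  simp

theorem hasDerivAt_norm_line {x v : H} (hx : x ≠ 0) :
    HasDerivAt (fun t : ℝ => ‖x + t • v‖) (inner ℝ x v / ‖x‖) 0 := by
  have h1 : HasDerivAt (fun t : ℝ => ‖x + t • v‖ ^ 2) (2 * inner ℝ x v) 0 := by
    have h2 : (fun t : ℝ => ‖x + t • v‖ ^ 2) = fun t => ‖x‖ ^ 2 + 2 * (inner ℝ x v) * t + ‖v‖ ^ 2 * t ^ 2 := by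
      funext t
      rw [norm_add_sq_real, inner_smul_right, norm_smul, mul_pow, Real.norm_eq_abs, sq_abs]
      ring
    rw [h2]
    have h3 := (((hasDerivAt_id (0:ℝ)).const_mul (2 * inner ℝ x v)).const_add (‖x‖ ^ 2)).fun_add
      (((hasDerivAt_id (0:ℝ)).fun_pow 2).const_mul (‖v‖ ^ 2))
    refine h3.congr_deriv ?_
    simp
  have h4 : HasDerivAt (fun t : ℝ => √(‖x + t • v‖ ^ 2)) (2 * inner ℝ x v / (2 * √(‖x + (0:ℝ) • v‖ ^ 2))) 0 := by
    apply h1.sqrt
    simpa using hx
  have h5 : (fun t : ℝ => √(‖x + t • v‖ ^ 2)) = fun t => ‖x + t • v‖ := by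
    funext t; rw [Real.sqrt_sq (norm_nonneg _)]
  rw [h5] at h4
  convert h4 using 1
  rw [Real.sqrt_sq (norm_nonneg _), zero_smul, add_zero, mul_div_mul_left _ _ (by norm_num)]

/-- the key local argument -/
theorem key {G : Submodule ℝ H} {ι : Type} [Fintype ι] [DecidableEq ι] (kk : ι → ℕ) (hk : Function.Injective kk)
    (c : ι → ℝ) (y : H) (hy : ∀ k, ph k y = ∑ i, if k = kk i then c i else 0)
    (hG : ∀ x ∈ G, ∀ t : ℝ, NN x ≤ NN (x + t • y))
    (i : ι) (x0 hh : H) (hx0 : x0 ∈ G) (hhh : hh ∈ G) (h1 : ph (kk i) x0 = 0) (h2 : ph (kk i) hh = 1)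
    (h3 : ∀ l, l ≠ i → ph (kk l) x0 ≠ 0) (hx00 : x0 ≠ 0) (R : ℝ) :
    0 ≤ (inner ℝ x0 y / ‖x0‖ + ∑ l ∈ univ.erase i, w (kk l) * (SignType.sign (ph (kk l) x0) * c l)) +
      w (kk i) * (|R + c i| - |R|) := by
  have hyk : ∀ l, ph (kk l) y = c l := by
    intro l
    rw [hy]
    rw [Finset.sum_eq_single l]
    · simp
    · intro b _ hb
      rw [if_neg (fun h => hb (hk h).symm)]
    · simp
  -- difference of the seminorm part
  have hdiff : ∀ x : H, pp (x + y) - pp x = ∑ l, w (kk l) * (|ph (kk l) x + c l| - |ph (kk l) x|) := by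
    intro x
    unfold pp
    rw [← (sm _).tsum_sub (sm _)]
    rw [tsum_eq_sum (s := univ.image kk)]
    · rw [Finset.sum_image (fun a _ b _ hab => hk hab)]
      refine Finset.sum_congr rfl fun l _ => ?_
      rw [map_add, hyk, mul_sub]
    · intro k hkk
      have : ph k y = 0 := by
        rw [hy]
        apply Finset.sum_eq_zero
        intro l _
        rw [if_neg]
        rintro rfl
        exact hkk (Finset.mem_image_of_mem _ (Finset.mem_univ l))
      rw [map_add, this, add_zero, sub_self]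
  have hdiff' : ∀ x : H, ∀ t : ℝ, 0 < t → pp (x + t • y) - pp x =
      ∑ l, w (kk l) * (|ph (kk l) x + t * c l| - |ph (kk l) x|) := by
    intro x t ht
    have e1 : x + t • y = t • (t⁻¹ • x + y) := by
      rw [smul_add, smul_smul, mul_inv_cancel₀ ht.ne', one_smul]
    have e2 : x = t • (t⁻¹ • x) := by rw [smul_smul, mul_inv_cancel₀ ht.ne', one_smul]
    rw [e1, pp_smul]
    conv_lhs => rw [e2, pp_smul, ← e2]
    rw [← mul_sub, abs_of_pos ht, hdiff, Finset.mul_sum]
    refine Finset.sum_congr rfl fun l _ => ?_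
    rw [map_smul, smul_eq_mul]
    have e3 : ph (kk l) x + t * c l = t * (t⁻¹ * ph (kk l) x + c l) := by field_simp
    rw [e3, abs_mul, abs_mul, abs_of_pos ht, abs_of_pos (inv_pos.mpr ht)]
    field_simp
  let F : ℝ → ℝ := fun t => (‖x0 + t • (R • hh + y)‖ - ‖x0 + t • (R • hh)‖) +
    ∑ l ∈ univ.erase i, w (kk l) * (|ph (kk l) x0 + t * (R * ph (kk l) hh + c l)| - |ph (kk l) x0 + t * (R * ph (kk l) hh)|)
  have hF : HasDerivAt F (inner ℝ x0 y / ‖x0‖ + ∑ l ∈ univ.erase i, w (kk l) * (SignType.sign (ph (kk l) x0) * c l)) 0 := by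
    have e1 := (hasDerivAt_norm_line (v := R • hh + y) hx00).fun_sub (hasDerivAt_norm_line (v := R • hh) hx00)
    have e2 : HasDerivAt (fun t : ℝ => ∑ l ∈ univ.erase i, w (kk l) *
        (|ph (kk l) x0 + t * (R * ph (kk l) hh + c l)| - |ph (kk l) x0 + t * (R * ph (kk l) hh)|))
        (∑ l ∈ univ.erase i, w (kk l) * (SignType.sign (ph (kk l) x0) * c l)) 0 := by
      apply HasDerivAt.fun_sum
      intro l hl
      have hl' : l ≠ i := Finset.ne_of_mem_erase hl
      have e3 := ((hasDerivAt_abs_line (q := R * ph (kk l) hh + c l) (h3 l hl')).fun_sub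
        (hasDerivAt_abs_line (q := R * ph (kk l) hh) (h3 l hl'))).const_mul (w (kk l))
      refine e3.congr_deriv ?_
      ring
    have e4 := e1.fun_add e2
    refine e4.congr_deriv ?_
    rw [inner_add_right]
    ring
  have hF0 : F 0 = 0 := by simp [F]
  refine deriv_ineq hF hF0 (w (kk i) * (|R + c i| - |R|)) fun t ht => ?_
  have hx : x0 + t • (R • hh) ∈ G := G.add_mem hx0 (G.smul_mem _ (G.smul_mem _ hhh))
  have e1 := hG _ hx t
  unfold NN at e1
  have e2 := hdiff' (x0 + t • (R • hh)) t ht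
  rw [← Finset.sum_erase_add _ _ (Finset.mem_univ i)] at e2
  have e3 : x0 + t • R • hh + t • y = x0 + t • (R • hh + y) := by rw [smul_add, add_assoc]
  have e4 : ∀ l, ph (kk l) (x0 + t • (R • hh)) = ph (kk l) x0 + t * (R * ph (kk l) hh) := by
    intro l; simp [map_add, map_smul]
  simp only [e4] at e2
  rw [h1, h2] at e2
  rw [e3] at e1 e2
  have e5 : |0 + t * (R * 1) + t * c i| - |0 + t * (R * 1)| = t * (|R + c i| - |R|) := by
    rw [show 0 + t * (R * 1) + t * c i = t * (R + c i) by ring, show 0 + t * (R * 1) = t * R by ring,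
      abs_mul, abs_mul, abs_of_pos ht]
    ring
  rw [e5] at e2
  have e6 : F t = (‖x0 + t • (R • hh + y)‖ - ‖x0 + t • (R • hh)‖) +
    ∑ l ∈ univ.erase i, w (kk l) * (|ph (kk l) x0 + t * (R * ph (kk l) hh) + t * c l| - |ph (kk l) x0 + t * (R * ph (kk l) hh)|) := by
    simp only [F]
    congr 1
    refine Finset.sum_congr rfl fun l _ => ?_
    rw [show ph (kk l) x0 + t * (R * ph (kk l) hh + c l) = ph (kk l) x0 + t * (R * ph (kk l) hh) + t * c l by ring]
  rw [e6]
  linarith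

theorem key2 {G : Submodule ℝ H} {ι : Type} [Fintype ι] [DecidableEq ι] (kk : ι → ℕ) (hk : Function.Injective kk)
    (c : ι → ℝ) (y : H) (hy : ∀ k, ph k y = ∑ i, if k = kk i then c i else 0)
    (hG : ∀ x ∈ G, ∀ t : ℝ, NN x ≤ NN (x + t • y))
    (i : ι) (x0 hh : H) (hx0 : x0 ∈ G) (hhh : hh ∈ G) (h1 : ph (kk i) x0 = 0) (h2 : ph (kk i) hh = 1)
    (h3 : ∀ l, l ≠ i → ph (kk l) x0 ≠ 0) (hx00 : x0 ≠ 0) : c i = 0 := by
  have a1 := key kk hk c y hy hG i x0 hh hx0 hhh h1 h2 h3 hx00 (-c i)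
  have a2 := key kk hk (fun l => -c l) (-y) (fun k => by
      rw [map_neg, hy, ← Finset.sum_neg_distrib]
      refine Finset.sum_congr rfl fun l _ => ?_
      split_ifs <;> simp) (fun x hx t => by
      have := hG x hx (-t)
      simpa using this) i x0 hh hx0 hhh h1 h2 h3 hx00 (c i)
  simp only [neg_add_cancel, add_neg_cancel, abs_zero, abs_neg, zero_sub] at a1 a2
  rw [inner_neg_right, neg_div] at a2
  have e1 : ∑ l ∈ univ.erase i, w (kk l) * ((SignType.sign (ph (kk l) x0) : ℝ) * -c l) =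
      - ∑ l ∈ univ.erase i, w (kk l) * ((SignType.sign (ph (kk l) x0) : ℝ) * c l) := by
    rw [← Finset.sum_neg_distrib]
    exact Finset.sum_congr rfl fun l _ => by ring
  rw [e1] at a2
  have e2 : 0 ≤ -(w (kk i) * |c i|) := by linarith
  have e3 : w (kk i) * |c i| ≤ 0 := by linarith
  have e4 : |c i| ≤ 0 := by
    by_contra hcon
    push Not at hcon
    have := mul_pos (w_pos (kk i)) hcon
    linarith
  exact abs_eq_zero.mp (le_antisymm e4 (abs_nonneg _))

theorem coord_tendsto (x : H) : Filter.Tendsto (fun k => x k) Filter.atTop (nhds 0) := by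
  have h1 := (lp.memℓp x).summable (by norm_num)
  simp only [ENNReal.toReal_ofNat, Real.rpow_ofNat] at h1
  have h2 := h1.tendsto_atTop_zero
  rw [tendsto_zero_iff_abs_tendsto_zero]
  have h3 := (Real.continuous_sqrt.tendsto 0).comp h2
  rw [Real.sqrt_zero] at h3
  refine h3.congr fun k => ?_
  simp [Real.sqrt_sq_eq_abs]

def Ph (m : ℕ) (x : H) : ℝ := x 0 + m * x 1

theorem ph_tendsto (i : ℕ) (x : H) :
    Filter.Tendsto (fun n => ph (Nat.pair i n) x) Filter.atTop (nhds (Ph i x)) := by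
  have h1 : Filter.Tendsto (fun n : ℕ => Nat.pair i n + 2) Filter.atTop Filter.atTop := by
    apply Filter.tendsto_atTop_mono (f := fun n => n) _ Filter.tendsto_id
    intro n
    have := Nat.right_le_pair i n
    omega
  have h2 := (coord_tendsto x).comp h1
  have h3 : Filter.Tendsto (fun n => Ph i x + x (Nat.pair i n + 2)) Filter.atTop (nhds (Ph i x + 0)) :=
    tendsto_const_nhds.add h2
  rw [add_zero] at h3
  refine h3.congr fun n => ?_
  rw [ph_apply, Nat.unpair_pair]
  rfl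

theorem partB : ¬ ∃ u : E →L[ℝ] E, FiniteDimensional ℝ (LinearMap.range (u : E →ₗ[ℝ] E)) ∧
    u.comp u = u ∧ ‖u‖ ≤ 1 ∧ ∀ x ∈ ({toH.symm (bas 0), toH.symm (bas 1)} : Set E), ‖u x - x‖ ≤ 1 / 10 := by
  rintro ⟨u, hfin, hidem, hnorm, hQ⟩
  let U : H →ₗ[ℝ] H := toH.toLinearMap ∘ₗ (u : E →ₗ[ℝ] E) ∘ₗ toH.symm.toLinearMap
  have hU : ∀ x, U x = toH (u (toH.symm x)) := fun x => rfl
  have hUU : ∀ x, U (U x) = U x := by
    intro x
    rw [hU, hU]
    have := congrArg (fun v : E →L[ℝ] E => v (toH.symm x)) hidem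
    simp only [ContinuousLinearMap.comp_apply] at this
    rw [LinearEquiv.symm_apply_apply, this]
  have hUN : ∀ x, NN (U x) ≤ NN x := by
    intro x
    have h1 := u.le_opNorm (toH.symm x)
    have h2 : ‖u (toH.symm x)‖ ≤ ‖toH.symm x‖ := h1.trans (by nlinarith [norm_nonneg (toH.symm x)])
    exact h2
  have hUfin : FiniteDimensional ℝ (LinearMap.range U) := by
    have h1 : LinearMap.range U = (LinearMap.range (u : E →ₗ[ℝ] E)).map toH.toLinearMap := by
      ext x
      constructor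
      · rintro ⟨z, rfl⟩
        exact ⟨u (toH.symm z), ⟨toH.symm z, rfl⟩, rfl⟩
      · rintro ⟨_, ⟨z, rfl⟩, rfl⟩
        exact ⟨toH z, rfl⟩
    rw [h1]
    infer_instance
  set G := LinearMap.range U with hG
  have hGfix : ∀ x ∈ G, U x = x := by
    rintro _ ⟨z, rfl⟩; exact hUU z
  set g0 := U (bas 0) with hg0
  set g1 := U (bas 1) with hg1
  have hg0G : g0 ∈ G := ⟨_, rfl⟩
  have hg1G : g1 ∈ G := ⟨_, rfl⟩
  have hb0 : ‖g0 - bas 0‖ ≤ 1 / 10 := by
    have h1 := hQ (toH.symm (bas 0)) (by simp)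
    exact (le_E _).trans h1
  have hb1 : ‖g1 - bas 1‖ ≤ 1 / 10 := by
    have h1 := hQ (toH.symm (bas 1)) (by simp)
    exact (le_E _).trans h1
  have c00 : |g0 0 - 1| ≤ 1 / 10 := by
    have := (coord_le (g0 - bas 0) 0).trans hb0
    simpa [bas_apply] using this
  have c01 : |g0 1| ≤ 1 / 10 := by
    have := (coord_le (g0 - bas 0) 1).trans hb0
    simpa [bas_apply] using this
  have c10 : |g1 0| ≤ 1 / 10 := by
    have := (coord_le (g1 - bas 1) 0).trans hb1
    simpa [bas_apply] using this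
  have c11 : |g1 1 - 1| ≤ 1 / 10 := by
    have := (coord_le (g1 - bas 1) 1).trans hb1
    simpa [bas_apply] using this
  have hdet : g0 0 * g1 1 - g0 1 * g1 0 ≠ 0 := by
    rw [abs_le] at c00 c01 c10 c11
    have : 0 < g0 0 * g1 1 - g0 1 * g1 0 := by
      have h1 : 81 / 100 ≤ g0 0 * g1 1 := by nlinarith
      have h2 : g0 1 * g1 0 ≤ 1 / 100 := by
        have := abs_mul (g0 1) (g1 0)
        nlinarith [abs_le.mpr c01, abs_le.mpr c10, abs_nonneg (g0 1), abs_nonneg (g1 0), le_abs_self (g0 1 * g1 0)]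
      linarith
    exact this.ne'
  have hPdet : ∀ m m' : ℕ, m ≠ m' → Ph m g0 * Ph m' g1 - Ph m g1 * Ph m' g0 ≠ 0 := by
    intro m m' hmm
    have : Ph m g0 * Ph m' g1 - Ph m g1 * Ph m' g0 = ((m':ℝ) - m) * (g0 0 * g1 1 - g0 1 * g1 0) := by
      unfold Ph; ring
    rw [this]
    apply mul_ne_zero _ hdet
    intro h
    have : (m' : ℝ) = m := by linarith
    exact hmm (by exact_mod_cast this.symm)
  set r := Module.finrank ℝ G with hr
  have hev : ∀ᶠ n in Filter.atTop, ∀ i l : Fin (r + 2), i ≠ l →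
      ph (Nat.pair i n) g0 * ph (Nat.pair l n) g1 - ph (Nat.pair i n) g1 * ph (Nat.pair l n) g0 ≠ 0 := by
    rw [Filter.eventually_all]
    intro i
    rw [Filter.eventually_all]
    intro l
    by_cases hil : i = l
    · exact Filter.Eventually.of_forall fun n h => absurd hil h
    · have h1 := ((ph_tendsto i g0).mul (ph_tendsto l g1)).sub ((ph_tendsto i g1).mul (ph_tendsto l g0))
      have h2 := hPdet i l (fun h => hil (Fin.ext h))
      filter_upwards [h1.eventually_ne h2] with n hn _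
      exact hn
  obtain ⟨n, hn⟩ := hev.exists
  let kk : Fin (r + 2) → ℕ := fun i => Nat.pair i n
  have hkk : Function.Injective kk := by
    intro a b hab
    exact Fin.ext (Nat.pair_eq_pair.mp hab).1
  let L : (Fin (r + 2) → ℝ) →ₗ[ℝ] H :=
    { toFun := fun c => ∑ i, c i • bas (kk i + 2)
      map_add' := fun a b => by simp [add_smul, Finset.sum_add_distrib]
      map_smul' := fun a b => by simp [Finset.smul_sum, smul_smul] }
  have hLapp : ∀ c : Fin (r + 2) → ℝ, L c = ∑ i, c i • bas (kk i + 2) := fun c => rfl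
  have hLc : ∀ (c : Fin (r + 2) → ℝ) (j : ℕ), L c j = ∑ i, if j = kk i + 2 then c i else 0 := by
    intro c j
    rw [hLapp, lp.coeFn_sum, Finset.sum_apply]
    refine Finset.sum_congr rfl fun i _ => ?_
    simp only [lp.coeFn_smul, Pi.smul_apply, smul_eq_mul, bas_apply]
    split_ifs <;> simp
  have hLph : ∀ (c : Fin (r + 2) → ℝ) (k : ℕ), ph k (L c) = ∑ i, if k = kk i then c i else 0 := by
    intro c k
    rw [ph_apply, hLc, hLc, hLc]
    have e0 : ∑ i, (if 0 = kk i + 2 then c i else 0) = 0 := Finset.sum_eq_zero fun i _ => if_neg (by omega)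
    have e1 : ∑ i, (if 1 = kk i + 2 then c i else 0) = 0 := Finset.sum_eq_zero fun i _ => if_neg (by omega)
    rw [e0, e1]
    simp
  let M : (Fin (r + 2) → ℝ) →ₗ[ℝ] G := U.rangeRestrict ∘ₗ L
  have hker : LinearMap.ker M ≠ ⊥ := by
    apply LinearMap.ker_ne_bot_of_finrank_lt
    rw [Module.finrank_fin_fun]
    omega
  obtain ⟨c, hc, hc0⟩ := (Submodule.ne_bot_iff _).mp hker
  have hUy : U (L c) = 0 := by
    have h1 : M c = 0 := hc
    have := congrArg Subtype.val h1
    exact this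
  obtain ⟨i, hi⟩ : ∃ i, c i ≠ 0 := by
    by_contra hcon
    push Not at hcon
    exact hc0 (funext hcon)
  obtain ⟨l0, hl0⟩ : ∃ l0 : Fin (r + 2), l0 ≠ i := exists_ne i
  apply hi
  refine key2 (G := G) kk hkk c (L c) (hLph c) ?_ i (ph (kk i) g1 • g0 - ph (kk i) g0 • g1)
    ((ph (kk l0) g1 * ph (kk i) g0 - ph (kk l0) g0 * ph (kk i) g1)⁻¹ • (ph (kk l0) g1 • g0 - ph (kk l0) g0 • g1))
    (G.sub_mem (G.smul_mem _ hg0G) (G.smul_mem _ hg1G))
    (G.smul_mem _ (G.sub_mem (G.smul_mem _ hg0G) (G.smul_mem _ hg1G))) ?_ ?_ ?_ ?_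
  · intro x hx t
    have h1 := hUN (x + t • L c)
    rw [map_add, map_smul, hUy, smul_zero, add_zero, hGfix x hx] at h1
    exact h1
  · simp only [map_sub, map_smul, smul_eq_mul]; ring
  · simp only [map_sub, map_smul, smul_eq_mul]
    rw [inv_mul_cancel₀]
    have := hn i l0 (fun h => hl0 h.symm)
    intro h
    apply this
    linarith
  · intro l hl
    simp only [map_sub, map_smul, smul_eq_mul]
    have := hn i l (fun h => hl h.symm)
    intro h
    apply this
    linarith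
  · intro h
    have h1 : ph (kk l0) (ph (kk i) g1 • g0 - ph (kk i) g0 • g1) = 0 := by rw [h, map_zero]
    simp only [map_sub, map_smul, smul_eq_mul] at h1
    have := hn i l0 (fun h => hl0 h.symm)
    apply this
    linarith

end

end Pool.Agent.H14.PAP
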