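import Mathlib

set_option autoImplicit false

namespace H14.RelInd

open Filter Topology

abbrev Node := ℕ × Finset ℕ

open Classical in
noncomputable def node (m : ℕ) (x : Set ℕ) : Node := (m, (Finset.range m).filter (· ∈ x))

theorem node_fst (m : ℕ) (x : Set ℕ) : (node m x).1 = m := rfl

theorem node_eq {m m' : ℕ} {x y : Set ℕ} (h : node m x = node m' y) (i : ℕ) (hi : i < m) :
    m = m' ∧ (i ∈ x ↔ i ∈ y) := by
  have h1 : m = m' := congrArg Prod.fst h
  subst h1
  refine ⟨rfl, ?_⟩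
  have h2 := congrArg Prod.snd h
  have h3 : i ∈ (node m x).2 ↔ i ∈ (node m y).2 := by rw [h2]
  simpa [node, hi] using h3

inductive Psi : Type
  | nd (σ : Node) : Psi
  | br (x : Set ℕ) : Psi

open Psi

instance : TopologicalSpace Psi where
  IsOpen U := ∀ x, Psi.br x ∈ U → ∃ n, ∀ m ≥ n, Psi.nd (node m x) ∈ U
  isOpen_univ := fun x _ => ⟨0, fun _ _ => trivial⟩
  isOpen_inter := by
    intro s t hs ht x hx
    obtain ⟨n1, h1⟩ := hs x hx.1
    obtain ⟨n2, h2⟩ := ht x hx.2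
    exact ⟨max n1 n2, fun m hm => ⟨h1 m (le_trans (le_max_left _ _) hm),
      h2 m (le_trans (le_max_right _ _) hm)⟩⟩
  isOpen_sUnion := by
    intro s hs x hx
    obtain ⟨t, ht, hxt⟩ := hx
    obtain ⟨n, hn⟩ := hs t ht x hxt
    exact ⟨n, fun m hm => ⟨t, ht, hn m hm⟩⟩

theorem isOpen_iff' (U : Set Psi) :
    IsOpen U ↔ ∀ x, Psi.br x ∈ U → ∃ n, ∀ m ≥ n, Psi.nd (node m x) ∈ U := Iff.rfl

theorem isOpen_nd (σ : Node) : IsOpen ({nd σ} : Set Psi) := by
  intro x hx
  simp at hx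

theorem isOpen_nd_compl (σ : Node) : IsOpen ({nd σ}ᶜ : Set Psi) := by
  intro x _
  refine ⟨σ.1 + 1, fun m hm h => ?_⟩
  have h2 : nd (node m x) = nd σ := h
  rw [Psi.nd.injEq] at h2
  have := congrArg Prod.fst h2
  rw [node_fst] at this
  omega

def tail (x : Set ℕ) (n : ℕ) : Set Psi := {p | p = br x ∨ ∃ m ≥ n, p = nd (node m x)}

theorem isOpen_tail (x : Set ℕ) (n : ℕ) : IsOpen (tail x n) := by
  intro y hy
  rcases hy with hy | ⟨m, _, hy⟩
  · rw [Psi.br.injEq] at hy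
    subst hy
    exact ⟨n, fun m hm => Or.inr ⟨m, hm, rfl⟩⟩
  · exact absurd hy (by simp)

instance : T2Space Psi where
  t2 := by
    intro p q hpq
    rcases p with σ | x <;> rcases q with τ | y
    · refine ⟨{nd σ}, {nd τ}, isOpen_nd _, isOpen_nd _, rfl, rfl, ?_⟩
      rw [Set.disjoint_singleton]
      exact hpq
    · exact ⟨{nd σ}, {nd σ}ᶜ, isOpen_nd _, isOpen_nd_compl _, rfl, fun h => hpq (by simpa using h.symm),
        disjoint_compl_right⟩
    · exact ⟨{nd τ}ᶜ, {nd τ}, isOpen_nd_compl _, isOpen_nd _, fun h => hpq (by simpa using h), rfl,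
        disjoint_compl_left⟩
    · have hxy : x ≠ y := fun h => hpq (by rw [h])
      obtain ⟨i, hi⟩ : ∃ i, ¬ (i ∈ x ↔ i ∈ y) := by
        by_contra hcon
        push Not at hcon
        exact hxy (Set.ext hcon)
      refine ⟨tail x (i + 1), tail y (i + 1), isOpen_tail _ _, isOpen_tail _ _, Or.inl rfl,
        Or.inl rfl, ?_⟩
      rw [Set.disjoint_left]
      rintro p (h1 | ⟨m, hm, h1⟩) (h2 | ⟨m', hm', h2⟩)
      · exact hpq (h1.symm.trans h2)
      · rw [h1] at h2; exact absurd h2 (by simp)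
      · rw [h1] at h2; exact absurd h2 (by simp)
      · rw [h1, Psi.nd.injEq] at h2
        exact hi (node_eq h2 i (by omega)).2

theorem tendsto_node (x : Set ℕ) : Tendsto (fun m => nd (node m x)) atTop (𝓝 (br x)) := by
  rw [tendsto_nhds]
  intro s hs hx
  obtain ⟨n, hn⟩ := hs x hx
  filter_upwards [eventually_ge_atTop n] with m hm using hn m hm

instance : WeaklyLocallyCompactSpace Psi where
  exists_compact_mem_nhds := by
    intro p
    rcases p with σ | x
    · exact ⟨{nd σ}, isCompact_singleton, (isOpen_nd σ).mem_nhds rfl⟩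
    · refine ⟨insert (br x) (Set.range (fun m => nd (node m x))),
        (tendsto_node x).isCompact_insert_range, ?_⟩
      refine Filter.mem_of_superset ((isOpen_tail x 0).mem_nhds (Or.inl rfl)) ?_
      rintro p (h | ⟨m, _, h⟩)
      · exact Or.inl h
      · exact Or.inr ⟨m, h.symm⟩

abbrev K := OnePoint Psi

abbrev X := K × unitInterval

abbrev C := Node × ℚ × ℚ

/-- decoding -/
def dec (x : Set ℕ) : Set C × Set C :=
  ({c | Encodable.encode (Sum.inl c : C ⊕ C) ∈ x}, {c | Encodable.encode (Sum.inr c : C ⊕ C) ∈ x})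

theorem dec_surj (P Q : Set C) : ∃ x, dec x = (P, Q) := by
  refine ⟨{n | (∃ c ∈ P, Encodable.encode (Sum.inl c : C ⊕ C) = n) ∨
    (∃ c ∈ Q, Encodable.encode (Sum.inr c : C ⊕ C) = n)}, ?_⟩
  unfold dec
  refine Prod.ext ?_ ?_
  · ext c
    simp only [Set.mem_setOf_eq]
    constructor
    · rintro (⟨c', hc', h⟩ | ⟨c', hc', h⟩)
      · have := Encodable.encode_injective h
        rw [Sum.inl.injEq] at this
        rwa [← this]
      · have := Encodable.encode_injective h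
        exact absurd this (by simp)
    · intro hc
      exact Or.inl ⟨c, hc, rfl⟩
  · ext c
    simp only [Set.mem_setOf_eq]
    constructor
    · rintro (⟨c', hc', h⟩ | ⟨c', hc', h⟩)
      · have := Encodable.encode_injective h
        exact absurd this (by simp)
      · have := Encodable.encode_injective h
        rw [Sum.inr.injEq] at this
        rwa [← this]
    · intro hc
      exact Or.inr ⟨c, hc, rfl⟩

def Ustar (P : Set C) (x : Set ℕ) : Set unitInterval :=
  {t | ∃ a b : ℚ, (a : ℝ) < t ∧ (t : ℝ) < b ∧ ∃ n, ∀ m ≥ n, (node m x, a, b) ∈ P}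

theorem isOpen_Ustar (P : Set C) (x : Set ℕ) : IsOpen (Ustar P x) := by
  rw [isOpen_iff_mem_nhds]
  rintro t ⟨a, b, ha, hb, h⟩
  have h1 : IsOpen {s : unitInterval | (a : ℝ) < s ∧ (s : ℝ) < b} := by
    apply IsOpen.inter
    · exact isOpen_lt continuous_const continuous_subtype_val
    · exact isOpen_lt continuous_subtype_val continuous_const
  refine Filter.mem_of_superset (h1.mem_nhds ⟨ha, hb⟩) ?_
  rintro s ⟨hs1, hs2⟩
  exact ⟨a, b, hs1, hs2, h⟩

open Classical in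
noncomputable def z (x : Set ℕ) : unitInterval :=
  if h : ∃ t, t ∉ Ustar (dec x).1 x ∪ Ustar (dec x).2 x then h.choose else 0

theorem z_spec (x : Set ℕ) (h : ∃ t, t ∉ Ustar (dec x).1 x ∪ Ustar (dec x).2 x) :
    z x ∉ Ustar (dec x).1 x ∪ Ustar (dec x).2 x := by
  unfold z
  rw [dif_pos h]
  exact h.choose_spec

def Z : Set X := Set.range (fun x : Set ℕ => (((br x : Psi) : K), z x))

def code (U : Set X) : Set C :=
  {c | ∀ t : unitInterval, (c.2.1 : ℝ) < t → (t : ℝ) < c.2.2 → ((((nd c.1 : Psi) : K), t) : X) ∈ U}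

theorem mem_Ustar_code (U : Set X) (hU : IsOpen U) (x : Set ℕ) (t : unitInterval)
    (h : ((((br x : Psi) : K), t) : X) ∈ U) : t ∈ Ustar (code U) x := by
  have h1 := hU.mem_nhds h
  rw [mem_nhds_prod_iff] at h1
  obtain ⟨A, hA, B, hB, hAB⟩ := h1
  rw [Metric.mem_nhds_iff] at hB
  obtain ⟨ε, hε, hball⟩ := hB
  obtain ⟨a, ha1, ha2⟩ := exists_rat_btwn (show (t : ℝ) - ε < t by linarith)
  obtain ⟨b, hb1, hb2⟩ := exists_rat_btwn (show (t : ℝ) < t + ε by linarith)
  refine ⟨a, b, ha2, hb1, ?_⟩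
  have h2 : Tendsto (fun m => (((nd (node m x) : Psi) : K))) atTop (𝓝 ((br x : Psi) : K)) :=
    (OnePoint.continuous_coe.tendsto _).comp (tendsto_node x)
  have h3 := h2 hA
  rw [Filter.mem_map, Filter.mem_atTop_sets] at h3
  obtain ⟨n, hn⟩ := h3
  refine ⟨n, fun m hm s hs1 hs2 => hAB ⟨hn m hm, hball ?_⟩⟩
  rw [Metric.mem_ball, Subtype.dist_eq, Real.dist_eq, abs_lt]
  simp only at hs1 hs2
  constructor <;> linarith

theorem Ustar_disj (U V : Set X) (hUV : Disjoint U V) (x : Set ℕ) (t : unitInterval)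
    (h1 : t ∈ Ustar (code U) x) (h2 : t ∈ Ustar (code V) x) : False := by
  obtain ⟨a, b, ha, hb, n, hn⟩ := h1
  obtain ⟨a', b', ha', hb', n', hn'⟩ := h2
  have h3 := hn (max n n') (le_max_left _ _) t ha hb
  have h4 := hn' (max n n') (le_max_right _ _) t ha' hb'
  exact Set.disjoint_left.1 hUV h3 h4

/-- every partition between `K × {0}` and `K × {1}` meets `Z` -/
theorem key (U V : Set X) (hU : IsOpen U) (hV : IsOpen V) (hUV : Disjoint U V)
    (hF : ∀ k : K, ((k, 0) : X) ∈ U) (hG : ∀ k : K, ((k, 1) : X) ∈ V) (hZ : Z ⊆ U ∪ V) : False := by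
  obtain ⟨x, hx⟩ := dec_surj (code U) (code V)
  have h1 : ∃ t, t ∉ Ustar (dec x).1 x ∪ Ustar (dec x).2 x := by
    rw [hx]
    by_contra hcon
    push Not at hcon
    have hpre : IsPreconnected (Set.univ : Set unitInterval) := isPreconnected_univ
    have := hpre (Ustar (code U) x) (Ustar (code V) x) (isOpen_Ustar _ _) (isOpen_Ustar _ _)
      (fun t _ => hcon t)
      ⟨0, trivial, mem_Ustar_code U hU x 0 (hF _)⟩
      ⟨1, trivial, mem_Ustar_code V hV x 1 (hG _)⟩
    obtain ⟨t, _, ht1, ht2⟩ := this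
    exact Ustar_disj U V hUV x t ht1 ht2
  have h2 := z_spec x h1
  rw [hx] at h2
  apply h2
  rcases hZ ⟨x, rfl⟩ with h | h
  · exact Or.inl (mem_Ustar_code U hU x _ h)
  · exact Or.inr (mem_Ustar_code V hV x _ h)

/-- every subset of `Z` is relatively open -/
theorem Z_discrete (A : Set X) (hA : A ⊆ Z) : ∃ O : Set X, IsOpen O ∧ A = Z ∩ O := by
  refine ⟨⋃ x ∈ {x : Set ℕ | (((br x : Psi) : K), z x) ∈ A},
    ((fun p : Psi => (p : K)) '' tail x 0) ×ˢ Set.univ, ?_, ?_⟩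
  · refine isOpen_biUnion fun x _ => ?_
    refine IsOpen.prod ?_ isOpen_univ
    exact OnePoint.isOpenEmbedding_coe.isOpenMap _ (isOpen_tail x 0)
  · ext q
    constructor
    · intro hq
      refine ⟨hA hq, ?_⟩
      obtain ⟨x, rfl⟩ := hA hq
      simp only [Set.mem_iUnion]
      exact ⟨x, hq, ⟨br x, Or.inl rfl, rfl⟩, trivial⟩
    · rintro ⟨⟨x, rfl⟩, hq⟩
      simp only [Set.mem_iUnion] at hq
      obtain ⟨y, hy, ⟨p, hp, hpe⟩, _⟩ := hq
      have h1 : p = br x := OnePoint.coe_injective hpe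
      rcases hp with hp | ⟨m, _, hp⟩
      · rw [h1, Psi.br.injEq] at hp
        rw [hp]
        exact hy
      · rw [h1] at hp
        exact absurd hp (by simp)

theorem main :
    ¬ (∀ (X : Type) [TopologicalSpace X] [T4Space X] (Z : Set X) (n : ℕ)
      (D : ℕ → Set X → Set X → Prop),
      (∀ Y A : Set X, D 0 Y A ↔ A ∩ Y = ∅) →
      (∀ (k : ℕ) (Y A : Set X), D (k + 1) Y A ↔
        (A ∩ Y = ∅ ∨
          ∀ F G : Set X, (∃ C : Set X, IsClosed C ∧ F = Y ∩ C) →
            (∃ C : Set X, IsClosed C ∧ G = Y ∩ C) → Disjoint F G →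
            ∃ S U V : Set X, S ⊆ Y ∧ (∃ C : Set X, IsClosed C ∧ S = Y ∩ C) ∧
              (∃ O : Set X, IsOpen O ∧ U = Y ∩ O) ∧
              (∃ O : Set X, IsOpen O ∧ V = Y ∩ O) ∧
              Disjoint U V ∧ Y \ S = U ∪ V ∧ F ⊆ U ∧ G ⊆ V ∧
              D k S (A ∩ S))) →
      D n Z Z → D n Set.univ Z) := by
  intro hall
  let D : ℕ → Set X → Set X → Prop := fun n =>
    Nat.rec (motive := fun _ => Set X → Set X → Prop) (fun Y A => A ∩ Y = ∅)
      (fun k Dk Y A => (A ∩ Y = ∅ ∨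
          ∀ F G : Set X, (∃ C : Set X, IsClosed C ∧ F = Y ∩ C) →
            (∃ C : Set X, IsClosed C ∧ G = Y ∩ C) → Disjoint F G →
            ∃ S U V : Set X, S ⊆ Y ∧ (∃ C : Set X, IsClosed C ∧ S = Y ∩ C) ∧
              (∃ O : Set X, IsOpen O ∧ U = Y ∩ O) ∧
              (∃ O : Set X, IsOpen O ∧ V = Y ∩ O) ∧
              Disjoint U V ∧ Y \ S = U ∪ V ∧ F ⊆ U ∧ G ⊆ V ∧
              Dk S (A ∩ S))) n
  have h := hall X Z 1 D (fun Y A => Iff.rfl) (fun k Y A => Iff.rfl)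
  have h1 : D 1 Z Z := by
    right
    rintro F G ⟨C1, _, hF⟩ ⟨C2, _, hG⟩ hFG
    have hFZ : F ⊆ Z := by rw [hF]; exact Set.inter_subset_left
    have hGZ : G ⊆ Z := by rw [hG]; exact Set.inter_subset_left
    refine ⟨∅, F, Z \ F, Set.empty_subset _, ⟨∅, isClosed_empty, by simp⟩, Z_discrete F hFZ,
      Z_discrete _ Set.diff_subset, Set.disjoint_sdiff_right, ?_, subset_rfl, ?_, ?_⟩
    · rw [Set.diff_empty, Set.union_diff_cancel hFZ]
    · exact Set.subset_diff.2 ⟨hGZ, hFG.symm⟩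
    · show (Z ∩ ∅) ∩ ∅ = ∅
      simp
  have h2 := h h1
  rcases h2 with h2 | h2
  · have : ((((br ∅ : Psi) : K), z ∅) : X) ∈ Z ∩ Set.univ := ⟨⟨∅, rfl⟩, trivial⟩
    rw [h2] at this
    exact this
  · obtain ⟨S, U, V, _, _, ⟨O1, hO1, hU⟩, ⟨O2, hO2, hV⟩, hUV, hSUV, hFU, hGV, hS⟩ :=
      h2 {q | q.2 = 0} {q | q.2 = 1}
      ⟨{q | q.2 = 0}, isClosed_eq continuous_snd continuous_const, by simp⟩
      ⟨{q | q.2 = 1}, isClosed_eq continuous_snd continuous_const, by simp⟩
      (by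
        rw [Set.disjoint_left]
        intro q h1 h2
        have h3 : q.2 = 0 := h1
        have h4 : q.2 = 1 := h2
        rw [h3] at h4
        exact zero_ne_one h4)
    rw [Set.univ_inter] at hU hV
    refine key U V (hU ▸ hO1) (hV ▸ hO2) hUV (fun k => hFU rfl) (fun k => hGV rfl) ?_
    intro q hq
    rw [← hSUV]
    refine ⟨trivial, fun hqS => ?_⟩
    have hS' : (Z ∩ S) ∩ S = ∅ := hS
    have : q ∈ (Z ∩ S) ∩ S := ⟨⟨hq, hqS⟩, hqS⟩
    rw [hS'] at this
    exact this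

end H14.RelInd
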