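import Mathlib

namespace Pool.Agent.H14.SolAct

open RegularWreathProduct

universe u

/-! ### derived series bookkeeping -/

theorem ker_step {G Q : Type*} [Group G] [Group Q] (φ : G →* Q) (n : ℕ) (hQ : derivedSeries Q n = ⊥)
    (hk : ∀ x y, φ x = 1 → φ y = 1 → x * y = y * x) : derivedSeries G (n + 1) = ⊥ := by
  have h1 : derivedSeries G n ≤ φ.ker := by
    have h2 := map_derivedSeries_le_derivedSeries φ n
    rw [hQ, le_bot_iff, Subgroup.map_eq_bot_iff] at h2
    exact h2
  rw [derivedSeries_succ, eq_bot_iff, Subgroup.commutator_le]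
  intro x hx y hy
  rw [Subgroup.mem_bot, commutatorElement_eq_one_iff_mul_comm]
  exact hk x y (MonoidHom.mem_ker.mp (h1 hx)) (MonoidHom.mem_ker.mp (h1 hy))

theorem derived_comm {G : Type*} [CommGroup G] : derivedSeries G 1 = ⊥ := by
  rw [derivedSeries_succ, eq_bot_iff, Subgroup.commutator_le]
  intro x _ y _
  rw [Subgroup.mem_bot, commutatorElement_eq_one_iff_mul_comm]
  exact mul_comm x y

theorem derived_sub {G : Type*} [Group G] (S : Subgroup G) (n : ℕ) (h : derivedSeries G n = ⊥) : derivedSeries S n = ⊥ := by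
  have h2 := map_derivedSeries_le_derivedSeries S.subtype n
  rw [h, le_bot_iff] at h2
  exact (Subgroup.map_eq_bot_iff_of_injective _ (Subgroup.subtype_injective S)).mp h2

/-! ### the lamplighter like group and the function on it -/

section core

set_option linter.unusedSectionVars false

variable {K : Type} [CommGroup K] {H : Type u} [Group H]

abbrev Zm : Type := Multiplicative ℤ

abbrev Q (K : Type) [CommGroup K] : Type := K ≀ᵣ Zm

/-- product read to the right -/
def prR (σ : K → H) : (ℤ → K) → ℕ → H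
  | _, 0 => 1
  | g, (m + 1) => prR σ (fun i => g (i + 1)) m * σ (g 0)

/-- product read to the left -/
def prL (σ : K → H) : (ℤ → K) → ℕ → H
  | _, 0 => 1
  | g, (m + 1) => prL σ (fun i => g (i - 1)) m * σ (g 0)

theorem prR_succ (σ : K → H) (g : ℤ → K) (m : ℕ) : prR σ g (m + 1) = prR σ (fun i => g (i + 1)) m * σ (g 0) := rfl
theorem prL_succ (σ : K → H) (g : ℤ → K) (m : ℕ) : prL σ g (m + 1) = prL σ (fun i => g (i - 1)) m * σ (g 0) := rfl

theorem prR_congr (σ : K → H) (m : ℕ) : ∀ g g' : ℤ → K, (∀ i, 0 ≤ i → g i = g' i) → prR σ g m = prR σ g' m := by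
  induction m with
  | zero => intro g g' _; rfl
  | succ m ih =>
    intro g g' h
    rw [prR, prR, h 0 le_rfl, ih _ _ (fun i hi => h (i + 1) (by omega))]

theorem prL_congr (σ : K → H) (m : ℕ) : ∀ g g' : ℤ → K, (∀ i, i ≤ 0 → g i = g' i) → prL σ g m = prL σ g' m := by
  induction m with
  | zero => intro g g' _; rfl
  | succ m ih =>
    intro g g' h
    rw [prL, prL, h 0 le_rfl, ih _ _ (fun i hi => h (i - 1) (by omega))]

def ff (σ : K → H) (g : ℤ → K) : ℤ → H
  | Int.ofNat m => prR σ g m
  | Int.negSucc m => prL σ g (m + 1)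

/-- the map from the lamplighter group to H -/
def f (σ : K → H) (q : Q K) : H := ff σ (fun i => q.left (Multiplicative.ofAdd i)) (Multiplicative.toAdd q.right)

/-- the local type of a point -/
def idx (q : Q K) : Bool × K :=
  if 0 ≤ Multiplicative.toAdd q.right then (true, q.left (Multiplicative.ofAdd (-1))) else (false, q.left (Multiplicative.ofAdd 1))

open Classical in
/-- the moves -/
noncomputable def dd (p : Bool × K) : Q K :=
  ⟨fun x => if x = 1 then p.2 else 1, if p.1 = true then Multiplicative.ofAdd 1 else Multiplicative.ofAdd (-1)⟩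

theorem key (σ : K → H) (q : Q K) (κ : K) : f σ (dd ((idx q).1, κ * (idx q).2⁻¹) * q) = f σ q * σ κ := by
  classical
  obtain ⟨γ, j⟩ := q
  obtain ⟨j, rfl⟩ := Multiplicative.ofAdd.surjective j
  rcases j with m | m
  · have hidx : idx (⟨γ, Multiplicative.ofAdd (Int.ofNat m)⟩ : Q K) = (true, γ (Multiplicative.ofAdd (-1))) := by
      unfold idx
      rw [if_pos]
      exact Int.natCast_nonneg m
    rw [hidx]
    unfold f
    have hr : Multiplicative.toAdd (dd (true, κ * (γ (Multiplicative.ofAdd (-1)))⁻¹) * (⟨γ, Multiplicative.ofAdd (Int.ofNat m)⟩ : Q K)).right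
        = Int.ofNat (m + 1) := by
      rw [mul_right]
      show Multiplicative.toAdd (Multiplicative.ofAdd 1 * Multiplicative.ofAdd (Int.ofNat m)) = _
      rw [toAdd_mul, toAdd_ofAdd, toAdd_ofAdd, Int.ofNat_eq_natCast, Int.ofNat_eq_natCast]
      push_cast; ring
    rw [hr]
    show prR σ (fun i : ℤ => (dd (true, κ * (γ (Multiplicative.ofAdd (-1)))⁻¹) * (⟨γ, Multiplicative.ofAdd (Int.ofNat m)⟩ : Q K)).left
      (Multiplicative.ofAdd i)) (m + 1) = prR σ (fun i : ℤ => γ (Multiplicative.ofAdd i)) m * σ κ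
    rw [prR_succ]
    congr 1
    · apply prR_congr
      intro i hi
      rw [mul_left]
      show (if Multiplicative.ofAdd (i + 1) = 1 then _ else 1) * γ ((Multiplicative.ofAdd 1)⁻¹ * Multiplicative.ofAdd (i + 1)) = _
      rw [if_neg, one_mul, ← ofAdd_neg, ← ofAdd_add]
      · congr 2; ring
      · rw [ofAdd_eq_one]; omega
    · congr 1
      rw [mul_left]
      show (if Multiplicative.ofAdd (0 : ℤ) = 1 then κ * (γ (Multiplicative.ofAdd (-1)))⁻¹ else 1) * γ ((Multiplicative.ofAdd 1)⁻¹ * Multiplicative.ofAdd 0) = _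
      rw [if_pos ofAdd_zero, ← ofAdd_neg, ← ofAdd_add, add_zero, inv_mul_cancel_right]
  · have hidx : idx (⟨γ, Multiplicative.ofAdd (Int.negSucc m)⟩ : Q K) = (false, γ (Multiplicative.ofAdd 1)) := by
      unfold idx
      rw [if_neg]
      exact not_le.mpr (Int.negSucc_lt_zero m)
    rw [hidx]
    unfold f
    have hr : Multiplicative.toAdd (dd (false, κ * (γ (Multiplicative.ofAdd 1))⁻¹) * (⟨γ, Multiplicative.ofAdd (Int.negSucc m)⟩ : Q K)).right
        = Int.negSucc (m + 1) := by
      rw [mul_right]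
      show Multiplicative.toAdd (Multiplicative.ofAdd (-1) * Multiplicative.ofAdd (Int.negSucc m)) = _
      rw [toAdd_mul, toAdd_ofAdd, toAdd_ofAdd, Int.negSucc_eq, Int.negSucc_eq]
      push_cast; ring
    rw [hr]
    show prL σ (fun i : ℤ => (dd (false, κ * (γ (Multiplicative.ofAdd 1))⁻¹) * (⟨γ, Multiplicative.ofAdd (Int.negSucc m)⟩ : Q K)).left
      (Multiplicative.ofAdd i)) (m + 1 + 1) = prL σ (fun i : ℤ => γ (Multiplicative.ofAdd i)) (m + 1) * σ κ
    rw [prL_succ]
    congr 1
    · apply prL_congr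
      intro i hi
      rw [mul_left]
      show (if Multiplicative.ofAdd (i - 1) = 1 then _ else 1) * γ ((Multiplicative.ofAdd (-1))⁻¹ * Multiplicative.ofAdd (i - 1)) = _
      rw [if_neg, one_mul, ← ofAdd_neg, ← ofAdd_add]
      · congr 2; ring
      · rw [ofAdd_eq_one]; omega
    · congr 1
      rw [mul_left]
      show (if Multiplicative.ofAdd (0 : ℤ) = 1 then κ * (γ (Multiplicative.ofAdd 1))⁻¹ else 1) * γ ((Multiplicative.ofAdd (-1))⁻¹ * Multiplicative.ofAdd 0) = _
      rw [if_pos ofAdd_zero, ← ofAdd_neg, ← ofAdd_add, add_zero, neg_neg, inv_mul_cancel_right]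

/-! ### the big group -/

abbrev D0 : Type := Equiv.Perm (Fin 3)

abbrev W (K : Type) [CommGroup K] (H : Type u) [Group H] : Type u := (H → D0) ≀ᵣ (Q K)

/-- base elements -/
def bs (F : Q K → H → D0) : W K H := ⟨F, 1⟩

theorem bs_mul (F G : Q K → H → D0) : bs F * bs G = bs (fun q y => F q y * G q y) := by
  apply RegularWreathProduct.ext
  · funext q y
    show F q y * G ((1 : Q K)⁻¹ * q) y = _
    rw [inv_one, one_mul]; rfl
  · show (1 : Q K) * 1 = 1
    rw [one_mul]

theorem bs_inv (F : Q K → H → D0) : (bs F)⁻¹ = bs (fun q y => (F q y)⁻¹) := by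
  apply RegularWreathProduct.ext
  · funext q y
    show (F ((1 : Q K) * q) y)⁻¹ = _
    rw [one_mul]; rfl
  · show (1 : Q K)⁻¹ = 1
    rw [inv_one]

theorem bs_conj (F : Q K → H → D0) (d : Q K) : (inl d : W K H)⁻¹ * bs F * inl d = bs (fun q y => F (d * q) y) := by
  apply RegularWreathProduct.ext
  · funext q y
    show (1 * (F (((d⁻¹ : Q K))⁻¹ * q) y)) * 1 = _
    rw [one_mul, mul_one, inv_inv]; rfl
  · show d⁻¹ * 1 * d = 1
    rw [mul_one, inv_mul_cancel]

/-- action of H on W -/
def al (h : H) : W K H ≃* W K H where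
  toFun w := ⟨fun q y => w.left q (y * h), w.right⟩
  invFun w := ⟨fun q y => w.left q (y * h⁻¹), w.right⟩
  left_inv w := by
    apply RegularWreathProduct.ext
    · funext q y
      show w.left q (y * h⁻¹ * h) = _
      rw [inv_mul_cancel_right]
    · rfl
  right_inv w := by
    apply RegularWreathProduct.ext
    · funext q y
      show w.left q (y * h * h⁻¹) = _
      rw [mul_inv_cancel_right]
    · rfl
  map_mul' v w := rfl

theorem al_mul (h k : H) (w : W K H) : al (h * k) w = al h (al k w) := by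
  apply RegularWreathProduct.ext
  · funext q y
    show w.left q (y * (h * k)) = w.left q (y * h * k)
    rw [mul_assoc]
  · rfl

theorem al_one (w : W K H) : al (1 : H) w = w := by
  apply RegularWreathProduct.ext
  · funext q y
    show w.left q (y * 1) = w.left q y
    rw [mul_one]
  · rfl

def cc : D0 := finRotate 3
def tt : D0 := Equiv.swap 0 1

theorem tc : tt * cc * tt⁻¹ * cc⁻¹ = cc := by decide
theorem cc_ne : cc ≠ 1 := by decide

open Classical in
noncomputable def v0 (σ : K → H) : W K H := bs (fun q y => if y = f σ q then cc else 1)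

open Classical in
theorem v0_app (σ : K → H) (q : Q K) (y : H) : (v0 σ).left q y = if y = f σ q then cc else 1 := rfl

theorem v0_iff (σ : K → H) (q : Q K) (y : H) : (v0 σ).left q y = cc ↔ y = f σ q := by
  rw [v0_app]
  by_cases hy : y = f σ q
  · simp [hy]
  · rw [if_neg hy]
    exact ⟨fun h => absurd h.symm cc_ne, fun h => absurd h hy⟩

open Classical in
noncomputable def chi (K : Type) [CommGroup K] (H : Type u) [Group H] (i : Bool × K) : W K H :=
  bs (fun q _ => if idx q = i then tt else 1)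

/-- the generators -/
def gens (σ : K → H) : Set (W K H) := {v0 σ} ∪ Set.range (chi K H) ∪ Set.range (fun p : Bool × K => (inl (dd p) : W K H))

theorem gens_finite [Finite K] (σ : K → H) : (gens σ).Finite := by
  unfold gens
  exact ((Set.finite_singleton _).union (Set.finite_range _)).union (Set.finite_range _)

def SS (σ : K → H) : Subgroup (W K H) := Subgroup.closure (gens σ)

theorem v0_mem (σ : K → H) : v0 σ ∈ SS σ := Subgroup.subset_closure (Or.inl (Or.inl rfl))
theorem chi_mem (σ : K → H) (i : Bool × K) : chi K H i ∈ SS σ := Subgroup.subset_closure (Or.inl (Or.inr ⟨i, rfl⟩))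
theorem dd_mem (σ : K → H) (p : Bool × K) : (inl (dd p) : W K H) ∈ SS σ := Subgroup.subset_closure (Or.inr ⟨p, rfl⟩)

open Classical in
theorem comm_mem (σ : K → H) (κ : K) (i : Bool × K) :
    bs (fun q y => if idx q = i ∧ y = f σ q * σ κ then cc else 1) ∈ SS σ := by
  set d : Q K := dd (i.1, κ * i.2⁻¹) with hd
  have h1 : (inl d : W K H)⁻¹ * v0 σ * inl d ∈ SS σ :=
    mul_mem (mul_mem (inv_mem (dd_mem σ _)) (v0_mem σ)) (dd_mem σ _)
  have h2 := mul_mem (mul_mem (mul_mem (chi_mem σ i) h1) (inv_mem (chi_mem σ i))) (inv_mem h1)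
  convert h2 using 1
  rw [v0, bs_conj, chi, bs_inv, bs_inv, bs_mul, bs_mul, bs_mul]
  congr 1
  funext q y
  by_cases hq : idx q = i
  · have hk : f σ (d * q) = f σ q * σ κ := by
      have := key σ q κ
      rw [hq] at this
      exact this
    rw [hk]
    by_cases hy : y = f σ q * σ κ
    · simp only [hq, hy, and_self, if_true]
      exact tc.symm
    · simp [hq, hy]
  · simp [hq]

open Classical in
theorem part_mem (σ : K → H) (κ : K) (J : Finset (Bool × K)) :
    bs (fun q y => if idx q ∈ J ∧ y = f σ q * σ κ then cc else 1) ∈ SS σ := by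
  induction J using Finset.induction_on with
  | empty =>
    have : (bs (fun q y => if idx q ∈ (∅ : Finset (Bool × K)) ∧ y = f σ q * σ κ then cc else 1) : W K H) = 1 := by
      simp
      rfl
    rw [this]
    exact one_mem _
  | insert i J hi ih =>
    have h2 := mul_mem (comm_mem σ κ i) ih
    convert h2 using 1
    rw [bs_mul]
    congr 1
    funext q y
    by_cases hq : idx q = i
    · subst hq
      by_cases hy : y = f σ q * σ κ
      · simp [hy, hi]
      · simp [hy]
    · by_cases hy : y = f σ q * σ κ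
      · simp [hy, hq]
      · simp [hy]

theorem al_v0 [Finite K] (σ : K → H) (κ : K) : al (σ κ)⁻¹ (v0 σ) ∈ SS σ := by
  classical
  have := Fintype.ofFinite K
  have h := part_mem σ κ Finset.univ
  convert h using 1
  apply RegularWreathProduct.ext
  · funext q y
    show (if y * (σ κ)⁻¹ = f σ q then cc else 1) = if idx q ∈ Finset.univ ∧ y = f σ q * σ κ then cc else 1
    simp only [Finset.mem_univ, true_and, mul_inv_eq_iff_eq_mul]
  · rfl

theorem al_gen [Finite K] (σ : K → H) (κ : K) (w : W K H) (hw : w ∈ SS σ) : al (σ κ)⁻¹ w ∈ SS σ := by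
  have : SS σ ≤ (SS σ).comap (al (σ κ)⁻¹ : W K H ≃* W K H).toMonoidHom := by
    unfold SS
    rw [Subgroup.closure_le]
    rintro x ((hx | ⟨i, rfl⟩) | ⟨p, rfl⟩)
    · rw [Set.mem_singleton_iff] at hx
      subst hx
      exact al_v0 σ κ
    · exact chi_mem σ i
    · exact dd_mem σ p
  exact this hw

theorem al_mem [Finite K] (σ : K → H) (hinv : ∀ κ, ∃ κ', σ κ' = (σ κ)⁻¹) (h : H) (hh : h ∈ Subgroup.closure (Set.range σ)) :
    ∀ w ∈ SS σ, al h w ∈ SS σ := by
  have hg : ∀ κ, ∀ w ∈ SS σ, al (σ κ) w ∈ SS σ := by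
    intro κ w hw
    obtain ⟨κ', hκ⟩ := hinv κ
    have := al_gen σ κ' w hw
    rwa [hκ, inv_inv] at this
  induction hh using Subgroup.closure_induction'' with
  | mem x hx => obtain ⟨κ, rfl⟩ := hx; exact hg κ
  | inv_mem x hx => obtain ⟨κ, rfl⟩ := hx; exact al_gen σ κ
  | one => intro w hw; rwa [al_one]
  | mul x y _ _ h1 h2 => intro w hw; rw [al_mul]; exact h1 _ (h2 _ hw)

end core

end Pool.Agent.H14.SolAct
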