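import Pool.Agent.H14.SolAct1

namespace Pool.Agent.H14.SolAct

open RegularWreathProduct

universe u

section dl

set_option linter.unusedSectionVars false

variable {K : Type} [CommGroup K] {H : Type u} [Group H]

theorem dlQ : derivedSeries (Q K) 2 = ⊥ := by
  refine ker_step (rightHom : Q K →* Zm) 1 derived_comm ?_
  intro x y hx hy
  have hx' : x.right = 1 := hx
  have hy' : y.right = 1 := hy
  apply RegularWreathProduct.ext
  · funext q
    show x.left q * y.left (x.right⁻¹ * q) = y.left q * x.left (y.right⁻¹ * q)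
    rw [hx', hy', inv_one, one_mul, mul_comm]
  · show x.right * y.right = y.right * x.right
    rw [hx', hy']

theorem dlE : derivedSeries ((H → ℤˣ) ≀ᵣ (Q K)) 3 = ⊥ := by
  refine ker_step (rightHom : (H → ℤˣ) ≀ᵣ (Q K) →* Q K) 2 dlQ ?_
  intro x y hx hy
  have hx' : x.right = 1 := hx
  have hy' : y.right = 1 := hy
  apply RegularWreathProduct.ext
  · funext q
    show x.left q * y.left (x.right⁻¹ * q) = y.left q * x.left (y.right⁻¹ * q)
    rw [hx', hy', inv_one, one_mul, mul_comm]
  · show x.right * y.right = y.right * x.right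
    rw [hx', hy']

/-- signs -/
def sg : W K H →* (H → ℤˣ) ≀ᵣ (Q K) where
  toFun w := ⟨fun q y => Equiv.Perm.sign (w.left q y), w.right⟩
  map_one' := by
    apply RegularWreathProduct.ext
    · funext q y
      exact map_one _
    · rfl
  map_mul' v w := by
    apply RegularWreathProduct.ext
    · funext q y
      exact map_mul _ _ _
    · rfl

theorem A3 : ∀ a b : D0, Equiv.Perm.sign a = 1 → Equiv.Perm.sign b = 1 → a * b = b * a := by decide

theorem dlW : derivedSeries (W K H) 4 = ⊥ := by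
  refine ker_step (sg : W K H →* (H → ℤˣ) ≀ᵣ (Q K)) 3 dlE ?_
  intro x y hx hy
  have hx' : x.right = 1 := congrArg RegularWreathProduct.right hx
  have hy' : y.right = 1 := congrArg RegularWreathProduct.right hy
  have hx2 : ∀ q h, Equiv.Perm.sign (x.left q h) = 1 := fun q h => congrFun (congrFun (congrArg RegularWreathProduct.left hx) q) h
  have hy2 : ∀ q h, Equiv.Perm.sign (y.left q h) = 1 := fun q h => congrFun (congrFun (congrArg RegularWreathProduct.left hy) q) h
  apply RegularWreathProduct.ext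
  · funext q h
    show x.left q h * y.left (x.right⁻¹ * q) h = y.left q h * x.left (y.right⁻¹ * q) h
    rw [hx', hy', inv_one, one_mul]
    exact A3 _ _ (hx2 _ _) (hy2 _ _)
  · show x.right * y.right = y.right * x.right
    rw [hx', hy']

/-- the action on the subgroup -/
theorem core_thm {G : Type u} [Group G] [Finite K] (σ : K → H) (hinv : ∀ κ, ∃ κ', σ κ' = (σ κ)⁻¹)
    (ι : G →* H) (hι : Function.Injective ι) (hmem : ∀ g, ι g ∈ Subgroup.closure (Set.range σ)) :
    ∃ (S : Type u) (_ : Group S), Group.FG S ∧ derivedSeries S 4 = ⊥ ∧ ∃ φ : G →* MulAut S, Function.Injective φ := by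
  refine ⟨SS σ, inferInstance, ?_, derived_sub _ _ dlW, ?_⟩
  · rw [Group.fg_iff_subgroup_fg]
    exact ⟨(gens_finite σ).toFinset, by rw [Set.Finite.coe_toFinset]; rfl⟩
  · have hm : ∀ g : G, ∀ w ∈ SS σ, al (ι g) w ∈ SS σ := fun g => al_mem σ hinv (ι g) (hmem g)
    let φ : G →* MulAut (SS σ) :=
      { toFun := fun g =>
          { toFun := fun w => ⟨al (ι g) w.1, hm g _ w.2⟩
            invFun := fun w => ⟨al (ι g⁻¹) w.1, hm g⁻¹ _ w.2⟩
            left_inv := fun w => by
              apply Subtype.ext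
              show al (ι g⁻¹) (al (ι g) w.1) = w.1
              rw [← al_mul, ← map_mul, inv_mul_cancel, map_one, al_one]
            right_inv := fun w => by
              apply Subtype.ext
              show al (ι g) (al (ι g⁻¹) w.1) = w.1
              rw [← al_mul, ← map_mul, mul_inv_cancel, map_one, al_one]
            map_mul' := fun v w => by
              apply Subtype.ext
              show al (ι g) (v.1 * w.1) = al (ι g) v.1 * al (ι g) w.1
              rw [map_mul] }
        map_one' := by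
          apply MulEquiv.ext
          intro w
          apply Subtype.ext
          show al (ι 1) w.1 = w.1
          rw [map_one, al_one]
        map_mul' := fun g h => by
          apply MulEquiv.ext
          intro w
          apply Subtype.ext
          show al (ι (g * h)) w.1 = al (ι g) (al (ι h) w.1)
          rw [map_mul, al_mul] }
    refine ⟨φ, ?_⟩
    rw [injective_iff_map_eq_one]
    intro g hg
    have h1 : al (ι g) (v0 σ) = v0 σ := by
      have := congrArg (fun e : MulAut (SS σ) => (e ⟨v0 σ, v0_mem σ⟩).1) hg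
      exact this
    have h2 : (v0 σ).left (1 : Q K) (f σ (1 : Q K) * ι g) = cc := by
      have h3 := congrFun (congrFun (congrArg RegularWreathProduct.left h1) (1 : Q K)) (f σ (1 : Q K))
      rw [(v0_iff σ 1 (f σ 1)).mpr rfl] at h3
      exact h3
    have h4 : f σ (1 : Q K) * ι g = f σ (1 : Q K) := (v0_iff σ _ _).mp h2
    rw [mul_eq_left] at h4
    exact hι (by rw [h4, map_one])

end dl

/-! ### every countable group lies in a 3-generated group -/

section emb

variable {G : Type u} [Group G]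

abbrev Om (G : Type u) : Type u := ℤ × ℤ × G

def pa : Equiv.Perm (Om G) where
  toFun p := (p.1 + 1, p.2.1, p.2.2)
  invFun p := (p.1 - 1, p.2.1, p.2.2)
  left_inv p := by simp
  right_inv p := by simp

def pb : Equiv.Perm (Om G) where
  toFun p := if p.1 = 0 then (p.1, p.2.1 + 1, p.2.2) else p
  invFun p := if p.1 = 0 then (p.1, p.2.1 - 1, p.2.2) else p
  left_inv := by
    rintro ⟨m, n, x⟩
    by_cases h : m = 0 <;> simp [h]
  right_inv := by
    rintro ⟨m, n, x⟩
    by_cases h : m = 0 <;> simp [h]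

/-- fibre-wise left multiplication -/
def pm (F : ℤ → ℤ → G) : Equiv.Perm (Om G) where
  toFun p := (p.1, p.2.1, F p.1 p.2.1 * p.2.2)
  invFun p := (p.1, p.2.1, (F p.1 p.2.1)⁻¹ * p.2.2)
  left_inv p := by simp
  right_inv p := by simp

theorem pm_mul (F F' : ℤ → ℤ → G) : pm F * pm F' = pm (fun m n => F m n * F' m n) := by
  ext p : 1
  show (p.1, p.2.1, F p.1 p.2.1 * (F' p.1 p.2.1 * p.2.2)) = (p.1, p.2.1, F p.1 p.2.1 * F' p.1 p.2.1 * p.2.2)
  rw [mul_assoc]

theorem pm_inv (F : ℤ → ℤ → G) : (pm F)⁻¹ = pm (fun m n => (F m n)⁻¹) := by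
  rw [inv_eq_iff_mul_eq_one, pm_mul]
  ext p : 1
  show (p.1, p.2.1, F p.1 p.2.1 * (F p.1 p.2.1)⁻¹ * p.2.2) = p
  rw [mul_inv_cancel, one_mul]

theorem pa_conj (F : ℤ → ℤ → G) : pa⁻¹ * pm F * pa = pm (fun m n => F (m + 1) n) := by
  ext p : 1
  show (p.1 + 1 - 1, p.2.1, F (p.1 + 1) p.2.1 * p.2.2) = (p.1, p.2.1, F (p.1 + 1) p.2.1 * p.2.2)
  rw [add_sub_cancel_right]

theorem pb_conj (F : ℤ → ℤ → G) : pb * pm F * pb⁻¹ = pm (fun m n => if m = 0 then F m (n - 1) else F m n) := by
  ext p : 1
  by_cases h : p.1 = 0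
  · show pb (pm F (pb.symm p)) = _
    simp [pb, pm, h]
  · show pb (pm F (pb.symm p)) = _
    simp [pb, pm, h]

def io : G →* Equiv.Perm (Om G) where
  toFun g := pm (fun m n => if m = 0 ∧ n = 0 then g else 1)
  map_one' := by
    ext p : 1
    show (p.1, p.2.1, (if p.1 = 0 ∧ p.2.1 = 0 then (1 : G) else 1) * p.2.2) = p
    simp
  map_mul' g h := by
    rw [pm_mul]
    congr 1
    funext m n
    by_cases h : m = 0 ∧ n = 0 <;> simp [h]

theorem io_inj : Function.Injective (io : G →* Equiv.Perm (Om G)) := by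
  intro g h hgh
  have := congrArg (fun e : Equiv.Perm (Om G) => (e (0, 0, 1)).2.2) hgh
  simpa [io, pm] using this

def pc (e : ℕ → G) : Equiv.Perm (Om G) := pm (fun m n => if 0 ≤ n then e m.toNat else 1)

theorem pak (F : ℤ → ℤ → G) (k : ℕ) : (pa ^ k)⁻¹ * pm F * pa ^ k = pm (fun m n => F (m + k) n) := by
  induction k with
  | zero => simp
  | succ k ih =>
    have : (pa ^ (k + 1))⁻¹ * pm F * pa ^ (k + 1) = (pa : Equiv.Perm (Om G))⁻¹ * ((pa ^ k)⁻¹ * pm F * pa ^ k) * pa := by
      rw [pow_succ]; group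
    rw [this, ih, pa_conj]
    congr 1
    funext m n
    congr 1
    push_cast; ring

theorem io_mem (e : ℕ → G) (k : ℕ) : io (e k) ∈ Subgroup.closure ({pa, pb, pc e} : Set (Equiv.Perm (Om G))) := by
  have ha : (pa : Equiv.Perm (Om G)) ∈ Subgroup.closure ({pa, pb, pc e} : Set (Equiv.Perm (Om G))) :=
    Subgroup.subset_closure (by simp)
  have hb : (pb : Equiv.Perm (Om G)) ∈ Subgroup.closure ({pa, pb, pc e} : Set (Equiv.Perm (Om G))) :=
    Subgroup.subset_closure (by simp)
  have hc : pc e ∈ Subgroup.closure ({pa, pb, pc e} : Set (Equiv.Perm (Om G))) :=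
    Subgroup.subset_closure (by simp)
  have h1 : (pa ^ k)⁻¹ * pc e * pa ^ k ∈ Subgroup.closure ({pa, pb, pc e} : Set (Equiv.Perm (Om G))) :=
    mul_mem (mul_mem (inv_mem (pow_mem ha k)) hc) (pow_mem ha k)
  have h2 := mul_mem h1 (inv_mem (mul_mem (mul_mem hb h1) (inv_mem hb)))
  convert h2 using 1
  rw [pc, pak, pb_conj, pm_inv, pm_mul]
  show pm (fun m n => if m = 0 ∧ n = 0 then e k else 1) = pm _
  congr 1
  funext m n
  by_cases hm : m = 0
  · subst hm
    by_cases hn : n = 0
    · subst hn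
      simp
    · by_cases hn0 : 0 ≤ n
      · have : (1 : ℤ) ≤ n := by omega
        simp [hn, hn0, this]
      · have : ¬ (1 : ℤ) ≤ n := by omega
        simp [hn, hn0, this]
  · simp [hm]

/-- main theorem -/
theorem main (G : Type u) [Group G] [Countable G] :
    ∃ (S : Type u) (_ : Group S), Group.FG S ∧ derivedSeries S 4 = ⊥ ∧ ∃ φ : G →* MulAut S, Function.Injective φ := by
  obtain ⟨e, he⟩ := exists_surjective_nat G
  let σ : Multiplicative (ZMod 6) → Equiv.Perm (Om G) := fun k =>
    (![pa, pb, pc e, pa⁻¹, pb⁻¹, (pc e)⁻¹] : Fin 6 → Equiv.Perm (Om G)) (Multiplicative.toAdd k : ZMod 6)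
  refine core_thm σ ?_ io io_inj ?_
  · intro κ
    have h6 : ∀ i : Fin 6, ∃ j : Fin 6, (![pa, pb, pc e, pa⁻¹, pb⁻¹, (pc e)⁻¹] : Fin 6 → Equiv.Perm (Om G)) j =
        ((![pa, pb, pc e, pa⁻¹, pb⁻¹, (pc e)⁻¹] : Fin 6 → Equiv.Perm (Om G)) i)⁻¹ := by
      intro i
      fin_cases i
      · exact ⟨3, rfl⟩
      · exact ⟨4, rfl⟩
      · exact ⟨5, rfl⟩
      · exact ⟨0, by simp⟩
      · exact ⟨1, by simp⟩
      · exact ⟨2, by simp⟩
    obtain ⟨j, hj⟩ := h6 (Multiplicative.toAdd κ : ZMod 6)
    exact ⟨Multiplicative.ofAdd (j : ZMod 6), hj⟩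
  · intro g
    obtain ⟨k, rfl⟩ := he g
    refine Subgroup.closure_mono ?_ (io_mem e k)
    rintro x (rfl | rfl | rfl)
    · exact ⟨Multiplicative.ofAdd (0 : ZMod 6), rfl⟩
    · exact ⟨Multiplicative.ofAdd (1 : ZMod 6), rfl⟩
    · exact ⟨Multiplicative.ofAdd (2 : ZMod 6), rfl⟩

end emb

end Pool.Agent.H14.SolAct
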