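import Mathlib

namespace Pool.Agent.H14.Spec

noncomputable section

variable {k : Type*} [Field k]

/-- The maximal ideal of polynomials vanishing at the vector `P ∈ k³`.  A form `F` has multiplicity at
least `m` at the point of the projective plane represented by `P` iff `F ∈ (ptIdeal P) ^ m`. -/
def ptIdeal (P : Fin 3 → k) : Ideal (MvPolynomial (Fin 3) k) :=
  Ideal.span (Set.range fun i => MvPolynomial.X i - MvPolynomial.C (P i))

/-- The vectors `P i` represent pairwise distinct points of the projective plane. -/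
def DistinctPoints {r : ℕ} (P : Fin r → Fin 3 → k) : Prop :=
  (∀ i, P i ≠ 0) ∧ ∀ i j, i ≠ j → ∀ c : k, P i ≠ c • P j

/-- `H⁰(X, dH - ∑ mᵢEᵢ)`: the forms of degree `d` with multiplicity at least `mᵢ` at `Pᵢ`. -/
def H0 {r : ℕ} (P : Fin r → Fin 3 → k) (d : ℕ) (m : Fin r → ℕ) : Submodule k (MvPolynomial (Fin 3) k) :=
  MvPolynomial.homogeneousSubmodule (Fin 3) k d ⊓ ⨅ i, Submodule.restrictScalars k (ptIdeal (P i) ^ m i)

/-- `h⁰(X, dH - ∑ mᵢEᵢ)` -/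
def h0 {r : ℕ} (P : Fin r → Fin 3 → k) (d : ℕ) (m : Fin r → ℕ) : ℕ := Module.finrank k (H0 P d m)

/-- The Euler characteristic of `dH - ∑ mᵢEᵢ`. -/
def chi {r : ℕ} (d : ℕ) (m : Fin r → ℕ) : ℤ :=
  (((d + 1) * (d + 2) / 2 : ℕ) : ℤ) - ∑ i, ((m i * (m i + 1) / 2 : ℕ) : ℤ)

/-- `h¹(X, dH - ∑ mᵢEᵢ) = h⁰ - χ` (Riemann–Roch; `h² = 0` since `d ≥ 0`). -/
def h1 {r : ℕ} (P : Fin r → Fin 3 → k) (d : ℕ) (m : Fin r → ℕ) : ℤ := (h0 P d m : ℤ) - chi d m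

/-- `dH - ∑ mᵢEᵢ` is special: `h⁰ > 0` and `h¹ > 0`. -/
def IsSpecial {r : ℕ} (P : Fin r → Fin 3 → k) (d : ℕ) (m : Fin r → ℕ) : Prop := 0 < h0 P d m ∧ 0 < h1 P d m

end

end Pool.Agent.H14.Spec
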