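import Mathlib
import Pool.Agent.H14.SpecDefs

open Polynomial

namespace Pool.Agent.H14.Spec

noncomputable section

variable {k : Type*} [Field k]

/-- total degree at most d, for polynomials in z over k[y] -/
def TD (d : ℕ) (f : k[X][X]) : Prop := ∀ b c, d < b + c → (f.coeff c).coeff b = 0

def y4 : k[X] := X ^ 4

def bk (F : k[X][X]) : k[X][X] := taylor (-y4) F

theorem TD_div (d : ℕ) (g : k[X][X]) (h : TD d ((X - C y4) * g)) : TD (d - 4) g := by
  have key : ∀ c b, d < b + c + 4 → (g.coeff c).coeff b = 0 := by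
    intro c
    induction c with
    | zero =>
      intro b hb
      have h1 := h (b + 4) 0 (by omega)
      rw [sub_mul, coeff_sub, coeff_C_mul, coeff_sub, coeff_X_mul_zero, coeff_zero, zero_sub, neg_eq_zero, y4,
        mul_comm, coeff_mul_X_pow] at h1
      exact h1
    | succ c ih =>
      intro b hb
      have h1 := h (b + 4) (c + 1) (by omega)
      rw [sub_mul, coeff_sub, coeff_C_mul, coeff_sub, coeff_X_mul, ih (b + 4) (by omega), zero_sub, neg_eq_zero, y4,
        mul_comm, coeff_mul_X_pow] at h1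
      exact h1
  intro b c hbc
  exact key c b (by omega)

theorem eval_coeff (d : ℕ) (f : k[X][X]) (hf : TD d f) (e : ℕ) (he : ∀ b c, b + 4 * c = e → d < b + c) :
    (f.eval y4).coeff e = 0 := by
  rw [eval_eq_sum, sum_def, finsetSum_coeff]
  apply Finset.sum_eq_zero
  intro c _
  have : (y4 : k[X]) ^ c = X ^ (4 * c) := by rw [y4, ← pow_mul]
  rw [this, coeff_mul_X_pow']
  split_ifs with h
  · exact hf _ _ (he (e - 4 * c) c (by omega))
  · rfl

def PP (h : k[X]) (d m N : ℕ) : Prop :=
  ∃ (ι : Type) (_ : Fintype ι) (φ : k[X][X] →ₗ[k] (ι → k)), Fintype.card ι = N ∧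
    ∀ F : k[X][X], TD d (bk F) → (∀ j, h ^ (m - j) ∣ F.coeff j) → φ F = 0 → F = 0

theorem bk_eq (F : k[X][X]) : taylor y4 (bk F) = F := by
  rw [bk, taylor_taylor, add_neg_cancel, taylor_zero]

theorem bk_inj {F : k[X][X]} (h : bk F = 0) : F = 0 := by
  rw [← bk_eq F, h, map_zero]

theorem sum_aux (d : ℕ) : 2 * ∑ c : Fin (d + 1), (d + 1 - (c : ℕ)) = (d + 1) * (d + 2) := by
  rw [Fin.sum_univ_eq_sum_range (fun c => d + 1 - c)]
  have h1 := Finset.sum_range_reflect (fun c => c + 1) (d + 1)
  have h2 : ∑ c ∈ Finset.range (d + 1), (d + 1 - c) = ∑ j ∈ Finset.range (d + 1), (d + 1 - 1 - j + 1) := by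
    apply Finset.sum_congr rfl
    intro c hc
    rw [Finset.mem_range] at hc
    omega
  rw [h2, h1, Finset.sum_add_distrib, mul_add, mul_comm 2 (∑ i ∈ Finset.range (d + 1), i), Finset.sum_range_id_mul_two]
  simp
  ring

theorem PP_zero (h : k[X]) (d : ℕ) : ∃ N, PP h d 0 N ∧ 2 * N = (d + 1) * (d + 2) := by
  refine ⟨∑ c : Fin (d + 1), (d + 1 - (c : ℕ)), ⟨Σ c : Fin (d + 1), Fin (d + 1 - c), inferInstance,
    { toFun := fun F p => ((bk F).coeff p.1).coeff p.2
      map_add' := fun F G => by
        funext p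
        simp [bk]
      map_smul' := fun a F => by
        funext p
        have : bk (a • F) = (a • bk F : k[X][X]) := by
          have h1 : (a • F : k[X][X]) = (C a : k[X]) • F := by
            rw [← Polynomial.algebraMap_eq]; exact (algebraMap_smul k[X] a F).symm
          have h2 : (a • bk F : k[X][X]) = (C a : k[X]) • bk F := by
            rw [← Polynomial.algebraMap_eq]; exact (algebraMap_smul k[X] a (bk F)).symm
          rw [h1, h2, bk, map_smul]; rfl
        simp [this] }, ?_, ?_⟩, sum_aux d⟩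
  · simp
  · intro F hF _ hφ
    apply bk_inj
    ext c b
    rw [coeff_zero, coeff_zero]
    by_cases hbc : d < b + c
    · exact hF b c hbc
    · have := congrFun hφ ⟨⟨c, by omega⟩, ⟨b, by simp only; omega⟩⟩
      exact this

theorem PP_succ (h : k[X]) (hm : h.Monic) (hd : h.natDegree = 19) (d m N : ℕ) (hP : PP h (d - 4) m N)
    (hdm : 19 * (m + 1) + 5 ≤ 4 * d) : PP h d (m + 1) (N + (4 * d - 19 * (m + 1) - 2)) := by
  obtain ⟨ι, hι, φ, hcard, hφ⟩ := hP
  refine ⟨ι ⊕ (Fin (4 * d - 19 * (m + 1) - 5) ⊕ Fin 3), inferInstance,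
    { toFun := fun F => Sum.elim (φ (divX F)) (Sum.elim (fun i => (F.coeff 0).coeff (19 * (m + 1) + i))
        (fun i => (F.coeff 0).coeff (![4 * d - 4, 4 * d - 3, 4 * d] i)))
      map_add' := fun F G => by
        funext p
        rcases p with p | p | p <;> simp [divX_add]
      map_smul' := fun a F => by
        have h1 : divX (a • F) = (a • divX F : k[X][X]) := by
          ext n : 1
          rw [coeff_divX, coeff_smul, coeff_smul, coeff_divX]
        funext p
        rcases p with p | p | p <;> simp [h1] }, ?_, ?_⟩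
  · rw [Fintype.card_sum, Fintype.card_sum, Fintype.card_fin, Fintype.card_fin, hcard]
    omega
  · intro F hF hdiv h0
    have h1 : φ (divX F) = 0 := by
      funext p
      exact congrFun h0 (Sum.inl p)
    have h2 : ∀ i, i < 4 * d - 19 * (m + 1) - 5 → (F.coeff 0).coeff (19 * (m + 1) + i) = 0 := fun i hi =>
      congrFun h0 (Sum.inr (Sum.inl ⟨i, hi⟩))
    have h3 : (F.coeff 0).coeff (4 * d - 4) = 0 := congrFun h0 (Sum.inr (Sum.inr 0))
    have h4 : (F.coeff 0).coeff (4 * d - 3) = 0 := congrFun h0 (Sum.inr (Sum.inr 1))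
    have h5 : (F.coeff 0).coeff (4 * d) = 0 := congrFun h0 (Sum.inr (Sum.inr 2))
    have hg : F.coeff 0 = (bk F).eval y4 := by
      rw [← taylor_coeff_zero, bk_eq]
    have h6 : ∀ e, 19 * (m + 1) ≤ e → (F.coeff 0).coeff e = 0 := by
      intro e he
      by_cases ha : e < 4 * d - 5
      · have := h2 (e - 19 * (m + 1)) (by omega)
        rwa [show 19 * (m + 1) + (e - 19 * (m + 1)) = e by omega] at this
      · by_cases hb : e = 4 * d - 4
        · rw [hb]; exact h3
        · by_cases hc : e = 4 * d - 3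
          · rw [hc]; exact h4
          · by_cases hd' : e = 4 * d
            · rw [hd']; exact h5
            · rw [hg]
              apply eval_coeff d _ hF
              intro b c hbc
              omega
    have h7 : F.coeff 0 = 0 := by
      by_contra hne
      have h8 := hdiv 0
      rw [Nat.sub_zero] at h8
      have h9 := natDegree_le_of_dvd h8 hne
      rw [hm.natDegree_pow, hd] at h9
      have := h6 (F.coeff 0).natDegree (by omega)
      exact hne (leadingCoeff_eq_zero.mp this)
    have hFX : X * divX F = F := by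
      have := X_mul_divX_add F
      rwa [h7, C_0, add_zero] at this
    have hdX : divX F = 0 := by
      apply hφ _ _ _ h1
      · apply TD_div
        have : bk F = (X - C y4) * bk (divX F) := by
          conv_lhs => rw [← hFX]
          rw [bk, taylor_mul, taylor_X, C_neg, ← sub_eq_add_neg]; rfl
        rw [← this]
        exact hF
      · intro j
        have := hdiv (j + 1)
        rw [Nat.add_sub_add_right] at this
        rwa [coeff_divX]
    rw [← hFX, hdX, mul_zero]

theorem PP_all (h : k[X]) (hm : h.Monic) (hd : h.natDegree = 19) (n : ℕ) (hn : 5 ≤ n) (m : ℕ) (hmn : m ≤ n) :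
    ∃ N, PP h (n + 4 * m) m N ∧ 2 * N + 3 * (m * (m + 1)) + 4 * m = (n + 1) * (n + 2) + 8 * (n * m) := by
  induction m with
  | zero =>
    obtain ⟨N, h1, h2⟩ := PP_zero h n
    exact ⟨N, by simpa using h1, by simpa using h2⟩
  | succ m ih =>
    obtain ⟨N, h1, h2⟩ := ih (by omega)
    have hle : 19 * (m + 1) + 5 ≤ 4 * (n + 4 * (m + 1)) := by omega
    have h3 := PP_succ h hm hd (n + 4 * (m + 1)) m N (by rwa [show n + 4 * (m + 1) - 4 = n + 4 * m by omega]) hle
    refine ⟨_, h3, ?_⟩
    obtain ⟨r, hr⟩ : ∃ r, 4 * (n + 4 * (m + 1)) = 19 * (m + 1) + 2 + r := ⟨_, (Nat.add_sub_cancel' (by omega)).symm⟩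
    rw [hr, show 19 * (m + 1) + 2 + r - 19 * (m + 1) - 2 = r by omega]
    nlinarith [h2, hr]

theorem PP_final (h : k[X]) (hm : h.Monic) (hd : h.natDegree = 19) (n : ℕ) (hn : 5 ≤ n) :
    ∃ N, PP h (n * 5) n N ∧ N + 2 * n = 3 * n ^ 2 + 1 := by
  obtain ⟨N, h1, h2⟩ := PP_all h hm hd n hn n le_rfl
  refine ⟨N, by rwa [show n * 5 = n + 4 * n by ring], ?_⟩
  nlinarith [h2]

end

end Pool.Agent.H14.Spec
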