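import Mathlib
import Pool.Agent.H14.SpecDefs
import Pool.Agent.H14.SpecProof

open Polynomial

namespace Pool.Agent.H14.Spec

noncomputable section

variable {k : Type*} [Field k]

/-! ### local divisibility -/

/-- polynomials vanishing to order n at (t,0), in the coordinates (y,w) -/
def Jn (t : k) (n : ℕ) : Ideal k[X][X] where
  carrier := {f | ∀ j, (X - C t) ^ (n - j) ∣ f.coeff j}
  zero_mem' := fun j => by rw [coeff_zero]; exact dvd_zero _
  add_mem' := fun hf hg j => by rw [coeff_add]; exact dvd_add (hf j) (hg j)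
  smul_mem' := by
    intro g f hf j
    rw [smul_eq_mul, coeff_mul]
    apply Finset.dvd_sum
    intro p hp
    have := Finset.HasAntidiagonal.mem_antidiagonal.mp hp
    exact Dvd.dvd.mul_left ((pow_dvd_pow _ (by omega)).trans (hf p.2)) _

theorem Jn_step (t : k) (n : ℕ) (f : k[X][X]) (hf : f ∈ Jn t n) :
    C (X - C t) * f ∈ Jn t (n + 1) ∧ X * f ∈ Jn t (n + 1) := by
  constructor
  · intro j
    rw [coeff_C_mul]
    have h1 : (X - C t) ^ (n + 1 - j) ∣ (X - C t) * (X - C t) ^ (n - j) := by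
      rw [← pow_succ']
      exact pow_dvd_pow _ (by omega)
    exact h1.trans (mul_dvd_mul_left _ (hf j))
  · intro j
    rcases j with _ | j
    · rw [coeff_X_mul_zero]; exact dvd_zero _
    · rw [coeff_X_mul, Nat.add_sub_add_right]
      exact hf j

theorem pow_le_Jn (t : k) (n : ℕ) : (Ideal.span {C (X - C t), (X : k[X][X])}) ^ n ≤ Jn t n := by
  induction n with
  | zero =>
    intro f _ j
    rw [Nat.zero_sub, pow_zero]
    exact one_dvd _
  | succ n ih =>
    refine (pow_succ' (Ideal.span {C (X - C t), (X : k[X][X])}) n).le.trans ?_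
    rw [Ideal.mul_le]
    intro r hr s hs
    obtain ⟨a, b, rfl⟩ := Ideal.mem_span_pair.mp hr
    have h1 := Jn_step t n s (ih hs)
    rw [add_mul, mul_assoc, mul_assoc]
    exact (Jn t (n + 1)).add_mem ((Jn t (n + 1)).mul_mem_left _ h1.1) ((Jn t (n + 1)).mul_mem_left _ h1.2)

/-! ### the two substitutions -/

def Ph : MvPolynomial (Fin 3) k →ₐ[k] k[X][X] := MvPolynomial.aeval ![1, C X, X + C y4]
def Ps : MvPolynomial (Fin 3) k →ₐ[k] k[X][X] := MvPolynomial.aeval ![1, C X, X]

theorem bk_Ph (F : MvPolynomial (Fin 3) k) : bk (Ph F) = Ps F := by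
  have h : ((taylorAlgHom (-y4 : k[X])).restrictScalars k).comp (Ph : MvPolynomial (Fin 3) k →ₐ[k] k[X][X]) = Ps := by
    apply MvPolynomial.algHom_ext
    intro i
    rw [AlgHom.comp_apply]
    show taylor (-y4) (Ph (MvPolynomial.X i)) = _
    fin_cases i
    · simp [Ph, Ps]
    · simp [Ph, Ps]
    · simp [Ph, Ps]
  exact congrArg (fun g : MvPolynomial (Fin 3) k →ₐ[k] k[X][X] => g F) h

theorem Ps_coeff (F : MvPolynomial (Fin 3) k) (b c : ℕ) :
    ((Ps F).coeff c).coeff b = ∑ s ∈ F.support, if s 1 = b ∧ s 2 = c then F.coeff s else 0 := by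
  conv_lhs => rw [F.as_sum]
  rw [map_sum, finsetSum_coeff, finsetSum_coeff]
  apply Finset.sum_congr rfl
  intro s _
  have h : Ps (MvPolynomial.monomial s (F.coeff s)) = C (C (F.coeff s) * X ^ (s 1)) * X ^ (s 2) := by
    rw [Ps, MvPolynomial.aeval_monomial, Finsupp.prod_fintype _ _ (by intro i; exact pow_zero _), Fin.prod_univ_three]
    simp only [Matrix.cons_val_zero, Matrix.cons_val_one, Matrix.cons_val_two]
    rw [one_pow, one_mul, ← mul_assoc, C_mul, C_pow]
    rfl
  rw [h, coeff_C_mul, coeff_X_pow]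
  by_cases hc : c = s 2
  · rw [if_pos hc, mul_one, coeff_C_mul, coeff_X_pow]
    by_cases hb : b = s 1
    · rw [if_pos hb, if_pos ⟨hb.symm, hc.symm⟩, mul_one]
    · rw [if_neg hb, if_neg (fun h => hb h.1.symm), mul_zero]
  · rw [if_neg hc, if_neg (fun h => hc h.2.symm), mul_zero, coeff_zero]

theorem hom_deg {d : ℕ} {F : MvPolynomial (Fin 3) k} (hF : F.IsHomogeneous d) {s : Fin 3 →₀ ℕ} (hs : s ∈ F.support) :
    s 0 + s 1 + s 2 = d := by
  have h := hF (MvPolynomial.mem_support_iff.mp hs)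
  rw [Finsupp.weight_apply, Finsupp.sum_fintype _ _ (by intro i; simp), Fin.sum_univ_three] at h
  simpa using h

theorem Ps_TD {d : ℕ} {F : MvPolynomial (Fin 3) k} (hF : F.IsHomogeneous d) : TD d (Ps F) := by
  intro b c hbc
  rw [Ps_coeff]
  apply Finset.sum_eq_zero
  intro s hs
  rw [if_neg]
  rintro ⟨h1, h2⟩
  have := hom_deg hF hs
  omega

theorem Ps_inj {d : ℕ} {F : MvPolynomial (Fin 3) k} (hF : F.IsHomogeneous d) (h : Ps F = 0) : F = 0 := by
  by_contra hne
  obtain ⟨s, hs⟩ := MvPolynomial.support_nonempty.mpr hne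
  have h1 := Ps_coeff F (s 1) (s 2)
  rw [h, coeff_zero, coeff_zero, Finset.sum_eq_single_of_mem s hs] at h1
  · rw [if_pos ⟨rfl, rfl⟩] at h1
    exact (MvPolynomial.mem_support_iff.mp hs) h1.symm
  · intro s' hs' hne'
    rw [if_neg]
    rintro ⟨h2, h3⟩
    apply hne'
    have e1 := hom_deg hF hs
    have e2 := hom_deg hF hs'
    ext i
    fin_cases i
    · show s' 0 = s 0
      omega
    · exact h2
    · exact h3

/-! ### points -/

def pt (t : k) : Fin 3 → k := ![1, t, t ^ 4]

theorem Ph_ideal (t : k) (n : ℕ) (F : MvPolynomial (Fin 3) k) (hF : F ∈ ptIdeal (pt t) ^ n) : Ph F ∈ Jn t n := by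
  apply pow_le_Jn
  have h1 : (ptIdeal (pt t)).map (Ph : MvPolynomial (Fin 3) k →ₐ[k] k[X][X]) ≤ Ideal.span {C (X - C t), (X : k[X][X])} := by
    rw [ptIdeal, Ideal.map_span, Ideal.span_le]
    rintro _ ⟨_, ⟨i, rfl⟩, rfl⟩
    have hC : ∀ a : k, Ph (MvPolynomial.C a) = (C (C a) : k[X][X]) := fun a => by
      rw [Ph, MvPolynomial.aeval_C]; rfl
    have hX : ∀ i, Ph (MvPolynomial.X i) = (![1, C X, X + C y4] : Fin 3 → k[X][X]) i := fun i => by
      rw [Ph, MvPolynomial.aeval_X]
    have e : Ph (MvPolynomial.X i - MvPolynomial.C (pt t i)) = (![1, C X, X + C y4] : Fin 3 → k[X][X]) i - C (C (pt t i)) := by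
      rw [map_sub Ph, hC, hX]
    show Ph (MvPolynomial.X i - MvPolynomial.C (pt t i)) ∈ Ideal.span {C (X - C t), (X : k[X][X])}
    rw [e, Ideal.mem_span_pair]
    fin_cases i
    · exact ⟨0, 0, by simp [pt]⟩
    · exact ⟨1, 0, by simp [pt]⟩
    · refine ⟨C (X ^ 3 + X ^ 2 * C t + X * C t ^ 2 + C t ^ 3), 1, ?_⟩
      show _ = (X + C y4) - C (C (t ^ 4))
      rw [one_mul, ← C_mul, add_comm, add_sub_assoc, ← C_sub]
      congr 2
      rw [y4, C_pow]
      ring
  have h2 := Ideal.mem_map_of_mem (Ph : MvPolynomial (Fin 3) k →ₐ[k] k[X][X]) hF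
  rw [Ideal.map_pow] at h2
  exact Ideal.pow_right_mono h1 n h2

theorem mem_ptIdeal (P : Fin 3 → k) (F : MvPolynomial (Fin 3) k) (hF : MvPolynomial.eval P F = 0) : F ∈ ptIdeal P := by
  have h : ∀ F : MvPolynomial (Fin 3) k, F - MvPolynomial.C (MvPolynomial.eval P F) ∈ ptIdeal P := by
    intro F
    induction F using MvPolynomial.induction_on with
    | C a => simp
    | add p q hp hq =>
      have : p + q - MvPolynomial.C (MvPolynomial.eval P (p + q)) =
          (p - MvPolynomial.C (MvPolynomial.eval P p)) + (q - MvPolynomial.C (MvPolynomial.eval P q)) := by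
        rw [map_add, map_add]; ring
      rw [this]
      exact add_mem hp hq
    | mul_X p i hp =>
      have : p * MvPolynomial.X i - MvPolynomial.C (MvPolynomial.eval P (p * MvPolynomial.X i)) =
          p * (MvPolynomial.X i - MvPolynomial.C (P i)) + MvPolynomial.C (P i) * (p - MvPolynomial.C (MvPolynomial.eval P p)) := by
        rw [map_mul, map_mul, MvPolynomial.eval_X]; ring
      rw [this]
      exact add_mem (Ideal.mul_mem_left _ _ (Ideal.subset_span ⟨i, rfl⟩)) (Ideal.mul_mem_left _ _ hp)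
  have := h F
  rwa [hF, map_zero, sub_zero] at this

/-! ### upper bounds -/

variable (T : Fin 19 → k)

def hh : k[X] := ∏ i, (X - C (T i))

theorem hh_monic : (hh T).Monic := monic_prod_of_monic _ _ (fun i _ => monic_X_sub_C _)

theorem hh_deg : (hh T).natDegree = 19 := by
  rw [hh, natDegree_prod_of_monic _ _ (fun i _ => monic_X_sub_C _)]
  simp

theorem H0_dvd (hT : Function.Injective T) {d n : ℕ} {F : MvPolynomial (Fin 3) k} (hF : F ∈ H0 (fun i => pt (T i)) d (fun _ => n))
    (j : ℕ) : hh T ^ (n - j) ∣ (Ph F).coeff j := by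
  rw [hh, ← Finset.prod_pow]
  apply Finset.prod_dvd_of_coprime
  · intro a _ b _ hab
    exact (pairwise_coprime_X_sub_C hT hab).pow
  · intro i _
    have h1 : F ∈ ptIdeal (pt (T i)) ^ n := by
      have := hF.2
      rw [SetLike.mem_coe, Submodule.mem_iInf] at this
      exact this i
    exact Ph_ideal (T i) n F h1 j

theorem exists_inj (hT : Function.Injective T) (d n N : ℕ) (hP : PP (hh T) d n N) :
    ∃ (ι : Type) (_ : Fintype ι) (φ : H0 (fun i => pt (T i)) d (fun _ => n) →ₗ[k] (ι → k)), Fintype.card ι = N ∧ Function.Injective φ := by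
  obtain ⟨ι, hι, φ, hc, hφ⟩ := hP
  refine ⟨ι, hι, (φ.comp Ph.toLinearMap).comp (Submodule.subtype _), hc, ?_⟩
  rw [← LinearMap.ker_eq_bot, LinearMap.ker_eq_bot']
  intro F hF
  have hhom : (F : MvPolynomial (Fin 3) k).IsHomogeneous d := F.2.1
  have h1 : Ph (F : MvPolynomial (Fin 3) k) = 0 := by
    apply hφ
    · rw [bk_Ph]
      exact Ps_TD hhom
    · exact H0_dvd T hT F.2
    · exact hF
  apply Subtype.ext
  apply Ps_inj hhom
  rw [← bk_Ph, h1, bk, map_zero]

theorem h0_le (hT : Function.Injective T) (d n N : ℕ) (hP : PP (hh T) d n N) : h0 (fun i => pt (T i)) d (fun _ => n) ≤ N := by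
  obtain ⟨ι, hι, φ, hc, hφ⟩ := exists_inj T hT d n N hP
  have := LinearMap.finrank_le_finrank_of_injective hφ
  rw [Module.finrank_fintype_fun_eq_card, hc] at this
  exact this

/-- the quartic -/
def QQ : MvPolynomial (Fin 3) k := MvPolynomial.X 0 ^ 3 * MvPolynomial.X 2 - MvPolynomial.X 1 ^ 4

theorem QQ_hom : (QQ : MvPolynomial (Fin 3) k).IsHomogeneous 4 := by
  apply MvPolynomial.IsHomogeneous.sub
  · have := ((MvPolynomial.isHomogeneous_X k (0 : Fin 3)).pow 3).mul (MvPolynomial.isHomogeneous_X k (2 : Fin 3))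
    simpa using this
  · have := (MvPolynomial.isHomogeneous_X k (1 : Fin 3)).pow 4
    simpa using this

theorem QQ_pt (t : k) : MvPolynomial.eval (pt t) QQ = 0 := by
  simp [QQ, pt]

theorem QQ_ne : (QQ : MvPolynomial (Fin 3) k) ≠ 0 := by
  intro h
  have := congrArg (MvPolynomial.eval ![0, 1, 0]) h
  simp [QQ] at this

/-- sections Q * (linear form) -/
def secs : (Fin 3 → k) →ₗ[k] MvPolynomial (Fin 3) k where
  toFun a := (∑ i, a i • MvPolynomial.X i) * QQ
  map_add' a b := by
    simp only [Pi.add_apply, add_smul, Finset.sum_add_distrib, add_mul]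
  map_smul' c a := by
    simp only [Pi.smul_apply, smul_eq_mul, mul_smul, RingHom.id_apply, ← Finset.smul_sum, smul_mul_assoc]

theorem secs_mem (a : Fin 3 → k) : secs a ∈ H0 (fun i => pt (T i)) 5 (fun _ => 1) := by
  refine ⟨?_, ?_⟩
  · show ((∑ i, a i • MvPolynomial.X i) * QQ : MvPolynomial (Fin 3) k).IsHomogeneous 5
    have h1 : (∑ i, a i • MvPolynomial.X i : MvPolynomial (Fin 3) k).IsHomogeneous 1 := by
      apply MvPolynomial.IsHomogeneous.sum
      intro i _
      exact (MvPolynomial.homogeneousSubmodule (Fin 3) k 1).smul_mem _ (MvPolynomial.isHomogeneous_X k i)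
    exact h1.mul QQ_hom
  · rw [SetLike.mem_coe, Submodule.mem_iInf]
    intro i
    show secs a ∈ ptIdeal (pt (T i)) ^ 1
    rw [pow_one]
    exact Ideal.mul_mem_left _ _ (mem_ptIdeal _ _ (QQ_pt _))

theorem secs_inj : Function.Injective (secs : (Fin 3 → k) →ₗ[k] MvPolynomial (Fin 3) k) := by
  rw [← LinearMap.ker_eq_bot, LinearMap.ker_eq_bot']
  intro a ha
  have h1 : (∑ i, a i • MvPolynomial.X i : MvPolynomial (Fin 3) k) = 0 := (mul_eq_zero.mp ha).resolve_right QQ_ne
  funext j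
  have h2 := congrArg (MvPolynomial.coeff (Finsupp.single j 1)) h1
  rw [MvPolynomial.coeff_sum, MvPolynomial.coeff_zero] at h2
  simp only [MvPolynomial.coeff_smul, MvPolynomial.coeff_X, smul_eq_mul, mul_ite, mul_one, mul_zero,
    Finsupp.single_left_inj (one_ne_zero : (1 : ℕ) ≠ 0)] at h2
  simpa using h2

theorem h0_five : 3 ≤ h0 (fun i => pt (T i)) 5 (fun _ => 1) := by
  obtain ⟨N, hP, _⟩ := PP_zero (hh T) 5
  -- finite dimensionality
  have hfin : Module.Finite k (H0 (fun i => pt (T i)) 5 (fun _ => 1)) := by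
    obtain ⟨ι, hι, φ, hc, hφ⟩ := hP
    have hinj : Function.Injective ((φ.comp Ph.toLinearMap).comp (Submodule.subtype (H0 (fun i => pt (T i)) 5 (fun _ => 1)))) := by
      rw [← LinearMap.ker_eq_bot, LinearMap.ker_eq_bot']
      intro F hF
      have hhom : (F : MvPolynomial (Fin 3) k).IsHomogeneous 5 := F.2.1
      have h1 : Ph (F : MvPolynomial (Fin 3) k) = 0 := by
        apply hφ
        · rw [bk_Ph]
          exact Ps_TD hhom
        · intro j
          rw [Nat.zero_sub, pow_zero]; exact one_dvd _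
        · exact hF
      apply Subtype.ext
      apply Ps_inj hhom
      rw [← bk_Ph, h1, bk, map_zero]
    exact Module.Finite.of_injective _ hinj
  let g : (Fin 3 → k) →ₗ[k] H0 (fun i => pt (T i)) 5 (fun _ => 1) := secs.codRestrict _ (secs_mem T)
  have hg : Function.Injective g := by
    intro a b hab
    exact secs_inj (congrArg Subtype.val hab)
  have := LinearMap.finrank_le_finrank_of_injective hg
  rw [Module.finrank_fin_fun] at this
  exact this

theorem chi_five : chi 5 (fun _ : Fin 19 => 1) = 2 := by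
  unfold chi
  simp

theorem chi_n (n : ℕ) : chi (n * 5) (fun _ : Fin 19 => n * 1) + 2 * n = 3 * (n : ℤ) ^ 2 + 1 := by
  unfold chi
  have e1 : (((n * 5 + 1) * (n * 5 + 2) / 2 : ℕ) : ℤ) * 2 = (n * 5 + 1) * (n * 5 + 2) := by
    have : 2 ∣ (n * 5 + 1) * (n * 5 + 2) := (Nat.even_mul_succ_self (n * 5 + 1)).two_dvd
    have := Nat.div_mul_cancel this
    exact_mod_cast this
  have e2 : ((n * 1 * (n * 1 + 1) / 2 : ℕ) : ℤ) * 2 = n * (n + 1) := by
    have : 2 ∣ n * 1 * (n * 1 + 1) := (Nat.even_mul_succ_self (n * 1)).two_dvd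
    have := Nat.div_mul_cancel this
    rw [mul_one] at this ⊢
    exact_mod_cast this
  rw [Finset.sum_const, Finset.card_univ, Fintype.card_fin, nsmul_eq_mul]
  push_cast at e1 e2 ⊢
  linarith

theorem distinct (hT : Function.Injective T) : DistinctPoints (fun i => pt (T i)) := by
  refine ⟨fun i h => ?_, fun i j hij c h => ?_⟩
  · have := congrFun h 0
    simp [pt] at this
  · have h0 := congrFun h 0
    have h1 := congrFun h 1
    simp [pt] at h0 h1
    rw [← h0, one_mul] at h1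
    exact hij (hT h1)

theorem h0_pos (hT : Function.Injective T) (n : ℕ) (hn : 5 ≤ n) : 0 < h0 (fun i => pt (T i)) (n * 5) (fun _ => n * 1) := by
  obtain ⟨N, hP, _⟩ := PP_final (hh T) (hh_monic T) (hh_deg T) n hn
  obtain ⟨ι, hι, φ, hc, hφ⟩ := exists_inj T hT _ _ _ hP
  have hfin : Module.Finite k (H0 (fun i => pt (T i)) (n * 5) (fun _ => n * 1)) := by
    rw [mul_one]
    exact Module.Finite.of_injective _ hφ
  have hmem : (MvPolynomial.X 0 * QQ) ^ n ∈ H0 (fun i => pt (T i)) (n * 5) (fun _ => n * 1) := by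
    refine ⟨?_, ?_⟩
    · show ((MvPolynomial.X 0 * QQ) ^ n : MvPolynomial (Fin 3) k).IsHomogeneous (n * 5)
      rw [mul_comm n 5]
      exact (((MvPolynomial.isHomogeneous_X k (0 : Fin 3)).mul QQ_hom).pow n)
    · rw [SetLike.mem_coe, Submodule.mem_iInf]
      intro i
      show (MvPolynomial.X 0 * QQ) ^ n ∈ ptIdeal (pt (T i)) ^ (n * 1)
      rw [mul_one]
      exact Ideal.pow_mem_pow (Ideal.mul_mem_left _ _ (mem_ptIdeal _ _ (QQ_pt _))) n
  have hne : ((MvPolynomial.X 0 * QQ) ^ n : MvPolynomial (Fin 3) k) ≠ 0 := pow_ne_zero _ (mul_ne_zero (MvPolynomial.X_ne_zero 0) QQ_ne)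
  have : Nontrivial (H0 (fun i => pt (T i)) (n * 5) (fun _ => n * 1)) :=
    ⟨⟨⟨_, hmem⟩, 0, fun h => hne (congrArg Subtype.val h)⟩⟩
  exact Module.finrank_pos

theorem main (k : Type*) [Field k] [Infinite k] :
    ∃ P : Fin 19 → Fin 3 → k, DistinctPoints P ∧ IsSpecial P 5 (fun _ => 1) ∧
      ∀ n : ℕ, 5 ≤ n → 0 < h0 P (n * 5) (fun _ => n * 1) ∧ h1 P (n * 5) (fun _ => n * 1) ≤ 0 ∧
        ¬ IsSpecial P (n * 5) (fun _ => n * 1) := by
  obtain ⟨T, hT⟩ : ∃ T : Fin 19 → k, Function.Injective T :=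
    ⟨fun i => Infinite.natEmbedding k i, fun i j h => Fin.ext ((Infinite.natEmbedding k).injective h)⟩
  refine ⟨fun i => pt (T i), distinct T hT, ⟨?_, ?_⟩, fun n hn => ?_⟩
  · have := h0_five T
    omega
  · have := h0_five T
    unfold h1
    rw [chi_five]
    have h3 : (3 : ℤ) ≤ (h0 (fun i => pt (T i)) 5 (fun _ => 1) : ℤ) := by exact_mod_cast this
    linarith
  · have hle : h1 (fun i => pt (T i)) (n * 5) (fun _ => n * 1) ≤ 0 := by
      obtain ⟨N, hP, hN⟩ := PP_final (hh T) (hh_monic T) (hh_deg T) n hn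
      have h4 := h0_le T hT _ _ _ hP
      have h5 := chi_n n
      unfold h1
      have h6 : (h0 (fun i => pt (T i)) (n * 5) (fun _ => n * 1) : ℤ) ≤ N := by
        rw [mul_one]
        exact_mod_cast h4
      have h7 : (N : ℤ) + 2 * n = 3 * (n : ℤ) ^ 2 + 1 := by exact_mod_cast hN
      linarith
    exact ⟨h0_pos T hT n hn, hle, fun h => not_lt.mpr hle h.2⟩

end

end Pool.Agent.H14.Spec
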