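import Mathlib

open MeasureTheory Finset

namespace Pool.Agent.H14.Steiner

noncomputable section

abbrev E (k : ℕ) := EuclideanSpace ℝ (Fin (k + k + 1))
abbrev G (k : ℕ) := ℝ × (Fin k → ℝ × ℝ)

def ia {k : ℕ} (j : Fin k) : Fin (k + k + 1) := (Fin.castAdd k j).succ
def ib {k : ℕ} (j : Fin k) : Fin (k + k + 1) := (Fin.natAdd k j).succ

def Th (k : ℕ) (z : E k) : G k := (z 0, fun j => (z (ia j), z (ib j)))

theorem Th_mp (k : ℕ) : MeasurePreserving (Th k) volume volume := by
  have h1 : MeasurePreserving (WithLp.ofLp : E k → (Fin (k + k + 1) → ℝ)) volume volume :=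
    PiLp.volume_preserving_ofLp (Fin (k + k + 1))
  have h2 := volume_preserving_piFinSuccAbove (fun _ : Fin (k + k + 1) => ℝ) 0
  have h3 := (volume_measurePreserving_piCongrLeft (fun _ : Fin (k + k) => ℝ)
    (finSumFinEquiv : Fin k ⊕ Fin k ≃ Fin (k + k))).symm
  have h4 := volume_measurePreserving_sumPiEquivProdPi (fun _ : Fin k ⊕ Fin k => ℝ)
  have h5 := (volume_measurePreserving_arrowProdEquivProdArrow ℝ ℝ (Fin k)).symm
  have h6 := (h5.comp h4).comp h3
  have h7 := ((MeasurePreserving.id (volume : Measure ℝ)).prod h6).comp (h2.comp h1)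
  have h8 : Th k = (Prod.map id
        ((⇑(MeasurableEquiv.arrowProdEquivProdArrow ℝ ℝ (Fin k)).symm ∘
            ⇑(MeasurableEquiv.sumPiEquivProdPi fun x => ℝ)) ∘
          ⇑(MeasurableEquiv.piCongrLeft (fun x => ℝ) finSumFinEquiv).symm) ∘
      ⇑(MeasurableEquiv.piFinSuccAbove (fun x => ℝ) 0) ∘ WithLp.ofLp) := by
    funext z
    apply Prod.ext
    · rfl
    · funext j
      apply Prod.ext
      · show z (ia j) = z (Fin.succAbove 0 (finSumFinEquiv (Sum.inl j)))
        simp [ia]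
      · show z (ib j) = z (Fin.succAbove 0 (finSumFinEquiv (Sum.inr j)))
        simp [ib]
  rw [h8]
  exact h7

theorem inner_formula {k : ℕ} (x z : E k) :
    inner ℝ x z = x 0 * z 0 + ∑ j : Fin k, (x (ia j) * z (ia j) + x (ib j) * z (ib j)) := by
  rw [PiLp.inner_apply, Fin.sum_univ_succ, Fin.sum_univ_add, Finset.sum_add_distrib]
  simp only [ia, ib]
  simp [mul_comm]

def mk {k : ℕ} (t : ℝ) (f : Fin k → ℝ × ℝ) : E k :=
  WithLp.toLp 2 (Fin.cons t (Fin.append (fun j => (f j).1) (fun j => (f j).2)) : Fin (k + k + 1) → ℝ)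

@[simp] theorem mk_zero {k : ℕ} (t : ℝ) (f : Fin k → ℝ × ℝ) : mk t f 0 = t := by
  simp [mk]

@[simp] theorem mk_ia {k : ℕ} (t : ℝ) (f : Fin k → ℝ × ℝ) (j : Fin k) : mk t f (ia j) = (f j).1 := by
  simp [mk, ia]

@[simp] theorem mk_ib {k : ℕ} (t : ℝ) (f : Fin k → ℝ × ℝ) (j : Fin k) : mk t f (ib j) = (f j).2 := by
  have h1 : mk t f (ib j) = Fin.append (fun j => (f j).1) (fun j => (f j).2) (Fin.natAdd k j) := rfl
  rw [h1, Fin.append_right]

/-- gauge of the triangle -/
def h (a b : ℝ) : ℝ := max 0 (max a b)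

def Hs {k : ℕ} (x : E k) : ℝ := ∑ j : Fin k, h (x (ia j)) (x (ib j))

theorem h_nonneg (a b : ℝ) : 0 ≤ h a b := le_max_left _ _

theorem h_add (a b c d : ℝ) : h (a + c) (b + d) ≤ h a b + h c d := by
  unfold h
  refine max_le ?_ (max_le ?_ ?_)
  · exact add_nonneg (le_max_left _ _) (le_max_left _ _)
  · exact add_le_add ((le_max_left _ _).trans (le_max_right _ _)) ((le_max_left _ _).trans (le_max_right _ _))
  · exact add_le_add ((le_max_right _ _).trans (le_max_right _ _)) ((le_max_right _ _).trans (le_max_right _ _))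

theorem h_smul (r a b : ℝ) (hr : 0 ≤ r) : h (r * a) (r * b) = r * h a b := by
  unfold h
  rw [mul_max_of_nonneg _ _ hr, mul_max_of_nonneg _ _ hr, mul_zero]

theorem h_abs (a b : ℝ) : h a b ≤ |a| + |b| := by
  unfold h
  refine max_le ?_ (max_le ?_ ?_)
  · positivity
  · exact (le_abs_self a).trans (le_add_of_nonneg_right (abs_nonneg _))
  · exact (le_abs_self b).trans (le_add_of_nonneg_left (abs_nonneg _))

theorem le_h1 (a b : ℝ) : a ≤ h a b := (le_max_left _ _).trans (le_max_right _ _)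
theorem le_h2 (a b : ℝ) : b ≤ h a b := (le_max_right _ _).trans (le_max_right _ _)

theorem Hs_nonneg {k : ℕ} (x : E k) : 0 ≤ Hs x := Finset.sum_nonneg fun _ _ => h_nonneg _ _

theorem Hs_add {k : ℕ} (x y : E k) : Hs (x + y) ≤ Hs x + Hs y := by
  unfold Hs
  rw [← Finset.sum_add_distrib]
  exact Finset.sum_le_sum fun j _ => h_add _ _ _ _

theorem Hs_smul {k : ℕ} (r : ℝ) (hr : 0 ≤ r) (x : E k) : Hs (r • x) = r * Hs x := by
  unfold Hs
  rw [Finset.mul_sum]
  exact Finset.sum_congr rfl fun j _ => h_smul r _ _ hr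

theorem Hs_cont (k : ℕ) : Continuous (Hs : E k → ℝ) := by
  unfold Hs h
  fun_prop

/-- the body -/
def Kset (k : ℕ) (l : ℝ) : Set (E k) := {x | l * x 0 + Hs x ≤ 1 ∧ -(l * x 0) + Hs (-x) ≤ 1}

theorem Kset_neg {k : ℕ} {l : ℝ} {x : E k} (hx : x ∈ Kset k l) : -x ∈ Kset k l := by
  refine ⟨?_, ?_⟩
  · have := hx.2
    simpa using this
  · have := hx.1
    simpa using this

theorem Kset_convex (k : ℕ) (l : ℝ) : Convex ℝ (Kset k l) := by
  intro x hx y hy a b ha hb hab
  refine ⟨?_, ?_⟩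
  · have h1 := Hs_add (a • x) (b • y)
    rw [Hs_smul a ha, Hs_smul b hb] at h1
    have h2 : (a • x + b • y) 0 = a * x 0 + b * y 0 := by simp
    rw [h2]
    nlinarith [hx.1, hy.1, mul_le_mul_of_nonneg_left hx.1 ha, mul_le_mul_of_nonneg_left hy.1 hb]
  · have h1 := Hs_add (a • (-x)) (b • (-y))
    rw [Hs_smul a ha, Hs_smul b hb] at h1
    have h2 : (a • x + b • y) 0 = a * x 0 + b * y 0 := by simp
    have h3 : -(a • x + b • y) = a • (-x) + b • (-y) := by
      rw [smul_neg, smul_neg, neg_add]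
    rw [h2, h3]
    nlinarith [hx.2, hy.2, mul_le_mul_of_nonneg_left hx.2 ha, mul_le_mul_of_nonneg_left hy.2 hb]

theorem Kset_closed (k : ℕ) (l : ℝ) : IsClosed (Kset k l) := by
  have hc := Hs_cont k
  have h0 : Continuous fun x : E k => x 0 := by fun_prop
  refine (isClosed_le (f := fun x : E k => l * x 0 + Hs x) ?_ continuous_const).inter
    (isClosed_le (f := fun x : E k => -(l * x 0) + Hs (-x)) ?_ continuous_const)
  · fun_prop
  · exact ((continuous_const.mul h0).neg).add (hc.comp continuous_neg)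

theorem Kset_coord {k : ℕ} {l : ℝ} (hl : 1 ≤ l) {x : E k} (hx : x ∈ Kset k l) (i : Fin (k + k + 1)) :
    |x i| ≤ 2 := by
  have h1 := hx.1
  have h2 := hx.2
  have h3 := Hs_nonneg x
  have h4 := Hs_nonneg (-x)
  have h0 : |x 0| ≤ 1 := by
    have h5 : |l * x 0| ≤ 1 := abs_le.mpr ⟨by linarith, by linarith⟩
    rw [abs_mul, abs_of_nonneg (by linarith : (0:ℝ) ≤ l)] at h5
    nlinarith [abs_nonneg (x 0)]
  have hj : ∀ j : Fin k, h (x (ia j)) (x (ib j)) ≤ Hs x := fun j =>
    Finset.single_le_sum (f := fun j => h (x (ia j)) (x (ib j))) (fun _ _ => h_nonneg _ _) (Finset.mem_univ j)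
  have hj' : ∀ j : Fin k, h ((-x) (ia j)) ((-x) (ib j)) ≤ Hs (-x) := fun j =>
    Finset.single_le_sum (f := fun j => h ((-x) (ia j)) ((-x) (ib j))) (fun _ _ => h_nonneg _ _) (Finset.mem_univ j)
  refine Fin.cases ?_ (fun i => ?_) i
  · linarith
  · refine Fin.addCases (fun j => ?_) (fun j => ?_) i
    · have a1 := hj j
      have a2 := hj' j
      have a3 := le_h1 (x (ia j)) (x (ib j))
      have a4 := le_h1 ((-x) (ia j)) ((-x) (ib j))
      simp only [PiLp.neg_apply] at a4 a2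
      show |x (ia j)| ≤ 2
      exact abs_le.mpr ⟨by linarith, by linarith⟩
    · have a1 := hj j
      have a2 := hj' j
      have a3 := le_h2 (x (ia j)) (x (ib j))
      have a4 := le_h2 ((-x) (ia j)) ((-x) (ib j))
      simp only [PiLp.neg_apply] at a4 a2
      show |x (ib j)| ≤ 2
      exact abs_le.mpr ⟨by linarith, by linarith⟩

theorem Kset_compact (k : ℕ) {l : ℝ} (hl : 1 ≤ l) : IsCompact (Kset k l) := by
  apply Metric.isCompact_of_isClosed_isBounded (Kset_closed k l)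
  rw [isBounded_iff_forall_norm_le]
  refine ⟨√(∑ i : Fin (k + k + 1), (2:ℝ) ^ 2), fun x hx => ?_⟩
  rw [EuclideanSpace.norm_eq]
  apply Real.sqrt_le_sqrt
  apply Finset.sum_le_sum
  intro i _
  have := Kset_coord hl hx i
  rw [Real.norm_eq_abs]
  exact pow_le_pow_left₀ (abs_nonneg _) this 2

theorem Kset_interior (k : ℕ) (l : ℝ) : (interior (Kset k l)).Nonempty := by
  refine ⟨0, ?_⟩
  rw [mem_interior]
  have hc := Hs_cont k
  have h0 : Continuous fun x : E k => x 0 := by fun_prop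
  refine ⟨{x | l * x 0 + Hs x < 1 ∧ -(l * x 0) + Hs (-x) < 1}, fun x hx => ⟨hx.1.le, hx.2.le⟩, ?_, ?_⟩
  · exact (isOpen_lt (f := fun x : E k => l * x 0 + Hs x) (by fun_prop) continuous_const).inter
      (isOpen_lt (f := fun x : E k => -(l * x 0) + Hs (-x))
        (((continuous_const.mul h0).neg).add (hc.comp continuous_neg)) continuous_const)
  · simp [Hs, h]

def K (k : ℕ) (l : ℝ) (hl : 1 ≤ l) : ConvexBody (E k) where
  carrier := Kset k l
  convex' := Kset_convex k l
  isCompact' := Kset_compact k hl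
  nonempty' := (Kset_interior k l).mono interior_subset

theorem mem_K {k : ℕ} {l : ℝ} {hl : 1 ≤ l} {x : E k} : x ∈ K k l hl ↔ x ∈ Kset k l := Iff.rfl

end

end Pool.Agent.H14.Steiner
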