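import Mathlib
import Pool.Agent.H14.Steiner1

open MeasureTheory Finset

namespace Pool.Agent.H14.Steiner

noncomputable section

def F (s r : ℝ) : Set (ℝ × ℝ) :=
  {v | |2 * v.1 - s| ≤ r ∧ |2 * v.2 - s| ≤ r ∧ |2 * (v.1 + v.2) - s| ≤ r}

theorem F_closed (s r : ℝ) : IsClosed (F s r) :=
  (isClosed_le (f := fun v : ℝ × ℝ => |2 * v.1 - s|) (by fun_prop) continuous_const).inter
    ((isClosed_le (f := fun v : ℝ × ℝ => |2 * v.2 - s|) (by fun_prop) continuous_const).inter
      (isClosed_le (f := fun v : ℝ × ℝ => |2 * (v.1 + v.2) - s|) (by fun_prop) continuous_const))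

theorem F_slice (s r x : ℝ) (hsr : |s| ≤ r) :
    volume (Prod.mk x ⁻¹' F s r) =
      (Set.Icc ((s - r) / 2) ((s + r) / 2)).indicator (fun x => ENNReal.ofReal (r - |x|)) x := by
  have hs := abs_le.mp hsr
  by_cases hx : x ∈ Set.Icc ((s - r) / 2) ((s + r) / 2)
  · rw [Set.indicator_of_mem hx]
    have hx1 := hx.1
    have hx2 := hx.2
    have : Prod.mk x ⁻¹' F s r =
        Set.Icc (max ((s - r) / 2) ((s - r) / 2 - x)) (min ((s + r) / 2) ((s + r) / 2 - x)) := by
      ext y
      simp only [F, Set.mem_preimage, Set.mem_ofPred_eq, Set.mem_Icc, max_le_iff, le_min_iff, abs_le]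
      constructor
      · rintro ⟨⟨h1, h2⟩, ⟨h3, h4⟩, h5, h6⟩
        refine ⟨⟨by linarith, by linarith⟩, by linarith, by linarith⟩
      · rintro ⟨⟨h1, h2⟩, h3, h4⟩
        refine ⟨⟨by linarith, by linarith⟩, ⟨by linarith, by linarith⟩, by linarith, by linarith⟩
    rw [this, Real.volume_Icc]
    congr 1
    rcases le_total 0 x with h0 | h0
    · rw [max_eq_left (by linarith), min_eq_right (by linarith), abs_of_nonneg h0]
      ring
    · rw [max_eq_right (by linarith), min_eq_left (by linarith), abs_of_nonpos h0]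
      ring
  · rw [Set.indicator_of_notMem hx]
    have : Prod.mk x ⁻¹' F s r = ∅ := by
      ext y
      simp only [F, Set.mem_preimage, Set.mem_ofPred_eq, Set.mem_empty_iff_false, iff_false, abs_le]
      rintro ⟨⟨h1, h2⟩, -⟩
      exact hx ⟨by linarith, by linarith⟩
    rw [this, measure_empty]

theorem F_int (s r : ℝ) (hsr : |s| ≤ r) :
    ∫ x in ((s - r) / 2)..((s + r) / 2), (r - |x|) = (3 * r ^ 2 - s ^ 2) / 4 := by
  have hs := abs_le.mp hsr
  have hc : Continuous fun x : ℝ => r - |x| := by fun_prop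
  rw [← intervalIntegral.integral_add_adjacent_intervals (b := 0) (hc.intervalIntegrable _ _)
    (hc.intervalIntegrable _ _)]
  have h1 : ∫ x in ((s - r) / 2)..0, (r - |x|) = ∫ x in ((s - r) / 2)..0, (r + x) := by
    apply intervalIntegral.integral_congr
    intro x hx
    rw [Set.uIcc_of_le (by linarith)] at hx
    simp only
    rw [abs_of_nonpos hx.2]
    ring
  have h2 : ∫ x in (0:ℝ)..((s + r) / 2), (r - |x|) = ∫ x in (0:ℝ)..((s + r) / 2), (r - x) := by
    apply intervalIntegral.integral_congr
    intro x hx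
    rw [Set.uIcc_of_le (by linarith)] at hx
    simp only
    rw [abs_of_nonneg hx.1]
  rw [h1, h2]
  rw [intervalIntegral.integral_add (by simp) (by simp), intervalIntegral.integral_sub (by simp) (by simp)]
  simp only [intervalIntegral.integral_const, integral_id, smul_eq_mul]
  ring

theorem F_vol (s r : ℝ) (hsr : |s| ≤ r) : volume (F s r) = ENNReal.ofReal ((3 * r ^ 2 - s ^ 2) / 4) := by
  have hs := abs_le.mp hsr
  rw [Measure.volume_eq_prod, Measure.prod_apply (F_closed s r).measurableSet]
  rw [lintegral_congr (fun x => F_slice s r x hsr), lintegral_indicator measurableSet_Icc]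
  rw [← F_int s r hsr, intervalIntegral.integral_of_le (by linarith), ← integral_Icc_eq_integral_Ioc]
  rw [ofReal_integral_eq_lintegral_ofReal]
  · exact (Continuous.integrableOn_Icc (by fun_prop))
  · rw [Filter.EventuallyLE, ae_restrict_iff' measurableSet_Icc]
    refine Filter.Eventually.of_forall fun x hx => ?_
    have : |x| ≤ r := abs_le.mpr ⟨by linarith [hx.1], by linarith [hx.2]⟩
    simpa using this

theorem pi_vol {k : ℕ} (S : Set (ℝ × ℝ)) :
    volume {f : Fin k → ℝ × ℝ | ∀ j, f j ∈ S} = volume S ^ k := by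
  have : {f : Fin k → ℝ × ℝ | ∀ j, f j ∈ S} = Set.pi Set.univ (fun _ => S) := by
    ext f; simp
  rw [this, volume_pi_pi, Finset.prod_const, Finset.card_univ, Fintype.card_fin]

def B (k : ℕ) (l : ℝ) : Set (G k) := {p | |p.1 / l| ≤ 1 ∧ ∀ j, p.2 j ∈ F (p.1 / l) 1}

theorem B_closed (k : ℕ) (l : ℝ) : IsClosed (B k l) := by
  have : B k l = {p | |p.1 / l| ≤ 1} ∩ ⋂ j, {p | p.2 j ∈ F (p.1 / l) 1} := by
    ext p; simp [B]
  rw [this]
  refine (isClosed_le (f := fun p : G k => |p.1 / l|) (by fun_prop) continuous_const).inter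
    (isClosed_iInter fun j => ?_)
  exact (isClosed_le (f := fun p : G k => |2 * (p.2 j).1 - p.1 / l|) (by fun_prop) continuous_const).inter
    ((isClosed_le (f := fun p : G k => |2 * (p.2 j).2 - p.1 / l|) (by fun_prop) continuous_const).inter
      (isClosed_le (f := fun p : G k => |2 * ((p.2 j).1 + (p.2 j).2) - p.1 / l|) (by fun_prop)
        continuous_const))

theorem B_vol (k : ℕ) {l ε : ℝ} (hl : 0 < l) (he : 0 < ε) (he1 : ε ≤ 1) :
    volume (B k l) ≤ ENNReal.ofReal (l * (3 / 4) ^ k * (2 * ε + 2 * (1 - ε ^ 2 / 3) ^ k)) := by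
  rw [Measure.volume_eq_prod, Measure.prod_apply (B_closed k l).measurableSet]
  have hq : 0 ≤ 1 - ε ^ 2 / 3 := by nlinarith
  have h1 : ∀ t : ℝ, volume (Prod.mk t ⁻¹' B k l) ≤
      (Set.Icc (-(l * ε)) (l * ε)).indicator (fun _ => ENNReal.ofReal ((3 / 4) ^ k)) t +
      (Set.Icc (-l) l).indicator (fun _ => ENNReal.ofReal ((3 / 4) ^ k * (1 - ε ^ 2 / 3) ^ k)) t := by
    intro t
    by_cases ht : |t / l| ≤ 1
    · have h2 : Prod.mk t ⁻¹' B k l = {f : Fin k → ℝ × ℝ | ∀ j, f j ∈ F (t / l) 1} := by
        ext f; simp [B, ht]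
      rw [h2, pi_vol, F_vol _ _ ht, ← ENNReal.ofReal_pow (by nlinarith [abs_le.mp ht, sq_abs (t / l), abs_nonneg (t / l)])]
      have h3 : t ∈ Set.Icc (-l) l := by
        rw [abs_div, abs_of_pos hl, div_le_one hl, abs_le] at ht
        exact ht
      rw [Set.indicator_of_mem h3]
      by_cases h4 : |t / l| ≤ ε
      · have h5 : t ∈ Set.Icc (-(l * ε)) (l * ε) := by
          rw [abs_div, abs_of_pos hl, div_le_iff₀ hl, abs_le] at h4
          exact ⟨by linarith [h4.1], by linarith [h4.2]⟩
        rw [Set.indicator_of_mem h5]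
        refine le_trans ?_ (le_add_of_nonneg_right zero_le)
        apply ENNReal.ofReal_le_ofReal
        apply pow_le_pow_left₀
        · nlinarith [abs_le.mp ht, sq_abs (t / l), abs_nonneg (t / l)]
        · nlinarith [sq_nonneg (t / l)]
      · refine le_trans ?_ (le_add_of_nonneg_left zero_le)
        apply ENNReal.ofReal_le_ofReal
        rw [← mul_pow]
        apply pow_le_pow_left₀
        · nlinarith [abs_le.mp ht, sq_abs (t / l), abs_nonneg (t / l)]
        · push Not at h4
          have : ε ^ 2 ≤ (t / l) ^ 2 := by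
            rw [← sq_abs (t / l)]
            exact pow_le_pow_left₀ he.le h4.le 2
          linarith
    · have h2 : Prod.mk t ⁻¹' B k l = ∅ := by
        ext f; simp [B, ht]
      rw [h2, measure_empty]
      exact zero_le
  refine (lintegral_mono h1).trans ?_
  rw [lintegral_add_left (measurable_const.indicator measurableSet_Icc),
    lintegral_indicator measurableSet_Icc, lintegral_indicator measurableSet_Icc,
    setLIntegral_const, setLIntegral_const, Real.volume_Icc, Real.volume_Icc,
    show l * ε - -(l * ε) = 2 * (l * ε) by ring, show l - -l = 2 * l by ring,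
    ← ENNReal.ofReal_mul (by positivity), ← ENNReal.ofReal_mul (by positivity),
    ← ENNReal.ofReal_add (by positivity) (by positivity)]
  apply ENNReal.ofReal_le_ofReal
  apply le_of_eq
  ring

def polar {k : ℕ} (S : Set (E k)) : Set (E k) := {z | ∀ x ∈ S, inner ℝ x z ≤ (1:ℝ)}

theorem polar_sub (k : ℕ) {l : ℝ} (hl : 1 ≤ l) : polar (Kset k l) ⊆ Th k ⁻¹' B k l := by
  intro z hz
  have hl0 : (0:ℝ) < l := by linarith
  have key : ∀ x ∈ Kset k l, |inner ℝ x z| ≤ (1:ℝ) := by
    intro x hx
    have h1 := hz x hx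
    have h2 := hz _ (Kset_neg hx)
    rw [inner_neg_left] at h2
    exact abs_le.mpr ⟨by linarith, by linarith⟩
  have hmk : ∀ (t : ℝ) (f : Fin k → ℝ × ℝ), (l * t + ∑ j, h (f j).1 (f j).2 ≤ 1) →
      (-(l * t) + ∑ j, h (-(f j).1) (-(f j).2) ≤ 1) →
      |t * z 0 + ∑ j : Fin k, ((f j).1 * z (ia j) + (f j).2 * z (ib j))| ≤ 1 := by
    intro t f h1 h2
    have h3 := key (mk t f) ⟨by simpa [Hs] using h1, by simpa [Hs] using h2⟩
    rw [inner_formula] at h3
    simpa using h3
  have hll : l * l⁻¹ = 1 := mul_inv_cancel₀ hl0.ne'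
  refine ⟨?_, fun j => ?_⟩
  · have := hmk l⁻¹ (fun _ => 0) (by simp [h, hll]) (by simp [h, hll])
    simpa [Th, div_eq_inv_mul] using this
  · have hs : ∀ a b : ℝ, 0 ≤ a → 0 ≤ b → max a b = 2 →
        |2 * 0 + ((a * z (ia j) + b * z (ib j)) - z 0 / l)| ≤ 1 := by
      intro a b ha hb hab
      have := hmk (-l⁻¹) (Pi.single j (a, b)) ?_ ?_
      · rw [Finset.sum_eq_single j] at this
        · rw [Pi.single_eq_same] at this
          convert this using 2
          simp only
          field_simp
          ring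
        · intro i _ hij
          rw [Pi.single_eq_of_ne hij]
          simp
        · simp
      · rw [Finset.sum_eq_single j]
        · rw [Pi.single_eq_same]
          simp only [h, hab]
          rw [max_eq_right (by norm_num)]
          linarith
        · intro i _ hij
          rw [Pi.single_eq_of_ne hij]
          simp [h]
        · simp
      · rw [Finset.sum_eq_single j]
        · rw [Pi.single_eq_same]
          simp only [h]
          rw [max_eq_left (max_le (by linarith) (by linarith))]
          linarith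
        · intro i _ hij
          rw [Pi.single_eq_of_ne hij]
          simp [h]
        · simp
    refine ⟨?_, ?_, ?_⟩
    · have := hs 2 0 (by norm_num) (by norm_num) (by norm_num)
      simpa [Th] using this
    · have := hs 0 2 (by norm_num) (by norm_num) (by norm_num)
      simpa [Th] using this
    · have := hs 2 2 (by norm_num) (by norm_num) (by norm_num)
      rw [← mul_add] at this
      simpa [Th] using this

theorem polar_vol (k : ℕ) {l ε : ℝ} (hl : 1 ≤ l) (he : 0 < ε) (he1 : ε ≤ 1) :
    volume (polar (Kset k l)) ≤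
      ENNReal.ofReal (l * (3 / 4) ^ k * (2 * ε + 2 * (1 - ε ^ 2 / 3) ^ k)) := by
  refine (measure_mono (polar_sub k hl)).trans ?_
  rw [(Th_mp k).measure_preimage (B_closed k l).measurableSet.nullMeasurableSet]
  exact B_vol k (by linarith) he he1

end

end Pool.Agent.H14.Steiner
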