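import Mathlib
import Pool.Agent.H14.Steiner2

open MeasureTheory Finset

namespace Pool.Agent.H14.Steiner

noncomputable section

/-- the region in the polar of the symmetral -/
def Eset (k : ℕ) (l r : ℝ) (u : E k) : Set (E k) :=
  {z | |inner ℝ u z| ≤ l * |u 0| * r ∧
    ∀ j : Fin k, ((z - (inner ℝ u z : ℝ) • u) (ia j), (z - (inner ℝ u z : ℝ) • u) (ib j)) ∈ F 0 r}

def cf {k : ℕ} (u : E k) (f : Fin k → ℝ × ℝ) : ℝ :=
  (∑ j : Fin k, (u (ia j) * (f j).1 + u (ib j) * (f j).2)) / u 0

def vf {k : ℕ} (u : E k) : Fin k → ℝ × ℝ := fun j => (u 0 * u (ia j), u 0 * u (ib j))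

theorem shear2 (k : ℕ) (v : Fin k → ℝ × ℝ) :
    MeasurePreserving (fun p : G k => (p.1, p.2 - p.1 • v)) volume volume := by
  have := MeasurePreserving.skew_product (μa := (volume : Measure ℝ)) (μb := (volume : Measure ℝ))
    (μc := (volume : Measure (Fin k → ℝ × ℝ))) (μd := (volume : Measure (Fin k → ℝ × ℝ)))
    (MeasurePreserving.id _) (g := fun (a : ℝ) (f : Fin k → ℝ × ℝ) => f - a • v)
    (by
      have : Continuous (fun p : ℝ × (Fin k → ℝ × ℝ) => p.2 - p.1 • v) := by fun_prop
      exact this.measurable)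
    (Filter.Eventually.of_forall fun a => (measurePreserving_sub_right volume (a • v)).map_eq)
  exact this

theorem shear1 (k : ℕ) (c : (Fin k → ℝ × ℝ) → ℝ) (hc : Measurable c) :
    MeasurePreserving (fun p : G k => (p.1 + c p.2, p.2)) volume volume := by
  have := MeasurePreserving.skew_product (μa := (volume : Measure (Fin k → ℝ × ℝ)))
    (μb := (volume : Measure (Fin k → ℝ × ℝ)))
    (μc := (volume : Measure ℝ)) (μd := (volume : Measure ℝ))
    (MeasurePreserving.id _) (g := fun (f : Fin k → ℝ × ℝ) (a : ℝ) => a + c f)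
    (by
      exact (measurable_snd.add (hc.comp measurable_fst)))
    (Filter.Eventually.of_forall fun a => (measurePreserving_add_right volume (c a)).map_eq)
  have h1 := (Measure.measurePreserving_swap (μ := (volume : Measure (Fin k → ℝ × ℝ)))
    (ν := (volume : Measure ℝ))).comp (this.comp (Measure.measurePreserving_swap
      (μ := (volume : Measure ℝ)) (ν := (volume : Measure (Fin k → ℝ × ℝ)))))
  exact h1

theorem E_vol (k : ℕ) {l r : ℝ} (hl : 0 < l) (hr : 0 ≤ r) (u : E k) (hu : u 0 ≠ 0) :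
    volume (Eset k l r u) = ENNReal.ofReal (2 * (l * r) * (3 / 4 * r ^ 2) ^ k) := by
  have hc : Continuous (cf u) := by
    unfold cf; fun_prop
  have hm := ((shear2 k (vf u)).comp (shear1 k (cf u) hc.measurable)).comp (Th_mp k)
  have hS : Eset k l r u = (fun z => (fun p : G k => (p.1, p.2 - p.1 • vf u))
      ((fun p : G k => (p.1 + cf u p.2, p.2)) (Th k z))) ⁻¹'
      (Set.Icc (-(l * r)) (l * r) ×ˢ {f : Fin k → ℝ × ℝ | ∀ j, f j ∈ F 0 r}) := by
    ext z
    have h1 : u 0 * ((Th k z).1 + cf u (Th k z).2) = inner ℝ u z := by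
      rw [inner_formula, mul_add, cf, mul_div_cancel₀ _ hu]
      rfl
    have h2 : |inner ℝ u z| ≤ l * |u 0| * r ↔ |(Th k z).1 + cf u (Th k z).2| ≤ l * r := by
      rw [← h1, abs_mul]
      have h3 : 0 < |u 0| := abs_pos.mpr hu
      constructor
      · intro h
        by_contra hcon
        push Not at hcon
        nlinarith
      · intro h
        nlinarith
    simp only [Eset, Set.mem_ofPred_eq, Set.mem_preimage, Set.mem_prod, Set.mem_Icc, ← abs_le, h2]
    apply and_congr Iff.rfl
    apply forall_congr'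
    intro j
    have h4 : ((z - (inner ℝ u z : ℝ) • u) (ia j), (z - (inner ℝ u z : ℝ) • u) (ib j)) =
      ((Th k z).2 - ((Th k z).1 + cf u (Th k z).2) • vf u) j := by
      rw [← h1]
      apply Prod.ext
      · simp [Th, vf]
        ring
      · simp [Th, vf]
        ring
    rw [h4]
  have hmeas : MeasurableSet {f : Fin k → ℝ × ℝ | ∀ j, f j ∈ F 0 r} := by
    have : {f : Fin k → ℝ × ℝ | ∀ j, f j ∈ F 0 r} = Set.pi Set.univ (fun _ => F 0 r) := by
      ext f; simp
    rw [this]
    exact MeasurableSet.univ_pi fun _ => (F_closed 0 r).measurableSet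
  rw [hS]
  have h5 := hm.measure_preimage ((measurableSet_Icc (a := -(l * r)) (b := l * r)).prod hmeas).nullMeasurableSet
  refine h5.trans ?_
  rw [Measure.volume_eq_prod, Measure.prod_prod, pi_vol, F_vol 0 r (by simpa using hr), Real.volume_Icc,
    ← ENNReal.ofReal_pow (by nlinarith [sq_nonneg r]), ← ENNReal.ofReal_mul (by nlinarith [mul_nonneg hl.le hr])]
  congr 1
  ring

theorem pair_bound {r p q : ℝ} (hF : (p, q) ∈ F 0 r) (a b : ℝ) :
    a * p + b * q ≤ r * ((h a b + h (-a) (-b)) / 2) := by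
  obtain ⟨h1, h2, h3⟩ := hF
  simp only [sub_zero] at h1 h2 h3
  rw [abs_le] at h1 h2 h3
  unfold h
  rcases le_total 0 a with ha | ha <;> rcases le_total 0 b with hb | hb
  · rw [max_eq_left (a := (0:ℝ)) (b := max (-a) (-b)) (max_le (by linarith) (by linarith))]
    rcases le_total a b with hab | hab
    · rw [max_eq_right hab, max_eq_right hb]
      nlinarith
    · rw [max_eq_left hab, max_eq_right ha]
      nlinarith
  · rw [max_eq_left (a := a) (b := b) (by linarith), max_eq_right ha,
      max_eq_right (a := -a) (b := -b) (by linarith), max_eq_right (a := (0:ℝ)) (b := -b) (by linarith)]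
    nlinarith
  · rw [max_eq_right (a := a) (b := b) (by linarith), max_eq_right hb,
      max_eq_left (a := -a) (b := -b) (by linarith), max_eq_right (a := (0:ℝ)) (b := -a) (by linarith)]
    nlinarith
  · rw [max_eq_left (a := (0:ℝ)) (b := max a b) (max_le (by linarith) (by linarith))]
    rcases le_total a b with hab | hab
    · rw [max_eq_left (a := -a) (b := -b) (by linarith), max_eq_right (a := (0:ℝ)) (b := -a) (by linarith)]
      nlinarith
    · rw [max_eq_right (a := -a) (b := -b) (by linarith), max_eq_right (a := (0:ℝ)) (b := -b) (by linarith)]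
      nlinarith

/-- Steiner symmetral as in the frozen statement -/
def St {k : ℕ} (S : Set (E k)) (u : E k) : Set (E k) :=
  {w | (∃ s : ℝ, w - (inner ℝ w u : ℝ) • u + s • u ∈ S) ∧
    ENNReal.ofReal (2 * |inner ℝ w u|) ≤
      volume {s : ℝ | w - (inner ℝ w u : ℝ) • u + s • u ∈ S}}

theorem Hs_abs {k : ℕ} (x : E k) (M : ℝ) (hM : ∀ i, |x i| ≤ M) : Hs x ≤ 2 * k * M := by
  unfold Hs
  have : ∀ j : Fin k, h (x (ia j)) (x (ib j)) ≤ 2 * M := fun j => by
    have := h_abs (x (ia j)) (x (ib j))
    linarith [hM (ia j), hM (ib j)]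
  refine (Finset.sum_le_sum fun j _ => this j).trans ?_
  rw [Finset.sum_const, Finset.card_univ, Fintype.card_fin, nsmul_eq_mul]
  apply le_of_eq; ring

theorem E_sub (k : ℕ) {l δ η : ℝ} (hl : 0 < l) (hδ : 0 < δ) (hη : 2 * k / (l * δ) ≤ η) (u : E k)
    (hu : ‖u‖ = 1) (hu0 : δ ≤ |u 0|) :
    Eset k l (1 / (1 + η)) u ⊆ polar (St (Kset k l) u) := by
  have hη0 : 0 ≤ η := le_trans (by positivity) hη
  have hu0' : u 0 ≠ 0 := by
    intro h0
    rw [h0, abs_zero] at hu0
    linarith
  have hup : 0 < |u 0| := abs_pos.mpr hu0'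
  rintro z ⟨hz1, hz2⟩ w ⟨⟨s0, hs0⟩, hvol⟩
  set τ : ℝ := inner ℝ w u with hτ
  set w' := w - τ • u with hw'
  set c : ℝ := w' 0 / u 0 with hc
  set ξ := w' - c • u with hξ
  have huu : inner ℝ u u = (1:ℝ) := by rw [real_inner_self_eq_norm_sq, hu]; norm_num
  have hw'u : inner ℝ w' u = (0:ℝ) := by
    rw [hw', inner_sub_left, inner_smul_left, huu, ← hτ]
    simp
  have hui : ∀ i, |u i| ≤ 1 := fun i => by
    have := PiLp.norm_apply_le u i
    rwa [hu, Real.norm_eq_abs] at this
  -- points of the chord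
  have hpt : ∀ s : ℝ, w' + s • u ∈ Kset k l →
      l * (u 0 * (s + c)) ≤ 1 + η - Hs ξ ∧ -(l * (u 0 * (s + c))) ≤ 1 + η - Hs (-ξ) := by
    intro s hs
    obtain ⟨h1, h2⟩ := hs
    have e0 : (w' + s • u) 0 = u 0 * (s + c) := by
      simp only [PiLp.add_apply, PiLp.smul_apply, smul_eq_mul, hc]
      field_simp
      ring
    rw [e0] at h1 h2
    have hr : |s + c| ≤ 1 / (l * δ) := by
      have a1 := Hs_nonneg (w' + s • u)
      have a2 := Hs_nonneg (-(w' + s • u))
      have a3 : |l * (u 0 * (s + c))| ≤ 1 := abs_le.mpr ⟨by linarith, by linarith⟩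
      rw [abs_mul, abs_mul, abs_of_pos hl] at a3
      rw [le_div_iff₀ (by positivity)]
      have a4 : 0 ≤ |s + c| := abs_nonneg _
      nlinarith [mul_nonneg hl.le a4, mul_le_mul_of_nonneg_left hu0 (mul_nonneg hl.le a4)]
    have hb : ∀ i, |((s + c) • u) i| ≤ 1 / (l * δ) := fun i => by
      simp only [PiLp.smul_apply, smul_eq_mul, abs_mul]
      have := hui i
      have a4 : 0 ≤ |s + c| := abs_nonneg _
      nlinarith
    have hb1 : Hs ((s + c) • u) ≤ η := by
      refine (Hs_abs _ _ hb).trans ?_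
      refine le_trans (le_of_eq ?_) hη
      ring
    have hb2 : Hs (-((s + c) • u)) ≤ η := by
      refine (Hs_abs _ (1 / (l * δ)) (fun i => ?_)).trans ?_
      · have := hb i
        simpa using this
      refine le_trans (le_of_eq ?_) hη
      ring
    have e1 : ξ = (w' + s • u) + -((s + c) • u) := by
      rw [hξ, add_smul]; abel
    have e2 : -ξ = -(w' + s • u) + ((s + c) • u) := by
      rw [hξ, add_smul]; abel
    have b1 := Hs_add (w' + s • u) (-((s + c) • u))
    have b2 := Hs_add (-(w' + s • u)) ((s + c) • u)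
    rw [← e1] at b1
    rw [← e2] at b2
    constructor <;> linarith
  set g : ℝ := (Hs ξ + Hs (-ξ)) / 2 with hg
  have hL0 : 0 ≤ 1 + η - g := by
    have := hpt s0 hs0
    linarith [this.1, this.2]
  have hτb : l * |u 0| * |τ| ≤ 1 + η - g := by
    have hdiam : Metric.ediam {s : ℝ | w' + s • u ∈ Kset k l} ≤
        ENNReal.ofReal (2 * (1 + η - g) / (l * |u 0|)) := by
      apply Metric.ediam_le
      intro s hs t ht
      rw [edist_dist]
      apply ENNReal.ofReal_le_ofReal
      rw [Real.dist_eq, le_div_iff₀ (by positivity)]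
      have h1 := hpt s hs
      have h2 := hpt t ht
      have h3 : |l * (u 0 * (s - t))| ≤ 2 * (1 + η - g) := abs_le.mpr ⟨by nlinarith, by nlinarith⟩
      rw [abs_mul, abs_mul, abs_of_pos hl] at h3
      linarith
    have h1 := (hvol.trans (Real.volume_le_diam _)).trans hdiam
    rw [ENNReal.ofReal_le_ofReal_iff (by positivity), le_div_iff₀ (by positivity)] at h1
    linarith
  -- the inner product
  have hin : inner ℝ w z = τ * inner ℝ u z + inner ℝ ξ (z - (inner ℝ u z : ℝ) • u) := by
    have e1 : w = w' + τ • u := by rw [hw']; abel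
    have e2 : inner ℝ w z = inner ℝ w' z + τ * inner ℝ u z := by
      conv_lhs => rw [e1]
      rw [inner_add_left, inner_smul_left]
      simp
    have e3 : inner ℝ ξ u = -c := by
      rw [hξ, inner_sub_left w' (c • u) u, hw'u, inner_smul_left, huu]; simp
    have e4 : inner ℝ ξ z = inner ℝ w' z - c * inner ℝ u z := by
      rw [hξ, inner_sub_left w' (c • u) z, inner_smul_left]; simp
    rw [e2, inner_sub_right, inner_smul_right, e3, e4]
    ring
  have hξ0 : ξ 0 = 0 := by
    simp only [hξ, PiLp.sub_apply, PiLp.smul_apply, smul_eq_mul, hc]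
    field_simp
    ring
  have h2 : inner ℝ ξ (z - (inner ℝ u z : ℝ) • u) ≤ 1 / (1 + η) * g := by
    rw [inner_formula, hξ0, zero_mul, zero_add, hg, Hs, Hs, ← Finset.sum_add_distrib, Finset.sum_div, Finset.mul_sum]
    apply Finset.sum_le_sum
    intro j _
    have := pair_bound (hz2 j) (ξ (ia j)) (ξ (ib j))
    simpa using this
  have h3 : τ * inner ℝ u z ≤ 1 / (1 + η) * (1 + η - g) := by
    calc τ * inner ℝ u z ≤ |τ * inner ℝ u z| := le_abs_self _
      _ = |τ| * |inner ℝ u z| := abs_mul _ _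
      _ ≤ |τ| * (l * |u 0| * (1 / (1 + η))) := by gcongr
      _ = 1 / (1 + η) * (l * |u 0| * |τ|) := by ring
      _ ≤ _ := by gcongr
  rw [hin]
  have h4 : 1 / (1 + η) * (1 + η - g) + 1 / (1 + η) * g = 1 := by
    field_simp
    ring
  linarith

end

end Pool.Agent.H14.Steiner
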