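import Mathlib
import Pool.Agent.H14.Steiner3

open MeasureTheory Finset

namespace Pool.Agent.H14.Steiner

noncomputable section

theorem null_zero (k : ℕ) : volume {y : E k | y 0 = 0} = 0 := by
  have h1 : {y : E k | y 0 = 0} = Th k ⁻¹' (({0} : Set ℝ) ×ˢ (Set.univ : Set (Fin k → ℝ × ℝ))) := by
    ext y
    simp [Th]
  rw [h1, (Th_mp k).measure_preimage
    ((measurableSet_singleton (0:ℝ)).prod MeasurableSet.univ).nullMeasurableSet,
    Measure.volume_eq_prod, Measure.prod_prod]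
  simp

theorem exists_delta (k : ℕ) : ∃ δ : ℝ, 0 < δ ∧
    volume (Metric.ball (0 : E k) 1) / 2 ≤ volume (Metric.ball (0 : E k) 1 ∩ {y | δ ≤ |y 0|}) := by
  set V := volume (Metric.ball (0 : E k) 1) with hV
  have hV0 : V ≠ 0 := (Metric.measure_ball_pos volume (0 : E k) one_pos).ne'
  have hVt : V ≠ ⊤ := measure_ball_lt_top.ne
  let s : ℕ → Set (E k) := fun m => Metric.ball (0 : E k) 1 ∩ {y | 1 / ((m : ℝ) + 1) ≤ |y 0|}
  have hmono : Monotone s := by
    intro a b hab y hy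
    refine ⟨hy.1, ?_⟩
    have hy2 : 1 / ((a : ℝ) + 1) ≤ |y 0| := hy.2
    show 1 / ((b : ℝ) + 1) ≤ |y 0|
    refine le_trans ?_ hy2
    apply one_div_le_one_div_of_le (by positivity)
    have : (a : ℝ) ≤ b := by exact_mod_cast hab
    linarith
  have ht := tendsto_measure_iUnion_atTop (μ := (volume : Measure (E k))) hmono
  have hU : V ≤ volume (⋃ m, s m) := by
    have h1 : Metric.ball (0 : E k) 1 ⊆ (⋃ m, s m) ∪ {y : E k | y 0 = 0} := by
      intro y hy
      by_cases h0 : y 0 = 0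
      · right; exact h0
      · left
        obtain ⟨m, hm⟩ := exists_nat_one_div_lt (abs_pos.mpr h0)
        exact Set.mem_iUnion.mpr ⟨m, hy, hm.le⟩
    calc V ≤ volume ((⋃ m, s m) ∪ {y : E k | y 0 = 0}) := measure_mono h1
      _ ≤ volume (⋃ m, s m) + volume {y : E k | y 0 = 0} := measure_union_le _ _
      _ = _ := by rw [null_zero, add_zero]
  have hlt : V / 2 < volume (⋃ m, s m) := (ENNReal.half_lt_self hV0 hVt).trans_le hU
  obtain ⟨m, hm⟩ := (ht.eventually (lt_mem_nhds hlt)).exists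
  exact ⟨1 / ((m : ℝ) + 1), by positivity, hm.le⟩

theorem main (C : NNReal) (H : ∀ (k : ℕ) (l : ℝ) (_ : 1 ≤ l),
    ∫⁻ y in Metric.ball (0 : E k) 1, volume (polar (St (Kset k l) (‖y‖⁻¹ • y))) ≤
      (C : ENNReal) * volume (Metric.ball (0 : E k) 1) * volume (polar (Kset k l))) : False := by
  have hc0 : (0:ℝ) ≤ C := C.2
  set ε : ℝ := 1 / (8 * ((C:ℝ) + 1)) with hε
  have he : 0 < ε := by positivity
  have he1 : ε ≤ 1 := by
    rw [hε, div_le_one (by positivity)]; linarith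
  have hq0 : 0 ≤ 1 - ε ^ 2 / 3 := by nlinarith
  have hq1 : 1 - ε ^ 2 / 3 < 1 := by nlinarith [sq_pos_of_pos he]
  obtain ⟨k, hk⟩ := exists_pow_lt_of_lt_one he hq1
  obtain ⟨δ, hδ, hδV⟩ := exists_delta k
  set N : ℝ := 2 * k + 1 with hN
  have hNp : 0 < N := by positivity
  set η : ℝ := 1 / (2 * N) with hη
  have hηp : 0 < η := by positivity
  set l : ℝ := 2 * k / (δ * η) + 1 with hl
  have hl1 : 1 ≤ l := by
    have : 0 ≤ 2 * k / (δ * η) := by positivity
    linarith
  have hl0 : 0 < l := by linarith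
  have hηl : 2 * k / (l * δ) ≤ η := by
    rw [div_le_iff₀ (by positivity)]
    have h1 : 2 * k / (δ * η) ≤ l := by linarith
    rw [div_le_iff₀ (by positivity)] at h1
    linarith
  set ρ : ℝ := 1 / (1 + η) with hρ
  have hρ0 : 0 < ρ := by positivity
  have hρN : 1 / 2 ≤ ρ ^ (2 * k + 1) := by
    have h1 : 1 - η ≤ ρ := by
      rw [hρ, le_div_iff₀ (by positivity)]
      nlinarith
    have h2 : η ≤ 1 / 2 := by
      rw [hη]
      apply one_div_le_one_div_of_le (by norm_num)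
      have : (0:ℝ) ≤ k := Nat.cast_nonneg k
      linarith
    have h3 := one_add_mul_le_pow (a := -η) (by linarith) (2 * k + 1)
    have h4 : (1 + -η) ^ (2 * k + 1) ≤ ρ ^ (2 * k + 1) := by
      apply pow_le_pow_left₀ (by linarith)
      linarith
    have h5 : ((2 * k + 1 : ℕ) : ℝ) * η = 1 / 2 := by
      rw [hη]; push_cast; rw [← hN]; field_simp
    have h6 : 1 + ((2 * k + 1 : ℕ) : ℝ) * -η = 1 / 2 := by
      rw [mul_neg, h5]; norm_num
    linarith
  set A : ℝ := l * (3 / 4) ^ k with hA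
  have hAp : 0 < A := by positivity
  have hvolE : ∀ u : E k, u 0 ≠ 0 → ENNReal.ofReal A ≤ volume (Eset k l ρ u) := by
    intro u hu
    rw [E_vol k hl0 hρ0.le u hu]
    apply ENNReal.ofReal_le_ofReal
    have h1 : 2 * (l * ρ) * (3 / 4 * ρ ^ 2) ^ k = A * (2 * ρ ^ (2 * k + 1)) := by
      rw [hA, mul_pow, pow_succ ρ (2 * k), pow_mul]; ring
    rw [h1]
    nlinarith
  have hlow : ENNReal.ofReal A * (volume (Metric.ball (0 : E k) 1) / 2) ≤
      ∫⁻ y in Metric.ball (0 : E k) 1, volume (polar (St (Kset k l) (‖y‖⁻¹ • y))) := by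
    have hms : MeasurableSet (Metric.ball (0 : E k) 1 ∩ {y | δ ≤ |y 0|}) := by
      apply measurableSet_ball.inter
      exact (isClosed_le continuous_const (g := fun y : E k => |y 0|) (by fun_prop)).measurableSet
    calc ENNReal.ofReal A * (volume (Metric.ball (0 : E k) 1) / 2)
        ≤ ENNReal.ofReal A * volume (Metric.ball (0 : E k) 1 ∩ {y | δ ≤ |y 0|}) := by gcongr
      _ = ∫⁻ y in Metric.ball (0 : E k) 1 ∩ {y | δ ≤ |y 0|}, ENNReal.ofReal A := by
          rw [setLIntegral_const]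
      _ ≤ ∫⁻ y in Metric.ball (0 : E k) 1 ∩ {y | δ ≤ |y 0|},
            volume (polar (St (Kset k l) (‖y‖⁻¹ • y))) := by
          apply setLIntegral_mono' hms
          intro y hy
          have hy1 : ‖y‖ < 1 := by simpa using hy.1
          have hy2 : δ ≤ |y 0| := hy.2
          have hy0 : y ≠ 0 := by
            rintro rfl
            simp at hy2
            linarith
          have hyn : 0 < ‖y‖ := norm_pos_iff.mpr hy0
          have hu : ‖(‖y‖⁻¹ • y)‖ = 1 := by
            rw [norm_smul, norm_inv, norm_norm, inv_mul_cancel₀ hyn.ne']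
          have hu0 : δ ≤ |(‖y‖⁻¹ • y) 0| := by
            simp only [PiLp.smul_apply, smul_eq_mul, abs_mul, abs_inv, abs_norm]
            have h1 : 1 ≤ ‖y‖⁻¹ := (one_le_inv₀ hyn).mpr hy1.le
            nlinarith [abs_nonneg (y 0)]
          have hu0' : (‖y‖⁻¹ • y) 0 ≠ 0 := by
            intro h0
            rw [h0, abs_zero] at hu0
            linarith
          exact (hvolE _ hu0').trans (measure_mono (E_sub k hl0 hδ hηl _ hu hu0))
      _ ≤ _ := lintegral_mono_set Set.inter_subset_left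
  have hup := polar_vol k hl1 he he1
  have hfin := (hlow.trans (H k l hl1)).trans (mul_le_mul_right hup _)
  set V := volume (Metric.ball (0 : E k) 1) with hV
  have hV0 : V ≠ 0 := (Metric.measure_ball_pos volume (0 : E k) one_pos).ne'
  have hVt : V ≠ ⊤ := measure_ball_lt_top.ne
  obtain ⟨v, hv⟩ : ∃ v : NNReal, V = v := ⟨V.toNNReal, (ENNReal.coe_toNNReal hVt).symm⟩
  have hv0 : 0 < (v:ℝ) := by
    have : v ≠ 0 := by
      rintro rfl
      exact hV0 (by simpa using hv)
    exact_mod_cast pos_iff_ne_zero.mpr this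
  have hreal : A * ((v:ℝ) / 2) ≤ (C:ℝ) * v * (A * (2 * ε + 2 * (1 - ε ^ 2 / 3) ^ k)) := by
    rw [hv] at hfin
    have h1 : (v : ENNReal) / 2 = ENNReal.ofReal ((v:ℝ) / 2) := by
      rw [ENNReal.ofReal_div_of_pos (by norm_num)]
      simp
    have h2 : (v : ENNReal) = ENNReal.ofReal (v:ℝ) := by simp
    have h3 : (C : ENNReal) = ENNReal.ofReal (C:ℝ) := by simp
    rw [h1, h3, h2, ← ENNReal.ofReal_mul hAp.le, ← ENNReal.ofReal_mul hc0, ← ENNReal.ofReal_mul (by positivity)] at hfin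
    rw [ENNReal.ofReal_le_ofReal_iff (by positivity)] at hfin
    rw [hA]
    exact hfin
  have h1 : (C:ℝ) * (2 * ε + 2 * (1 - ε ^ 2 / 3) ^ k) ≤ (C:ℝ) * (4 * ε) := by
    apply mul_le_mul_of_nonneg_left _ hc0
    linarith
  have h2 : (C:ℝ) * (4 * ε) < 1 / 2 := by
    rw [hε]
    rw [show (C:ℝ) * (4 * (1 / (8 * ((C:ℝ) + 1)))) = (C:ℝ) / (2 * ((C:ℝ) + 1)) by field_simp; ring]
    rw [div_lt_div_iff₀ (by positivity) (by norm_num)]
    linarith
  have h3 : (C:ℝ) * v * (A * (2 * ε + 2 * (1 - ε ^ 2 / 3) ^ k)) =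
    (A * v) * ((C:ℝ) * (2 * ε + 2 * (1 - ε ^ 2 / 3) ^ k)) := by ring
  rw [h3] at hreal
  have h4 : A * v * ((C:ℝ) * (2 * ε + 2 * (1 - ε ^ 2 / 3) ^ k)) < A * v * (1 / 2) := by
    apply mul_lt_mul_of_pos_left (lt_of_le_of_lt h1 h2) (by positivity)
  linarith

end

end Pool.Agent.H14.Steiner
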