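import Mathlib

namespace Pool.Agent.H14.UnivGrig

open FreeGroup

/-- a family of permutations satisfying the relations of Z2 * (Z2 x Z2) -/
structure IsGam {X : Type} (f : Fin 4 → Equiv.Perm X) : Prop where
  sq : ∀ g, f g * f g = 1
  klein : f 1 * f 2 = f 3

theorem IsGam.inv {X : Type} {f : Fin 4 → Equiv.Perm X} (hf : IsGam f) (g : Fin 4) : (f g)⁻¹ = f g :=
  inv_eq_of_mul_eq_one_left (hf.sq g)

theorem IsGam.comm {X : Type} {f : Fin 4 → Equiv.Perm X} (hf : IsGam f) : f 2 * f 1 = f 3 := by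
  have h1 := congrArg (fun t => t⁻¹) hf.klein
  simp only [mul_inv_rev, hf.inv] at h1
  exact h1

theorem IsGam.m13 {X : Type} {f : Fin 4 → Equiv.Perm X} (hf : IsGam f) : f 1 * f 3 = f 2 := by
  rw [← hf.klein, ← mul_assoc, hf.sq, one_mul]

theorem IsGam.m31 {X : Type} {f : Fin 4 → Equiv.Perm X} (hf : IsGam f) : f 3 * f 1 = f 2 := by
  rw [← hf.comm, mul_assoc, hf.sq, mul_one]

theorem IsGam.m23 {X : Type} {f : Fin 4 → Equiv.Perm X} (hf : IsGam f) : f 2 * f 3 = f 1 := by
  rw [← hf.comm, ← mul_assoc, hf.sq, one_mul]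

theorem IsGam.m32 {X : Type} {f : Fin 4 → Equiv.Perm X} (hf : IsGam f) : f 3 * f 2 = f 1 := by
  rw [← hf.klein, mul_assoc, hf.sq, mul_one]

/-- value of a positive word -/
def val {X : Type} (f : Fin 4 → Equiv.Perm X) (u : List (Fin 4)) : Equiv.Perm X := (u.map f).prod

@[simp] theorem val_nil {X : Type} (f : Fin 4 → Equiv.Perm X) : val f [] = 1 := rfl
@[simp] theorem val_cons {X : Type} (f : Fin 4 → Equiv.Perm X) (g : Fin 4) (u : List (Fin 4)) :
    val f (g :: u) = f g * val f u := by simp [val]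

/-- induced action on `Bool × X` : false is the letter 0, true is the letter 1 -/
def Ind {X : Type} (y : Fin 3) (f : Fin 4 → Equiv.Perm X) (g : Fin 4) : Equiv.Perm (Bool × X) :=
  if g = 0 then Equiv.prodCongr Equiv.boolNot (Equiv.refl X)
  else Equiv.prodCongrRight (fun x : Bool => if x then f g else (if y.val + g.val ≠ 3 then f 0 else 1))

theorem Ind_zero {X : Type} (y : Fin 3) (f : Fin 4 → Equiv.Perm X) (x : Bool) (p : X) :
    Ind y f 0 (x, p) = (!x, p) := rfl

theorem Ind_true {X : Type} (y : Fin 3) (f : Fin 4 → Equiv.Perm X) {g : Fin 4} (hg : g ≠ 0) (p : X) :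
    Ind y f g (true, p) = (true, f g p) := by
  simp [Ind, hg]

theorem Ind_false {X : Type} (y : Fin 3) (f : Fin 4 → Equiv.Perm X) {g : Fin 4} (hg : g ≠ 0) (p : X) :
    Ind y f g (false, p) = (false, if y.val + g.val ≠ 3 then f 0 p else p) := by
  simp only [Ind, hg, if_false, Equiv.prodCongrRight_apply]
  split_ifs <;> simp_all

theorem Ind_gam {X : Type} (y : Fin 3) {f : Fin 4 → Equiv.Perm X} (hf : IsGam f) : IsGam (Ind y f) := by
  have hsq : ∀ g p, f g (f g p) = p := fun g p => by
    have := congrArg (fun t : Equiv.Perm X => t p) (hf.sq g)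
    simpa using this
  refine ⟨fun g => ?_, ?_⟩
  · ext ⟨x, p⟩ : 1
    rw [Equiv.Perm.mul_apply]
    by_cases hg : g = 0
    · subst hg
      simp [Ind_zero]
    · cases x
      · rw [Ind_false y f hg, Ind_false y f hg]
        split_ifs
        · rw [hsq]; rfl
        · rfl
      · rw [Ind_true y f hg, Ind_true y f hg, hsq]; rfl
  · ext ⟨x, p⟩ : 1
    rw [Equiv.Perm.mul_apply]
    cases x
    · rw [Ind_false y f (by decide), Ind_false y f (by decide), Ind_false y f (by decide)]
      fin_cases y <;> simp [hsq]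
    · rw [Ind_true y f (by decide), Ind_true y f (by decide), Ind_true y f (by decide),
        ← Equiv.Perm.mul_apply, hf.klein]

/-- action on the first letter -/
def par : List (Fin 4) → Bool → Bool
  | [], x => x
  | g :: u, x => if g = 0 then !(par u x) else par u x

/-- first level section -/
def sec (y : Fin 3) (x : Bool) : List (Fin 4) → List (Fin 4)
  | [] => []
  | g :: u => if g = 0 then sec y x u
      else if par u x then g :: sec y x u
      else if y.val + g.val ≠ 3 then 0 :: sec y x u else sec y x u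

theorem val_Ind {X : Type} (y : Fin 3) (f : Fin 4 → Equiv.Perm X) (u : List (Fin 4)) (x : Bool) (p : X) :
    val (Ind y f) u (x, p) = (par u x, val f (sec y x u) p) := by
  induction u with
  | nil => rfl
  | cons g u ih =>
    rw [val_cons, Equiv.Perm.mul_apply, ih]
    by_cases hg : g = 0
    · subst hg
      rw [Ind_zero]
      simp [par, sec]
    · simp only [par, sec, if_neg hg]
      cases hx : par u x
      · rw [Ind_false y f hg]
        split_ifs <;> simp_all
      · rw [Ind_true y f hg]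
        simp

theorem sec_len (y : Fin 3) (x : Bool) (u : List (Fin 4)) : (sec y x u).length ≤ (u.filter (· ≠ 0)).length := by
  induction u with
  | nil => simp [sec]
  | cons g u ih =>
    by_cases hg : g = 0
    · simpa [sec, hg] using ih
    · simp only [sec, if_neg hg]
      rw [List.filter_cons_of_pos (by simpa using hg)]
      split_ifs <;> simp only [List.length_cons] <;> omega

/-- equality in all actions -/
def Eqv (u v : List (Fin 4)) : Prop := ∀ (X : Type) (f : Fin 4 → Equiv.Perm X), IsGam f → val f u = val f v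

theorem Eqv.rfl' (u : List (Fin 4)) : Eqv u u := fun _ _ _ => rfl
theorem Eqv.symm' {u v : List (Fin 4)} (h : Eqv u v) : Eqv v u := fun X f hf => (h X f hf).symm
theorem Eqv.trans' {u v w : List (Fin 4)} (h : Eqv u v) (h2 : Eqv v w) : Eqv u w :=
  fun X f hf => (h X f hf).trans (h2 X f hf)

theorem Eqv.cons {u v : List (Fin 4)} (h : Eqv u v) (g : Fin 4) : Eqv (g :: u) (g :: v) := fun X f hf => by
  rw [val_cons, val_cons, h X f hf]

theorem gam_triv : IsGam (fun _ : Fin 4 => (1 : Equiv.Perm Unit)) := ⟨fun _ => by simp, by simp⟩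

theorem Eqv.par {u v : List (Fin 4)} (h : Eqv u v) (x : Bool) : par u x = par v x := by
  have h1 := h _ _ (Ind_gam 0 gam_triv)
  have h2 := congrArg (fun t : Equiv.Perm (Bool × Unit) => (t (x, ())).1) h1
  simpa [val_Ind] using h2

theorem Eqv.sec {u v : List (Fin 4)} (h : Eqv u v) (y : Fin 3) (x : Bool) : Eqv (sec y x u) (sec y x v) := by
  intro X f hf
  have h1 := h _ _ (Ind_gam y hf)
  ext p
  have h2 := congrArg (fun t : Equiv.Perm (Bool × X) => (t (x, p)).2) h1
  simpa [val_Ind] using h2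

def Small (u : List (Fin 4)) : Prop := ∃ t : List (Fin 4), t.length ≤ 1 ∧ Eqv u t

theorem small_of_noa (u : List (Fin 4)) (hu : (0 : Fin 4) ∉ u) : ∃ t : List (Fin 4), t.length ≤ 1 ∧ (0 : Fin 4) ∉ t ∧ Eqv u t := by
  induction u with
  | nil => exact ⟨[], by simp, by simp, Eqv.rfl' _⟩
  | cons g u ih =>
    simp only [List.mem_cons, not_or] at hu
    obtain ⟨t, ht, ht0, htu⟩ := ih hu.2
    have h1 := htu.cons g
    match t, ht, ht0, h1 with
    | [], _, _, h1 => exact ⟨[g], by simp, by simpa using hu.1, h1⟩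
    | [g'], _, ht0, h1 =>
      simp only [List.mem_cons, List.not_mem_nil, or_false] at ht0
      have h2 : ∃ t : List (Fin 4), t.length ≤ 1 ∧ (0 : Fin 4) ∉ t ∧ Eqv [g, g'] t := by
        have hgg : ∀ g g' : Fin 4, ¬ (0 = g) → ¬ (0 = g') →
          (g = g') ∨ (g = 1 ∧ g' = 2) ∨ (g = 2 ∧ g' = 1) ∨ (g = 1 ∧ g' = 3) ∨ (g = 3 ∧ g' = 1) ∨
            (g = 2 ∧ g' = 3) ∨ (g = 3 ∧ g' = 2) := by decide
        rcases hgg g g' hu.1 ht0 with h | ⟨h, h'⟩ | ⟨h, h'⟩ | ⟨h, h'⟩ | ⟨h, h'⟩ | ⟨h, h'⟩ | ⟨h, h'⟩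
        · subst h
          exact ⟨[], by simp, by simp, fun X f hf => by simp [hf.sq]⟩
        · subst h h'; exact ⟨[3], by simp, by decide, fun X f hf => by simp [hf.klein]⟩
        · subst h h'; exact ⟨[3], by simp, by decide, fun X f hf => by simp [hf.comm]⟩
        · subst h h'; exact ⟨[2], by simp, by decide, fun X f hf => by simp [hf.m13]⟩
        · subst h h'; exact ⟨[2], by simp, by decide, fun X f hf => by simp [hf.m31]⟩
        · subst h h'; exact ⟨[1], by simp, by decide, fun X f hf => by simp [hf.m23]⟩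
        · subst h h'; exact ⟨[1], by simp, by decide, fun X f hf => by simp [hf.m32]⟩
      obtain ⟨t, h3, h4, h5⟩ := h2
      exact ⟨t, h3, h4, h1.trans' h5⟩
    | _ :: _ :: _, ht, _, _ => simp at ht

theorem Small.sec {u : List (Fin 4)} (hu : Small u) (y : Fin 3) (x : Bool) : Small (sec y x u) := by
  obtain ⟨t, ht, htu⟩ := hu
  refine ⟨_, ?_, htu.sec y x⟩
  exact (sec_len y x t).trans ((List.length_filter_le _ _).trans ht)

def EvS : ℕ → List (Fin 4) → Prop
  | 0, u => Small u
  | n + 1, u => ∀ y x, EvS n (sec y x u)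

theorem EvS.succ {n : ℕ} : ∀ {u : List (Fin 4)}, EvS n u → EvS (n + 1) u := by
  induction n with
  | zero => exact fun h y x => h.sec y x
  | succ n ih => exact fun h y x => ih (h y x)

theorem EvS.mono {n m : ℕ} {u : List (Fin 4)} (h : EvS n u) (hnm : n ≤ m) : EvS m u := by
  induction m, hnm using Nat.le_induction with
  | base => exact h
  | succ m _ ih => exact ih.succ

theorem exists_EvS (L : ℕ) : ∀ u : List (Fin 4), u.length ≤ L → ∃ n, EvS n u := by
  induction L with
  | zero =>
    intro u hu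
    exact ⟨0, u, by omega, Eqv.rfl' _⟩
  | succ L ih =>
    intro u hu
    by_cases h0 : (0 : Fin 4) ∈ u
    · have hlen : ∀ y x, (sec y x u).length ≤ L := by
        intro y x
        have h1 := sec_len y x u
        have h2 : (u.filter (· ≠ 0)).length < u.length := by
          apply List.length_filter_lt_length_iff_exists.mpr
          exact ⟨0, h0, by simp⟩
        omega
      choose n hn using fun (y : Fin 3) (x : Bool) => ih _ (hlen y x)
      refine ⟨(Finset.univ.sup fun q : Fin 3 × Bool => n q.1 q.2) + 1, fun y x => ?_⟩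
      exact (hn y x).mono (Finset.le_sup (f := fun q : Fin 3 × Bool => n q.1 q.2) (Finset.mem_univ (y, x)))
    · obtain ⟨t, ht, -, htu⟩ := small_of_noa u h0
      exact ⟨0, t, ht, htu⟩

def EvT : ℕ → List (Fin 4) → Prop
  | 0, u => Eqv u []
  | n + 1, u => (∀ x, par u x = x) ∧ ∀ y x, EvT n (sec y x u)

/-- the levels -/
def lev (X₀ : Type) (f₀ : Fin 4 → Equiv.Perm X₀) : ℕ → Σ X : Type, (Fin 4 → Equiv.Perm X)
  | 0 => ⟨X₀, f₀⟩
  | n + 1 => ⟨Bool × (lev X₀ f₀ n).1, Ind 0 (lev X₀ f₀ n).2⟩

theorem lev_gam {X₀ : Type} {f₀ : Fin 4 → Equiv.Perm X₀} (h : IsGam f₀) (n : ℕ) : IsGam (lev X₀ f₀ n).2 := by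
  induction n with
  | zero => exact h
  | succ n ih => exact Ind_gam 0 ih

theorem EvT.lev {X₀ : Type} {f₀ : Fin 4 → Equiv.Perm X₀} (h : IsGam f₀) (n : ℕ) :
    ∀ u : List (Fin 4), EvT n u → val (lev X₀ f₀ n).2 u = 1 := by
  induction n with
  | zero => exact fun u hu => hu _ _ h
  | succ n ih =>
    intro u hu
    ext ⟨x, p⟩ : 1
    show val (Ind 0 (Pool.Agent.H14.UnivGrig.lev X₀ f₀ n).2) u (x, p) = (x, p)
    rw [val_Ind, hu.1 x, ih _ (hu.2 0 x)]
    rfl

end Pool.Agent.H14.UnivGrig
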