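import Mathlib
import Pool.Agent.H14.UG1

namespace Pool.Agent.H14.UnivGrig

open scoped commutatorElement

/-- shift -/
def sh {α : Type} (ω : ℕ → α) : ℕ → α := fun n => ω (n + 1)

def consS (x : Bool) (v : ℕ → Bool) : ℕ → Bool
  | 0 => x
  | n + 1 => v n

def eS : (ℕ → Bool) ≃ Bool × (ℕ → Bool) where
  toFun v := (v 0, sh v)
  invFun q := consS q.1 q.2
  left_inv v := by ext n; cases n <;> rfl
  right_inv q := rfl

open scoped Classical in
noncomputable def act (ω : ℕ → Fin 3) (g : Fin 4) (v : ℕ → Bool) : ℕ → Bool :=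
  if g = 0 then Function.update v 0 (!v 0)
  else fun m =>
    if 0 < m ∧ v (m - 1) = false ∧ (∀ j < m - 1, v j = true) ∧
      (ω (m - 1)).val + g.val ≠ 3
    then !v m else v m

theorem act_zero (ω : ℕ → Fin 3) (x : Bool) (v : ℕ → Bool) : act ω 0 (consS x v) = consS (!x) v := by
  ext n
  cases n <;> simp [act, consS, Function.update]

theorem act_true (ω : ℕ → Fin 3) {g : Fin 4} (hg : g ≠ 0) (v : ℕ → Bool) :
    act ω g (consS true v) = consS true (act (sh ω) g v) := by
  ext n
  simp only [act, if_neg hg]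
  match n with
  | 0 => simp [consS]
  | 1 => simp [consS]
  | n + 2 =>
    have h1 : (∀ j < n + 2 - 1, consS true v j = true) ↔ ∀ j < n, v j = true := by
      constructor
      · intro h j hj
        have := h (j + 1) (by omega)
        simpa [consS] using this
      · intro h j hj
        cases j with
        | zero => rfl
        | succ j => exact h j (by omega)
    simp only [h1]
    simp [consS, sh]

theorem act_false (ω : ℕ → Fin 3) {g : Fin 4} (hg : g ≠ 0) (v : ℕ → Bool) :
    act ω g (consS false v) = consS false (if (ω 0).val + g.val ≠ 3 then act (sh ω) 0 v else v) := by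
  ext n
  simp only [act, if_neg hg, if_true]
  match n with
  | 0 => simp [consS]
  | 1 =>
    simp only [consS]
    by_cases h : (ω 0).val + g.val ≠ 3
    · simp [h, Function.update]
    · simp [h]
  | n + 2 =>
    have h1 : ¬ (∀ j < n + 2 - 1, consS false v j = true) := by
      intro h
      have := h 0 (by omega)
      simp [consS] at this
    simp only [h1, false_and, and_false, if_false]
    by_cases h : (ω 0).val + g.val ≠ 3
    · simp [h, Function.update, consS]
    · simp [h, consS]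

theorem cons_eta (v : ℕ → Bool) : v = consS (v 0) (sh v) := by
  ext n; cases n <;> rfl

theorem act_invol (g : Fin 4) : ∀ (m : ℕ) (ω : ℕ → Fin 3) (v : ℕ → Bool), act ω g (act ω g v) m = v m := by
  have h0 : ∀ (ω : ℕ → Fin 3) (v : ℕ → Bool), act ω 0 (act ω 0 v) = v := by
    intro ω v
    rw [cons_eta v, act_zero, act_zero, Bool.not_not]
  by_cases hg : g = 0
  · subst hg
    intro m ω v
    rw [h0]
  intro m
  induction m with
  | zero =>
    intro ω v
    rw [cons_eta v]
    cases v 0
    · rw [act_false ω hg, act_false ω hg]; rfl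
    · rw [act_true ω hg, act_true ω hg]; rfl
  | succ m ih =>
    intro ω v
    rw [cons_eta v]
    cases v 0
    · rw [act_false ω hg, act_false ω hg]
      by_cases h : (ω 0).val + g.val ≠ 3
      · simp only [if_pos h, h0]
      · simp only [if_neg h]
    · rw [act_true ω hg, act_true ω hg]
      show act (sh ω) g (act (sh ω) g (sh v)) m = sh v m
      rw [ih]

theorem act_klein : ∀ (m : ℕ) (ω : ℕ → Fin 3) (v : ℕ → Bool), act ω 1 (act ω 2 v) m = act ω 3 v m := by
  intro m
  induction m with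
  | zero =>
    intro ω v
    rw [cons_eta v]
    cases v 0
    · rw [act_false ω (by decide), act_false ω (by decide), act_false ω (by decide)]; rfl
    · rw [act_true ω (by decide), act_true ω (by decide), act_true ω (by decide)]; rfl
  | succ m ih =>
    intro ω v
    rw [cons_eta v]
    cases v 0
    · rw [act_false ω (by decide), act_false ω (by decide), act_false ω (by decide)]
      have h0 : act (sh ω) 0 (act (sh ω) 0 (sh v)) = sh v := by
        ext n; exact act_invol 0 n _ _
      have h3 : ω 0 = 0 ∨ ω 0 = 1 ∨ ω 0 = 2 := by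
        generalize ω 0 = t
        revert t; decide
      rcases h3 with h | h | h <;> simp [h, h0]
    · rw [act_true ω (by decide), act_true ω (by decide), act_true ω (by decide)]
      show act (sh ω) 1 (act (sh ω) 2 (sh v)) m = act (sh ω) 3 (sh v) m
      rw [ih]

noncomputable def gen (ω : ℕ → Fin 3) (g : Fin 4) : Equiv.Perm (ℕ → Bool) :=
  ⟨act ω g, act ω g, fun v => funext fun m => act_invol g m ω v, fun v => funext fun m => act_invol g m ω v⟩

theorem gen_gam (ω : ℕ → Fin 3) : IsGam (gen ω) where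
  sq g := by
    ext v m
    show act ω g (act ω g v) m = v m
    exact act_invol g m ω v
  klein := by
    ext v m
    show act ω 1 (act ω 2 v) m = act ω 3 v m
    exact act_klein m ω v

/-- conjugation hom -/
noncomputable def cj : Equiv.Perm (Bool × (ℕ → Bool)) →* Equiv.Perm (ℕ → Bool) :=
  (eS.symm.permCongrHom).toMonoidHom

theorem cj_apply (P : Equiv.Perm (Bool × (ℕ → Bool))) (v : ℕ → Bool) : cj P v = eS.symm (P (eS v)) := rfl

theorem gen_eq (ω : ℕ → Fin 3) (g : Fin 4) : gen ω g = cj (Ind (ω 0) (gen (sh ω)) g) := by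
  ext v : 1
  rw [cj_apply]
  show act ω g v = _
  conv_lhs => rw [cons_eta v]
  show _ = eS.symm (Ind (ω 0) (gen (sh ω)) g (v 0, sh v))
  by_cases hg : g = 0
  · subst hg
    rw [act_zero, Ind_zero]; rfl
  · cases v 0
    · rw [act_false ω hg, Ind_false _ _ hg]; rfl
    · rw [act_true ω hg, Ind_true _ _ hg]; rfl

theorem val_gen (ω : ℕ → Fin 3) (u : List (Fin 4)) : val (gen ω) u = cj (val (Ind (ω 0) (gen (sh ω))) u) := by
  induction u with
  | nil => simp
  | cons g u ih => rw [val_cons, val_cons, ih, map_mul, gen_eq]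

theorem lift_gen (ω : ℕ → Fin 3) (w : FreeGroup (Fin 4)) :
    FreeGroup.lift (gen ω) w = cj (FreeGroup.lift (Ind (ω 0) (gen (sh ω))) w) := by
  have : FreeGroup.lift (gen ω) = cj.comp (FreeGroup.lift (Ind (ω 0) (gen (sh ω)))) := by
    ext g : 1
    simp [gen_eq ω g]
  rw [this]; rfl

theorem val_gen_apply (ω : ℕ → Fin 3) (u : List (Fin 4)) (x : Bool) (v : ℕ → Bool) :
    val (gen ω) u (consS x v) = consS (par u x) (val (gen (sh ω)) (sec (ω 0) x u) v) := by
  rw [val_gen, cj_apply]
  show eS.symm (val (Ind (ω 0) (gen (sh ω))) u (x, v)) = _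
  rw [val_Ind]
  rfl

def Triv (u : List (Fin 4)) : Prop := ∀ ω, val (gen ω) u = 1

theorem Triv.par {u : List (Fin 4)} (h : Triv u) (x : Bool) : par u x = x := by
  have h1 := val_gen_apply (fun _ => 0) u x (fun _ => false)
  rw [h] at h1
  have := congrFun h1 0
  simpa [consS] using this.symm

theorem Triv.sec {u : List (Fin 4)} (h : Triv u) (y : Fin 3) (x : Bool) : Triv (sec y x u) := by
  intro ω
  ext v n
  let ω' : ℕ → Fin 3 := fun m => match m with
    | 0 => y
    | m + 1 => ω m
  have h1 := val_gen_apply ω' u x v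
  rw [h] at h1
  have h2 : sh ω' = ω := rfl
  have := congrFun h1 (n + 1)
  rw [h2] at this
  simp only [consS, Equiv.Perm.coe_one, id_eq] at this
  rw [Equiv.Perm.coe_one, id_eq, this]

theorem Triv.eqv {u v : List (Fin 4)} (h : Triv u) (huv : Eqv u v) : Triv v := fun ω => by
  rw [← huv _ _ (gen_gam ω)]; exact h ω

theorem not_triv (g : Fin 4) : ¬ Triv [g] := by
  intro h
  by_cases hg : g = 0
  · subst hg
    have h1 := h (fun _ => 0)
    have h2 := congrArg (fun t : Equiv.Perm (ℕ → Bool) => t (consS false (fun _ => false)) 0) h1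
    simp only [val_cons, val_nil, mul_one] at h2
    have h3 : gen (fun _ => 0) 0 (consS false (fun _ => false)) = consS (!false) (fun _ => false) :=
      act_zero (fun _ => 0) _ _
    rw [h3] at h2
    simp [consS] at h2
  · obtain ⟨y, hy⟩ : ∃ y : Fin 3, y.val + g.val ≠ 3 := by
      by_cases h : (0 : Fin 3).val + g.val ≠ 3
      · exact ⟨0, h⟩
      · refine ⟨1, ?_⟩
        push Not at h
        have : (1 : Fin 3).val = 1 := rfl
        have h0 : (0 : Fin 3).val = 0 := rfl
        omega
    have h1 := h (fun _ => y)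
    have h2 := congrArg (fun t : Equiv.Perm (ℕ → Bool) => t (consS false (consS false fun _ => false)) 1) h1
    simp only [val_cons, val_nil, mul_one] at h2
    have h3 : gen (fun _ => y) g (consS false (consS false fun _ => false)) =
      consS false (if y.val + g.val ≠ 3 then act (sh fun _ => y) 0 (consS false fun _ => false)
        else (consS false fun _ => false)) := act_false (fun _ => y) hg _
    rw [h3, if_pos hy, act_zero] at h2
    simp [consS] at h2

theorem Triv.small {u : List (Fin 4)} (h : Triv u) (hs : Small u) : Eqv u [] := by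
  obtain ⟨t, ht, htu⟩ := hs
  match t, ht, htu with
  | [], _, htu => exact htu
  | [g], _, htu => exact absurd (h.eqv htu) (not_triv g)
  | _ :: _ :: _, ht, _ => simp at ht

theorem Triv.evT {n : ℕ} : ∀ {u : List (Fin 4)}, Triv u → EvS n u → EvT n u := by
  induction n with
  | zero => exact fun h hs => h.small hs
  | succ n ih => exact fun h hs => ⟨h.par, fun y x => ih (h.sec y x) (hs y x)⟩

/-- positive word of an element -/
def pw (w : FreeGroup (Fin 4)) : List (Fin 4) := (FreeGroup.toWord w).map Prod.fst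

theorem lift_eq_val {X : Type} {f : Fin 4 → Equiv.Perm X} (hf : IsGam f) (w : FreeGroup (Fin 4)) :
    FreeGroup.lift f w = val f (pw w) := by
  conv_lhs => rw [← FreeGroup.mk_toWord (x := w)]
  rw [FreeGroup.lift_mk, pw, val, List.map_map]
  congr 1
  apply List.map_congr_left
  intro p _
  cases h : p.2 <;> simp [hf.inv]

theorem foldr_eq (ω : ℕ → Fin 3) (L : List (Fin 4 × Bool)) :
    L.foldr (fun p f => act ω p.1 ∘ f) (id : (ℕ → Bool) → (ℕ → Bool)) = ⇑(val (gen ω) (L.map Prod.fst)) := by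
  induction L with
  | nil => rfl
  | cons p L ih =>
    rw [List.foldr_cons, ih, List.map_cons, val_cons]
    rfl

theorem triv_iff (w : FreeGroup (Fin 4)) : Triv (pw w) ↔ ∀ ω, FreeGroup.lift (gen ω) w = 1 := by
  constructor
  · intro h ω; rw [lift_eq_val (gen_gam ω)]; exact h ω
  · intro h ω; rw [← lift_eq_val (gen_gam ω)]; exact h ω

/-- contraction: elements of `N` are trivial in all high levels -/
theorem eventually {X₀ : Type} {f₀ : Fin 4 → Equiv.Perm X₀} (hf : IsGam f₀) (w : FreeGroup (Fin 4))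
    (hw : ∀ ω, FreeGroup.lift (gen ω) w = 1) :
    ∃ n₀, ∀ n, n₀ ≤ n → FreeGroup.lift (lev X₀ f₀ n).2 w = 1 := by
  have h1 := (triv_iff w).mpr hw
  obtain ⟨n₀, hn₀⟩ := exists_EvS _ (pw w) le_rfl
  refine ⟨n₀, fun n hn => ?_⟩
  rw [lift_eq_val (lev_gam hf n)]
  exact EvT.lev hf n _ (h1.evT (hn₀.mono hn))

/-! ### lifting -/

def tau₀ (g : Fin 4) : FreeGroup (Fin 4) := if g = 0 then .of 0 * .of 1 * .of 0 else .of g

def tau : FreeGroup (Fin 4) →* FreeGroup (Fin 4) := FreeGroup.lift tau₀

def ht {X : Type} (y : Fin 3) (f : Fin 4 → Equiv.Perm X) (g : Fin 4) : Equiv.Perm X :=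
  if g = 0 then (if y.val + (1 : Fin 4).val ≠ 3 then f 0 else 1) else f g

def hf {X : Type} (y : Fin 3) (f : Fin 4 → Equiv.Perm X) (g : Fin 4) : Equiv.Perm X :=
  if g = 0 then f 1 else (if y.val + g.val ≠ 3 then f 0 else 1)

theorem hom_fix {X : Type} (F : FreeGroup (Fin 4) →* Equiv.Perm (Bool × X)) (H : FreeGroup (Fin 4) →* Equiv.Perm X)
    (x : Bool) (h : ∀ g p, F (.of g) (x, p) = (x, H (.of g) p)) (w : FreeGroup (Fin 4)) :
    ∀ p, F w (x, p) = (x, H w p) := by
  induction w using FreeGroup.induction_on with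
  | C1 => simp
  | of g => exact h g
  | inv_of g _ =>
    intro p
    rw [map_inv, map_inv, Equiv.Perm.inv_eq_iff_eq, h]
    simp
  | mul a b ha hb =>
    intro p
    rw [map_mul, map_mul, Equiv.Perm.mul_apply, Equiv.Perm.mul_apply, hb, ha]

theorem tau_true {X : Type} (y : Fin 3) (f : Fin 4 → Equiv.Perm X) (w : FreeGroup (Fin 4)) (p : X) :
    FreeGroup.lift (Ind y f) (tau w) (true, p) = (true, FreeGroup.lift (ht y f) w p) := by
  refine hom_fix ((FreeGroup.lift (Ind y f)).comp tau) (FreeGroup.lift (ht y f)) true (fun g p => ?_) w p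
  simp only [MonoidHom.comp_apply, tau, FreeGroup.lift_apply_of]
  by_cases hg : g = 0
  · subst hg
    simp only [tau₀, if_true, map_mul, FreeGroup.lift_apply_of, Equiv.Perm.mul_apply, Ind_zero, ht]
    rw [Bool.not_true, Ind_false y f (by decide), Ind_zero]
    split_ifs <;> rfl
  · simp only [tau₀, if_neg hg, FreeGroup.lift_apply_of, ht]
    rw [Ind_true y f hg]

theorem tau_false {X : Type} (y : Fin 3) (f : Fin 4 → Equiv.Perm X) (w : FreeGroup (Fin 4)) (p : X) :
    FreeGroup.lift (Ind y f) (tau w) (false, p) = (false, FreeGroup.lift (hf y f) w p) := by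
  refine hom_fix ((FreeGroup.lift (Ind y f)).comp tau) (FreeGroup.lift (hf y f)) false (fun g p => ?_) w p
  simp only [MonoidHom.comp_apply, tau, FreeGroup.lift_apply_of]
  by_cases hg : g = 0
  · subst hg
    simp only [tau₀, if_true, map_mul, FreeGroup.lift_apply_of, Equiv.Perm.mul_apply, Ind_zero, hf]
    rw [Bool.not_false, Ind_true y f (by decide), Ind_zero]
    rfl
  · simp only [tau₀, if_neg hg, FreeGroup.lift_apply_of, hf]
    rw [Ind_false y f hg]
    split_ifs <;> rfl

section dih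

variable {P : Type} [Group P]

theorem conj_R {A B : P} (hA : A * A = 1) (hB : B * B = 1) (i : ℤ) : A * (A * B) ^ i = (A * B) ^ (-i) * A := by
  have hA' : A⁻¹ = A := inv_eq_of_mul_eq_one_left hA
  have hB' : B⁻¹ = B := inv_eq_of_mul_eq_one_left hB
  have h1 : A * (A * B) * A⁻¹ = (A * B)⁻¹ := by
    rw [mul_inv_rev, hA', hB', ← mul_assoc, hA, one_mul]
  have h2 : A * (A * B) ^ i * A⁻¹ = (A * B) ^ (-i) := by
    rw [← conj_zpow, h1, inv_zpow, zpow_neg]
  rw [← h2]; group

theorem dih {A B : P} (hA : A * A = 1) (hB : B * B = 1) (H : FreeGroup (Fin 4) →* P)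
    (hH : ∀ g, ∃ i : ℤ, H (.of g) = (A * B) ^ i ∨ H (.of g) = A * (A * B) ^ i)
    {w : FreeGroup (Fin 4)} (hw : w ∈ derivedSeries (FreeGroup (Fin 4)) 2) : H w = 1 := by
  have hA' : A⁻¹ = A := inv_eq_of_mul_eq_one_left hA
  set R := A * B with hR
  have hc : ∀ i : ℤ, A * R ^ i = R ^ (-i) * A := conj_R hA hB
  have hAA : ∀ x : P, A * (A * x) = x := fun x => by rw [← mul_assoc, hA, one_mul]
  have hinv : ∀ x : P, (∃ i : ℤ, x = R ^ i ∨ x = A * R ^ i) → ∃ i : ℤ, x⁻¹ = R ^ i ∨ x⁻¹ = A * R ^ i := by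
    rintro x ⟨i, rfl | rfl⟩
    · exact ⟨-i, Or.inl (by rw [zpow_neg])⟩
    · refine ⟨i, Or.inr ?_⟩
      rw [mul_inv_rev, hA', ← zpow_neg, hc]
  have hmul : ∀ x y : P, (∃ i : ℤ, x = R ^ i ∨ x = A * R ^ i) → (∃ i : ℤ, y = R ^ i ∨ y = A * R ^ i) →
      ∃ i : ℤ, x * y = R ^ i ∨ x * y = A * R ^ i := by
    rintro x y ⟨i, rfl | rfl⟩ ⟨j, rfl | rfl⟩
    · exact ⟨i + j, Or.inl (by rw [zpow_add])⟩
    · refine ⟨-i + j, Or.inr ?_⟩
      have := hc (-i)
      rw [neg_neg] at this
      rw [zpow_add, ← mul_assoc, ← mul_assoc, this]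
    · exact ⟨i + j, Or.inr (by rw [zpow_add, mul_assoc])⟩
    · refine ⟨-i + j, Or.inl ?_⟩
      rw [hc i, mul_assoc, hAA, zpow_add]
  have hD : ∀ u : FreeGroup (Fin 4), ∃ i : ℤ, H u = R ^ i ∨ H u = A * R ^ i := by
    intro u
    induction u using FreeGroup.induction_on with
    | C1 => exact ⟨0, Or.inl (by simp)⟩
    | of g => exact hH g
    | inv_of g _ => rw [map_inv]; exact hinv _ (hH g)
    | mul a b ha hb => rw [map_mul]; exact hmul _ _ ha hb
  have hcomm : ∀ u v : FreeGroup (Fin 4), H ⁅u, v⁆ ∈ Subgroup.zpowers R := by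
    intro u v
    rw [map_commutatorElement, commutatorElement_def]
    obtain ⟨i, hi⟩ := hD u
    obtain ⟨j, hj⟩ := hD v
    have hAR : ∀ i j : ℤ, A * R ^ i * A * R ^ j = R ^ (-i + j) := fun i j => by
      rw [hc i, mul_assoc (R ^ (-i)), hA, mul_one, zpow_add]
    rcases hi with hi | hi <;> rcases hj with hj | hj <;> rw [hi, hj]
    · refine ⟨0, ?_⟩
      simp only [zpow_zero]
      rw [← zpow_add, ← zpow_neg, ← zpow_neg, ← zpow_add, ← zpow_add]
      simp
    · refine ⟨2 * i, ?_⟩
      simp only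
      rw [mul_inv_rev, hA', ← zpow_neg, ← zpow_neg]
      have h2 : R ^ i * (A * R ^ j) * R ^ (-i) * (R ^ (-j) * A) = R ^ i * (A * R ^ (-i)) * A := by
        have : R ^ j * R ^ (-i) * R ^ (-j) = R ^ (-i) := by
          rw [← zpow_add, ← zpow_add]; congr 1; ring
        calc R ^ i * (A * R ^ j) * R ^ (-i) * (R ^ (-j) * A)
            = R ^ i * (A * (R ^ j * R ^ (-i) * R ^ (-j))) * A := by group
          _ = _ := by rw [this]
      rw [h2, hc (-i), neg_neg, mul_assoc, mul_assoc, hA, mul_one, ← zpow_add]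
      congr 1; ring
    · refine ⟨-2 * j, ?_⟩
      simp only
      rw [mul_inv_rev, hA', ← zpow_neg, ← zpow_neg]
      have h2 : A * R ^ i * R ^ j * (R ^ (-i) * A) * R ^ (-j) = A * R ^ j * A * R ^ (-j) := by
        have : R ^ i * R ^ j * R ^ (-i) = R ^ j := by
          rw [← zpow_add, ← zpow_add]; congr 1; ring
        calc A * R ^ i * R ^ j * (R ^ (-i) * A) * R ^ (-j)
            = A * (R ^ i * R ^ j * R ^ (-i)) * A * R ^ (-j) := by group
          _ = _ := by rw [this]
      rw [h2, hAR]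
      congr 1; ring
    · refine ⟨2 * j - 2 * i, ?_⟩
      simp only
      rw [mul_inv_rev, mul_inv_rev, hA', ← zpow_neg, ← zpow_neg]
      have h2 : A * R ^ i * (A * R ^ j) * (R ^ (-i) * A) * (R ^ (-j) * A) =
          (A * R ^ i * A * R ^ j) * R ^ (-i) * (A * R ^ (-j)) * A := by group
      rw [h2, hAR, hc (-j), neg_neg, ← zpow_add, ← mul_assoc, ← zpow_add, mul_assoc, hA, mul_one]
      congr 1; ring
  have h1 : ⁅(⊤ : Subgroup (FreeGroup (Fin 4))), ⊤⁆ ≤ (Subgroup.zpowers R).comap H := by
    rw [Subgroup.commutator_le]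
    intro u _ v _
    exact hcomm u v
  have h2 : derivedSeries (FreeGroup (Fin 4)) 2 ≤ H.ker := by
    show ⁅⁅(⊤ : Subgroup (FreeGroup (Fin 4))), ⊤⁆, ⁅(⊤ : Subgroup (FreeGroup (Fin 4))), ⊤⁆⁆ ≤ H.ker
    rw [Subgroup.commutator_le]
    intro u hu v hv
    rw [MonoidHom.mem_ker, map_commutatorElement, commutatorElement_eq_one_iff_mul_comm]
    obtain ⟨i, hi⟩ := h1 hu
    obtain ⟨j, hj⟩ := h1 hv
    simp only at hi hj
    rw [← hi, ← hj, ← zpow_add, ← zpow_add, add_comm]
  exact h2 hw

end dih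

/-- the lift preserves being trivial in every action, for elements of the second derived subgroup -/
theorem tau_triv {w : FreeGroup (Fin 4)} (hw : w ∈ derivedSeries (FreeGroup (Fin 4)) 2)
    (h : ∀ ω, FreeGroup.lift (gen ω) w = 1) (ω : ℕ → Fin 3) : FreeGroup.lift (gen ω) (tau w) = 1 := by
  rw [lift_gen]
  have hg := gen_gam (sh ω)
  have h1 : FreeGroup.lift (Ind (ω 0) (gen (sh ω))) (tau w) = 1 := by
    ext ⟨x, p⟩ : 1
    cases x
    · rw [tau_false]
      have : FreeGroup.lift (hf (ω 0) (gen (sh ω))) w = 1 := by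
        apply dih (hg.sq 0) (hg.sq 1) _ _ hw
        intro g
        rw [FreeGroup.lift_apply_of, hf]
        split_ifs
        · exact ⟨1, Or.inr (by rw [zpow_one, ← mul_assoc, hg.sq, one_mul])⟩
        · exact ⟨0, Or.inr (by simp)⟩
        · exact ⟨0, Or.inl (by simp)⟩
      rw [this]; rfl
    · rw [tau_true]
      have : FreeGroup.lift (ht (ω 0) (gen (sh ω))) w = 1 := by
        by_cases hy : (ω 0).val + (1 : Fin 4).val ≠ 3
        · have : ht (ω 0) (gen (sh ω)) = gen (sh ω) := by
            funext g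
            by_cases hg : g = 0
            · subst hg; simp only [ht, if_true, if_pos hy]
            · simp only [ht, if_neg hg]
          rw [this]; exact h _
        · apply dih (hg.sq 1) (hg.sq 2) _ _ hw
          intro g
          rw [FreeGroup.lift_apply_of, ht]
          by_cases h0 : g = 0
          · rw [if_pos h0, if_neg hy]
            exact ⟨0, Or.inl (by simp)⟩
          · rw [if_neg h0]
            have h3 : ∀ g : Fin 4, g ≠ 0 → g = 1 ∨ g = 2 ∨ g = 3 := by decide
            rcases h3 g h0 with h | h | h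
            · subst h; exact ⟨0, Or.inr (by simp)⟩
            · subst h; exact ⟨1, Or.inr (by rw [zpow_one, ← mul_assoc, hg.sq, one_mul])⟩
            · subst h; exact ⟨1, Or.inl (by rw [zpow_one, hg.klein])⟩
      rw [this]; rfl
  rw [h1, map_one]

theorem tau_derived {w : FreeGroup (Fin 4)} (hw : w ∈ derivedSeries (FreeGroup (Fin 4)) 2) :
    tau w ∈ derivedSeries (FreeGroup (Fin 4)) 2 :=
  map_derivedSeries_le_derivedSeries tau 2 (Subgroup.mem_map_of_mem tau hw)

theorem lev_tau {X₀ : Type} {f₀ : Fin 4 → Equiv.Perm X₀} (w : FreeGroup (Fin 4)) (n : ℕ)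
    (h : FreeGroup.lift (lev X₀ f₀ n).2 (tau^[n] w) = 1) : FreeGroup.lift f₀ w = 1 := by
  induction n with
  | zero => exact h
  | succ n ih =>
    apply ih
    rw [Function.iterate_succ_apply'] at h
    have h' : FreeGroup.lift (Ind 0 (lev X₀ f₀ n).2) (tau (tau^[n] w)) = 1 := h
    ext p : 1
    have h1 := tau_true 0 (lev X₀ f₀ n).2 (tau^[n] w) p
    rw [h'] at h1
    have h2 : ht 0 (lev X₀ f₀ n).2 = (lev X₀ f₀ n).2 := by
      funext g
      by_cases hg : g = 0
      · subst hg; simp [ht]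
      · simp only [ht, if_neg hg]
    rw [h2] at h1
    have := congrArg Prod.snd h1
    simpa using this.symm

/-! ### the element k -/

def X0 : FreeGroup (Fin 4) := (.of 0 * .of 3) ^ 4
def X1 : FreeGroup (Fin 4) := (.of 0 * .of 2) ^ 4
def X2 : FreeGroup (Fin 4) := (.of 0 * .of 1) ^ 4
def kk : FreeGroup (Fin 4) := ⁅⁅X0, X1⁆, ⁅X0, X2⁆⁆

theorem kk_mem : kk ∈ derivedSeries (FreeGroup (Fin 4)) 2 := by
  show kk ∈ ⁅⁅(⊤ : Subgroup (FreeGroup (Fin 4))), ⊤⁆, ⁅(⊤ : Subgroup (FreeGroup (Fin 4))), ⊤⁆⁆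
  exact Subgroup.commutator_mem_commutator
    (Subgroup.commutator_mem_commutator (Subgroup.mem_top _) (Subgroup.mem_top _))
    (Subgroup.commutator_mem_commutator (Subgroup.mem_top _) (Subgroup.mem_top _))

theorem Ind_pow {X : Type} {f : Fin 4 → Equiv.Perm X} (hf : IsGam f) (y : Fin 3) (g : Fin 4) (hg : g ≠ 0)
    (hy : y.val + g.val = 3) : (Ind y f 0 * Ind y f g) ^ 4 = 1 := by
  have hsq : ∀ p, f g (f g p) = p := fun p => by
    have := congrArg (fun t : Equiv.Perm X => t p) (hf.sq g)
    simpa using this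
  ext ⟨x, p⟩ : 1
  simp only [pow_succ, pow_zero, one_mul, Equiv.Perm.mul_apply]
  cases x <;> simp [Ind_true y f hg, Ind_false y f hg, Ind_zero, hy, hsq]

theorem kk_triv (ω : ℕ → Fin 3) : FreeGroup.lift (gen ω) kk = 1 := by
  rw [lift_gen]
  have hg := gen_gam (sh ω)
  have h1 : FreeGroup.lift (Ind (ω 0) (gen (sh ω))) kk = 1 := by
    rw [kk, map_commutatorElement, map_commutatorElement, map_commutatorElement]
    have h3 : ω 0 = 0 ∨ ω 0 = 1 ∨ ω 0 = 2 := by
      generalize ω 0 = t
      revert t; decide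
    rcases h3 with h | h | h
    · have : FreeGroup.lift (Ind (ω 0) (gen (sh ω))) X0 = 1 := by
        simp only [X0, map_pow, map_mul, FreeGroup.lift_apply_of]
        exact Ind_pow hg _ 3 (by decide) (by rw [h]; rfl)
      rw [this]; simp
    · have : FreeGroup.lift (Ind (ω 0) (gen (sh ω))) X1 = 1 := by
        simp only [X1, map_pow, map_mul, FreeGroup.lift_apply_of]
        exact Ind_pow hg _ 2 (by decide) (by rw [h]; rfl)
      rw [this]; simp
    · have : FreeGroup.lift (Ind (ω 0) (gen (sh ω))) X2 = 1 := by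
        simp only [X2, map_pow, map_mul, FreeGroup.lift_apply_of]
        exact Ind_pow hg _ 1 (by decide) (by rw [h]; rfl)
      rw [this]; simp
  rw [h1, map_one]

/-- a quotient onto a subgroup of S5 -/
def f5 : Fin 4 → Equiv.Perm (Fin 5) := ![Equiv.swap 0 1 * Equiv.swap 2 4, Equiv.swap 0 1 * Equiv.swap 2 3,
  Equiv.swap 0 2 * Equiv.swap 1 3, Equiv.swap 0 3 * Equiv.swap 1 2]

theorem f5_gam : IsGam f5 := ⟨by decide, by decide⟩

theorem f5_kk : FreeGroup.lift f5 kk ≠ 1 := by
  simp only [kk, X0, X1, X2, map_commutatorElement, map_pow, map_mul, FreeGroup.lift_apply_of]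
  decide +kernel

theorem iter_props (n : ℕ) : (tau^[n] kk) ∈ derivedSeries (FreeGroup (Fin 4)) 2 ∧
    ∀ ω, FreeGroup.lift (gen ω) (tau^[n] kk) = 1 := by
  induction n with
  | zero => exact ⟨kk_mem, kk_triv⟩
  | succ n ih =>
    rw [Function.iterate_succ_apply']
    exact ⟨tau_derived ih.1, tau_triv ih.1 ih.2⟩

theorem main (S : Finset (FreeGroup (Fin 4)))
    (hS : (Subgroup.normalClosure (S : Set (FreeGroup (Fin 4))) : Set (FreeGroup (Fin 4))) =
      {w | ∀ ω, FreeGroup.lift (gen ω) w = 1}) : False := by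
  have hmem : ∀ s ∈ S, ∀ ω, FreeGroup.lift (gen ω) s = 1 := by
    intro s hs
    have : s ∈ (Subgroup.normalClosure (S : Set (FreeGroup (Fin 4))) : Set (FreeGroup (Fin 4))) :=
      Subgroup.subset_normalClosure hs
    rw [hS] at this
    exact this
  have hex : ∀ s : FreeGroup (Fin 4), ∃ n₀, s ∈ S → ∀ n, n₀ ≤ n → FreeGroup.lift (lev _ f5 n).2 s = 1 := by
    intro s
    by_cases hs : s ∈ S
    · obtain ⟨n₀, hn₀⟩ := eventually f5_gam s (hmem s hs)
      exact ⟨n₀, fun _ => hn₀⟩
    · exact ⟨0, fun h => absurd h hs⟩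
  choose m hm using hex
  let n := S.sup m
  have hle : Subgroup.normalClosure (S : Set (FreeGroup (Fin 4))) ≤ (FreeGroup.lift (lev _ f5 n).2).ker := by
    apply Subgroup.normalClosure_le_normal
    intro s hs
    exact hm s hs n (Finset.le_sup (f := m) hs)
  have hk : tau^[n] kk ∈ (Subgroup.normalClosure (S : Set (FreeGroup (Fin 4))) : Set (FreeGroup (Fin 4))) := by
    rw [hS]; exact (iter_props n).2
  exact f5_kk (lev_tau kk n (hle hk))

end Pool.Agent.H14.UnivGrig
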