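import Mathlib

set_option autoImplicit false

/-! An 11-vertex perfect, uniquely 3-colourable graph in which every colour class is disconnected
in the graph of omega-critical pairs. -/

namespace H14.UC

def adjm : List ℕ := [590, 53, 411, 1061, 102, 1242, 689, 356, 132, 65, 40]

def adj (u v : Fin 11) : Bool := (adjm.getD u 0).testBit v

def G : SimpleGraph (Fin 11) where
  Adj u v := adj u v = true
  symm := ⟨by
    have h : ∀ u v : Fin 11, adj u v = true → adj v u = true := by decide +kernel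
    exact fun u v => h u v⟩
  loopless := ⟨by
    have h : ∀ u : Fin 11, ¬ adj u u = true := by decide +kernel
    exact fun u => h u⟩

instance : DecidableRel G.Adj := fun u v => inferInstanceAs (Decidable (adj u v = true))

/-- the colour classes -/
def cls : Fin 11 → Fin 3 := ![0, 1, 2, 1, 0, 2, 1, 0, 1, 2, 0]

def col : G.Coloring (Fin 3) := SimpleGraph.Coloring.mk cls (by
  have h : ∀ u v : Fin 11, G.Adj u v → cls u ≠ cls v := by decide +kernel
  exact fun {u v} => h u v)

def tris : List (Fin 11 × Fin 11 × Fin 11) := [(0, 1, 2), (0, 2, 3), (0, 6, 9), (1, 2, 4), (1, 4, 5), (2, 7, 8), (3, 5, 10), (4, 5, 6), (5, 6, 7)]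

/-- maximal triangle-free vertex sets (masks) with one side of a bipartition -/
def MC : List (ℕ × ℕ) := [(363, 74), (686, 36), (700, 152), (828, 280), (878, 548), (939, 650), (953, 664), (1237, 68), (1365, 68), (1379, 1090), (1381, 1092), (1499, 330), (1702, 36), (1717, 548), (1742, 1092), (1756, 664), (1845, 548), (1870, 1540), (1884, 792), (1894, 548), (1947, 778), (1955, 1666), (1969, 800), (2010, 1680)]

theorem tris_ok : ∀ t ∈ tris, G.Adj t.1 t.2.1 ∧ G.Adj t.1 t.2.2 ∧ G.Adj t.2.1 t.2.2 := by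
  decide +kernel

theorem MC_ok : ∀ p ∈ MC, ∀ u v : Fin 11, p.1.testBit u = true → p.1.testBit v = true → G.Adj u v →
    p.2.testBit u ≠ p.2.testBit v := by
  decide +kernel

theorem cover : ∀ m : Fin 2048, (∃ t ∈ tris, (m : ℕ).testBit t.1 = true ∧
    (m : ℕ).testBit t.2.1 = true ∧ (m : ℕ).testBit t.2.2 = true) ∨
    ∃ p ∈ MC, Nat.land (m : ℕ) p.1 = (m : ℕ) := by
  decide +kernel

theorem perfect (S : Finset (Fin 11)) : ∃ K : Finset (Fin 11), K ⊆ S ∧ G.IsClique (K : Set (Fin 11)) ∧
    (G.induce (S : Set (Fin 11))).Colorable K.card := by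
  classical
  set m : ℕ := Nat.ofBits (fun i : Fin 11 => decide (i ∈ S)) with hm
  have hlt : m < 2048 := by
    have := Nat.ofBits_lt_two_pow (fun i : Fin 11 => decide (i ∈ S))
    simpa [hm] using this
  have hbit : ∀ i : Fin 11, m.testBit i = true ↔ i ∈ S := by
    intro i
    rw [hm, Nat.testBit_ofBits_lt _ _ i.2]
    simp
  rcases cover ⟨m, hlt⟩ with ⟨t, ht, h1, h2, h3⟩ | ⟨p, hp, hpm⟩
  · obtain ⟨a1, a2, a3⟩ := tris_ok t ht
    have n1 : t.1 ≠ t.2.1 := a1.ne
    have n2 : t.1 ≠ t.2.2 := a2.ne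
    have n3 : t.2.1 ≠ t.2.2 := a3.ne
    refine ⟨{t.1, t.2.1, t.2.2}, ?_, ?_, ?_⟩
    · intro x hx
      simp only [Finset.mem_insert, Finset.mem_singleton] at hx
      rcases hx with rfl | rfl | rfl
      · exact (hbit _).mp h1
      · exact (hbit _).mp h2
      · exact (hbit _).mp h3
    · intro x hx y hy hxy
      simp only [Finset.coe_insert, Finset.coe_singleton, Set.mem_insert_iff,
        Set.mem_singleton_iff] at hx hy
      rcases hx with rfl | rfl | rfl <;> rcases hy with rfl | rfl | rfl <;>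
        first
          | exact absurd rfl hxy
          | assumption
          | exact SimpleGraph.Adj.symm (by assumption)
    · have hc : ({t.1, t.2.1, t.2.2} : Finset (Fin 11)).card = 3 := by
        rw [Finset.card_eq_three]
        exact ⟨t.1, t.2.1, t.2.2, n1, n2, n3, rfl⟩
      rw [hc]
      exact ⟨col.comp (SimpleGraph.Embedding.induce (S : Set (Fin 11))).toHom⟩
  · have hsub : ∀ i ∈ S, p.1.testBit i = true := by
      intro i hi
      have h1 := (hbit i).mpr hi
      have h2 : (m &&& p.1).testBit i = true := by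
        have : (m &&& p.1) = m := hpm
        rw [this]; exact h1
      rw [Nat.testBit_and, Bool.and_eq_true] at h2
      exact h2.2
    by_cases hE : ∃ u ∈ S, ∃ v ∈ S, G.Adj u v
    · obtain ⟨u, hu, v, hv, huv⟩ := hE
      refine ⟨{u, v}, ?_, ?_, ?_⟩
      · intro x hx
        simp only [Finset.mem_insert, Finset.mem_singleton] at hx
        rcases hx with rfl | rfl
        · exact hu
        · exact hv
      · intro x hx y hy hxy
        simp only [Finset.coe_insert, Finset.coe_singleton, Set.mem_insert_iff,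
          Set.mem_singleton_iff] at hx hy
        rcases hx with rfl | rfl <;> rcases hy with rfl | rfl
        · exact absurd rfl hxy
        · exact huv
        · exact huv.symm
        · exact absurd rfl hxy
      · rw [Finset.card_pair huv.ne]
        refine ⟨SimpleGraph.Coloring.mk
          (fun x : (S : Set (Fin 11)) => if p.2.testBit ((x : Fin 11) : ℕ) then (1 : Fin 2) else 0) ?_⟩
        rintro ⟨x, hx⟩ ⟨y, hy⟩ hxy
        have h1 := MC_ok p hp x y (hsub x hx) (hsub y hy) hxy
        revert h1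
        cases p.2.testBit (x : ℕ) <;> cases p.2.testBit (y : ℕ) <;> simp
    · by_cases hne : S.Nonempty
      · obtain ⟨u, hu⟩ := hne
        refine ⟨{u}, by simpa using hu, by simp, ?_⟩
        rw [Finset.card_singleton]
        refine ⟨SimpleGraph.Coloring.mk (fun _ => 0) ?_⟩
        rintro ⟨x, hx⟩ ⟨y, hy⟩ hxy
        exact absurd ⟨x, hx, y, hy, hxy⟩ hE
      · rw [Finset.not_nonempty_iff_eq_empty] at hne
        subst hne
        refine ⟨∅, by simp, by simp, ?_⟩
        rw [Finset.card_empty]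
        refine ⟨SimpleGraph.Coloring.mk (fun x => absurd x.2 (by simp)) ?_⟩
        rintro ⟨x, hx⟩
        simp at hx

theorem chrom : G.chromaticNumber = ((3 : ℕ) : ℕ∞) := by
  apply le_antisymm
  · exact SimpleGraph.Colorable.chromaticNumber_le ⟨col⟩
  · have h : G.IsClique (({0, 1, 2} : Finset (Fin 11)) : Set (Fin 11)) := by
      have h0 : ∀ x ∈ ({0, 1, 2} : Finset (Fin 11)), ∀ y ∈ ({0, 1, 2} : Finset (Fin 11)), x ≠ y →
          G.Adj x y := by decide +kernel
      intro x hx y hy hxy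
      exact h0 x hx y hy hxy
    have := h.card_le_chromaticNumber
    simpa using this

set_option synthInstance.maxSize 100000 in
theorem search : ∀ a0 : Fin 3, ∀ a1 : Fin 3, (a0 ≠ a1) →
    ∀ a2 : Fin 3, (a0 ≠ a2 ∧ a1 ≠ a2) →
    ∀ a3 : Fin 3, (a0 ≠ a3 ∧ a2 ≠ a3) →
    ∀ a4 : Fin 3, (a1 ≠ a4 ∧ a2 ≠ a4) →
    ∀ a5 : Fin 3, (a1 ≠ a5 ∧ a3 ≠ a5 ∧ a4 ≠ a5) →
    ∀ a6 : Fin 3, (a0 ≠ a6 ∧ a4 ≠ a6 ∧ a5 ≠ a6) →
    ∀ a7 : Fin 3, (a2 ≠ a7 ∧ a5 ≠ a7 ∧ a6 ≠ a7) →
    (a4 = a0 ∧ a7 = a0 ∧ a3 = a1 ∧ a6 = a1 ∧ a5 = a2) := by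
  decide +kernel

theorem third : ∀ a b c d : Fin 3, a ≠ b → a ≠ c → b ≠ c → a ≠ d → b ≠ d → d = c := by
  intro a b c d
  omega

theorem struct (c : G.Coloring (Fin 3)) : c 0 ≠ c 1 ∧ c 0 ≠ c 2 ∧ c 1 ≠ c 2 ∧
    ∀ x : Fin 11, c x = ![c 0, c 1, c 2] (cls x) := by
  have va : ∀ u v : Fin 11, G.Adj u v → c u ≠ c v := fun u v h => c.valid h
  have h01 := va 0 1 (by decide +kernel)
  have h02 := va 0 2 (by decide +kernel)
  have h12 := va 1 2 (by decide +kernel)
  refine ⟨h01, h02, h12, ?_⟩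
  have h := search (c 0) (c 1) (va 0 1 (by decide +kernel)) (c 2) ⟨va 0 2 (by decide +kernel), va 1 2 (by decide +kernel)⟩ (c 3) ⟨va 0 3 (by decide +kernel), va 2 3 (by decide +kernel)⟩ (c 4) ⟨va 1 4 (by decide +kernel), va 2 4 (by decide +kernel)⟩ (c 5) ⟨va 1 5 (by decide +kernel), va 3 5 (by decide +kernel), va 4 5 (by decide +kernel)⟩ (c 6) ⟨va 0 6 (by decide +kernel), va 4 6 (by decide +kernel), va 5 6 (by decide +kernel)⟩ (c 7) ⟨va 2 7 (by decide +kernel), va 5 7 (by decide +kernel), va 6 7 (by decide +kernel)⟩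
  obtain ⟨e4, e7, e3, e6, e5⟩ := h
  have n8a : c 2 ≠ c 8 := va 2 8 (by decide +kernel)
  have n8b : c 0 ≠ c 8 := (e7 ▸ va 7 8 (by decide +kernel))
  have e8 : c 8 = c 1 := third _ _ _ _ h02.symm h12.symm h01 n8a n8b
  have n9a : c 0 ≠ c 9 := va 0 9 (by decide +kernel)
  have n9b : c 1 ≠ c 9 := (e6 ▸ va 6 9 (by decide +kernel))
  have e9 : c 9 = c 2 := third _ _ _ _ h01 h02 h12 n9a n9b
  have n10a : c 1 ≠ c 10 := (e3 ▸ va 3 10 (by decide +kernel))
  have n10b : c 2 ≠ c 10 := (e5 ▸ va 5 10 (by decide +kernel))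
  have e10 : c 10 = c 0 := third _ _ _ _ h12 h01.symm h02.symm n10a n10b

  intro x
  fin_cases x
  · exact rfl
  · exact rfl
  · exact rfl
  · exact e3
  · exact e4
  · exact e5
  · exact e6
  · exact e7
  · exact e8
  · exact e9
  · exact e10

theorem same (c : G.Coloring (Fin 3)) (x y : Fin 11) : c x = c y ↔ cls x = cls y := by
  obtain ⟨h01, h02, h12, hx⟩ := struct c
  have hinj : ∀ i j : Fin 3, ![c 0, c 1, c 2] i = ![c 0, c 1, c 2] j → i = j := by
    intro i j hij
    fin_cases i <;> fin_cases j <;>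
      first
        | rfl
        | exact absurd hij h01
        | exact absurd hij h02
        | exact absurd hij h12
        | exact absurd hij h01.symm
        | exact absurd hij h02.symm
        | exact absurd hij h12.symm
  rw [hx x, hx y]
  exact ⟨fun h => hinj _ _ h, fun h => by rw [h]⟩

/-- in each class, the vertices with `side = true` are separated from the others -/
def side : Fin 11 → Bool := ![false, false, false, false, false, false, false, false, true, true, true]

theorem sep : ∀ x y : Fin 11, cls x = cls y → side x ≠ side y →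
    ∀ u v : Fin 11, G.Adj u v → G.Adj x u → G.Adj x v → G.Adj y u → ¬ G.Adj y v := by
  decide +kernel

theorem both : ∀ i : Fin 3, ∃ x y : Fin 11, cls x = i ∧ cls y = i ∧ side x = false ∧ side y = true := by
  decide +kernel

theorem card_lt_of_crit (x y : Fin 11) (hxy : cls x = cls y) (hs : side x ≠ side y) :
    ¬ ∃ K : Finset (Fin 11), (G ⊔ SimpleGraph.fromEdgeSet {s(x, y)}).IsClique (K : Set (Fin 11)) ∧
      ∀ T : Finset (Fin 11), G.IsClique (T : Set (Fin 11)) → T.card < K.card := by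
  classical
  rintro ⟨K, hK, hT⟩
  have hne : x ≠ y := fun h => hs (by rw [h])
  -- a triangle
  have htri : G.IsClique (({0, 1, 2} : Finset (Fin 11)) : Set (Fin 11)) := by
    have h0 : ∀ x ∈ ({0, 1, 2} : Finset (Fin 11)), ∀ y ∈ ({0, 1, 2} : Finset (Fin 11)), x ≠ y →
        G.Adj x y := by decide +kernel
    intro x hx y hy hxy
    exact h0 x hx y hy hxy
  have h3 : 3 < K.card := by simpa using hT _ htri
  -- adjacency in K outside the pair
  have hadj : ∀ u ∈ K, ∀ v ∈ K, u ≠ v → ¬ (s(u, v) = s(x, y)) → G.Adj u v := by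
    intro u hu v hv huv hp
    have := hK (Finset.mem_coe.mpr hu) (Finset.mem_coe.mpr hv) huv
    rw [SimpleGraph.sup_adj] at this
    rcases this with h | h
    · exact h
    · rw [SimpleGraph.fromEdgeSet_adj] at h
      exact absurd h.1 hp
  have hxK : x ∈ K := by
    by_contra hx
    refine lt_irrefl _ (hT K ?_)
    intro u hu v hv huv
    refine hadj u hu v hv huv ?_
    intro h
    rw [Sym2.eq_iff] at h
    rcases h with ⟨h1, _⟩ | ⟨_, h2⟩
    · exact hx (h1 ▸ hu)
    · exact hx (h2 ▸ hv)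
  have hyK : y ∈ K := by
    by_contra hy
    refine lt_irrefl _ (hT K ?_)
    intro u hu v hv huv
    refine hadj u hu v hv huv ?_
    intro h
    rw [Sym2.eq_iff] at h
    rcases h with ⟨_, h2⟩ | ⟨h1, _⟩
    · exact hy (h2 ▸ hv)
    · exact hy (h1 ▸ hu)
  have hc2 : 1 < ((K.erase x).erase y).card := by
    rw [Finset.card_erase_of_mem (Finset.mem_erase.mpr ⟨hne.symm, hyK⟩),
      Finset.card_erase_of_mem hxK]
    omega
  obtain ⟨u, hu, v, hv, huv⟩ := Finset.one_lt_card.mp hc2
  simp only [Finset.mem_erase] at hu hv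
  obtain ⟨huy, hux, huK⟩ := hu
  obtain ⟨hvy, hvx, hvK⟩ := hv
  have e : ∀ a ∈ K, ∀ b ∈ K, a ≠ b → (b ≠ x ∧ b ≠ y) → G.Adj a b := by
    intro a ha b hb hab hbn
    refine hadj a ha b hb hab ?_
    intro h
    rw [Sym2.eq_iff] at h
    rcases h with ⟨_, h2⟩ | ⟨_, h2⟩
    · exact hbn.2 h2
    · exact hbn.1 h2
  exact sep x y hxy hs u v (e u huK v hvK huv ⟨hvx, hvy⟩) (e x hxK u huK (Ne.symm hux) ⟨hux, huy⟩)
    (e x hxK v hvK (Ne.symm hvx) ⟨hvx, hvy⟩) (e y hyK u huK (Ne.symm huy) ⟨hux, huy⟩)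
    (e y hyK v hvK (Ne.symm hvy) ⟨hvx, hvy⟩)

theorem not_conn (i : Fin 3) :
    ¬ ((SimpleGraph.fromRel (fun x y : Fin 11 => ∃ K : Finset (Fin 11),
          (G ⊔ SimpleGraph.fromEdgeSet {s(x, y)}).IsClique (K : Set (Fin 11)) ∧
          ∀ T : Finset (Fin 11), G.IsClique (T : Set (Fin 11)) → T.card < K.card)).induce
            {v : Fin 11 | col v = i}).Connected := by
  intro hcon
  obtain ⟨x, y, hx, hy, sx, sy⟩ := both i
  have hreach := hcon.preconnected ⟨x, hx⟩ ⟨y, hy⟩
  have hinv : ∀ a b : {v : Fin 11 | col v = i}, (SimpleGraph.induce {v : Fin 11 | col v = i}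
      (SimpleGraph.fromRel (fun x y : Fin 11 => ∃ K : Finset (Fin 11),
          (G ⊔ SimpleGraph.fromEdgeSet {s(x, y)}).IsClique (K : Set (Fin 11)) ∧
          ∀ T : Finset (Fin 11), G.IsClique (T : Set (Fin 11)) → T.card < K.card))).Adj a b →
      side a = side b := by
    rintro ⟨a, ha⟩ ⟨b, hb⟩ hab
    by_contra hs
    have ha' : cls a = i := ha
    have hb' : cls b = i := hb
    rw [SimpleGraph.comap_adj, SimpleGraph.fromRel_adj] at hab
    rcases hab.2 with h | h
    · exact card_lt_of_crit a b (ha'.trans hb'.symm) hs h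
    · exact card_lt_of_crit b a (hb'.trans ha'.symm) (Ne.symm hs) h
  obtain ⟨p⟩ := hreach
  have : ∀ (a b : {v : Fin 11 | col v = i}) (p : (SimpleGraph.induce {v : Fin 11 | col v = i}
      (SimpleGraph.fromRel (fun x y : Fin 11 => ∃ K : Finset (Fin 11),
          (G ⊔ SimpleGraph.fromEdgeSet {s(x, y)}).IsClique (K : Set (Fin 11)) ∧
          ∀ T : Finset (Fin 11), G.IsClique (T : Set (Fin 11)) → T.card < K.card))).Walk a b),
      side a = side b := by
    intro a b p
    induction p with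
    | nil => rfl
    | cons h _ ih => exact (hinv _ _ h).trans ih
  have := this _ _ p
  simp only [sx, sy] at this
  exact absurd this (by decide)

end H14.UC
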