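import Mathlib

namespace H14.Witt
open Polynomial

/-- The bracket `⁅f, g⁆ = X² (f g' - f' g)` on `ℚ[X]`; identifying `f` with the vector field
`X² f(X) d/dX`, this is the commutator of vector fields. -/
noncomputable def br (f g : ℚ[X]) : ℚ[X] := X ^ 2 * (f * derivative g - derivative f * g)

theorem br_add_left (f g h : ℚ[X]) : br (f + g) h = br f h + br g h := by
  simp only [br, derivative_add]; ring

theorem br_add_right (f g h : ℚ[X]) : br f (g + h) = br f g + br f h := by
  simp only [br, derivative_add]; ring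

theorem br_self (f : ℚ[X]) : br f f = 0 := by
  simp only [br]; ring

theorem br_jacobi (f g h : ℚ[X]) : br f (br g h) = br (br f g) h + br g (br f h) := by
  simp only [br, derivative_mul, derivative_sub, derivative_X_pow]
  simp
  ring

theorem br_smul (t : ℚ) (f g : ℚ[X]) : br f (t • g) = t • br f g := by
  simp only [br, smul_eq_C_mul, derivative_C_mul]
  ring

/-- The underlying vector space of the positive Witt algebra: a copy of `ℚ[X]`. -/
def W : Type := ℚ[X]

noncomputable instance : AddCommGroup W := inferInstanceAs (AddCommGroup ℚ[X])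
noncomputable instance : Module ℚ W := inferInstanceAs (Module ℚ ℚ[X])

noncomputable instance : LieRing W where
  bracket f g := br f g
  add_lie f g h := br_add_left f g h
  lie_add f g h := br_add_right f g h
  lie_self f := br_self f
  leibniz_lie f g h := br_jacobi f g h

noncomputable instance : LieAlgebra ℚ W where
  lie_smul t f g := br_smul t f g

/-- the polynomial underlying an element -/
noncomputable def toP : W →ₗ[ℚ] ℚ[X] where
  toFun f := f
  map_add' _ _ := rfl
  map_smul' _ _ := rfl

theorem toP_inj {f g : W} (h : toP f = toP g) : f = g := h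

theorem toP_lie (f g : W) : toP ⁅f, g⁆ = br (toP f) (toP g) := rfl

theorem dvd_br {n : ℕ} {f g : ℚ[X]} (hg : X ^ n ∣ g) : X ^ (n + 1) ∣ br f g := by
  obtain ⟨q, rfl⟩ := hg
  rcases n with _ | n
  · simp only [br]
    refine Dvd.dvd.mul_right ?_ _
    exact pow_dvd_pow X (by norm_num)
  · refine ⟨f * (C ((n : ℚ) + 1) * q + X * derivative q) - X * derivative f * q, ?_⟩
    simp only [br, derivative_mul, derivative_X_pow]
    simp
    ring

/-- The ideal of polynomials divisible by `X ^ n`. -/
noncomputable def fil (n : ℕ) : LieIdeal ℚ W where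
  carrier := {f | X ^ n ∣ toP f}
  add_mem' := by
    intro a b ha hb
    exact dvd_add (a := (X : ℚ[X]) ^ n) (b := toP a) (c := toP b) ha hb
  zero_mem' := dvd_zero _
  smul_mem' := by
    intro c a ha
    show X ^ n ∣ toP (c • a)
    rw [map_smul, smul_eq_C_mul]
    exact Dvd.dvd.mul_left ha _
  lie_mem := by
    intro f g hg
    show X ^ n ∣ toP ⁅f, g⁆
    rw [toP_lie]
    exact (pow_dvd_pow X (Nat.le_succ n)).trans (dvd_br hg)

theorem mem_fil {n : ℕ} {f : W} : f ∈ fil n ↔ X ^ n ∣ toP f := Iff.rfl

theorem lcs_le_fil (n : ℕ) : LieModule.lowerCentralSeries ℚ W W n ≤ fil n := by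
  induction n with
  | zero =>
    intro f _
    rw [mem_fil]; simp
  | succ n ih =>
    rw [LieModule.lowerCentralSeries_succ, LieSubmodule.lieIdeal_oper_eq_span,
      LieSubmodule.lieSpan_le]
    rintro _ ⟨⟨f, -⟩, ⟨g, hg⟩, rfl⟩
    show X ^ (n + 1) ∣ toP ⁅f, g⁆
    rw [toP_lie]
    exact dvd_br (ih hg)

theorem quot_nilpotent (n : ℕ) : LieRing.IsNilpotent (W ⧸ fil n) := by
  have h : LieModule.IsNilpotent W (W ⧸ fil n) :=
    (LieModule.isNilpotent_quotient_iff ℚ W W (fil n)).mpr ⟨n, lcs_le_fil n⟩
  simp only [LieRing.IsNilpotent, LieModule.isNilpotent_iff ℚ] at h ⊢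
  peel h with k hk
  simp [← LieSubmodule.toSubmodule_inj, ← coe_lowerCentralSeries_ideal_quot_eq, hk]

theorem resid (f : W) (hf : f ≠ 0) : ∃ I : LieIdeal ℚ W, f ∉ I ∧ LieRing.IsNilpotent (W ⧸ I) := by
  refine ⟨fil ((toP f).natDegree + 1), ?_, quot_nilpotent _⟩
  rw [mem_fil]
  intro h
  have h0 : toP f ≠ 0 := fun h0 => hf (toP_inj (by rw [h0, map_zero]))
  have := Polynomial.natDegree_le_of_dvd h h0
  rw [natDegree_X_pow] at this
  omega

/-- degree of a bracket -/
theorem natDegree_br {f g : ℚ[X]} (hf : f ≠ 0) (hg : g ≠ 0) (h : f.natDegree ≠ g.natDegree) :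
    br f g ≠ 0 ∧ (br f g).natDegree = f.natDegree + g.natDegree + 1 := by
  have hle : (br f g).natDegree ≤ f.natDegree + g.natDegree + 1 := by
    have h1 : (f * derivative g - derivative f * g).natDegree ≤ f.natDegree + g.natDegree - 1 := by
      have ha : (f * derivative g).natDegree ≤ f.natDegree + g.natDegree - 1 := by
        rcases Nat.eq_zero_or_pos g.natDegree with h0 | h0
        · rw [natDegree_eq_zero.mp h0 |>.choose_spec.symm]
          simp
        · refine natDegree_mul_le.trans ?_
          have := natDegree_derivative_le g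
          omega
      have hb : (derivative f * g).natDegree ≤ f.natDegree + g.natDegree - 1 := by
        rcases Nat.eq_zero_or_pos f.natDegree with h0 | h0
        · rw [natDegree_eq_zero.mp h0 |>.choose_spec.symm]
          simp
        · refine natDegree_mul_le.trans ?_
          have := natDegree_derivative_le f
          omega
      exact (natDegree_sub_le _ _).trans (max_le ha hb)
    refine natDegree_mul_le.trans ?_
    rw [natDegree_X_pow]
    have : 0 < f.natDegree + g.natDegree := by omega
    omega
  have hcoeff : (br f g).coeff (f.natDegree + g.natDegree + 1) =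
      ((g.natDegree : ℚ) - f.natDegree) * (f.leadingCoeff * g.leadingCoeff) := by
    have hpos : 0 < f.natDegree + g.natDegree := by omega
    have e1 : f.natDegree + g.natDegree + 1 = (f.natDegree + g.natDegree - 1) + 2 := by omega
    rw [br, e1, mul_comm (X ^ 2), coeff_mul_X_pow, coeff_sub]
    have ha : (f * derivative g).coeff (f.natDegree + g.natDegree - 1) =
        (g.natDegree : ℚ) * (f.leadingCoeff * g.leadingCoeff) := by
      rcases Nat.eq_zero_or_pos g.natDegree with h0 | h0
      · have : derivative g = 0 := by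
          obtain ⟨c, hc⟩ := natDegree_eq_zero.mp h0
          rw [← hc]; simp
        rw [this, h0]; simp
      · have : f.natDegree + g.natDegree - 1 = f.natDegree + (g.natDegree - 1) := by omega
        rw [this, coeff_mul_add_eq_of_natDegree_le le_rfl (natDegree_derivative_le g), coeff_derivative]
        have e3 : g.natDegree - 1 + 1 = g.natDegree := by omega
        rw [e3]
        have e4 : ((g.natDegree - 1 : ℕ) : ℚ) + 1 = (g.natDegree : ℚ) := by
          have := congrArg (Nat.cast (R := ℚ)) e3
          push_cast at this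
          exact this
        rw [e4]
        simp only [leadingCoeff]
        ring
    have hb : (derivative f * g).coeff (f.natDegree + g.natDegree - 1) =
        (f.natDegree : ℚ) * (f.leadingCoeff * g.leadingCoeff) := by
      rcases Nat.eq_zero_or_pos f.natDegree with h0 | h0
      · have : derivative f = 0 := by
          obtain ⟨c, hc⟩ := natDegree_eq_zero.mp h0
          rw [← hc]; simp
        rw [this, h0]; simp
      · have : f.natDegree + g.natDegree - 1 = (f.natDegree - 1) + g.natDegree := by omega
        rw [this, coeff_mul_add_eq_of_natDegree_le (natDegree_derivative_le f) le_rfl, coeff_derivative]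
        have e3 : f.natDegree - 1 + 1 = f.natDegree := by omega
        rw [e3]
        have e4 : ((f.natDegree - 1 : ℕ) : ℚ) + 1 = (f.natDegree : ℚ) := by
          have := congrArg (Nat.cast (R := ℚ)) e3
          push_cast at this
          exact this
        rw [e4]
        simp only [leadingCoeff]
        ring
    rw [ha, hb]; ring
  have hne : (br f g).coeff (f.natDegree + g.natDegree + 1) ≠ 0 := by
    rw [hcoeff]
    refine mul_ne_zero ?_ (mul_ne_zero (leadingCoeff_ne_zero.mpr hf) (leadingCoeff_ne_zero.mpr hg))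
    rw [sub_ne_zero]
    exact fun h' => h (by exact_mod_cast h'.symm)
  refine ⟨fun h0 => hne (by rw [h0]; simp), ?_⟩
  exact le_antisymm hle (le_natDegree_of_ne_zero hne)


/-- indices (degree plus one) of the nonzero elements of a subalgebra -/
def idx (H : LieSubalgebra ℚ W) : Set ℕ :=
  {n | ∃ f ∈ H, toP f ≠ 0 ∧ (toP f).natDegree + 1 = n}

theorem idx_pos {H : LieSubalgebra ℚ W} {a : ℕ} (ha : a ∈ idx H) : 0 < a := by
  obtain ⟨f, -, -, rfl⟩ := ha
  omega

theorem idx_mono {H H' : LieSubalgebra ℚ W} (h : H ≤ H') : idx H ⊆ idx H' := by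
  rintro n ⟨f, hf, h0, hn⟩
  exact ⟨f, h hf, h0, hn⟩

theorem idx_add {H : LieSubalgebra ℚ W} {a b : ℕ} (ha : a ∈ idx H) (hb : b ∈ idx H)
    (h : a ≠ b) : a + b ∈ idx H := by
  obtain ⟨f, hf, hf0, rfl⟩ := ha
  obtain ⟨g, hg, hg0, rfl⟩ := hb
  have hd := natDegree_br hf0 hg0 (fun h' => h (by rw [h']))
  refine ⟨⁅f, g⁆, H.lie_mem hf hg, ?_, ?_⟩
  · rw [toP_lie]; exact hd.1
  · rw [toP_lie, hd.2]; omega

theorem le_of_idx {H H' : LieSubalgebra ℚ W} (hle : H ≤ H') (h : idx H' ⊆ idx H) : H' ≤ H := by
  have key : ∀ n : ℕ, ∀ f ∈ H', (toP f).degree < n → f ∈ H := by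
    intro n
    induction n with
    | zero =>
      intro f _ hd
      have : toP f = 0 := by
        rw [← Polynomial.degree_eq_bot]
        rw [Nat.cast_zero] at hd
        exact Nat.WithBot.lt_zero_iff.mp hd
      have hf : f = 0 := toP_inj (by rw [this, map_zero])
      rw [hf]; exact H.zero_mem
    | succ n ih =>
      intro f hf hd
      by_cases h0 : toP f = 0
      · have hf : f = 0 := toP_inj (by rw [h0, map_zero])
        rw [hf]; exact H.zero_mem
      by_cases hlt : (toP f).degree < n
      · exact ih f hf hlt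
      have hidx : (toP f).natDegree + 1 ∈ idx H := h ⟨f, hf, h0, rfl⟩
      obtain ⟨g, hg, hg0, hgd⟩ := hidx
      have hc : (toP f).leadingCoeff / (toP g).leadingCoeff ≠ 0 :=
        div_ne_zero (leadingCoeff_ne_zero.mpr h0) (leadingCoeff_ne_zero.mpr hg0)
      set c := (toP f).leadingCoeff / (toP g).leadingCoeff with hcdef
      have hmem : f - c • g ∈ H := by
        apply ih _ (H'.sub_mem hf (H'.smul_mem c (hle hg)))
        rw [map_sub, map_smul]
        have h1 : (toP f).degree = (c • toP g).degree := by
          rw [Polynomial.degree_smul_of_isRightRegular_leadingCoeff hc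
            (IsRegular.of_ne_zero (leadingCoeff_ne_zero.mpr hg0)).right,
            degree_eq_natDegree h0, degree_eq_natDegree hg0]
          have : (toP g).natDegree = (toP f).natDegree := by omega
          rw [this]
        have h2 : (toP f).leadingCoeff = (c • toP g).leadingCoeff := by
          rw [smul_eq_C_mul, leadingCoeff_mul, leadingCoeff_C, hcdef,
            div_mul_cancel₀ _ (leadingCoeff_ne_zero.mpr hg0)]
        have h3 := Polynomial.degree_sub_lt_left h1 h0 h2
        rw [degree_eq_natDegree h0] at h3 hd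
        have h4 : (toP f).natDegree < n + 1 := by exact_mod_cast hd
        refine lt_of_lt_of_le h3 ?_
        exact_mod_cast Nat.lt_succ_iff.mp h4
      have := H.add_mem hmem (H.smul_mem c hg)
      rwa [sub_add_cancel] at this
  intro f hf
  refine key ((toP f).natDegree + 1) f hf ?_
  refine lt_of_le_of_lt Polynomial.degree_le_natDegree ?_
  exact_mod_cast Nat.lt_succ_self _

theorem noeth (H : ℕ →o LieSubalgebra ℚ W) : ∃ n, ∀ m, n ≤ m → H n = H m := by
  classical
  suffices hs : ∃ n, ∀ m, idx (H m) ⊆ idx (H n) by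
    obtain ⟨n, hn⟩ := hs
    refine ⟨n, fun m hm => le_antisymm (H.mono hm) (le_of_idx (H.mono hm) (hn m))⟩
  by_cases hne : ∃ a, ∃ m, a ∈ idx (H m)
  swap
  · refine ⟨0, fun m a ha => (hne ⟨a, m, ha⟩).elim⟩
  set a := Nat.find hne with hadef
  obtain ⟨ma, hma⟩ := Nat.find_spec hne
  rw [← hadef] at hma
  have hapos : 0 < a := idx_pos hma
  have hmin : ∀ c m, c ∈ idx (H m) → a ≤ c := fun c m hc => Nat.find_min' hne ⟨m, hc⟩
  -- minimal elements in residue classes
  have hres : ∀ r : ℕ, ∃ nr : ℕ, ∀ c m, c ∈ idx (H m) → c ≠ a → c % a = r →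
      ∃ b ∈ idx (H nr), b ≠ a ∧ b ≤ c ∧ b % a = r := by
    intro r
    by_cases hr : ∃ b, b ≠ a ∧ b % a = r ∧ ∃ m, b ∈ idx (H m)
    · obtain ⟨h1, h2, nr, h3⟩ := Nat.find_spec hr
      refine ⟨nr, fun c m hc hca hcr => ⟨Nat.find hr, h3, h1, ?_, h2⟩⟩
      exact Nat.find_min' hr ⟨hca, hcr, m, hc⟩
    · refine ⟨0, fun c m hc hca hcr => (hr ⟨c, hca, hcr, m, hc⟩).elim⟩
  choose nr hnr using hres
  set N := max ma ((Finset.range a).sup nr) with hN
  refine ⟨N, fun m c hc => ?_⟩
  have haN : a ∈ idx (H N) := idx_mono (H.mono (le_max_left _ _)) hma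
  by_cases hca : c = a
  · rw [hca]; exact haN
  obtain ⟨b, hb, hba, hbc, hbr⟩ := hnr (c % a) c m hc hca rfl
  have hle : nr (c % a) ≤ N :=
    le_trans (Finset.le_sup (f := nr) (Finset.mem_range.mpr (Nat.mod_lt _ hapos)))
      (le_max_right _ _)
  have hbN : b ∈ idx (H N) := idx_mono (H.mono hle) hb
  have hab : a < b := lt_of_le_of_ne (hmin b _ hbN) (Ne.symm hba)
  have hiter : ∀ t : ℕ, b + t * a ∈ idx (H N) := by
    intro t
    induction t with
    | zero => simpa using hbN
    | succ t ih =>
      have : b + (t + 1) * a = (b + t * a) + a := by ring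
      rw [this]
      exact idx_add ih haN (by have := Nat.zero_le (t * a); omega)
  obtain ⟨t, ht⟩ : ∃ t, c = b + t * a := by
    have h1 : a ∣ c - b := (Nat.modEq_iff_dvd' hbc).mp hbr
    obtain ⟨t, ht⟩ := h1
    refine ⟨t, ?_⟩
    rw [mul_comm t a, ← ht]; omega
  rw [ht]; exact hiter t

theorem infdim : ¬ Module.Finite ℚ W := by
  intro h
  have : Module.Finite ℚ ℚ[X] := h
  exact Polynomial.not_finite this

end H14.Witt
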